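import Pool.Agent.H74.Sph.W2
import Mathlib

/-!
The map `psi ∘ psi` of the wedge of two spheres is homotopic relative to the base point to the
doubling.
-/

open Topology unitInterval Set

namespace Pool.H74

namespace W2

open GenLoop

/-- The standard loops: the two spheres. -/
def gl (i : Bool) : GenLoop (Fin 2) W2 pt :=
  ⟨⟨fun y => mk (((((y 0 : I) : ℝ) : KK), i), y 1), by
    refine mk.continuous.comp ?_
    exact (((AddCircle.continuous_mk' (1 : ℝ)).comp (by fun_prop)).prodMk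
      continuous_const).prodMk (by fun_prop)⟩, by
    rintro y ⟨j, hj⟩
    fin_cases j
    · change mk (((((y 0 : I) : ℝ) : KK), i), y 1) = pt
      rcases hj with hj | hj
      · have : y 0 = 0 := hj
        rw [this]
        simp
      · have : y 0 = 1 := hj
        rw [this]
        have h1 : (((1 : I) : ℝ) : KK) = 0 := AddCircle.coe_period (1 : ℝ)
        rw [h1]
        simp
    · change mk (((((y 0 : I) : ℝ) : KK), i), y 1) = pt
      rcases hj with hj | hj
      · have : y 1 = 0 := hj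
        rw [this]
        simp
      · have : y 1 = 1 := hj
        rw [this]
        simp⟩

theorem gl_apply (i : Bool) (y : Fin 2 → I) : gl i y = mk (((((y 0 : I) : ℝ) : KK), i), y 1) := rfl

theorem psi_mk_le (k : KK) (i : Bool) (t : I) (ht : (t : ℝ) ≤ 1 / 2) :
    psi (mk ((k, i), t)) = mk ((k, false), projIcc 0 1 zero_le_one (2 * (t : ℝ))) := by
  rw [psi, cat_mk, Fam.cat_of_le ht]
  rfl

theorem psi_mk_gt (k : KK) (i : Bool) (t : I) (ht : ¬ (t : ℝ) ≤ 1 / 2) :
    psi (mk ((k, i), t)) =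
      mk ((if i then -k else k, true), projIcc 0 1 zero_le_one (2 * (t : ℝ) - 1)) := by
  rw [psi, cat_mk, Fam.cat_of_gt ht]
  rfl

/-- The loops given by a pointed self-map. -/
def glc (f : C(W2, W2)) (hf : f pt = pt) (i : Bool) : GenLoop (Fin 2) W2 pt :=
  ⟨f.comp (gl i).1, by
    intro y hy
    change f (gl i y) = pt
    have h1 : gl i y = pt := (gl i).2 y hy
    rw [h1, hf]⟩

theorem glc_apply (f : C(W2, W2)) (hf : f pt = pt) (i : Bool) (y : Fin 2 → I) :
    glc f hf i y = f (mk (((((y 0 : I) : ℝ) : KK), i), y 1)) := rfl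

theorem transAt_apply (i : Fin 2) (f g : GenLoop (Fin 2) W2 pt) (t : Fin 2 → I) :
    transAt i f g t = if (t i : ℝ) ≤ 1 / 2
      then f (Function.update t i <| Set.projIcc 0 1 zero_le_one (2 * t i))
      else g (Function.update t i <| Set.projIcc 0 1 zero_le_one (2 * t i - 1)) := rfl

theorem symmAt_apply (i : Fin 2) (f : GenLoop (Fin 2) W2 pt) (t : Fin 2 → I) :
    symmAt i f t = f fun j ↦ if j = i then σ (t i) else t j := rfl

theorem gl_symm (i : Bool) (t : Fin 2 → I) :
    symmAt 0 (gl i) t = mk ((-(((t 0 : I) : ℝ) : KK), i), t 1) := by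
  rw [symmAt_apply, gl_apply]
  have h1 : (((σ (t 0) : I) : ℝ) : KK) = -(((t 0 : I) : ℝ) : KK) := by
    rw [unitInterval.coe_symm_eq]
    have := AddCircle.coe_period (1 : ℝ)
    rw [sub_eq_add_neg, AddCircle.coe_add, this, AddCircle.coe_neg, zero_add]
  have h2 : ((fun j : Fin 2 => if j = 0 then σ (t j) else t j) 0) = σ (t 0) := rfl
  have h3 : ((fun j : Fin 2 => if j = 0 then σ (t j) else t j) 1) = t 1 := rfl
  change mk (((((σ (t 0) : I) : ℝ) : KK), i), t 1) = _
  rw [h1]

theorem psipsi_false : glc (psi.comp psi) (by simp) false =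
    transAt 1 (transAt 1 (gl false) (gl true)) (transAt 1 (gl false) (symmAt 0 (gl true))) := by
  apply GenLoop.ext
  intro y
  rw [glc_apply, ContinuousMap.comp_apply, transAt_apply]
  by_cases h1 : (y 1 : ℝ) ≤ 1 / 2
  · rw [if_pos h1, psi_mk_le _ _ _ h1, transAt_apply]
    by_cases h2 : ((projIcc 0 1 zero_le_one (2 * (y 1 : ℝ)) : I) : ℝ) ≤ 1 / 2
    · rw [psi_mk_le _ _ _ h2, Function.update_self, if_pos h2]
      simp [gl_apply]
    · rw [psi_mk_gt _ _ _ h2, Function.update_self, if_neg h2]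
      simp [gl_apply]
  · rw [if_neg h1, psi_mk_gt _ _ _ h1, transAt_apply]
    by_cases h2 : ((projIcc 0 1 zero_le_one (2 * (y 1 : ℝ) - 1) : I) : ℝ) ≤ 1 / 2
    · rw [psi_mk_le _ _ _ h2, Function.update_self, if_pos h2]
      simp [gl_apply]
    · rw [psi_mk_gt _ _ _ h2, Function.update_self, if_neg h2]
      simp [gl_symm]

theorem psipsi_true : glc (psi.comp psi) (by simp) true =
    transAt 1 (transAt 1 (gl false) (gl true)) (transAt 1 (symmAt 0 (gl false)) (gl true)) := by
  apply GenLoop.ext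
  intro y
  rw [glc_apply, ContinuousMap.comp_apply, transAt_apply]
  by_cases h1 : (y 1 : ℝ) ≤ 1 / 2
  · rw [if_pos h1, psi_mk_le _ _ _ h1, transAt_apply]
    by_cases h2 : ((projIcc 0 1 zero_le_one (2 * (y 1 : ℝ)) : I) : ℝ) ≤ 1 / 2
    · rw [psi_mk_le _ _ _ h2, Function.update_self, if_pos h2]
      simp [gl_apply]
    · rw [psi_mk_gt _ _ _ h2, Function.update_self, if_neg h2]
      simp [gl_apply]
  · rw [if_neg h1, psi_mk_gt _ _ _ h1, transAt_apply]
    by_cases h2 : ((projIcc 0 1 zero_le_one (2 * (y 1 : ℝ) - 1) : I) : ℝ) ≤ 1 / 2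
    · rw [psi_mk_le _ _ _ h2, Function.update_self, if_pos h2]
      simp [gl_symm]
    · rw [psi_mk_gt _ _ _ h2, Function.update_self, if_neg h2]
      simp [gl_apply]

theorem dbl_gl (i : Bool) : glc dbl (by simp) i = transAt 0 (gl i) (gl i) := by
  apply GenLoop.ext
  intro y
  rw [glc_apply, transAt_apply]
  have hd : dbl (mk (((((y 0 : I) : ℝ) : KK), i), y 1)) =
      mk ((((((y 0 : I) : ℝ) + ((y 0 : I) : ℝ) : ℝ) : KK), i), y 1) := by
    simp [dbl]
  rw [hd]
  by_cases h : (y 0 : ℝ) ≤ 1 / 2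
  · rw [if_pos h, gl_apply]
    have hp : ((projIcc 0 1 zero_le_one (2 * (y 0 : ℝ)) : I) : ℝ) = (y 0 : ℝ) + (y 0 : ℝ) := by
      rw [projIcc_of_mem _ ⟨by have := (y 0).2.1; linarith, by linarith⟩]
      ring
    simp [hp]
  · rw [if_neg h, gl_apply]
    have hp : ((projIcc 0 1 zero_le_one (2 * (y 0 : ℝ) - 1) : I) : ℝ) =
        (y 0 : ℝ) + (y 0 : ℝ) - 1 := by
      rw [projIcc_of_mem _ ⟨by linarith, by have := (y 0).2.2; linarith⟩]
      ring
    have := AddCircle.coe_period (1 : ℝ)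
    simp [hp, this]

theorem grp1 {G : Type} [CommGroup G] (a b : G) : b⁻¹ * a * (b * a) = a * a := by
  rw [mul_comm b⁻¹ a, mul_assoc, inv_mul_cancel_left]

theorem grp2 {G : Type} [CommGroup G] (a b : G) : b * a⁻¹ * (b * a) = b * b := by
  rw [mul_comm b a, mul_assoc, inv_mul_cancel_left]

theorem homotopic (i : Bool) : GenLoop.Homotopic (glc (psi.comp psi) (by simp) i)
    (glc dbl (by simp) i) := by
  apply Quotient.exact (s := GenLoop.Homotopic.setoid (Fin 2) pt)
  cases i
  · rw [psipsi_false, dbl_gl, ← HomotopyGroup.mul_spec, ← HomotopyGroup.mul_spec,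
      ← HomotopyGroup.mul_spec, ← HomotopyGroup.mul_spec, ← HomotopyGroup.inv_spec]
    exact grp1 (G := HomotopyGroup (Fin 2) W2 pt) ⟦gl false⟧ ⟦gl true⟧
  · rw [psipsi_true, dbl_gl, ← HomotopyGroup.mul_spec, ← HomotopyGroup.mul_spec,
      ← HomotopyGroup.mul_spec, ← HomotopyGroup.mul_spec, ← HomotopyGroup.inv_spec]
    exact grp2 (G := HomotopyGroup (Fin 2) W2 pt) ⟦gl false⟧ ⟦gl true⟧

/-- Descend a homotopy. -/
theorem exists_lift (f g : C(W2, W2)) (hf : f pt = pt) (hg : g pt = pt)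
    (h : ∀ i, GenLoop.Homotopic (glc f hf i) (glc g hg i)) :
    ∃ α : C(W2 × I, W2), (∀ w, α (w, 0) = f w) ∧ (∀ w, α (w, 1) = g w) ∧
      ∀ t, α (pt, t) = pt := by
  have H : ∀ i, ((glc f hf i).1).HomotopyRel (glc g hg i).1 (Cube.boundary (Fin 2)) :=
    fun i => (h i).some
  have hbd : ∀ i s y, y ∈ Cube.boundary (Fin 2) → H i (s, y) = pt := by
    intro i s y hy
    rw [(H i).eq_fst s hy]
    exact (glc f hf i).2 y hy
  -- the curried family
  let c : Bool → C(ℝ, C(I × I, W2)) := fun i => ContinuousMap.curry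
    ⟨fun p : ℝ × (I × I) => H i (p.2.2, ![projIcc 0 1 zero_le_one p.1, p.2.1]), by
      refine (H i).continuous.comp ?_
      refine (by fun_prop : Continuous fun p : ℝ × (I × I) => p.2.2).prodMk ?_
      refine continuous_pi ?_
      intro j
      fin_cases j
      · exact (continuous_projIcc (h := zero_le_one)).comp continuous_fst
      · exact (by fun_prop : Continuous fun p : ℝ × (I × I) => p.2.1)⟩
  have hc : ∀ i x t s, c i x (t, s) = H i (s, ![projIcc 0 1 zero_le_one x, t]) :=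
    fun i x t s => rfl
  have hc01 : ∀ i, c i 0 = c i 1 := by
    intro i
    ext ⟨t, s⟩
    rw [hc, hc, hbd i s _ ⟨0, Or.inl (by simp)⟩, hbd i s _ ⟨0, Or.inr (by simp)⟩]
  let L : Bool → C(KK, C(I × I, W2)) := fun i =>
    ⟨AddCircle.liftIco 1 0 (c i), AddCircle.liftIco_zero_continuous (hc01 i)
      (c i).continuous.continuousOn⟩
  have hL : ∀ i (x : I) t s, x ≠ 1 → L i (((x : I) : ℝ) : KK) (t, s) = H i (s, ![x, t]) := by
    intro i x t s hx
    have hx1 : (x : ℝ) ∈ Ico (0 : ℝ) 1 := ⟨x.2.1, lt_of_le_of_ne x.2.2 (fun e => hx (Subtype.ext e))⟩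
    change AddCircle.liftIco 1 0 (c i) _ (t, s) = _
    rw [AddCircle.liftIco_zero_coe_apply hx1, hc]
    simp
  have hLk : ∀ i (k : KK) t s, ∃ x : I, (((x : I) : ℝ) : KK) = k ∧
      L i k (t, s) = H i (s, ![x, t]) := by
    intro i k t s
    obtain ⟨x, hx, rfl⟩ := AddCircle.coe_image_Ico_eq (1 : ℝ) 0 ▸ Set.mem_univ k
    rw [zero_add] at hx
    exact ⟨⟨x, hx.1, hx.2.le⟩, rfl, hL i ⟨x, hx.1, hx.2.le⟩ t s
      (fun e => hx.2.ne (congrArg Subtype.val e))⟩
  have hLc : Continuous fun p : Bool × KK => L p.1 p.2 := by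
    rw [continuous_prod_of_discrete_left]
    intro i
    exact (L i).continuous
  let q : C((KK × Bool) × I, C(I, W2)) := ContinuousMap.curry
    ⟨fun p : ((KK × Bool) × I) × I => L p.1.1.2 p.1.1.1 (p.1.2, p.2), by
      refine Continuous.eval (F := C(I × I, W2)) ?_ ?_
      · exact hLc.comp
          (by fun_prop : Continuous fun p : ((KK × Bool) × I) × I => (p.1.1.2, p.1.1.1))
      · fun_prop⟩
  have hq : ∀ k i t s, q ((k, i), t) s = L i k (t, s) := fun k i t s => rfl
  have hqb : ∀ p, W2Base p → q p = ContinuousMap.const I pt := by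
    rintro ⟨⟨k, i⟩, t⟩ hb
    ext s
    rw [hq]
    change _ = pt
    rcases hb with h | h | h
    · obtain rfl : k = 0 := h
      have h0 : (((0 : I) : ℝ) : KK) = 0 := by simp
      rw [← h0, hL i 0 t s (by simp)]
      exact hbd _ _ _ ⟨0, Or.inl rfl⟩
    · obtain rfl : t = 0 := h
      obtain ⟨x, rfl, hx⟩ := hLk i k 0 s
      rw [hx]
      exact hbd _ _ _ ⟨1, Or.inl rfl⟩
    · obtain rfl : t = 1 := h
      obtain ⟨x, rfl, hx⟩ := hLk i k 1 s
      rw [hx]
      exact hbd _ _ _ ⟨1, Or.inr rfl⟩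
  let d : C(W2, C(I, W2)) := desc q (ContinuousMap.const I pt) hqb
  have hd : ∀ k i t s, d (mk ((k, i), t)) s = L i k (t, s) := fun k i t s => rfl
  have hdpt : ∀ s, d pt s = pt := by
    intro s
    change desc q (ContinuousMap.const I pt) hqb pt s = pt
    rw [desc_pt]
    rfl
  refine ⟨d.uncurry, ?_, ?_, ?_⟩
  · intro w
    change d w 0 = f w
    induction w using ind with
    | h k i t =>
      rw [hd]
      obtain ⟨x, rfl, hx⟩ := hLk i k t 0
      rw [hx, (H i).apply_zero]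
      rfl
  · intro w
    change d w 1 = g w
    induction w using ind with
    | h k i t =>
      rw [hd]
      obtain ⟨x, rfl, hx⟩ := hLk i k t 1
      rw [hx, (H i).apply_one]
      rfl
  · intro t
    exact hdpt t

theorem exists_alpha : ∃ α : C(W2 × I, W2), (∀ w, α (w, 0) = W2.psi (W2.psi w)) ∧
    (∀ w, α (w, 1) = W2.dbl w) ∧ ∀ t, α (W2.pt, t) = W2.pt :=
  exists_lift (psi.comp psi) dbl (by simp) (by simp) homotopic

end W2

end Pool.H74
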