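import Pool.Agent.H74.Sph.W2
import Mathlib

/-! Finite cell structures with cubical characteristic maps, and their conversion to CW complexes. -/

open Topology unitInterval Set

namespace Pool.H74

/-- A finite cell structure with cubical characteristic maps. -/
structure FCW (X : Type) [TopologicalSpace X] where
  cell : ℕ → Type
  finite_cell : ∀ n, Finite (cell n)
  dim : ℕ
  isEmpty_cell : ∀ n, dim < n → IsEmpty (cell n)
  chr : ∀ n, cell n → C(Fin n → I, X)
  deg : X → ℕ
  deg_chr : ∀ n (c : cell n) (p : Fin n → I), (∀ i, p i ≠ 0 ∧ p i ≠ 1) → deg (chr n c p) = n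
  deg_bdry : ∀ n (c : cell n) (p : Fin n → I), ¬ (∀ i, p i ≠ 0 ∧ p i ≠ 1) → deg (chr n c p) < n
  inj : ∀ n (c c' : cell n) (p p' : Fin n → I), (∀ i, p i ≠ 0 ∧ p i ≠ 1) →
    (∀ i, p' i ≠ 0 ∧ p' i ≠ 1) → chr n c p = chr n c' p' → c = c' ∧ p = p'
  surj : ∀ x, ∃ (c : cell (deg x)) (p : Fin (deg x) → I), (∀ i, p i ≠ 0 ∧ p i ≠ 1) ∧
    chr (deg x) c p = x

namespace FCW

theorem deg_le {X : Type} [TopologicalSpace X] (F : FCW X) (n : ℕ) (c : F.cell n)
    (p : Fin n → I) : F.deg (F.chr n c p) ≤ n := by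
  by_cases h : ∀ i, p i ≠ 0 ∧ p i ≠ 1
  · exact (F.deg_chr n c p h).le
  · exact (F.deg_bdry n c p h).le

section ZCpart

variable {A W : Type} [TopologicalSpace A] [TopologicalSpace W] {a b : C(W, A)}
    (FA : FCW A) (FW : FCW W)

/-- The cells of the handles. -/
def predCell : ℕ → Type
  | 0 => Empty
  | n + 1 => FW.cell n

/-- The characteristic maps of the cells of the handles. -/
def predChr (a b : C(W, A)) : ∀ n, predCell FW n → C(Fin n → I, ZC a b)
  | 0, e => e.elim
  | n + 1, c => (ZC.hdl a b).comp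
      ⟨fun p => (FW.chr n c (fun i => p i.succ), p 0), by fun_prop⟩

@[simp] theorem predChr_succ (n : ℕ) (c : FW.cell n) (p : Fin (n + 1) → I) :
    predChr FW a b (n + 1) c p = ZC.hdl a b (FW.chr n c (fun i => p i.succ), p 0) := rfl

theorem interior_succ {n : ℕ} {p : Fin (n + 1) → I} : (∀ i, p i ≠ 0 ∧ p i ≠ 1) ↔
    (p 0 ≠ 0 ∧ p 0 ≠ 1) ∧ ∀ i : Fin n, p i.succ ≠ 0 ∧ p i.succ ≠ 1 :=
  Fin.forall_fin_succ

/-- The degree on a homotopy coequalizer. -/
noncomputable def zcDeg (z : ZC a b) : ℕ := Sum.elim FA.deg (fun p => FW.deg p.1 + 1) (ZC.nf z)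

@[simp] theorem zcDeg_inA (x : A) : zcDeg FA FW (ZC.inA a b x) = FA.deg x := rfl

theorem zcDeg_hdl {w : W} {t : I} (h0 : t ≠ 0) (h1 : t ≠ 1) :
    zcDeg FA FW (ZC.hdl a b (w, t)) = FW.deg w + 1 := by
  rw [zcDeg, ZC.nf_hdl h0 h1]; rfl

/-- The cell structure of a homotopy coequalizer. -/
noncomputable def zc (ha : ∀ w, FA.deg (a w) ≤ FW.deg w)
    (hb : ∀ w, FA.deg (b w) ≤ FW.deg w) : FCW (ZC a b) where
  cell n := FA.cell n ⊕ predCell FW n
  finite_cell n := by
    have := FA.finite_cell n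
    have : Finite (predCell FW n) := by
      cases n with
      | zero => exact inferInstanceAs (Finite Empty)
      | succ n => exact FW.finite_cell n
    infer_instance
  dim := max FA.dim (FW.dim + 1)
  isEmpty_cell n hn := by
    have := FA.isEmpty_cell n (by omega)
    have : IsEmpty (predCell FW n) := by
      cases n with
      | zero => exact inferInstanceAs (IsEmpty Empty)
      | succ n => exact FW.isEmpty_cell n (by omega)
    infer_instance
  chr n := Sum.elim (fun c => (ZC.inA a b).comp (FA.chr n c)) (predChr FW a b n)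
  deg := zcDeg FA FW
  deg_chr n c p hp := by
    rcases c with c | c
    · exact FA.deg_chr n c p hp
    · cases n with
      | zero => exact c.elim
      | succ n =>
        rw [interior_succ] at hp
        change zcDeg FA FW (ZC.hdl a b (FW.chr n c (fun i => p i.succ), p 0)) = n + 1
        rw [zcDeg_hdl _ _ hp.1.1 hp.1.2, FW.deg_chr n c _ hp.2]
  deg_bdry n c p hp := by
    rcases c with c | c
    · exact FA.deg_bdry n c p hp
    · cases n with
      | zero => exact c.elim
      | succ n =>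
        change zcDeg FA FW (ZC.hdl a b (FW.chr n c (fun i => p i.succ), p 0)) < n + 1
        by_cases h0 : p 0 = 0
        · rw [h0, ZC.hdl_zero, zcDeg_inA]
          have h1 := ha (FW.chr n c (fun i => p i.succ))
          have h2 := FW.deg_le n c (fun i => p i.succ)
          omega
        by_cases h1 : p 0 = 1
        · rw [h1, ZC.hdl_one, zcDeg_inA]
          have h1 := hb (FW.chr n c (fun i => p i.succ))
          have h2 := FW.deg_le n c (fun i => p i.succ)
          omega
        rw [zcDeg_hdl _ _ h0 h1]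
        rw [interior_succ] at hp
        have := FW.deg_bdry n c (fun i => p i.succ) (fun h => hp ⟨⟨h0, h1⟩, h⟩)
        omega
  inj n c c' p p' hp hp' h := by
    rcases c with c | c <;> rcases c' with c' | c'
    · obtain ⟨rfl, rfl⟩ := FA.inj n c c' p p' hp hp' (ZC.inA_injective h)
      exact ⟨rfl, rfl⟩
    · cases n with
      | zero => exact c'.elim
      | succ n =>
        rw [interior_succ] at hp'
        exact absurd h.symm (ZC.hdl_ne_inA hp'.1.1 hp'.1.2 _)
    · cases n with
      | zero => exact c.elim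
      | succ n =>
        rw [interior_succ] at hp
        exact absurd h (ZC.hdl_ne_inA hp.1.1 hp.1.2 _)
    · cases n with
      | zero => exact c.elim
      | succ n =>
        rw [interior_succ] at hp hp'
        obtain ⟨h1, h2⟩ := ZC.hdl_inj hp.1.1 hp.1.2 h
        obtain ⟨h3, h4⟩ := FW.inj n c c' _ _ hp.2 hp'.2 h1
        refine ⟨congrArg Sum.inr h3, ?_⟩
        ext i
        refine Fin.cases ?_ (fun i => ?_) i
        · exact congrArg Subtype.val h2
        · exact congrArg Subtype.val (congrFun h4 i)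
  surj z := by
    rcases ZC.cases_pt z with ⟨x, rfl⟩ | ⟨w, t, h0, h1, rfl⟩
    · obtain ⟨c, p, hp, e⟩ := FA.surj x
      exact ⟨.inl c, p, hp, congrArg (ZC.inA a b) e⟩
    · obtain ⟨c, p, hp, e⟩ := FW.surj w
      rw [zcDeg_hdl FA FW h0 h1]
      refine ⟨.inr c, Fin.cons t p, ?_, ?_⟩
      · rw [interior_succ]
        exact ⟨⟨h0, h1⟩, hp⟩
      · change ZC.hdl a b (FW.chr _ c p, t) = _
        rw [e]

theorem exists_zc
    (ha : ∀ w, FA.deg (a w) ≤ FW.deg w)
    (hb : ∀ w, FA.deg (b w) ≤ FW.deg w) :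
    ∃ F : FCW (ZC a b), (∀ x, F.deg (ZC.inA a b x) = FA.deg x) ∧
      ∀ w t, t ≠ 0 → t ≠ 1 → F.deg (ZC.hdl a b (w, t)) = FW.deg w + 1 :=
  ⟨zc FA FW ha hb, fun _ => rfl, fun _ _ h0 h1 => zcDeg_hdl FA FW h0 h1⟩

end ZCpart

theorem exists_sum {A B : Type} [TopologicalSpace A] [TopologicalSpace B] (FA : FCW A)
    (FB : FCW B) : ∃ F : FCW (A ⊕ B), (∀ x, F.deg (.inl x) = FA.deg x) ∧
      ∀ x, F.deg (.inr x) = FB.deg x := by
  refine ⟨{
    cell := fun n => FA.cell n ⊕ FB.cell n
    finite_cell := fun n => by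
      have := FA.finite_cell n
      have := FB.finite_cell n
      infer_instance
    dim := max FA.dim FB.dim
    isEmpty_cell := fun n hn => by
      have := FA.isEmpty_cell n (by omega)
      have := FB.isEmpty_cell n (by omega)
      infer_instance
    chr := fun n => Sum.elim (fun c => ⟨fun p => .inl (FA.chr n c p), by fun_prop⟩)
      (fun c => ⟨fun p => .inr (FB.chr n c p), by fun_prop⟩)
    deg := Sum.elim FA.deg FB.deg
    deg_chr := ?_
    deg_bdry := ?_
    inj := ?_
    surj := ?_ }, fun _ => rfl, fun _ => rfl⟩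
  · rintro n (c | c) p hp
    · exact FA.deg_chr n c p hp
    · exact FB.deg_chr n c p hp
  · rintro n (c | c) p hp
    · exact FA.deg_bdry n c p hp
    · exact FB.deg_bdry n c p hp
  · rintro n (c | c) (c' | c') p p' hp hp' h
    · obtain ⟨rfl, rfl⟩ := FA.inj n c c' p p' hp hp' (Sum.inl_injective h)
      exact ⟨rfl, rfl⟩
    · simp at h
    · simp at h
    · obtain ⟨rfl, rfl⟩ := FB.inj n c c' p p' hp hp' (Sum.inr_injective h)
      exact ⟨rfl, rfl⟩
  · rintro (x | x)
    · obtain ⟨c, p, hp, e⟩ := FA.surj x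
      exact ⟨.inl c, p, hp, congrArg Sum.inl e⟩
    · obtain ⟨c, p, hp, e⟩ := FB.surj x
      exact ⟨.inr c, p, hp, congrArg Sum.inr e⟩

theorem exists_prod_discrete {A S : Type} [TopologicalSpace A] [TopologicalSpace S]
    [DiscreteTopology S] [Finite S] (FA : FCW A) :
    ∃ F : FCW (A × S), ∀ x s, F.deg (x, s) = FA.deg x := by
  refine ⟨{
    cell := fun n => FA.cell n × S
    finite_cell := fun n => by
      have := FA.finite_cell n
      infer_instance
    dim := FA.dim
    isEmpty_cell := fun n hn => by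
      have := FA.isEmpty_cell n (by omega)
      infer_instance
    chr := fun n c => ⟨fun p => (FA.chr n c.1 p, c.2), by fun_prop⟩
    deg := fun x => FA.deg x.1
    deg_chr := ?_
    deg_bdry := ?_
    inj := ?_
    surj := ?_ }, fun _ _ => rfl⟩
  · rintro n c p hp
    exact FA.deg_chr n c.1 p hp
  · rintro n c p hp
    exact FA.deg_bdry n c.1 p hp
  · rintro n ⟨c, s⟩ ⟨c', s'⟩ p p' hp hp' h
    have h' : (FA.chr n c p, s) = (FA.chr n c' p', s') := h
    rw [Prod.mk.injEq] at h'
    obtain ⟨rfl, rfl⟩ := FA.inj n c c' p p' hp hp' h'.1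
    obtain rfl := h'.2
    exact ⟨rfl, rfl⟩
  · rintro ⟨x, s⟩
    obtain ⟨c, p, hp, e⟩ := FA.surj x
    exact ⟨(c, s), p, hp, Prod.ext e rfl⟩

/-- The cells of a discrete space. -/
def dCell (S : Type) : ℕ → Type
  | 0 => S
  | _ + 1 => Empty

/-- The characteristic maps of a discrete space. -/
def dChr (S : Type) [TopologicalSpace S] : ∀ n, dCell S n → C(Fin n → I, S)
  | 0, s => .const _ s
  | _ + 1, e => e.elim

theorem exists_discrete {S : Type} [TopologicalSpace S] [DiscreteTopology S] [Finite S] :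
    ∃ F : FCW S, ∀ s, F.deg s = 0 := by
  refine ⟨{
    cell := dCell S
    finite_cell := fun n => by
      cases n with
      | zero => exact inferInstanceAs (Finite S)
      | succ n => exact inferInstanceAs (Finite Empty)
    dim := 0
    isEmpty_cell := fun n hn => by
      cases n with
      | zero => omega
      | succ n => exact inferInstanceAs (IsEmpty Empty)
    chr := dChr S
    deg := fun _ => 0
    deg_chr := ?_
    deg_bdry := ?_
    inj := ?_
    surj := ?_ }, fun _ => rfl⟩
  · rintro n c p hp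
    cases n with
    | zero => rfl
    | succ n => exact c.elim
  · rintro n c p hp
    cases n with
    | zero => exact absurd (fun i => i.elim0) hp
    | succ n => exact c.elim
  · rintro n c c' p p' hp hp' h
    cases n with
    | zero => exact ⟨h, Subsingleton.elim _ _⟩
    | succ n => exact c.elim
  · intro x
    exact ⟨x, fun i => i.elim0, fun i => i.elim0, rfl⟩

/-- The cells of the circle. -/
def cCell : ℕ → Type
  | 0 => Unit
  | 1 => Unit
  | _ + 2 => Empty

/-- The characteristic maps of the circle. -/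
def cChr : ∀ n, cCell n → C(Fin n → I, AddCircle (1 : ℝ))
  | 0, _ => .const _ 0
  | 1, _ => ⟨fun p => (((p 0 : I) : ℝ) : AddCircle (1 : ℝ)), by
      exact (AddCircle.continuous_mk' 1).comp (by fun_prop)⟩
  | _ + 2, e => e.elim

@[simp] theorem cChr_one (c : cCell 1) (p : Fin 1 → I) :
    cChr 1 c p = (((p 0 : I) : ℝ) : AddCircle (1 : ℝ)) := rfl

@[simp] theorem cChr_zero (c : cCell 0) (p : Fin 0 → I) :
    cChr 0 c p = 0 := rfl

theorem exists_rep (x : AddCircle (1 : ℝ)) : ∃ t : I, t ≠ 1 ∧ ((t : ℝ) : AddCircle (1 : ℝ)) = x := by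
  have h := AddCircle.coe_image_Ico_eq (1 : ℝ) 0
  have hx : x ∈ (QuotientAddGroup.mk '' Ico (0 : ℝ) (0 + 1) : Set (AddCircle (1 : ℝ))) := by
    rw [h]; trivial
  obtain ⟨t, ⟨h0, h1⟩, rfl⟩ := hx
  rw [zero_add] at h1
  exact ⟨⟨t, h0, h1.le⟩, fun e => h1.ne (congrArg Subtype.val e), rfl⟩

theorem coe_eq_coe {s t : I} (hs : s ≠ 1) (ht : t ≠ 1)
    (h : ((s : ℝ) : AddCircle (1 : ℝ)) = ((t : ℝ) : AddCircle (1 : ℝ))) : s = t := by
  have h' := (AddCircle.coe_eq_coe_iff_of_mem_Ico (p := (1 : ℝ)) (a := 0)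
    (x := (s : ℝ)) (y := (t : ℝ)) ⟨s.2.1, by
      rw [zero_add]
      exact lt_of_le_of_ne s.2.2 (fun e => hs (Subtype.ext e))⟩ ⟨t.2.1, by
      rw [zero_add]
      exact lt_of_le_of_ne t.2.2 (fun e => ht (Subtype.ext e))⟩).1 h
  exact Subtype.ext h'

theorem coe_ne_zero {s : I} (hs : s ≠ 0) (hs' : s ≠ 1) : ((s : ℝ) : AddCircle (1 : ℝ)) ≠ 0 := by
  intro h
  apply hs
  apply coe_eq_coe hs' zero_ne_one
  rw [h]; simp

open Classical in
theorem exists_circle : ∃ F : FCW (AddCircle (1 : ℝ)), F.deg 0 = 0 ∧ ∀ x, x ≠ 0 → F.deg x = 1 := by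
  have hi : ∀ (p : Fin 1 → I), (∀ i, p i ≠ 0 ∧ p i ≠ 1) ↔ p 0 ≠ 0 ∧ p 0 ≠ 1 := by
    intro p
    exact Unique.forall_iff
  refine ⟨{
    cell := cCell
    finite_cell := fun n => by
      rcases n with _ | _ | n
      · exact inferInstanceAs (Finite Unit)
      · exact inferInstanceAs (Finite Unit)
      · exact inferInstanceAs (Finite Empty)
    dim := 1
    isEmpty_cell := fun n hn => by
      rcases n with _ | _ | n
      · omega
      · omega
      · exact inferInstanceAs (IsEmpty Empty)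
    chr := cChr
    deg := fun x => if x = 0 then 0 else 1
    deg_chr := ?_
    deg_bdry := ?_
    inj := ?_
    surj := ?_ }, by simp, fun x hx => by simp [hx]⟩
  · rintro n c p hp
    rcases n with _ | _ | n
    · simp
    · have hp' := (hi p).1 hp
      rw [zero_add] at *
      rw [cChr_one, if_neg (coe_ne_zero hp'.1 hp'.2)]
    · exact c.elim
  · rintro n c p hp
    rcases n with _ | _ | n
    · exact absurd (fun i => i.elim0) hp
    · have hp' : ¬ (p 0 ≠ 0 ∧ p 0 ≠ 1) := fun h => hp ((hi p).2 h)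
      have : p 0 = 0 ∨ p 0 = 1 := by tauto
      have e : cChr 1 c p = 0 := by
        rw [cChr_one]
        rcases this with h | h
        · rw [h]; simp
        · rw [h]
          simp
      change (if cChr 1 c p = 0 then 0 else 1) < 1
      rw [if_pos e]
      exact one_pos
    · exact c.elim
  · rintro n c c' p p' hp hp' h
    rcases n with _ | _ | n
    · exact ⟨rfl, Subsingleton.elim _ _⟩
    · refine ⟨rfl, ?_⟩
      have hp1 := (hi p).1 hp
      have hp1' := (hi p').1 hp'
      have h' : (((p 0 : I) : ℝ) : AddCircle (1 : ℝ)) = (((p' 0 : I) : ℝ) : AddCircle (1 : ℝ)) := h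
      have := coe_eq_coe hp1.2 hp1'.2 h'
      ext i
      obtain rfl : i = 0 := Fin.ext (by omega)
      exact congrArg Subtype.val this
    · exact c.elim
  · intro x
    by_cases hx : x = 0
    · subst hx
      rw [if_pos rfl]
      exact ⟨(), fun i => i.elim0, fun i => i.elim0, rfl⟩
    · rw [if_neg hx]
      obtain ⟨t, ht, rfl⟩ := exists_rep x
      refine ⟨(), fun _ => t, fun _ => ⟨fun h => ?_, ht⟩, rfl⟩
      apply hx
      have h' : t = 0 := h
      rw [h']; simp

/-! ### Conversion to Mathlib CW complexes -/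

/-- Rescaling of the cube. -/
noncomputable def resc (n : ℕ) : C(Fin n → ℝ, Fin n → I) :=
  ⟨fun p i => projIcc (0 : ℝ) 1 zero_le_one ((p i + 1) / 2), by fun_prop⟩

theorem resc_apply {n : ℕ} {p : Fin n → ℝ} (hp : p ∈ Metric.closedBall (0 : Fin n → ℝ) 1)
    (i : Fin n) : ((resc n p i : I) : ℝ) = (p i + 1) / 2 := by
  have h : |p i| ≤ 1 := by
    have h1 := norm_le_pi_norm p i
    have h2 : ‖p‖ ≤ 1 := by simpa using hp
    rw [Real.norm_eq_abs] at h1
    linarith
  rw [abs_le] at h
  change ((projIcc (0 : ℝ) 1 zero_le_one ((p i + 1) / 2) : I) : ℝ) = _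
  rw [projIcc_of_mem zero_le_one ⟨by linarith, by linarith⟩]

theorem resc_injOn (n : ℕ) : InjOn (resc n) (Metric.closedBall (0 : Fin n → ℝ) 1) := by
  intro p hp p' hp' h
  ext i
  have h1 := resc_apply hp i
  have h2 := resc_apply hp' i
  rw [h] at h1
  linarith

theorem resc_interior {n : ℕ} {p : Fin n → ℝ} (hp : p ∈ Metric.closedBall (0 : Fin n → ℝ) 1) :
    (∀ i, resc n p i ≠ 0 ∧ resc n p i ≠ 1) ↔ p ∈ Metric.ball (0 : Fin n → ℝ) 1 := by
  have hle : ∀ i, |p i| ≤ 1 := fun i => by
    have h1 := norm_le_pi_norm p i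
    have h2 : ‖p‖ ≤ 1 := by simpa using hp
    rw [Real.norm_eq_abs] at h1
    linarith
  rw [mem_ball_zero_iff, pi_norm_lt_iff one_pos]
  apply forall_congr'
  intro i
  rw [Real.norm_eq_abs, abs_lt]
  have h1 := resc_apply hp i
  have h2 := abs_le.1 (hle i)
  constructor
  · rintro ⟨h3, h4⟩
    constructor
    · apply lt_of_le_of_ne h2.1
      intro h5
      apply h3
      apply Subtype.ext
      rw [h1, ← h5]; simp
    · apply lt_of_le_of_ne h2.2
      intro h5
      apply h4
      apply Subtype.ext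
      rw [h1, h5]; norm_num
  · rintro ⟨h3, h4⟩
    constructor
    · intro h5
      rw [h5] at h1
      simp at h1
      linarith
    · intro h5
      rw [h5] at h1
      simp at h1
      linarith

theorem exists_resc {n : ℕ} (q : Fin n → I) :
    ∃ p ∈ Metric.closedBall (0 : Fin n → ℝ) 1, resc n p = q := by
  have hm : (fun i => 2 * (q i : ℝ) - 1) ∈ Metric.closedBall (0 : Fin n → ℝ) 1 := by
    rw [mem_closedBall_zero_iff, pi_norm_le_iff_of_nonneg zero_le_one]
    intro i
    rw [Real.norm_eq_abs, abs_le]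
    have := (q i).2
    constructor <;> linarith [this.1, this.2]
  refine ⟨_, hm, ?_⟩
  ext i
  rw [resc_apply hm]
  ring

section Conv

variable {X : Type} [TopologicalSpace X] (F : FCW X)

theorem chr_resc_injOn (n : ℕ) (c : F.cell n) :
    InjOn (fun p => F.chr n c (resc n p)) (Metric.ball (0 : Fin n → ℝ) 1) := by
  intro p hp p' hp' h
  have h1 := Metric.ball_subset_closedBall hp
  have h2 := Metric.ball_subset_closedBall hp'
  exact resc_injOn n h1 h2
    (F.inj n c c _ _ ((resc_interior h1).2 hp) ((resc_interior h2).2 hp') h).2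

/-- The characteristic maps as partial equivalences. -/
noncomputable def pmap (n : ℕ) (c : F.cell n) : PartialEquiv (Fin n → ℝ) X :=
  (F.chr_resc_injOn n c).toPartialEquiv _ _

theorem pmap_apply (n : ℕ) (c : F.cell n) (p : Fin n → ℝ) :
    F.pmap n c p = F.chr n c (resc n p) := rfl

theorem continuous_pmap (n : ℕ) (c : F.cell n) : Continuous (F.pmap n c) :=
  (F.chr n c).continuous.comp (resc n).continuous

theorem deg_pmap {n : ℕ} {c : F.cell n} {p : Fin n → ℝ}
    (hp : p ∈ Metric.ball (0 : Fin n → ℝ) 1) : F.deg (F.pmap n c p) = n :=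
  F.deg_chr n c _ ((resc_interior (Metric.ball_subset_closedBall hp)).2 hp)

theorem deg_pmap_lt {n : ℕ} {c : F.cell n} {p : Fin n → ℝ}
    (hp : p ∈ Metric.closedBall (0 : Fin n → ℝ) 1) (hp' : p ∉ Metric.ball (0 : Fin n → ℝ) 1) :
    F.deg (F.pmap n c p) < n :=
  F.deg_bdry n c _ (fun h => hp' ((resc_interior hp).1 h))

theorem exists_pmap (x : X) : ∃ (c : F.cell (F.deg x)),
    ∃ p ∈ Metric.closedBall (0 : Fin (F.deg x) → ℝ) 1, F.pmap (F.deg x) c p = x := by
  obtain ⟨c, q, -, e⟩ := F.surj x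
  obtain ⟨p, hp, hq⟩ := exists_resc q
  exact ⟨c, p, hp, by rw [pmap_apply, hq, e]⟩

theorem continuousOn_pmap_symm [T2Space X] (n : ℕ) (c : F.cell n) :
    ContinuousOn (F.pmap n c).symm (F.pmap n c).target := by
  rw [continuousOn_iff_isClosed]
  intro t ht
  refine ⟨F.pmap n c '' (t ∩ Metric.closedBall 0 1), ?_, ?_⟩
  · apply IsCompact.isClosed
    apply IsCompact.image _ (F.continuous_pmap n c)
    exact (isCompact_closedBall _ _).inter_left ht
  · ext x
    constructor
    · rintro ⟨h1, h2⟩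
      refine ⟨⟨(F.pmap n c).symm x, ⟨h1, Metric.ball_subset_closedBall ?_⟩, ?_⟩, h2⟩
      · exact (F.pmap n c).map_target h2
      · exact (F.pmap n c).right_inv h2
    · rintro ⟨⟨p, ⟨h1, h1'⟩, rfl⟩, h2⟩
      refine ⟨?_, h2⟩
      by_cases hp : p ∈ Metric.ball (0 : Fin n → ℝ) 1
      · change (F.pmap n c).symm (F.pmap n c p) ∈ t
        rw [(F.pmap n c).left_inv hp]
        exact h1
      · exfalso
        have h3 := F.deg_pmap_lt (c := c) h1' hp
        have h4 : (F.pmap n c).symm (F.pmap n c p) ∈ Metric.ball (0 : Fin n → ℝ) 1 :=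
          (F.pmap n c).map_target h2
        have h5 := F.deg_pmap (c := c) h4
        rw [(F.pmap n c).right_inv h2] at h5
        omega

theorem exists_cwComplex {X : Type} [TopologicalSpace X] [T2Space X] (F : FCW X) :
    ∃ _ : Topology.CWComplex (Set.univ : Set X),
      Topology.RelCWComplex.Finite (Set.univ : Set X) := by
  have h1 : ∀ᶠ n in Filter.atTop, IsEmpty (F.cell n) := by
    filter_upwards [Filter.eventually_gt_atTop F.dim] with n hn using F.isEmpty_cell n hn
  have h3 : (univ : Set (Σ n, F.cell n)).PairwiseDisjoint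
      (fun ni ↦ F.pmap ni.1 ni.2 '' Metric.ball 0 1) := by
    rintro ⟨n, c⟩ - ⟨m, c'⟩ - hne
    change Disjoint (F.pmap n c '' Metric.ball 0 1) (F.pmap m c' '' Metric.ball 0 1)
    rw [Set.disjoint_left]
    rintro _ ⟨p, hp, rfl⟩ ⟨p', hp', e⟩
    have e1 := F.deg_pmap (c := c) hp
    have e2 := F.deg_pmap (c := c') hp'
    rw [e] at e2
    obtain rfl : n = m := e1.symm.trans e2
    apply hne
    have := F.inj n c' c _ _ ((resc_interior (Metric.ball_subset_closedBall hp')).2 hp')
      ((resc_interior (Metric.ball_subset_closedBall hp)).2 hp) e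
    rw [this.1]
  have h4 : ∀ (n : ℕ) (i : F.cell n), MapsTo (F.pmap n i) (Metric.sphere 0 1)
      (⋃ (m < n) (j : F.cell m), F.pmap m j '' Metric.closedBall 0 1) := by
    intro n c p hp
    have hp1 : p ∈ Metric.closedBall (0 : Fin n → ℝ) 1 := Metric.sphere_subset_closedBall hp
    have hp2 : p ∉ Metric.ball (0 : Fin n → ℝ) 1 := by
      intro h
      rw [Metric.mem_sphere] at hp
      rw [Metric.mem_ball] at h
      exact h.ne hp
    have h := F.deg_pmap_lt (c := c) hp1 hp2
    obtain ⟨c', p', hp', e⟩ := F.exists_pmap (F.pmap n c p)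
    simp only [mem_iUnion]
    exact ⟨_, h, c', p', hp', e⟩
  have h5 : ⋃ (n : ℕ) (j : F.cell n), F.pmap n j '' Metric.closedBall 0 1 = univ := by
    rw [eq_univ_iff_forall]
    intro x
    obtain ⟨c', p', hp', e⟩ := F.exists_pmap x
    simp only [mem_iUnion]
    exact ⟨_, c', p', hp', e⟩
  exact ⟨CWComplex.mkFinite univ F.cell F.pmap h1 F.finite_cell (fun _ _ => rfl)
    (fun n c => (F.continuous_pmap n c).continuousOn) F.continuousOn_pmap_symm h3 h4 h5,
    CWComplex.finite_mkFinite univ F.cell F.pmap h1 F.finite_cell (fun _ _ => rfl)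
    (fun n c => (F.continuous_pmap n c).continuousOn) F.continuousOn_pmap_symm h3 h4 h5⟩

end Conv

end FCW

end Pool.H74
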