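import Pool.Agent.H74.Spaces
import Pool.Agent.H74.CW

/-!
The space `X` of the one-point set has a finite cell structure.
-/

open Topology unitInterval Set

namespace Pool.H74

open Fam

noncomputable section

namespace FCW

section Tools

variable {A W A' W' : Type} [TopologicalSpace A] [TopologicalSpace W] [TopologicalSpace A']
  [TopologicalSpace W'] {a b : C(W, A)} {a' b' : C(W', A')}

/-- A map that does not increase the dimension of cells. -/
def Cel (F : FCW A) (F' : FCW A') (g : C(A, A')) : Prop := ∀ x, F'.deg (g x) ≤ F.deg x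

theorem zc_hdl_le (FA : FCW A) (FW : FCW W) (ha : Cel FW FA a) (hb : Cel FW FA b) (w : W) (t : I) :
    (zc FA FW ha hb).deg (ZC.hdl a b (w, t)) ≤ FW.deg w + 1 := by
  by_cases h0 : t = 0
  · subst h0
    rw [ZC.hdl_zero]
    exact (ha w).trans (Nat.le_succ _)
  by_cases h1 : t = 1
  · subst h1
    rw [ZC.hdl_one]
    exact (hb w).trans (Nat.le_succ _)
  exact (zcDeg_hdl FA FW h0 h1).le

theorem zc_hdl (FA : FCW A) (FW : FCW W) (ha : Cel FW FA a) (hb : Cel FW FA b) {w : W} {t : I}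
    (h0 : t ≠ 0) (h1 : t ≠ 1) : (zc FA FW ha hb).deg (ZC.hdl a b (w, t)) = FW.deg w + 1 :=
  zcDeg_hdl FA FW h0 h1

/-- Criterion for a map out of a homotopy coequalizer. -/
theorem cel_of {Z : Type} [TopologicalSpace Z] (FA : FCW A) (FW : FCW W) (ha : Cel FW FA a)
    (hb : Cel FW FA b) (FZ : FCW Z) (f : C(ZC a b, Z)) (h1 : ∀ x, FZ.deg (f (ZC.inA a b x)) ≤ FA.deg x)
    (h2 : ∀ w t, FZ.deg (f (ZC.hdl a b (w, t))) ≤ FW.deg w + 1) :
    Cel (zc FA FW ha hb) FZ f := by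
  intro z
  rcases ZC.cases_pt z with ⟨x, rfl⟩ | ⟨w, t, h0, h1', rfl⟩
  · exact h1 x
  · rw [zc_hdl FA FW ha hb h0 h1']
    exact h2 w t

theorem cel_map (FA : FCW A) (FW : FCW W) (ha : Cel FW FA a) (hb : Cel FW FA b)
    (FA' : FCW A') (FW' : FCW W') (ha' : Cel FW' FA' a') (hb' : Cel FW' FA' b')
    (g : C(A, A')) (k : C(W, W')) (e : ∀ w, g (a w) = a' (k w)) (e' : ∀ w, g (b w) = b' (k w))
    (hg : Cel FA FA' g) (hk : Cel FW FW' k) :
    Cel (zc FA FW ha hb) (zc FA' FW' ha' hb') (ZC.map g k e e') := by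
  refine cel_of _ _ _ _ _ _ ?_ ?_
  · intro x
    exact hg x
  · intro w t
    exact (zc_hdl_le FA' FW' ha' hb' (k w) t).trans (Nat.succ_le_succ (hk w))

/-- The cell structure of a mapping torus. -/
def mt (FA : FCW A) (α : C(A, A)) (h : Cel FA FA α) : FCW (MT α) :=
  zc (a := .id A) (b := α) FA FA (fun _ => le_rfl) h

theorem mt_hdl_le (FA : FCW A) (α : C(A, A)) (h : Cel FA FA α) (x : A) (t : I) :
    (mt FA α h).deg (ZC.hdl (.id A) α (x, t)) ≤ FA.deg x + 1 := zc_hdl_le _ _ _ _ _ _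

theorem cel_mt_of {Z : Type} [TopologicalSpace Z] (FA : FCW A) (α : C(A, A)) (h : Cel FA FA α)
    (FZ : FCW Z) (f : C(MT α, Z)) (h1 : ∀ x, FZ.deg (f (ZC.inA (.id A) α x)) ≤ FA.deg x)
    (h2 : ∀ x t, FZ.deg (f (ZC.hdl (.id A) α (x, t))) ≤ FA.deg x + 1) :
    Cel (mt FA α h) FZ f := cel_of _ _ _ _ _ _ h1 h2

theorem cel_mt_map (FA : FCW A) (α : C(A, A)) (h : Cel FA FA α) (FA' : FCW A') (α' : C(A', A'))
    (h' : Cel FA' FA' α') (g : C(A, A')) (e : ∀ x, g (α x) = α' (g x)) (hg : Cel FA FA' g) :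
    Cel (mt FA α h) (mt FA' α' h') (MT.map g e) := cel_map _ _ _ _ _ _ _ _ _ _ _ _ hg hg

theorem deg_flow_le (FA : FCW A) (α : C(A, A)) (h : Cel FA FA α) (x : MT α) (t : I) :
    (mt FA α h).deg (MT.flow α (x, t)) ≤ (mt FA α h).deg x + 1 := by
  rcases ZC.cases_pt x with ⟨x, rfl⟩ | ⟨x, s, h0, h1, rfl⟩
  · exact mt_hdl_le FA α h x t
  · have e : (mt FA α h).deg (ZC.hdl (.id A) α (x, s)) = FA.deg x + 1 := zcDeg_hdl FA FA h0 h1
    rw [e, MT.flow_hdl]
    by_cases hs : ((MT.avg s t : I) : ℝ) ≤ 1 / 2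
    · rw [cat_of_le hs]
      exact (mt_hdl_le FA α h _ _).trans (Nat.le_succ _)
    · rw [cat_of_gt hs]
      refine (mt_hdl_le FA α h _ _).trans ?_
      exact (Nat.succ_le_succ (h x)).trans (Nat.le_succ _)

end Tools

/-! ### The towers -/

section Tower

variable {S S' : Type} [TopologicalSpace S] [TopologicalSpace S'] (H : H3 S) (H' : H3 S')

/-- The three maps do not increase dimensions. -/
structure Ok (F : FCW S) : Prop where
  z : Cel F F H.z
  u : Cel F F H.u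
  y : Cel F F H.y

variable {H H'} {F : FCW S} (o : Ok H F) {F' : FCW S'} (o' : Ok H' F')

/-- The cell structure of the first mapping torus. -/
def f1 : FCW H.T1 := mt F H.z o.z

theorem cel_u1 : Cel (f1 o) (f1 o) H.u1 := cel_mt_map _ _ _ _ _ _ _ _ o.u
theorem cel_y1 : Cel (f1 o) (f1 o) H.y1 := cel_mt_map _ _ _ _ _ _ _ _ o.y

/-- The cell structure of the second mapping torus. -/
def f2 : FCW H.T2 := mt (f1 o) H.u1 (cel_u1 o)

theorem cel_u2 : Cel (f2 o) (f2 o) H.u2 := cel_mt_map _ _ _ _ _ _ _ _ (cel_u1 o)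
theorem cel_y2 : Cel (f2 o) (f2 o) H.y2 := cel_mt_map _ _ _ _ _ _ _ _ (cel_y1 o)

/-- The cell structure of the third mapping torus. -/
def f3 : FCW H.TT := mt (f2 o) H.y2 (cel_y2 o)

theorem cel_map2 (g : C(S, S')) (hz : ∀ x, g (H.z x) = H'.z (g x))
    (hu : ∀ x, g (H.u x) = H'.u (g x)) (hg : Cel F F' g) :
    Cel (f2 o) (f2 o') (H3.map2 g hz hu) :=
  cel_mt_map _ _ _ _ _ _ _ _ (cel_mt_map _ _ _ _ _ _ _ _ hg)

theorem cel_map3 (g : C(S, S')) (h : H3.Hom H H' g) (hg : Cel F F' g) :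
    Cel (f3 o) (f3 o') (H3.map3 g h) :=
  cel_mt_map _ _ _ _ _ _ _ _ (cel_map2 o o' g h.z h.u hg)

end Tower

section Final

variable {S : Type} [TopologicalSpace S] (a : GS S) {F : FCW S} (o : Ok a.toH3 F)
  (hs : Cel F F a.s) (hr : Cel F F a.r) (ht : Cel F F a.t)

include hs in
theorem cel_s2 : Cel (f2 o) (f2 o) a.s2 := cel_map2 o o _ _ _ hs

include hr in
theorem cel_r2 : Cel (f2 o) (f2 o) a.r2 := cel_map2 o o _ _ _ hr

include hs in
theorem cel_sig : Cel (f3 o) (f3 o) a.sig := by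
  refine cel_mt_of _ _ _ _ _ ?_ ?_
  · intro x
    exact cel_s2 a o hs x
  · intro x t
    by_cases ht : (t : ℝ) ≤ 1 / 2
    · rw [a.sig_hdl_le x t ht]
      exact (mt_hdl_le _ _ _ _ _).trans (Nat.succ_le_succ (cel_s2 a o hs x))
    · rw [a.sig_hdl_gt x t ht]
      exact (mt_hdl_le _ _ _ _ _).trans (Nat.succ_le_succ ((cel_y2 o _).trans (cel_s2 a o hs x)))

include hr in
theorem cel_rho : Cel (f3 o) (f3 o) a.rho := by
  refine cel_mt_of _ _ _ _ _ ?_ ?_
  · intro x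
    exact cel_r2 a o hr x
  · intro x t
    by_cases ht : (t : ℝ) ≤ 1 / 2
    · rw [a.rho_hdl_le x t ht]
      exact (mt_hdl_le _ _ _ _ _).trans (Nat.succ_le_succ (cel_r2 a o hr x))
    · rw [a.rho_hdl_gt x t ht]
      refine (deg_flow_le (f1 o) a.u1 (cel_u1 o) _ _).trans ?_
      exact Nat.succ_le_succ ((cel_y2 o _).trans (cel_r2 a o hr x))

/-- The cell structure of `B1`. -/
def fB1' : FCW a.B1 := mt (f3 o) a.sig (cel_sig a o hs)

/-- The cell structure of `B`. -/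
def fB' : FCW a.B :=
  zc (a := ZC.inA (.id _) a.sig) (b := (ZC.inA (.id _) a.sig).comp a.rho) (fB1' a o hs) (f3 o)
    (fun _ => le_rfl) (cel_rho a o hr)

include ht in
theorem cel_tB : Cel (fB' a o hs hr) (fB' a o hs hr) a.tB :=
  cel_map _ _ _ _ _ _ _ _ (GS.fB1 a.t a.tHom) (GS.fV a.t a.tHom) (fun _ => rfl)
    (fun x => congrArg (ZC.inA _ _) (GS.fV_rho a.tHom x))
    (cel_mt_map _ _ _ _ _ _ _ _ (cel_map3 o o a.t a.tHom.toHom ht))
    (cel_map3 o o a.t a.tHom.toHom ht)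

/-- The cell structure of `D`. -/
def fD' : FCW a.D := mt (fB' a o hs hr) a.tB (cel_tB a o hs hr ht)

include o hs hr ht in
theorem exists_X (FK : FCW (KC × S)) (oK : Ok a.toH3.K FK)
    (hp : Cel FK F (.snd : C(KC × S, S))) : Nonempty (FCW a.X) := by
  have hrE : Cel (f3 oK) (f3 o) a.rE := cel_map3 oK o _ _ hp
  obtain ⟨G, h1, h2⟩ := exists_sum (fD' a o hs hr ht) (f3 o)
  refine ⟨zc (a := inlC.comp (a.inVD.comp a.rE)) (b := inrC.comp a.rE) G (f3 oK) ?_ ?_⟩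
  · intro w
    refine (h1 _).le.trans ?_
    exact hrE w
  · intro w
    refine (h2 _).le.trans ?_
    exact hrE w

end Final

end FCW

theorem GS.exists_FCW : Nonempty (FCW GS.one.X) := by
  obtain ⟨FC, c0, c1⟩ := FCW.exists_circle
  obtain ⟨F, hF⟩ := FCW.exists_discrete (S := Unit)
  obtain ⟨FK, hK⟩ := FCW.exists_prod_discrete (S := Unit) FC
  have hz : ∀ (g : C(Unit, Unit)), FCW.Cel F F g := fun g x => by
    rw [hF]
  have cle : ∀ x, FC.deg x ≤ 1 := fun x => by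
    by_cases hx : x = 0
    · rw [hx, c0]; exact Nat.zero_le _
    · rw [c1 x hx]
  have cc : ∀ (f : KC → KC), f 0 = 0 → ∀ x, FC.deg (f x) ≤ FC.deg x := fun f hf x => by
    by_cases hx : x = 0
    · rw [hx, hf]
    · rw [c1 x hx]; exact cle _
  have o : FCW.Ok GS.one.toH3 F := ⟨hz _, hz _, hz _⟩
  have oK : FCW.Ok GS.one.toH3.K FK := by
    refine ⟨?_, ?_, ?_⟩
    · rintro ⟨x, s⟩
      refine (hK _ _).le.trans ((cc (fun x => x + x) (add_zero 0) x).trans (hK _ _).ge)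
    · rintro ⟨x, s⟩
      refine (hK _ _).le.trans ((cc (fun x => -x) neg_zero x).trans (hK _ _).ge)
    · rintro ⟨x, s⟩
      exact (hK _ _).le.trans (hK _ _).ge
  exact FCW.exists_X GS.one o (hz _) (hz _) (hz _) FK oK (fun x => (hF _).le.trans (Nat.zero_le _))

end

end Pool.H74
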