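import Pool.Agent.H74.Sph.W2

/-!
The collapse of the base meridians of the double mapping cylinder `A2` is a homotopy equivalence
onto the wedge `W2` of two reduced suspensions.
-/

open Topology unitInterval Set Pool.H74 Pool.H74.Fam

namespace Pool.H74.Coll

/-- The double mapping cylinder of `Unit ← K × Bool → Bool`. -/
abbrev A2 : Type := ZC (A := Unit ⊕ Bool) (W := KK × Bool) ⟨fun _ => .inl (), continuous_const⟩
  ⟨fun p => .inr p.2, by fun_prop⟩

/-- The collapse of the base meridians. -/
def collapse : C(A2, W2) := ZC.desc (.const _ W2.pt) W2.mk (by intro w; simp) (by intro w; simp)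

/-- clamping to the unit interval -/
noncomputable def cl01 (x : ℝ) : I := projIcc 0 1 zero_le_one x

theorem continuous_cl01 : Continuous cl01 := continuous_projIcc (h := zero_le_one)

theorem cl01_of_le {x : ℝ} (h : x ≤ 0) : cl01 x = 0 := projIcc_of_le_left _ h
theorem cl01_of_ge {x : ℝ} (h : 1 ≤ x) : cl01 x = 1 := projIcc_of_right_le _ h
theorem cl01_coe (t : I) : cl01 (t : ℝ) = t := projIcc_val _ _
theorem cl01_val {x : ℝ} (h0 : 0 ≤ x) (h1 : x ≤ 1) : ((cl01 x : I) : ℝ) = x := by
  unfold cl01; rw [projIcc_of_mem _ ⟨h0, h1⟩]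

/-- The expansion of the circle away from the base point, on the line. -/
noncomputable def kapR : C(ℝ, C(I, KK)) :=
  ContinuousMap.curry (⟨fun p : ℝ × I => (((cl01 (p.1 + (p.2 : ℝ) * (p.1 - 1 / 2)) : I) : ℝ) : KK), by
    apply (AddCircle.continuous_mk' (1 : ℝ)).comp
    apply continuous_subtype_val.comp
    apply continuous_cl01.comp
    fun_prop⟩ : C(ℝ × I, KK))

theorem kapR_apply (x : ℝ) (s : I) :
    kapR x s = (((cl01 (x + (s : ℝ) * (x - 1 / 2)) : I) : ℝ) : KK) := rfl

/-- The expansion of the circle away from the base point. -/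
noncomputable def kap : C(KK, C(I, KK)) where
  toFun := AddCircle.liftIco (1 : ℝ) 0 kapR
  continuous_toFun := by
    apply AddCircle.liftIco_continuous
    · ext s
      have h0 := s.2.1
      rw [kapR_apply, kapR_apply, cl01_of_le (by nlinarith), cl01_of_ge (by nlinarith),
        Icc.coe_zero, Icc.coe_one, AddCircle.coe_period, QuotientAddGroup.mk_zero]
    · exact kapR.continuous.continuousOn

theorem kap_coe {x : ℝ} (hx : x ∈ Ico (0 : ℝ) 1) (s : I) :
    kap (x : KK) s = (((cl01 (x + (s : ℝ) * (x - 1 / 2)) : I) : ℝ) : KK) := by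
  have : AddCircle.liftIco (1 : ℝ) 0 kapR (x : KK) = kapR x :=
    AddCircle.liftIco_coe_apply (by simpa using hx)
  change AddCircle.liftIco (1 : ℝ) 0 kapR (x : KK) s = _
  rw [this, kapR_apply]

theorem exists_rep (k : KK) : ∃ x ∈ Ico (0 : ℝ) 1, (x : KK) = k := by
  obtain ⟨x, hx, h⟩ := AddCircle.eq_coe_Ico k
  exact ⟨x, by simpa using hx, h⟩

theorem norm_rep {x : ℝ} (hx : x ∈ Ico (0 : ℝ) 1) : ‖(x : KK)‖ = min x (1 - x) := by
  rw [UnitAddCircle.norm_eq, abs_sub_round_eq_min, Int.fract_eq_self.2 hx]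

theorem kap_zero (k : KK) : kap k 0 = k := by
  obtain ⟨x, hx, rfl⟩ := exists_rep k
  rw [kap_coe hx]
  simp only [Icc.coe_zero, zero_mul, add_zero]
  rw [cl01_val hx.1 hx.2.le]

theorem kap_near {k : KK} {s : I} (h : 4 * ‖k‖ ≤ s) : kap k s = 0 := by
  obtain ⟨x, hx, rfl⟩ := exists_rep k
  rw [norm_rep hx] at h
  rw [kap_coe hx]
  have h0 := s.2.1
  have h1 := s.2.2
  rcases le_total x (1 - x) with h2 | h2
  · rw [min_eq_left h2] at h
    rw [cl01_of_le (by nlinarith)]
    simp
  · rw [min_eq_right h2] at h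
    rw [cl01_of_ge (by nlinarith)]
    simp

/-- the height of the path -/
noncomputable def hgt (k : KK) (s : I) : ℝ := min 1 (1 - (s : ℝ) + 4 * ‖k‖)

theorem continuous_hgt : Continuous fun p : KK × I => hgt p.1 p.2 := by
  unfold hgt
  fun_prop

theorem hgt_le (k : KK) (s : I) : hgt k s ≤ 1 := min_le_left _ _

theorem hgt_ge (k : KK) (s : I) : 1 - (s : ℝ) ≤ hgt k s := by
  apply le_min
  · linarith [s.2.1]
  · linarith [norm_nonneg k]

theorem hgt_zero (k : KK) : hgt k 0 = 1 := by
  unfold hgt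
  rw [min_eq_left]
  simp

theorem hgt_base (s : I) : hgt 0 s = 1 - (s : ℝ) := by
  unfold hgt
  rw [norm_zero, mul_zero, add_zero, min_eq_right]
  linarith [s.2.1]

/-- either the height is one or the expanded point is the base point -/
theorem hgt_or (k : KK) (s : I) : hgt k s = 1 ∨ kap k s = 0 := by
  rcases le_total (4 * ‖k‖) (s : ℝ) with h | h
  · exact .inr (kap_near h)
  · left
    unfold hgt
    rw [min_eq_left]
    linarith

/-- the length travelled -/
noncomputable def tau (k : KK) (t s : I) : ℝ := (t : ℝ) * (2 * hgt k s - 1 + (s : ℝ))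

theorem tau_continuous : Continuous fun p : ((KK × Bool) × I) × I => tau p.1.1.1 p.2 p.1.2 := by
  unfold tau
  have h : Continuous fun p : ((KK × Bool) × I) × I => hgt p.1.1.1 p.1.2 :=
    continuous_hgt.comp (by fun_prop : Continuous fun p : ((KK × Bool) × I) × I =>
      (p.1.1.1, p.1.2))
  fun_prop

/-- the handle of `A2` -/
abbrev hA : C((KK × Bool) × I, A2) := ZC.hdl _ _

/-- the bottom point of `A2` -/
def bot : A2 := ZC.inA _ _ (.inl ())

theorem hA_zero (w : KK × Bool) : hA (w, 0) = bot := ZC.hdl_zero w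
theorem hA_one (w : KK × Bool) : hA (w, 1) = ZC.inA _ _ (.inr w.2) := ZC.hdl_one w

/-- The homotopy on the handles: arguments `((w, s), t)`. -/
noncomputable def Q : C(((KK × Bool) × I) × I, A2) where
  toFun p := if tau p.1.1.1 p.2 p.1.2 ≤ hgt p.1.1.1 p.1.2 then
      hA ((kap p.1.1.1 p.1.2, p.1.1.2), cl01 (tau p.1.1.1 p.2 p.1.2))
    else hA ((0, p.1.1.2), cl01 (2 * hgt p.1.1.1 p.1.2 - tau p.1.1.1 p.2 p.1.2))
  continuous_toFun := by
    have h1 : Continuous fun p : ((KK × Bool) × I) × I => hgt p.1.1.1 p.1.2 :=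
      continuous_hgt.comp (by fun_prop : Continuous fun p : ((KK × Bool) × I) × I =>
        (p.1.1.1, p.1.2))
    have h2 := tau_continuous
    have h3 : Continuous fun p : ((KK × Bool) × I) × I => kap p.1.1.1 p.1.2 := by
      have : Continuous fun p : KK × I => kap p.1 p.2 := kap.uncurry.continuous
      exact this.comp (by fun_prop : Continuous fun p : ((KK × Bool) × I) × I =>
        (p.1.1.1, p.1.2))
    refine Continuous.if_le ?_ ?_ h2 h1 ?_
    · apply hA.continuous.comp
      exact (h3.prodMk (by fun_prop)).prodMk (continuous_cl01.comp h2)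
    · apply hA.continuous.comp
      exact (by fun_prop : Continuous fun p : ((KK × Bool) × I) × I => ((0 : KK), p.1.1.2)).prodMk
        (continuous_cl01.comp ((continuous_const.mul h1).sub h2))
    · rintro ⟨⟨⟨k, i⟩, s⟩, t⟩ h
      dsimp only at h ⊢
      rw [h]
      have e : 2 * hgt k s - hgt k s = hgt k s := by ring
      rw [e]
      rcases hgt_or k s with h' | h'
      · rw [h', cl01_of_ge le_rfl, hA_one, hA_one]
      · rw [h']

theorem Q_of_le {k : KK} {i : Bool} {s t : I} (h : tau k t s ≤ hgt k s) :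
    Q (((k, i), s), t) = hA ((kap k s, i), cl01 (tau k t s)) := if_pos h

theorem Q_of_gt {k : KK} {i : Bool} {s t : I} (h : ¬ tau k t s ≤ hgt k s) :
    Q (((k, i), s), t) = hA ((0, i), cl01 (2 * hgt k s - tau k t s)) := if_neg h

theorem Q_s_zero (w : KK × Bool) (t : I) : Q ((w, 0), t) = hA (w, t) := by
  obtain ⟨k, i⟩ := w
  have e : tau k t 0 = t := by unfold tau; rw [hgt_zero]; simp; ring
  rw [Q_of_le (by rw [e, hgt_zero]; exact t.2.2), e, kap_zero, cl01_coe]

theorem Q_t_zero (w : KK × Bool) (s : I) : Q ((w, s), 0) = bot := by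
  obtain ⟨k, i⟩ := w
  have e : tau k 0 s = 0 := by unfold tau; simp
  have h : 0 ≤ hgt k s := by linarith [hgt_ge k s, s.2.2]
  rw [Q_of_le (by rw [e]; exact h), e, cl01_of_le le_rfl, hA_zero]

theorem Q_t_one (k : KK) (i : Bool) (s : I) : Q (((k, i), s), 1) = hA ((0, i), σ s) := by
  have e : tau k 1 s = 2 * hgt k s - 1 + s := by unfold tau; simp
  have hs : cl01 (1 - (s : ℝ)) = σ s := by
    rw [← coe_symm_eq, cl01_coe]
  by_cases h : tau k 1 s ≤ hgt k s
  · rw [Q_of_le h]
    have h1 : hgt k s = 1 - s := le_antisymm (by linarith) (hgt_ge k s)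
    have h2 : tau k 1 s = 1 - s := by rw [e, h1]; ring
    rw [h2, hs]
    rcases hgt_or k s with h' | h'
    · have : s = 0 := Subtype.ext (by rw [h'] at h1; change (s : ℝ) = 0; linarith)
      subst this
      rw [symm_zero, hA_one, hA_one]
    · rw [h']
  · rw [Q_of_gt h, e]
    have : 2 * hgt k s - (2 * hgt k s - 1 + (s : ℝ)) = 1 - s := by ring
    rw [this, hs]

theorem Q_base (i : Bool) (s t : I) : Q (((0, i), s), t) = hA ((0, i), cl01 ((t : ℝ) * (1 - s))) := by
  have e : tau 0 t s = (t : ℝ) * (1 - s) := by unfold tau; rw [hgt_base]; ring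
  have h0 := t.2.2
  have h1 := s.2.2
  have h2 : kap 0 s = 0 := kap_near (by simpa using s.2.1)
  rw [Q_of_le (by rw [e, hgt_base]; nlinarith), e, h2]

/-- The homotopy on the vertices. -/
noncomputable def G : C((Unit ⊕ Bool) × I, A2) where
  toFun p := Sum.elim (fun _ => bot) (fun i => hA ((0, i), σ p.2)) p.1
  continuous_toFun := by
    rw [continuous_prod_of_discrete_left]
    rintro (_ | i)
    · exact continuous_const
    · exact hA.continuous.comp (by fun_prop)

/-- The homotopy inverse. -/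
noncomputable def r : C(W2, A2) :=
  W2.desc (Q.comp ⟨fun p => ((p.1, 1), p.2), by fun_prop⟩) bot (by
    rintro ⟨⟨k, i⟩, t⟩ (h | h | h)
    · obtain rfl : k = 0 := h
      change Q (((0, i), 1), t) = _
      rw [Q_base, Icc.coe_one, sub_self, mul_zero, cl01_of_le le_rfl, hA_zero]
    · obtain rfl : t = 0 := h
      exact Q_t_zero _ _
    · obtain rfl : t = 1 := h
      change Q (((k, i), 1), 1) = _
      rw [Q_t_one, symm_one, hA_zero])

theorem r_mk (w : KK × Bool) (t : I) : r (W2.mk (w, t)) = Q ((w, 1), t) := rfl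

theorem r_pt : r W2.pt = bot := W2.desc_pt _ _ _

theorem collapse_hA (p : (KK × Bool) × I) : collapse (hA p) = W2.mk p := rfl

theorem collapse_bot : collapse bot = W2.pt := rfl

theorem r_comp : (r.comp collapse).Homotopic (.id A2) := by
  apply ContinuousMap.Homotopic.symm
  refine ZC.homotopic_of_square G Q ?_ ?_ ?_ ?_ ?_ ?_
  · rintro (_ | i)
    · rfl
    · change hA ((0, i), σ 0) = _
      rw [symm_zero, hA_one]
      rfl
  · rintro (_ | i)
    · exact r_pt.symm
    · change hA ((0, i), σ 1) = r W2.pt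
      rw [symm_one, hA_zero, r_pt]
  · intro w t
    exact Q_s_zero w t
  · intro w t
    rfl
  · intro w s
    exact Q_t_zero w s
  · rintro ⟨k, i⟩ s
    exact Q_t_one k i s

theorem comp_r : (collapse.comp r).Homotopic (.id W2) := by
  let q : C((KK × Bool) × I, C(I, W2)) := ContinuousMap.curry
    ((collapse.comp Q).comp ⟨fun p : ((KK × Bool) × I) × I => ((p.1.1, p.2), p.1.2), by fun_prop⟩)
  have hq : ∀ w t s, q (w, t) s = collapse (Q ((w, s), t)) := fun w t s => rfl
  let H : C(W2, C(I, W2)) := W2.desc q (.const _ W2.pt) (by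
    rintro ⟨⟨k, i⟩, t⟩ (h | h | h)
    · obtain rfl : k = 0 := h
      ext s
      rw [hq, Q_base, collapse_hA]
      simp
    · obtain rfl : t = 0 := h
      ext s
      rw [hq, Q_t_zero, collapse_bot]
      rfl
    · obtain rfl : t = 1 := h
      ext s
      rw [hq, Q_t_one, collapse_hA]
      simp)
  have hH : ∀ w t s, H (W2.mk (w, t)) s = collapse (Q ((w, s), t)) := fun w t s => rfl
  apply ContinuousMap.Homotopic.symm
  refine ⟨⟨⟨fun p => H p.2 p.1, ?_⟩, ?_, ?_⟩⟩
  · exact H.uncurry.continuous.comp (by fun_prop : Continuous fun p : I × W2 => (p.2, p.1))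
  · intro w
    induction w using W2.ind with
    | h k i t =>
      change H (W2.mk ((k, i), t)) 0 = _
      rw [hH, Q_s_zero, collapse_hA]
      rfl
  · intro w
    induction w using W2.ind with
    | h k i t =>
      change H (W2.mk ((k, i), t)) 1 = _
      rw [hH]
      rfl

theorem isHE_collapse : IsHE collapse := ⟨r, r_comp, comp_r⟩

end Pool.H74.Coll
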