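import Pool.Agent.H74.Spaces
import Pool.Agent.H74.Coll

/-!
The chain of homotopy equivalences between `X` and its double cover.
-/

open Topology unitInterval Set

namespace Pool.H74

open Fam

noncomputable section

/-! ### Equivalences under a space -/

section Eqv

variable {D X Y Z : Type} [TopologicalSpace D] [TopologicalSpace X] [TopologicalSpace Y]
  [TopologicalSpace Z]

/-- Homotopy equivalence under `D` (up to homotopy). -/
def Eqv (i : C(D, X)) (j : C(D, Y)) : Prop := ∃ f : C(X, Y), IsHE f ∧ (f.comp i).Homotopic j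

theorem Eqv.of_eq {i : C(D, X)} {j : C(D, Y)} {f : C(X, Y)} (hf : IsHE f)
    (h : ∀ x, f (i x) = j x) : Eqv i j :=
  ⟨f, hf, by
    have : f.comp i = j := by ext x; exact h x
    rw [this]⟩

theorem Eqv.symm {i : C(D, X)} {j : C(D, Y)} (h : Eqv i j) : Eqv j i := by
  obtain ⟨f, ⟨g, h1, h2⟩, h3⟩ := h
  refine ⟨g, ⟨f, h2, h1⟩, ?_⟩
  have e1 : (g.comp j).Homotopic (g.comp (f.comp i)) := hleft g h3.symm
  have e2 : (g.comp (f.comp i)).Homotopic i := by
    simpa [ContinuousMap.comp_assoc] using hright i h1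
  exact e1.trans e2

theorem Eqv.trans {i : C(D, X)} {j : C(D, Y)} {k : C(D, Z)} (h : Eqv i j) (h' : Eqv j k) :
    Eqv i k := by
  obtain ⟨f, hf, h1⟩ := h
  obtain ⟨g, hg, h2⟩ := h'
  refine ⟨g.comp f, hg.comp hf, ?_⟩
  have : ((g.comp f).comp i).Homotopic (g.comp j) := by
    simpa [ContinuousMap.comp_assoc] using hleft g h1
  exact this.trans h2

end Eqv

/-! ### Twisted maps -/

namespace H3

variable {A A' : Type} [TopologicalSpace A] [TopologicalSpace A'] {H : H3 A} {H' : H3 A'}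

/-- The flow in the `u`-direction after `y`. -/
def yfl (H' : H3 A') : C(H'.T2 × I, H'.T2) := (MT.flow H'.u1).comp (H'.y2.prodMap (.id I))

theorem tw_aux {g : C(A, A')} (hz : ∀ x, g (H.z x) = H'.z (g x)) (hu : ∀ x, g (H.u x) = H'.u (g x))
    (hy : ∀ x, g (H.y x) = H'.u (H'.y (g x))) (x : H.T2) :
    H'.yfl (map2 g hz hu x, 1) = map2 g hz hu (H.y2 x) := by
  have e1 : H.y2 = map2 H.y (fun x => (H.zy x).symm) (fun x => (H.uy x).symm) := rfl
  have e2 : H'.y2 = map2 H'.y (fun x => (H'.zy x).symm) (fun x => (H'.uy x).symm) := rfl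
  have e3 : H'.u2 = map2 H'.u (fun x => (H'.zu x).symm) (fun _ => rfl) := rfl
  refine (MT.flow_one _ _).trans ?_
  change H'.u2 (H'.y2 (map2 g hz hu x)) = _
  rw [e1, e2, e3, map2_comp, map2_comp, map2_comp]
  exact congrArg (fun f : C(_, _) => f x) (map2_congr (fun x => (hy x).symm))

/-- The twisted map of iterated mapping tori. -/
def twist3 (g : C(A, A')) (hz : ∀ x, g (H.z x) = H'.z (g x)) (hu : ∀ x, g (H.u x) = H'.u (g x))
    (hy : ∀ x, g (H.y x) = H'.u (H'.y (g x))) : C(H.TT, H'.TT) :=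
  MT.twist (α := H.y2) (α' := H'.y2) (map2 g hz hu) (pre H'.yfl (map2 g hz hu))
    (fun _ => MT.flow_zero _ _) (tw_aux hz hu hy)

theorem isHE_twist3 [CompactSpace A] [T2Space A] [CompactSpace A'] [T2Space A'] {g : C(A, A')}
    (hz : ∀ x, g (H.z x) = H'.z (g x)) (hu : ∀ x, g (H.u x) = H'.u (g x))
    (hy : ∀ x, g (H.y x) = H'.u (H'.y (g x))) (hg : IsHE g) : IsHE (twist3 g hz hu hy) :=
  MT.isHE_twist H'.yfl (fun _ => MT.flow_zero _ _) (tw_aux hz hu hy) (isHE_map2 hz hu hg)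

theorem twist3_hdl_le (g : C(A, A')) (hz : ∀ x, g (H.z x) = H'.z (g x))
    (hu : ∀ x, g (H.u x) = H'.u (g x)) (hy : ∀ x, g (H.y x) = H'.u (H'.y (g x))) (x : H.T2) (t : I)
    (ht : (t : ℝ) ≤ 1 / 2) : twist3 g hz hu hy (ZC.hdl _ _ (x, t)) =
      ZC.hdl _ _ (map2 g hz hu x, projIcc 0 1 zero_le_one (2 * (t : ℝ))) := by
  change cat (pre (ZC.hdl (.id _) H'.y2) (map2 g hz hu)) ((ZC.inA _ _).comp (pre H'.yfl
    (map2 g hz hu))) (by intro x; simp [yfl]) (x, t) = _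
  rw [cat_of_le ht]; rfl

theorem twist3_hdl_gt (g : C(A, A')) (hz : ∀ x, g (H.z x) = H'.z (g x))
    (hu : ∀ x, g (H.u x) = H'.u (g x)) (hy : ∀ x, g (H.y x) = H'.u (H'.y (g x))) (x : H.T2) (t : I)
    (ht : ¬ (t : ℝ) ≤ 1 / 2) : twist3 g hz hu hy (ZC.hdl _ _ (x, t)) =
      ZC.inA _ _ (MT.flow H'.u1 (H'.y2 (map2 g hz hu x),
        projIcc 0 1 zero_le_one (2 * (t : ℝ) - 1))) := by
  change cat (pre (ZC.hdl (.id _) H'.y2) (map2 g hz hu)) ((ZC.inA _ _).comp (pre H'.yfl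
    (map2 g hz hu))) (by intro x; simp [yfl]) (x, t) = _
  rw [cat_of_gt ht]; rfl

/-- Naturality of twisted maps. -/
theorem twist3_nat {B B' : Type} [TopologicalSpace B] [TopologicalSpace B'] {K : H3 B} {K' : H3 B'}
    (g : C(A, A')) (hz : ∀ x, g (H.z x) = H'.z (g x))
    (hu : ∀ x, g (H.u x) = H'.u (g x)) (hy : ∀ x, g (H.y x) = H'.u (H'.y (g x)))
    (g₁ : C(B, B')) (hz₁ : ∀ x, g₁ (K.z x) = K'.z (g₁ x))
    (hu₁ : ∀ x, g₁ (K.u x) = K'.u (g₁ x)) (hy₁ : ∀ x, g₁ (K.y x) = K'.u (K'.y (g₁ x)))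
    (p : C(A, B)) (hp : Hom H K p) (q : C(A', B')) (hq : Hom H' K' q)
    (h : ∀ x, q (g x) = g₁ (p x)) (x : H.TT) :
    map3 q hq (twist3 g hz hu hy x) = twist3 g₁ hz₁ hu₁ hy₁ (map3 p hp x) := by
  have e1 : ∀ x, map2 q hq.z hq.u (map2 g hz hu x) = map2 g₁ hz₁ hu₁ (map2 p hp.z hp.u x) := by
    intro x
    rw [map2_comp, map2_comp]
    exact congrArg (fun f : C(_, _) => f x) (map2_congr h)
  have : (map3 q hq).comp (twist3 g hz hu hy) = (twist3 g₁ hz₁ hu₁ hy₁).comp (map3 p hp) := by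
    apply ZC.hom_ext
    · intro x
      exact congrArg (ZC.inA _ _) (e1 x)
    · rintro ⟨x, t⟩
      change map3 q hq (twist3 g hz hu hy (ZC.hdl _ _ (x, t))) =
        twist3 g₁ hz₁ hu₁ hy₁ (ZC.hdl _ _ (map2 p hp.z hp.u x, t))
      by_cases ht : (t : ℝ) ≤ 1 / 2
      · rw [twist3_hdl_le _ _ _ _ _ _ ht, twist3_hdl_le _ _ _ _ _ _ ht]
        exact congrArg (fun y => ZC.hdl _ _ (y, _)) (e1 x)
      · rw [twist3_hdl_gt _ _ _ _ _ _ ht, twist3_hdl_gt _ _ _ _ _ _ ht]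
        refine congrArg (ZC.inA _ _) ?_
        refine (MT.map_flow _ _ _ _).trans ?_
        refine congrArg (fun y => MT.flow _ (y, _)) ?_
        exact (map2_y2 hq _).trans (congrArg _ (e1 x))
  exact congrArg (fun f : C(_, _) => f x) this

end H3

theorem GS.rho_eq {S : Type} [TopologicalSpace S] (a : GS S) :
    a.rho = H3.twist3 a.r a.rz a.ru a.ry := rfl

end

end Pool.H74
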