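import Pool.Agent.H74.Chain

/-!
The chain of homotopy equivalences, first half: sliding along the `s`-handle, unrolling, leg
insertion.
-/

open Topology unitInterval Set

namespace Pool.H74

open Fam

noncomputable section

/-- Constant map. -/
abbrev cst {A B : Type} [TopologicalSpace A] [TopologicalSpace B] (b : B) : C(A, B) := .const A b

theorem isHE_sum_unit_bool : IsHE (sumC (cst (A := Unit) false) (cst (A := Unit) true)) := by
  refine IsHE.of_inv_eq (g := ⟨fun b => if b then .inr () else .inl (),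
    continuous_of_discreteTopology⟩) ?_ ?_
  · ext (x | x) <;> rfl
  · ext (_ | _) <;> rfl

/-- The inclusion of a copy of `K`. -/
abbrev kc (b : Bool) : C(KC × Unit, KC × Bool) := ContinuousMap.prodMap (.id KC) (cst b)

theorem isHE_sum_kc : IsHE (sumC (kc false) (kc true)) := by
  refine IsHE.of_inv_eq (g := ⟨fun p => if p.2 then .inr (p.1, ()) else .inl (p.1, ()), ?_⟩) ?_ ?_
  · rw [continuous_prod_of_discrete_right]
    rintro (_ | _)
    · simp only [Bool.false_eq_true, if_false]; fun_prop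
    · simp only [if_true]; fun_prop
  · ext (x | x) <;> rfl
  · ext ⟨k, (_ | _)⟩ <;> rfl

/-- The two-point set exchanged by `y`. -/
def hsw : H3 Bool where
  z := .id _
  u := .id _
  y := ⟨Bool.not, continuous_of_discreteTopology⟩
  zu _ := rfl
  zy _ := rfl
  uy _ := rfl

/-- The two-point set with trivial action. -/
def htr : H3 Bool where
  z := .id _
  u := .id _
  y := .id _
  zu _ := rfl
  zy _ := rfl
  uy _ := rfl

section Inst

variable {A : Type} [TopologicalSpace A] [CompactSpace A] [T2Space A]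

instance H3.instCompactTT (H : H3 A) : CompactSpace H.TT :=
  have : CompactSpace H.T1 := inferInstance
  have : CompactSpace H.T2 := inferInstance
  inferInstance

omit [CompactSpace A] in
instance H3.instT2TT (H : H3 A) : T2Space H.TT :=
  have : T2Space H.T1 := inferInstance
  have : T2Space H.T2 := inferInstance
  inferInstance

instance H3.instLCTT (H : H3 A) : LocallyCompactSpace H.TT := inferInstance

end Inst

theorem MT.unrollTo_hdl_le {A A₂ : Type} [TopologicalSpace A] [TopologicalSpace A₂] {α : C(A, A)}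
    {α₂ : C(A₂, A₂)} (i₀ i₁ : C(A, A₂)) (h0 : ∀ x, α₂ (i₀ x) = i₁ x)
    (h1 : ∀ x, α₂ (i₁ x) = i₀ (α x)) (x : A) (t : I) (ht : (t : ℝ) ≤ 1 / 2) :
    MT.unrollTo i₀ i₁ h0 h1 (ZC.hdl _ _ (x, t)) =
      ZC.hdl _ _ (i₀ x, projIcc 0 1 zero_le_one (2 * (t : ℝ))) := by
  change cat (pre (ZC.hdl (.id _) α₂) i₀) (pre (ZC.hdl (.id _) α₂) i₁)
      (by intro w; simp [h0]) (x, t) = _
  rw [cat_of_le ht]; rfl

theorem MT.unrollTo_hdl_gt {A A₂ : Type} [TopologicalSpace A] [TopologicalSpace A₂] {α : C(A, A)}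
    {α₂ : C(A₂, A₂)} (i₀ i₁ : C(A, A₂)) (h0 : ∀ x, α₂ (i₀ x) = i₁ x)
    (h1 : ∀ x, α₂ (i₁ x) = i₀ (α x)) (x : A) (t : I) (ht : ¬ (t : ℝ) ≤ 1 / 2) :
    MT.unrollTo i₀ i₁ h0 h1 (ZC.hdl _ _ (x, t)) =
      ZC.hdl _ _ (i₁ x, projIcc 0 1 zero_le_one (2 * (t : ℝ) - 1)) := by
  change cat (pre (ZC.hdl (.id _) α₂) i₀) (pre (ZC.hdl (.id _) α₂) i₁)
      (by intro w; simp [h0]) (x, t) = _
  rw [cat_of_gt ht]; rfl

namespace Ch

/-- The one-point `H3`. -/
abbrev h1 : H3 Unit := GS.one.toH3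

/-- The inclusion `V → D`. -/
abbrev c : C(GS.one.V, GS.one.D) := GS.one.inVD
/-- The projection `E → V`. -/
abbrev r : C(GS.one.E, GS.one.V) := GS.one.rE

/-- Step 1: slide along the `s`-handle. -/
theorem step1 : Eqv (DM.inD (c.comp r) r) (DM.inD ((c.comp GS.one.sig).comp r) r) := by
  let H : C(GS.one.V × I, GS.one.D) := (ZC.inA _ _).comp ((ZC.inA _ _).comp (ZC.hdl _ _))
  have H0 : ∀ v, H (v, 0) = c v := fun v => congrArg (fun p => ZC.inA _ _ (ZC.inA _ _ p)) (ZC.hdl_zero v)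
  have H1 : ∀ v, H (v, 1) = c (GS.one.sig v) := fun v =>
    congrArg (fun p => ZC.inA _ _ (ZC.inA _ _ p)) (ZC.hdl_one v)
  exact Eqv.of_eq (DM.isHE_slide (c := c.comp r) (c' := (c.comp GS.one.sig).comp r) (r := r)
    (pre H r) (fun e => H0 _) (fun e => H1 _)) (fun _ => rfl)

/-! #### Unrolling -/

variable (K : Type) [TopologicalSpace K]

theorem homSw0 : ∀ x, hsw.y2 (H3.map2 (H := h1) (H' := hsw) (cst false) (fun _ => rfl) (fun _ => rfl) x) =
    H3.map2 (H := h1) (H' := hsw) (cst true) (fun _ => rfl) (fun _ => rfl) x := by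
  intro x
  have e : hsw.y2 = H3.map2 hsw.y (fun x => (hsw.zy x).symm) (fun x => (hsw.uy x).symm) := rfl
  rw [e, H3.map2_comp]
  exact congrArg (fun f : C(_, _) => f x) (H3.map2_congr (fun _ => rfl))

theorem homSw1 : ∀ x, hsw.y2 (H3.map2 (H := h1) (H' := hsw) (cst true) (fun _ => rfl) (fun _ => rfl) x) =
    H3.map2 (H := h1) (H' := hsw) (cst false) (fun _ => rfl) (fun _ => rfl) (h1.y2 x) := by
  intro x
  have e : hsw.y2 = H3.map2 hsw.y (fun x => (hsw.zy x).symm) (fun x => (hsw.uy x).symm) := rfl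
  have e' : h1.y2 = H3.map2 h1.y (fun x => (h1.zy x).symm) (fun x => (h1.uy x).symm) := rfl
  rw [e, e', H3.map2_comp, H3.map2_comp]
  exact congrArg (fun f : C(_, _) => f x) (H3.map2_congr (fun _ => rfl))

/-- The unrolling of `V`. -/
def unV : C(h1.TT, hsw.TT) :=
  MT.unrollTo (H3.map2 (H := h1) (H' := hsw) (cst false) (fun _ => rfl) (fun _ => rfl))
    (H3.map2 (H := h1) (H' := hsw) (cst true) (fun _ => rfl) (fun _ => rfl)) homSw0 homSw1

theorem isHE_unV : IsHE unV :=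
  MT.isHE_unrollTo _ _ (MT.isHE_sumC_map _ _ (MT.isHE_sumC_map _ _ isHE_sum_unit_bool))

theorem homKSw0 : ∀ x, hsw.K.y2 (H3.map2 (H := h1.K) (H' := hsw.K) (kc false) (fun _ => rfl)
    (fun _ => rfl) x) =
    H3.map2 (H := h1.K) (H' := hsw.K) (kc true) (fun _ => rfl) (fun _ => rfl) x := by
  intro x
  have e : hsw.K.y2 = H3.map2 hsw.K.y (fun x => (hsw.K.zy x).symm) (fun x => (hsw.K.uy x).symm) := rfl
  rw [e, H3.map2_comp]
  exact congrArg (fun f : C(_, _) => f x) (H3.map2_congr (fun _ => rfl))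

theorem homKSw1 : ∀ x, hsw.K.y2 (H3.map2 (H := h1.K) (H' := hsw.K) (kc true) (fun _ => rfl)
    (fun _ => rfl) x) =
    H3.map2 (H := h1.K) (H' := hsw.K) (kc false) (fun _ => rfl) (fun _ => rfl) (h1.K.y2 x) := by
  intro x
  have e : hsw.K.y2 = H3.map2 hsw.K.y (fun x => (hsw.K.zy x).symm) (fun x => (hsw.K.uy x).symm) := rfl
  have e' : h1.K.y2 = H3.map2 h1.K.y (fun x => (h1.K.zy x).symm) (fun x => (h1.K.uy x).symm) := rfl
  rw [e, e', H3.map2_comp, H3.map2_comp]
  exact congrArg (fun f : C(_, _) => f x) (H3.map2_congr (fun _ => rfl))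

/-- The unrolling of `E`. -/
def unE : C(h1.K.TT, hsw.K.TT) :=
  MT.unrollTo (H3.map2 (H := h1.K) (H' := hsw.K) (kc false) (fun _ => rfl) (fun _ => rfl))
    (H3.map2 (H := h1.K) (H' := hsw.K) (kc true) (fun _ => rfl) (fun _ => rfl)) homKSw0 homKSw1

theorem isHE_unE : IsHE unE :=
  MT.isHE_unrollTo _ _ (MT.isHE_sumC_map _ _ (MT.isHE_sumC_map _ _ isHE_sum_kc))

/-- The projection to the point. -/
abbrev f₂ : C(hsw.K.TT, h1.TT) := H3.map3 (H := hsw.K) (H' := h1) (cst ())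
  ⟨fun _ => rfl, fun _ => rfl, fun _ => rfl⟩
/-- The projection to the two points. -/
abbrev r₂ : C(hsw.K.TT, hsw.TT) := H3.map3 .snd H3.K_snd

theorem compat1 (e : h1.K.TT) : GS.one.sig (r e) = f₂ (unE e) := by
  have e0 : ∀ x, GS.one.s2 (H3.map2 (H := h1.K) (H' := h1) .snd (fun _ => rfl) (fun _ => rfl) x) =
      H3.map2 (H := hsw.K) (H' := h1) (cst ()) (fun _ => rfl) (fun _ => rfl)
      (H3.map2 (H := h1.K) (H' := hsw.K) (kc false) (fun _ => rfl) (fun _ => rfl) x) := by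
    intro x
    rw [GS.s2, H3.map2_comp, H3.map2_comp]
    exact congrArg (fun f : C(_, _) => f x) (H3.map2_congr (fun _ => rfl))
  have e1 : ∀ x, h1.y2 (GS.one.s2 (H3.map2 (H := h1.K) (H' := h1) .snd (fun _ => rfl) (fun _ => rfl) x)) =
      H3.map2 (H := hsw.K) (H' := h1) (cst ()) (fun _ => rfl) (fun _ => rfl)
      (H3.map2 (H := h1.K) (H' := hsw.K) (kc true) (fun _ => rfl) (fun _ => rfl) x) := by
    intro x
    have e' : h1.y2 = H3.map2 h1.y (fun x => (h1.zy x).symm) (fun x => (h1.uy x).symm) := rfl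
    rw [e', GS.s2, H3.map2_comp, H3.map2_comp, H3.map2_comp]
    exact congrArg (fun f : C(_, _) => f x) (H3.map2_congr (fun _ => rfl))
  have : GS.one.sig.comp r = f₂.comp unE := by
    apply ZC.hom_ext
    · intro x
      exact congrArg (ZC.inA _ _) (e0 x)
    · rintro ⟨x, t⟩
      by_cases ht : (t : ℝ) ≤ 1 / 2
      · refine (GS.sig_hdl_le _ _ _ ht).trans ?_
        refine Eq.trans ?_ (congrArg f₂ (MT.unrollTo_hdl_le _ _ _ _ _ _ ht)).symm
        exact congrArg (fun y => ZC.hdl _ _ (y, _)) (e0 x)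
      · refine (GS.sig_hdl_gt _ _ _ ht).trans ?_
        refine Eq.trans ?_ (congrArg f₂ (MT.unrollTo_hdl_gt _ _ _ _ _ _ ht)).symm
        exact congrArg (fun y => ZC.hdl _ _ (y, _)) (e1 x)
  exact congrArg (fun f : C(_, _) => f e) this

theorem compat2 (e : h1.K.TT) : unV (r e) = r₂ (unE e) := by
  have e0 : ∀ b, ∀ x, H3.map2 (H := h1) (H' := hsw) (cst b) (fun _ => rfl) (fun _ => rfl)
      (H3.map2 (H := h1.K) (H' := h1) .snd (fun _ => rfl) (fun _ => rfl) x) =
      H3.map2 (H := hsw.K) (H' := hsw) .snd (fun _ => rfl) (fun _ => rfl)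
      (H3.map2 (H := h1.K) (H' := hsw.K) (kc b) (fun _ => rfl) (fun _ => rfl) x) := by
    intro b x
    rw [H3.map2_comp, H3.map2_comp]
    exact congrArg (fun f : C(_, _) => f x) (H3.map2_congr (fun _ => rfl))
  have : unV.comp r = r₂.comp unE := by
    apply ZC.hom_ext
    · intro x
      exact congrArg (ZC.inA _ _) (e0 false x)
    · rintro ⟨x, t⟩
      by_cases ht : (t : ℝ) ≤ 1 / 2
      · refine (MT.unrollTo_hdl_le (α := h1.y2) _ _ homSw0 homSw1 _ _ ht).trans ?_
        refine Eq.trans ?_ (congrArg r₂ (MT.unrollTo_hdl_le _ _ _ _ _ _ ht)).symm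
        exact congrArg (fun y => ZC.hdl _ _ (y, _)) (e0 false x)
      · refine (MT.unrollTo_hdl_gt (α := h1.y2) _ _ homSw0 homSw1 _ _ ht).trans ?_
        refine Eq.trans ?_ (congrArg r₂ (MT.unrollTo_hdl_gt _ _ _ _ _ _ ht)).symm
        exact congrArg (fun y => ZC.hdl _ _ (y, _)) (e0 true x)
  exact congrArg (fun f : C(_, _) => f e) this

/-- Step 2: unroll. -/
theorem step2 : Eqv (DM.inD ((c.comp GS.one.sig).comp r) r) (DM.inD (c.comp f₂) r₂) :=
  Eqv.of_eq (DM.isHE_map (c := (c.comp GS.one.sig).comp r) (r := r) (c' := c.comp f₂) (r' := r₂)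
    (f := .id _) (g := unV) (k := unE) (fun e => congrArg c (compat1 e)) compat2
    IsHE.id isHE_unV isHE_unE) (fun _ => rfl)

end Ch

end

end Pool.H74
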