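import Pool.Agent.H74.Chain2

/-!
The chain of homotopy equivalences, middle part: from the unrolled space to the bundle with fibre
the wedge of two spheres, and the change of the action of `y` by `psi`.
-/

open Topology unitInterval Set

namespace Pool.H74

open Fam

noncomputable section

namespace Ch

/-- `W2` with `y` the exchange. -/
def hWs : H3 W2 where
  z := W2.dbl
  u := W2.neg
  y := W2.swp
  zu x := congrArg (fun f : C(_, _) => f x) W2.dbl_neg
  zy x := congrArg (fun f : C(_, _) => f x) W2.dbl_swp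
  uy x := congrArg (fun f : C(_, _) => f x) W2.neg_swp

/-- `W2` with `y` the reflection of the second sphere. -/
def hWe : H3 W2 where
  z := W2.dbl
  u := W2.neg
  y := W2.eps
  zu x := congrArg (fun f : C(_, _) => f x) W2.dbl_neg
  zy x := congrArg (fun f : C(_, _) => f x) W2.dbl_eps
  uy x := congrArg (fun f : C(_, _) => f x) W2.neg_eps

/-- `K × Bool` with `y` the reflection of the second circle. -/
def hKe : H3 (KC × Bool) where
  z := ⟨fun p => (p.1 + p.1, p.2), by fun_prop⟩
  u := ⟨fun p => (-p.1, p.2), by fun_prop⟩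
  y := ⟨fun q => (if q.2 then -q.1 else q.1, q.2), by
    rw [continuous_prodMk]
    refine ⟨?_, continuous_snd⟩
    rw [continuous_prod_of_discrete_right]
    intro b; cases b
    · simp only [Bool.false_eq_true, if_false]; exact continuous_id
    · simpa using continuous_neg⟩
  zu p := Prod.ext (by simp) rfl
  zy p := by
    rcases p with ⟨k, (_ | _)⟩ <;> simp
  uy p := by
    rcases p with ⟨k, (_ | _)⟩ <;> simp

/-- The constant map to the base point. -/
abbrev pW : C(Unit, W2) := cst W2.pt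

theorem pWs : H3.Hom h1 hWs pW :=
  ⟨fun _ => W2.dbl_pt.symm, fun _ => W2.neg_pt.symm, fun _ => W2.swp_pt.symm⟩

theorem pWe : H3.Hom h1 hWe pW :=
  ⟨fun _ => W2.dbl_pt.symm, fun _ => W2.neg_pt.symm, fun _ => W2.eps_pt.symm⟩

/-- Maps of the ingredients of `A2`. -/
abbrev cU : C(KC × Bool, Unit) := cst ()
abbrev sB : C(KC × Bool, Bool) := .snd

theorem hcs : H3.Hom hsw.K h1 cU := ⟨fun _ => rfl, fun _ => rfl, fun _ => rfl⟩
theorem hss : H3.Hom hsw.K hsw sB := ⟨fun _ => rfl, fun _ => rfl, fun _ => rfl⟩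
theorem hce : H3.Hom hKe h1 cU := ⟨fun _ => rfl, fun _ => rfl, fun _ => rfl⟩
theorem hse : H3.Hom hKe htr sB := ⟨fun _ => rfl, fun _ => rfl, fun _ => rfl⟩

/-- The collapse map. -/
def col : C(DM cU sB, W2) := DM.desc (cst W2.pt) (cst W2.pt) W2.mk (by intro w; simp)
  (by intro w; simp)

theorem isHE_col : IsHE col := by
  have : Coll.collapse = col := by
    apply ZC.hom_ext
    · rintro (x | x) <;> rfl
    · intro p; rfl
  have h := Coll.isHE_collapse
  rwa [this] at h

/-- `A2` with `y` the exchange. -/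
abbrev dS : H3 (DM cU sB) := H3.dm h1 hsw hsw.K hcs hss
/-- `A2` with `y` the reflection. -/
abbrev dE : H3 (DM cU sB) := H3.dm h1 htr hKe hce hse

theorem colS : H3.Hom dS hWs col := by
  refine ⟨fun x => ?_, fun x => ?_, fun x => ?_⟩
  · induction x using DM.ind with
    | h1 x => exact W2.dbl_pt.symm
    | h2 x => exact W2.dbl_pt.symm
    | h3 e t => rfl
  · induction x using DM.ind with
    | h1 x => exact W2.neg_pt.symm
    | h2 x => exact W2.neg_pt.symm
    | h3 e t => rfl
  · induction x using DM.ind with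
    | h1 x => exact W2.swp_pt.symm
    | h2 x => exact W2.swp_pt.symm
    | h3 e t => rfl

theorem colE : H3.Hom dE hWe col := by
  refine ⟨fun x => ?_, fun x => ?_, fun x => ?_⟩
  · induction x using DM.ind with
    | h1 x => exact W2.dbl_pt.symm
    | h2 x => exact W2.dbl_pt.symm
    | h3 e t => rfl
  · induction x using DM.ind with
    | h1 x => exact W2.neg_pt.symm
    | h2 x => exact W2.neg_pt.symm
    | h3 e t => rfl
  · induction x using DM.ind with
    | h1 x => exact W2.eps_pt.symm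
    | h2 x => exact W2.eps_pt.symm
    | h3 e t => rfl

theorem psiH : H3.Hom hWs hWe W2.psi :=
  ⟨fun x => congrArg (fun f : C(_, _) => f x) W2.psi_dbl,
   fun x => congrArg (fun f : C(_, _) => f x) W2.psi_neg,
   fun x => congrArg (fun f : C(_, _) => f x) W2.psi_swp⟩

/-- Leg insertion and exchange, in general. -/
theorem stepA {HV : H3 Bool} {HE : H3 (KC × Bool)} (hc : H3.Hom HE h1 cU) (hr : H3.Hom HE HV sB)
    {HW : H3 W2} (hp : H3.Hom h1 HW pW) (hcol : H3.Hom (H3.dm h1 HV HE hc hr) HW col)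
    [T2Space W2] :
    Eqv (DM.inD (c.comp (H3.map3 cU hc)) (H3.map3 sB hr)) (DM.inD c (H3.map3 pW hp)) := by
  -- leg insertion
  have e1 : Eqv (DM.inD c (DM.inD (H3.map3 cU hc) (H3.map3 sB hr)))
      (DM.inD (c.comp (H3.map3 cU hc)) (H3.map3 sB hr)) :=
    Eqv.of_eq (isHE_legIns c (H3.map3 cU hc) (H3.map3 sB hr)) (fun _ => rfl)
  -- exchange
  have e2 : Eqv (DM.inD c (H3.map3 (DM.inD cU sB) (H3.dm_inD h1 HV HE hc hr)))
      (DM.inD c (DM.inD (H3.map3 cU hc) (H3.map3 sB hr))) := by
    have := DM.isHE_map (c := c) (r := H3.map3 (DM.inD cU sB) (H3.dm_inD h1 HV HE hc hr))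
      (c' := c) (r' := DM.inD (H3.map3 cU hc) (H3.map3 sB hr)) (f := .id _)
      (g := H3.fub3 h1 HV HE hc hr) (k := .id _)
      (fun _ => rfl) (fun x => H3.fub3_inD h1 HV HE hc hr x) IsHE.id (H3.isHE_fub3 _ _ _ _ _)
      IsHE.id
    exact Eqv.of_eq this (fun _ => rfl)
  -- collapse
  have e3 : Eqv (DM.inD c (H3.map3 (DM.inD cU sB) (H3.dm_inD h1 HV HE hc hr)))
      (DM.inD c (H3.map3 pW hp)) := by
    have := DM.isHE_map (c := c) (r := H3.map3 (DM.inD cU sB) (H3.dm_inD h1 HV HE hc hr))
      (c' := c) (r' := H3.map3 pW hp) (f := .id _) (g := H3.map3 col hcol) (k := .id _)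
      (fun _ => rfl) (fun x => (H3.map3_comp _ _ _ _ x).trans
        (congrArg (fun f : C(_, _) => f x) (H3.map3_congr (fun _ => rfl))))
      IsHE.id (H3.isHE_map3 _ isHE_col) IsHE.id
    exact Eqv.of_eq this (fun _ => rfl)
  exact (e1.symm.trans e2.symm).trans e3

/-- The middle part of the chain. -/
theorem stepB [T2Space W2] (hpsi : IsHE (MT.map (α := W2.dbl) (α' := W2.dbl) W2.psi
    (fun x => congrArg (fun f : C(W2, W2) => f x) W2.psi_dbl))) :
    Eqv (DM.inD (c.comp f₂) r₂) (DM.inD (c.comp (H3.map3 cU hce)) (H3.map3 sB hse)) := by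
  have e1 := stepA hcs hss pWs colS
  have e2 := stepA hce hse pWe colE
  have e3 : Eqv (DM.inD c (H3.map3 pW pWs)) (DM.inD c (H3.map3 pW pWe)) := by
    have hh : IsHE (H3.map3 W2.psi psiH) :=
      MT.isHE_map _ (MT.isHE_map _ hpsi)
    have := DM.isHE_map (c := c) (r := H3.map3 pW pWs) (c' := c) (r' := H3.map3 pW pWe)
      (f := .id _) (g := H3.map3 W2.psi psiH) (k := .id _)
      (fun _ => rfl) (fun x => (H3.map3_comp _ _ _ _ x).trans
        (congrArg (fun f : C(_, _) => f x) (H3.map3_congr (fun _ => W2.psi_pt))))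
      IsHE.id hh IsHE.id
    exact Eqv.of_eq this (fun _ => rfl)
  exact (e1.trans e3).trans e2.symm

end Ch

end

end Pool.H74
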