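import Pool.Agent.H74.Chain3

/-!
The chain of homotopy equivalences, last part: decomposition into two summands, sliding the second
one along the `r`-handle and half of the `t`-handle, and unrolling of `D`.
-/

open Topology unitInterval Set

namespace Pool.H74

open Fam

noncomputable section

namespace Ch

/-- `K × Unit` with `y` the reflection. -/
def hK1e : H3 (KC × Unit) where
  z := ⟨fun p => (p.1 + p.1, p.2), by fun_prop⟩
  u := ⟨fun p => (-p.1, p.2), by fun_prop⟩
  y := ⟨fun p => (-p.1, p.2), by fun_prop⟩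
  zu p := Prod.ext (by simp) rfl
  zy p := Prod.ext (by simp) rfl
  uy p := rfl

theorem hre : H3.Hom hK1e h1 (.snd : C(KC × Unit, Unit)) := ⟨fun _ => rfl, fun _ => rfl, fun _ => rfl⟩

/-- The projection of the twisted circle bundle. -/
abbrev rε : C(hK1e.TT, h1.TT) := H3.map3 .snd hre

theorem hv (b : Bool) : H3.Hom h1 htr (cst b : C(Unit, Bool)) :=
  ⟨fun _ => rfl, fun _ => rfl, fun _ => rfl⟩

theorem he0 : H3.Hom h1.K hKe (kc false) := ⟨fun _ => rfl, fun _ => rfl, fun _ => rfl⟩
theorem he1 : H3.Hom hK1e hKe (kc true) := ⟨fun _ => rfl, fun _ => rfl, fun _ => rfl⟩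

/-- Step 8. -/
theorem step8 : Eqv (DM.inD (sumC (c.comp r) (c.comp rε)) (sumMapC r rε))
    (DM.inD (c.comp (H3.map3 cU hce)) (H3.map3 sB hse)) := by
  have hV : IsHE (sumC (H3.map3 (cst false) (hv false)) (H3.map3 (cst true) (hv true))) :=
    MT.isHE_sumC_map _ _ (MT.isHE_sumC_map _ _ (MT.isHE_sumC_map _ _ isHE_sum_unit_bool))
  have hE : IsHE (sumC (H3.map3 (kc false) he0) (H3.map3 (kc true) he1)) :=
    MT.isHE_sumC_map _ _ (MT.isHE_sumC_map _ _ (MT.isHE_sumC_map _ _ isHE_sum_kc))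
  have := DM.isHE_map (c := sumC (c.comp r) (c.comp rε)) (r := sumMapC r rε)
    (c' := c.comp (H3.map3 cU hce)) (r' := H3.map3 sB hse) (f := .id _)
    (g := sumC (H3.map3 (cst false) (hv false)) (H3.map3 (cst true) (hv true)))
    (k := sumC (H3.map3 (kc false) he0) (H3.map3 (kc true) he1)) (by
      rintro (e | e)
      · refine congrArg c ?_
        refine Eq.trans ?_ (H3.map3_comp _ _ he0 hce e).symm
        exact congrArg (fun f : C(_, _) => f e) (H3.map3_congr (fun _ => rfl))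
      · refine congrArg c ?_
        refine Eq.trans ?_ (H3.map3_comp _ _ he1 hce e).symm
        exact congrArg (fun f : C(_, _) => f e) (H3.map3_congr (fun _ => rfl))) (by
      rintro (e | e)
      · refine (H3.map3_comp _ _ H3.K_snd (hv false) e).trans ?_
        refine Eq.trans ?_ (H3.map3_comp _ _ he0 hse e).symm
        exact congrArg (fun f : C(_, _) => f e) (H3.map3_congr (fun _ => rfl))
      · refine (H3.map3_comp _ _ hre (hv true) e).trans ?_
        refine Eq.trans ?_ (H3.map3_comp _ _ he1 hse e).symm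
        exact congrArg (fun f : C(_, _) => f e) (H3.map3_congr (fun _ => rfl)))
    IsHE.id hV hE
  exact Eqv.of_eq this (fun _ => rfl)

/-- One half. -/
def half : I := ⟨1 / 2, by norm_num, by norm_num⟩

/-- The inclusion of `V` at the middle of the `t`-handle. -/
def ch : C(GS.one.V, GS.one.D) :=
  (ZC.hdl _ _).comp ⟨fun v => (GS.one.inB v, half), by fun_prop⟩

/-- The homotopy from `c` to `ch ∘ rho`. -/
def Hr : C(GS.one.V × I, GS.one.D) :=
  cat ((ZC.inA _ _).comp (ZC.hdl _ _))
    ((ZC.hdl _ _).comp ⟨fun p : GS.one.V × I => (GS.one.inB (GS.one.rho p.1),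
      (⟨(p.2 : ℝ) / 2, by have := p.2.2.1; have := p.2.2.2; constructor <;> linarith⟩ : I)),
      by fun_prop⟩) (by
      intro v
      have e : (⟨((0 : I) : ℝ) / 2, by norm_num⟩ : I) = 0 := by ext; simp
      refine (congrArg (ZC.inA _ _) (ZC.hdl_one v)).trans ?_
      change _ = ZC.hdl _ _ (_, (⟨((0 : I) : ℝ) / 2, _⟩ : I))
      rw [e]
      exact (ZC.hdl_zero _).symm)

theorem Hr_zero (v) : Hr (v, 0) = c v := by
  unfold Hr
  rw [cat_zero]
  exact congrArg (ZC.inA _ _) (ZC.hdl_zero v)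

theorem Hr_one (v) : Hr (v, 1) = ch (GS.one.rho v) := by
  unfold Hr
  rw [cat_one]
  have e : (⟨((1 : I) : ℝ) / 2, by norm_num⟩ : I) = half := by ext; simp [half]
  change ZC.hdl _ _ (_, (⟨((1 : I) : ℝ) / 2, _⟩ : I)) = _
  rw [e]
  rfl

/-- Step 9. -/
theorem step9 : Eqv (DM.inD (sumC (c.comp r) (c.comp rε)) (sumMapC r rε))
    (DM.inD (sumC (c.comp r) ((ch.comp GS.one.rho).comp rε)) (sumMapC r rε)) := by
  refine Eqv.of_eq (DM.isHE_slide (c := sumC (c.comp r) (c.comp rε))
    (c' := sumC (c.comp r) ((ch.comp GS.one.rho).comp rε)) (r := sumMapC r rε)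
    (sumProdC (const (c.comp r)) (pre Hr rε)) ?_ ?_) (fun _ => rfl)
  · rintro (e | e)
    · rfl
    · exact Hr_zero _
  · rintro (e | e)
    · rfl
    · exact Hr_one _

/-- The twisted map of circle bundles. -/
def rhoE : C(hK1e.TT, h1.K.TT) :=
  H3.twist3 (H := hK1e) (H' := h1.K) (.id _) (fun _ => rfl) (fun _ => rfl) (fun _ => rfl)

theorem isHE_rhoE : IsHE rhoE := H3.isHE_twist3 _ _ _ IsHE.id

theorem isHE_rho : IsHE GS.one.rho :=
  H3.isHE_twist3 (H := h1) (H' := h1) (g := GS.one.r) GS.one.rz GS.one.ru GS.one.ry IsHE.id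

theorem r_rhoE (e : hK1e.TT) : r (rhoE e) = GS.one.rho (rε e) :=
  H3.twist3_nat (H := hK1e) (H' := h1.K) (K := h1) (K' := h1) _ _ _ _ GS.one.r
    GS.one.rz GS.one.ru GS.one.ry .snd hre .snd
    H3.K_snd (fun _ => rfl) e

/-- Step 10. -/
theorem step10 : Eqv (DM.inD (sumC (c.comp r) ((ch.comp GS.one.rho).comp rε)) (sumMapC r rε))
    (DM.inD (sumC (c.comp r) (ch.comp r)) (sumMapC r r)) := by
  have := DM.isHE_map (c := sumC (c.comp r) ((ch.comp GS.one.rho).comp rε)) (r := sumMapC r rε)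
    (c' := sumC (c.comp r) (ch.comp r)) (r' := sumMapC r r) (f := .id _)
    (g := sumMapC (.id _) GS.one.rho) (k := sumMapC (.id _) rhoE) (by
      rintro (e | e)
      · rfl
      · exact congrArg ch (r_rhoE e).symm) (by
      rintro (e | e)
      · rfl
      · exact congrArg Sum.inr (r_rhoE e).symm)
    IsHE.id (IsHE.id.sumMapC isHE_rho) (IsHE.id.sumMapC isHE_rhoE)
  exact Eqv.of_eq this (fun _ => rfl)

/-! #### The last step -/

theorem hg (b : Bool) : GS.Hom GS.one GS.two (cst b : C(Unit, Bool)) :=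
  ⟨⟨fun _ => rfl, fun _ => rfl, fun _ => rfl⟩, fun _ => rfl, fun _ => rfl⟩

theorem tB0 : ∀ x, GS.two.tB (GS.fB (cst false) (hg false) x) = GS.fB (cst true) (hg true) x := by
  intro x
  have h := GS.fB_comp (cst false) GS.two.t (hg false) GS.two.tHom
  refine (congrArg (fun f : C(_, _) => f x) h).trans ?_
  exact congrArg (fun f : C(_, _) => f x) (GS.fB_congr (fun _ => rfl))

theorem tB1 : ∀ x, GS.two.tB (GS.fB (cst true) (hg true) x) =
    GS.fB (cst false) (hg false) (GS.one.tB x) := by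
  intro x
  have h := GS.fB_comp (cst true) GS.two.t (hg true) GS.two.tHom
  have h' := GS.fB_comp GS.one.t (cst false) GS.one.tHom (hg false)
  refine (congrArg (fun f : C(_, _) => f x) h).trans ?_
  refine Eq.trans ?_ (congrArg (fun f : C(_, _) => f x) h').symm
  exact congrArg (fun f : C(_, _) => f x) (GS.fB_congr (fun _ => rfl))

/-- The unrolling of `D`. -/
def lamT : C(GS.one.D, GS.two.D) :=
  MT.unrollTo (GS.fB (cst false) (hg false)) (GS.fB (cst true) (hg true)) tB0 tB1

theorem isHE_sum_fV : IsHE (sumC (GS.fV (cst false) (hg false)) (GS.fV (cst true) (hg true))) :=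
  MT.isHE_sumC_map (H3.map2_y2 (hg false).toHom) (H3.map2_y2 (hg true).toHom) (MT.isHE_sumC_map _ _ (MT.isHE_sumC_map _ _ isHE_sum_unit_bool))

theorem isHE_sum_fE : IsHE (sumC (GS.fE (cst false) (hg false).toHom)
    (GS.fE (cst true) (hg true).toHom)) :=
  MT.isHE_sumC_map (H3.map2_y2 (H3.K_map (hg false).toHom)) (H3.map2_y2 (H3.K_map (hg true).toHom)) (MT.isHE_sumC_map _ _ (MT.isHE_sumC_map _ _ isHE_sum_kc))

theorem isHE_sum_fB : IsHE (sumC (GS.fB (cst false) (hg false)) (GS.fB (cst true) (hg true))) :=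
  ZC.isHE_sumC_map _ _ _ _ (MT.isHE_sumC_map _ _ isHE_sum_fV) isHE_sum_fV

theorem isHE_lamT : IsHE lamT := MT.isHE_unrollTo _ _ isHE_sum_fB

theorem lamT_c (v) : lamT (c v) = GS.two.inVD (GS.fV (cst false) (hg false) v) := rfl

theorem lamT_ch (v) : lamT (ch v) = GS.two.inVD (GS.fV (cst true) (hg true) v) := by
  refine (MT.unrollTo_hdl_le _ _ tB0 tB1 (GS.one.inB v) half (by simp [half])).trans ?_
  have e : projIcc (0 : ℝ) 1 zero_le_one (2 * ((half : I) : ℝ)) = 1 := by
    have : 2 * ((half : I) : ℝ) = 1 := by simp [half]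
    rw [this]; exact projIcc_right (h := zero_le_one)
  rw [e]
  refine (ZC.hdl_one _).trans ?_
  exact congrArg (ZC.inA _ _) (tB0 _)

/-- Step 11. -/
theorem step11 : ∃ f : C(DM (sumC (c.comp r) (ch.comp r)) (sumMapC r r), GS.two.X), IsHE f ∧
    ∀ x, f (DM.inD _ _ x) = DM.inD _ _ (lamT x) := by
  have := DM.isHE_map (c := sumC (c.comp r) (ch.comp r)) (r := sumMapC r r)
    (c' := GS.two.inVD.comp GS.two.rE) (r' := GS.two.rE) (f := lamT)
    (g := sumC (GS.fV (cst false) (hg false)) (GS.fV (cst true) (hg true)))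
    (k := sumC (GS.fE (cst false) (hg false).toHom) (GS.fE (cst true) (hg true).toHom)) (by
      rintro (e | e)
      · exact (lamT_c _).trans (congrArg _ (GS.rE_fE (hg false) e).symm)
      · exact (lamT_ch _).trans (congrArg _ (GS.rE_fE (hg true) e).symm)) (by
      rintro (e | e)
      · exact (GS.rE_fE (hg false) e).symm
      · exact (GS.rE_fE (hg true) e).symm)
    isHE_lamT isHE_sum_fV isHE_sum_fE
  exact ⟨_, this, fun _ => rfl⟩

/-- `X` is homotopy equivalent to `X_2`, by a map which on `D` is `lamT` up to homotopy. -/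
theorem exists_equiv [T2Space W2] (hpsi : IsHE (MT.map (α := W2.dbl) (α' := W2.dbl) W2.psi
    (fun x => congrArg (fun f : C(W2, W2) => f x) W2.psi_dbl))) :
    ∃ h : C(GS.one.X, GS.two.X), IsHE h ∧
      (h.comp (DM.inD _ _)).Homotopic ((DM.inD _ _).comp lamT) := by
  have e : Eqv (DM.inD (c.comp r) r) (DM.inD (sumC (c.comp r) (ch.comp r)) (sumMapC r r)) :=
    (((step1.trans step2).trans (stepB hpsi)).trans step8.symm).trans (step9.trans step10)
  obtain ⟨f, hf, h1⟩ := e
  obtain ⟨g, hg, h2⟩ := step11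
  refine ⟨g.comp f, hg.comp hf, ?_⟩
  have h3 := hleft g h1
  have h4 : g.comp (DM.inD (sumC (c.comp r) (ch.comp r)) (sumMapC r r)) =
      (DM.inD _ _).comp lamT := by ext x; exact h2 x
  rw [h4] at h3
  exact h3

end Ch

end

end Pool.H74
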