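import Pool.Agent.H74.Sph.W2

/-! Pointed loops in the mapping space of the wedge `W2` of two spheres commute. -/

open Topology unitInterval Set Pool.H74 Pool.H74.Fam

namespace Pool.H74

namespace W2

variable {Y : Type} [TopologicalSpace Y] {T : Type} [TopologicalSpace T]

/-- Maps out of `W2 × T`, for `T` locally compact. -/
noncomputable def descT [LocallyCompactSpace T] (q : C(((KK × Bool) × I) × T, Y)) (y : Y)
    (h : ∀ p, W2Base p → ∀ τ, q (p, τ) = y) : C(W2 × T, Y) :=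
  (desc q.curry (.const _ y) (fun p hp => by ext τ; exact h p hp τ)).uncurry

@[simp] theorem descT_mk [LocallyCompactSpace T] (q : C(((KK × Bool) × I) × T, Y)) (y : Y)
    (h : ∀ p, W2Base p → ∀ τ, q (p, τ) = y) (p : (KK × Bool) × I) (τ : T) :
    descT q y h (mk p, τ) = q (p, τ) := rfl

/-- Clamping to the interval. -/
noncomputable abbrev pj (r : ℝ) : I := projIcc 0 1 zero_le_one r

theorem continuous_pj : Continuous pj := continuous_projIcc

theorem pj_of_ge {r : ℝ} (h : 1 ≤ r) : pj r = 1 := projIcc_of_right_le _ h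
theorem pj_of_le {r : ℝ} (h : r ≤ 0) : pj r = 0 := projIcc_of_le_left _ h
theorem pj_coe (t : I) : pj (t : ℝ) = t := projIcc_val _ t

/-- The triple product in the suspension direction. -/
noncomputable def S1 (g : C(W2, Y)) (q q' : C(W2 × I, Y)) (hp : ∀ t, q (pt, t) = g pt)
    (hp' : ∀ t, q' (pt, t) = g pt) : C(W2 × (I × I), Y) :=
  descT ⟨fun p => if 3 * (p.1.2 : ℝ) ≤ 1 then q (mk (p.1.1, pj (3 * p.1.2)), p.2.1)
      else if 3 * (p.1.2 : ℝ) ≤ 2 then g (mk (p.1.1, pj (2 - 3 * p.1.2)))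
      else q' (mk (p.1.1, pj (3 * p.1.2 - 2)), p.2.2), by
    have hpj := continuous_pj
    refine Continuous.if_le ?_ (Continuous.if_le ?_ ?_ ?_ ?_ ?_) ?_ ?_ ?_
    · fun_prop
    · fun_prop
    · fun_prop
    · fun_prop
    · fun_prop
    · intro p h
      have e1 : pj (2 - 3 * (p.1.2 : ℝ)) = 0 := pj_of_le (by linarith)
      have e2 : pj (3 * (p.1.2 : ℝ) - 2) = 0 := pj_of_le (by linarith)
      rw [e1, e2, mk_zero, hp']
    · fun_prop
    · fun_prop
    · intro p h
      rw [if_pos (by linarith)]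
      have e1 : pj (2 - 3 * (p.1.2 : ℝ)) = 1 := pj_of_ge (by linarith)
      have e2 : pj (3 * (p.1.2 : ℝ)) = 1 := pj_of_ge (by linarith)
      rw [e1, e2, mk_one, hp]⟩ (g pt) (by
    rintro ⟨⟨k, i⟩, r⟩ hb ⟨s, t⟩
    simp only [ContinuousMap.coe_mk]
    rcases hb with h | h | h
    · obtain rfl : k = 0 := h
      split_ifs <;> simp [hp, hp']
    · obtain rfl : r = 0 := h
      rw [if_pos (by simp)]
      have e1 : pj (3 * ((0 : I) : ℝ)) = 0 := pj_of_le (by simp)
      rw [e1, mk_zero, hp]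
    · obtain rfl : r = 1 := h
      rw [if_neg (by norm_num), if_neg (by norm_num)]
      have e1 : pj (3 * ((1 : I) : ℝ) - 2) = 1 := pj_of_ge (by norm_num)
      rw [e1, mk_one, hp'])

/-- Cancelling on the right. -/
noncomputable def S2 (g : C(W2, Y)) (q : C(W2 × I, Y)) (hp : ∀ t, q (pt, t) = g pt) :
    C(W2 × (I × I), Y) :=
  descT ⟨fun p => if (3 - 2 * (p.2.2 : ℝ)) * (p.1.2 : ℝ) ≤ 1 then
        q (mk (p.1.1, pj ((3 - 2 * (p.2.2 : ℝ)) * p.1.2)), p.2.1)
      else g (mk (p.1.1, pj (max (2 - (3 - 2 * (p.2.2 : ℝ)) * p.1.2)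
        ((3 - 2 * (p.2.2 : ℝ)) * p.1.2 - 2 + 2 * p.2.2)))), by
    have hpj := continuous_pj
    refine Continuous.if_le ?_ ?_ ?_ ?_ ?_
    · fun_prop
    · fun_prop
    · fun_prop
    · fun_prop
    · intro p h
      rw [h]
      have e1 : pj (max (2 - (1 : ℝ)) (1 - 2 + 2 * (p.2.2 : ℝ))) = 1 :=
        pj_of_ge (le_max_of_le_left (by norm_num))
      have e2 : pj 1 = 1 := pj_of_ge le_rfl
      rw [e1, e2, mk_one, hp]⟩ (g pt) (by
    rintro ⟨⟨k, i⟩, r⟩ hb ⟨s, t⟩
    simp only [ContinuousMap.coe_mk]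
    rcases hb with h | h | h
    · obtain rfl : k = 0 := h
      split_ifs <;> simp [hp]
    · obtain rfl : r = 0 := h
      rw [if_pos (by simp)]
      have e1 : pj ((3 - 2 * (t : ℝ)) * ((0 : I) : ℝ)) = 0 := pj_of_le (by simp)
      rw [e1, mk_zero, hp]
    · obtain rfl : r = 1 := h
      have ht := t.2.2
      split_ifs with hle
      · have e1 : pj ((3 - 2 * (t : ℝ)) * ((1 : I) : ℝ)) = 1 := pj_of_ge (by simp; linarith)
        rw [e1, mk_one, hp]
      · have e1 : pj (max (2 - (3 - 2 * (t : ℝ)) * ((1 : I) : ℝ))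
            ((3 - 2 * (t : ℝ)) * ((1 : I) : ℝ) - 2 + 2 * t)) = 1 :=
          pj_of_ge (le_max_of_le_right (by simp; linarith))
        rw [e1, mk_one])

/-- Cancelling on the left. -/
noncomputable def S3 (g : C(W2, Y)) (q : C(W2 × I, Y)) (hp : ∀ t, q (pt, t) = g pt) :
    C(W2 × (I × I), Y) :=
  descT ⟨fun p => if (3 - 2 * (p.2.2 : ℝ)) * (1 - (p.1.2 : ℝ)) ≤ 1 then
        q (mk (p.1.1, pj (1 - (3 - 2 * (p.2.2 : ℝ)) * (1 - p.1.2))), p.2.1)
      else g (mk (p.1.1, pj (1 - max (2 - (3 - 2 * (p.2.2 : ℝ)) * (1 - p.1.2))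
        ((3 - 2 * (p.2.2 : ℝ)) * (1 - p.1.2) - 2 + 2 * p.2.2)))), by
    have hpj := continuous_pj
    refine Continuous.if_le ?_ ?_ ?_ ?_ ?_
    · fun_prop
    · fun_prop
    · fun_prop
    · fun_prop
    · intro p h
      rw [h]
      have e1 : pj (1 - max (2 - (1 : ℝ)) (1 - 2 + 2 * (p.2.2 : ℝ))) = 0 :=
        pj_of_le (by
          have : (1 : ℝ) ≤ max (2 - (1 : ℝ)) (1 - 2 + 2 * (p.2.2 : ℝ)) :=
            le_max_of_le_left (by norm_num)
          linarith)
      have e2 : pj (1 - 1) = 0 := pj_of_le (by norm_num)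
      rw [e1, e2, mk_zero, hp]⟩ (g pt) (by
    rintro ⟨⟨k, i⟩, r⟩ hb ⟨s, t⟩
    simp only [ContinuousMap.coe_mk]
    rcases hb with h | h | h
    · obtain rfl : k = 0 := h
      split_ifs <;> simp [hp]
    · obtain rfl : r = 0 := h
      have ht := t.2.2
      split_ifs with hle
      · have e1 : pj (1 - (3 - 2 * (t : ℝ)) * (1 - ((0 : I) : ℝ))) = 0 :=
          pj_of_le (by simp; linarith)
        rw [e1, mk_zero, hp]
      · have e1 : pj (1 - max (2 - (3 - 2 * (t : ℝ)) * (1 - ((0 : I) : ℝ)))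
            ((3 - 2 * (t : ℝ)) * (1 - ((0 : I) : ℝ)) - 2 + 2 * t)) = 0 :=
          pj_of_le (by
            have : (1 : ℝ) ≤ max (2 - (3 - 2 * (t : ℝ)) * (1 - ((0 : I) : ℝ)))
              ((3 - 2 * (t : ℝ)) * (1 - ((0 : I) : ℝ)) - 2 + 2 * t) :=
              le_max_of_le_right (by simp; linarith)
            linarith)
        rw [e1, mk_zero]
    · obtain rfl : r = 1 := h
      rw [if_pos (by simp)]
      have e1 : pj (1 - (3 - 2 * (t : ℝ)) * (1 - ((1 : I) : ℝ))) = 1 := pj_of_ge (by simp)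
      rw [e1, mk_one, hp])

theorem hom_extI {T : Type} [TopologicalSpace T] {f f' : C(W2 × T, Y)}
    (h : ∀ k i r τ, f (mk ((k, i), r), τ) = f' (mk ((k, i), r), τ)) : f = f' := by
  ext ⟨w, τ⟩
  induction w using ind with
  | h k i r => exact h k i r τ

theorem S1_mk (g : C(W2, Y)) (q q' : C(W2 × I, Y)) (hp : ∀ t, q (pt, t) = g pt)
    (hp' : ∀ t, q' (pt, t) = g pt) (z : KK × Bool) (r s t : I) :
    S1 g q q' hp hp' (mk (z, r), (s, t)) =
      if 3 * (r : ℝ) ≤ 1 then q (mk (z, pj (3 * r)), s)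
      else if 3 * (r : ℝ) ≤ 2 then g (mk (z, pj (2 - 3 * r)))
      else q' (mk (z, pj (3 * r - 2)), t) := rfl

theorem S2_mk (g : C(W2, Y)) (q : C(W2 × I, Y)) (hp : ∀ t, q (pt, t) = g pt)
    (z : KK × Bool) (r s t : I) :
    S2 g q hp (mk (z, r), (s, t)) =
      if (3 - 2 * (t : ℝ)) * (r : ℝ) ≤ 1 then q (mk (z, pj ((3 - 2 * (t : ℝ)) * r)), s)
      else g (mk (z, pj (max (2 - (3 - 2 * (t : ℝ)) * r)
        ((3 - 2 * (t : ℝ)) * r - 2 + 2 * t)))) := rfl

theorem S3_mk (g : C(W2, Y)) (q : C(W2 × I, Y)) (hp : ∀ t, q (pt, t) = g pt)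
    (z : KK × Bool) (r s t : I) :
    S3 g q hp (mk (z, r), (s, t)) =
      if (3 - 2 * (t : ℝ)) * (1 - (r : ℝ)) ≤ 1 then
        q (mk (z, pj (1 - (3 - 2 * (t : ℝ)) * (1 - r))), s)
      else g (mk (z, pj (1 - max (2 - (3 - 2 * (t : ℝ)) * (1 - r))
        ((3 - 2 * (t : ℝ)) * (1 - r) - 2 + 2 * t)))) := rfl

/-- The cases needed at the start of the second homotopy. -/
theorem S2_zero (g : C(W2, Y)) (q q' : C(W2 × I, Y)) (hp : ∀ t, q (pt, t) = g pt)
    (hp' : ∀ t, q' (pt, t) = g pt) (w : W2) (s t : I) (ht : ∀ w, q' (w, t) = g w) :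
    S2 g q hp (w, (s, 0)) = S1 g q q' hp hp' (w, (s, t)) := by
  induction w using ind with
  | h k i r =>
    rw [S2_mk, S1_mk]
    simp only [Set.Icc.coe_zero, mul_zero, sub_zero, add_zero]
    by_cases h1 : 3 * (r : ℝ) ≤ 1
    · rw [if_pos h1, if_pos h1]
    · rw [if_neg h1, if_neg h1]
      by_cases h2 : 3 * (r : ℝ) ≤ 2
      · rw [if_pos h2, max_eq_left (by linarith)]
      · rw [if_neg h2, max_eq_right (by linarith), ht]

theorem S2_one (g : C(W2, Y)) (q : C(W2 × I, Y)) (hp : ∀ t, q (pt, t) = g pt)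
    (w : W2) (s : I) : S2 g q hp (w, (s, 1)) = q (w, s) := by
  induction w using ind with
  | h k i r =>
    rw [S2_mk]
    have hr := r.2.2
    have e : (3 - 2 * ((1 : I) : ℝ)) * (r : ℝ) = r := by simp; norm_num
    rw [e, if_pos hr, pj_coe]

theorem S3_zero (g : C(W2, Y)) (q q' : C(W2 × I, Y)) (hp : ∀ t, q (pt, t) = g pt)
    (hp' : ∀ t, q' (pt, t) = g pt) (w : W2) (s t : I) (hs : ∀ w, q (w, s) = g w) :
    S3 g q' hp' (w, (t, 0)) = S1 g q q' hp hp' (w, (s, t)) := by
  induction w using ind with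
  | h k i r =>
    rw [S3_mk, S1_mk]
    simp only [Set.Icc.coe_zero, mul_zero, sub_zero, add_zero]
    by_cases h1 : 3 * (r : ℝ) ≤ 1
    · rw [if_pos h1, if_neg (by linarith), max_eq_right (by linarith), hs]
      congr 4
      ring
    · rw [if_neg h1]
      by_cases h2 : 3 * (r : ℝ) < 2
      · rw [if_neg (by linarith), if_pos h2.le, max_eq_left (by linarith)]
        congr 4
        ring_nf
      · rw [if_pos (by linarith)]
        by_cases h3 : 3 * (r : ℝ) ≤ 2
        · rw [if_pos h3, pj_of_le (by linarith), pj_of_le (by linarith), mk_zero, hp']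
        · rw [if_neg h3]
          congr 4
          ring

theorem S3_one (g : C(W2, Y)) (q : C(W2 × I, Y)) (hp : ∀ t, q (pt, t) = g pt)
    (w : W2) (s : I) : S3 g q hp (w, (s, 1)) = q (w, s) := by
  induction w using ind with
  | h k i r =>
    rw [S3_mk]
    have hr := r.2.1
    have e : (3 - 2 * ((1 : I) : ℝ)) * (1 - (r : ℝ)) = 1 - r := by simp; norm_num
    rw [e, if_pos (by linarith), sub_sub_cancel, pj_coe]

/-- Swapping coordinates to the shape of `cl_square`. -/
def toSq (S : C(W2 × (I × I), Y)) : C((W2 × I) × I, Y) :=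
  S.comp ⟨fun p => (p.1.1, (p.1.2, p.2)), by fun_prop⟩

@[simp] theorem toSq_apply (S : C(W2 × (I × I), Y)) (w : W2) (s t : I) :
    toSq S ((w, s), t) = S (w, (s, t)) := rfl

theorem comm_loops (g : C(W2, Y)) (q q' : C(W2 × I, Y))
    (h0 : ∀ w, q (w, 0) = g w) (h1 : ∀ w, q (w, 1) = g w) (h0' : ∀ w, q' (w, 0) = g w)
    (h1' : ∀ w, q' (w, 1) = g w) (hp : ∀ t, q (W2.pt, t) = g W2.pt)
    (hp' : ∀ t, q' (W2.pt, t) = g W2.pt) :
    (cl q g g h0 h1).trans (cl q' g g h0' h1') = (cl q' g g h0' h1').trans (cl q g g h0 h1) := by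
  -- constant families
  have hcp : ∀ t, (const g : C(W2 × I, Y)) (pt, t) = g pt := fun t => rfl
  -- the point `μ(g, g)`
  let m : C(W2, Y) := ⟨fun w => S1 g (const g) (const g) hcp hcp (w, (0, 0)), by fun_prop⟩
  -- the paths from `m` to `g`
  let u : C(W2 × I, Y) := ⟨fun p => S2 g (const g) hcp (p.1, (0, p.2)), by fun_prop⟩
  let v : C(W2 × I, Y) := ⟨fun p => S3 g (const g) hcp (p.1, (0, p.2)), by fun_prop⟩
  -- the first slot only depends on the value
  have dep1 : ∀ (a b : C(W2 × I, Y)) (ha : ∀ t, a (pt, t) = g pt) (hb : ∀ t, b (pt, t) = g pt)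
      (a' b' : C(W2 × I, Y)) (ha' : ∀ t, a' (pt, t) = g pt) (hb' : ∀ t, b' (pt, t) = g pt)
      (s t s' t' : I) (w : W2), (∀ w, a (w, s) = a' (w, s')) → (∀ w, b (w, t) = b' (w, t')) →
      S1 g a b ha hb (w, (s, t)) = S1 g a' b' ha' hb' (w, (s', t')) := by
    intro a b ha hb a' b' ha' hb' s t s' t' w e e'
    induction w using ind with
    | h k i r => rw [S1_mk, S1_mk, e, e']
  have dep2 : ∀ (a a' : C(W2 × I, Y)) (ha : ∀ t, a (pt, t) = g pt)
      (ha' : ∀ t, a' (pt, t) = g pt) (s s' t : I) (w : W2), (∀ w, a (w, s) = a' (w, s')) →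
      S2 g a ha (w, (s, t)) = S2 g a' ha' (w, (s', t)) := by
    intro a a' ha ha' s s' t w e
    induction w using ind with
    | h k i r => rw [S2_mk, S2_mk, e]
  have dep3 : ∀ (a a' : C(W2 × I, Y)) (ha : ∀ t, a (pt, t) = g pt)
      (ha' : ∀ t, a' (pt, t) = g pt) (s s' t : I) (w : W2), (∀ w, a (w, s) = a' (w, s')) →
      S3 g a ha (w, (s, t)) = S3 g a' ha' (w, (s', t)) := by
    intro a a' ha ha' s s' t w e
    induction w using ind with
    | h k i r => rw [S3_mk, S3_mk, e]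
  have u0 : ∀ w, u (w, 0) = m w :=
    fun w => S2_zero g (const g) (const g) hcp hcp w 0 0 (fun _ => rfl)
  have u1 : ∀ w, u (w, 1) = g w := fun w => S2_one g (const g) hcp w 0
  have v0 : ∀ w, v (w, 0) = m w :=
    fun w => S3_zero g (const g) (const g) hcp hcp w 0 0 (fun _ => rfl)
  have v1 : ∀ w, v (w, 1) = g w := fun w => S3_one g (const g) hcp w 0
  have upt : ∀ t, u (pt, t) = g pt := fun t => by
    change S2 g (const g) hcp (mk ((0, false), 0), (0, t)) = _
    rw [S2_mk]; simp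
  have vpt : ∀ t, v (pt, t) = g pt := fun t => by
    change S3 g (const g) hcp (mk ((0, false), 0), (0, t)) = _
    rw [S3_mk]; simp
  -- the key commutation, for arbitrary pointed loops
  have key : ∀ (q' : C(W2 × I, Y)) (h0' : ∀ w, q' (w, 0) = g w) (h1' : ∀ w, q' (w, 1) = g w)
      (hp' : ∀ t, q' (W2.pt, t) = g W2.pt),
      (cl v m g v0 v1).trans ((cl q' g g h0' h1').trans ((cl v m g v0 v1).symm.trans
        ((cl u m g u0 u1).trans ((cl q g g h0 h1).trans (cl u m g u0 u1).symm)))) =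
      (cl u m g u0 u1).trans ((cl q g g h0 h1).trans ((cl u m g u0 u1).symm.trans
        ((cl v m g v0 v1).trans ((cl q' g g h0' h1').trans (cl v m g v0 v1).symm)))) := by
    intro q' h0' h1' hp'
    let R : C(W2 × I, Y) := ⟨fun p => S1 g q (const g) hp hcp (p.1, (p.2, 0)), by fun_prop⟩
    let B : C(W2 × I, Y) := ⟨fun p => S1 g (const g) q' hcp hp' (p.1, (0, p.2)), by fun_prop⟩
    have R0 : ∀ w, R (w, 0) = m w := fun w =>
      dep1 q (const g) hp hcp (const g) (const g) hcp hcp 0 0 0 0 w h0 (fun _ => rfl)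
    have R1 : ∀ w, R (w, 1) = m w := fun w =>
      dep1 q (const g) hp hcp (const g) (const g) hcp hcp 1 0 0 0 w h1 (fun _ => rfl)
    have B0 : ∀ w, B (w, 0) = m w := fun w =>
      dep1 (const g) q' hcp hp' (const g) (const g) hcp hcp 0 0 0 0 w (fun _ => rfl) h0'
    have B1 : ∀ w, B (w, 1) = m w := fun w =>
      dep1 (const g) q' hcp hp' (const g) (const g) hcp hcp 0 1 0 0 w (fun _ => rfl) h1'
    have c1 : (cl B m m B0 B1).trans (cl R m m R0 R1) = (cl R m m R0 R1).trans (cl B m m B0 B1) := by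
      apply cl_square (S := toSq (S1 g q q' hp hp'))
      · intro w t
        exact dep1 (const g) q' hcp hp' q q' hp hp' 0 t 0 t w (fun w => (h0 w).symm) (fun _ => rfl)
      · intro w s
        exact dep1 q (const g) hp hcp q q' hp hp' s 0 s 1 w (fun _ => rfl) (fun w => (h1' w).symm)
      · intro w s
        exact dep1 q (const g) hp hcp q q' hp hp' s 0 s 0 w (fun _ => rfl) (fun w => (h0' w).symm)
      · intro w t
        exact dep1 (const g) q' hcp hp' q q' hp hp' 0 t 1 t w (fun w => (h1 w).symm) (fun _ => rfl)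
    have c2 : (cl u m g u0 u1).trans (cl q g g h0 h1) = (cl R m m R0 R1).trans (cl u m g u0 u1) := by
      apply cl_square (S := toSq (S2 g q hp))
      · intro w t; exact dep2 (const g) q hcp hp 0 0 t w (fun w => (h0 w).symm)
      · intro w s; exact (S2_one g q hp w s).symm
      · intro w s; exact (S2_zero g q (const g) hp hcp w s 0 (fun _ => rfl)).symm
      · intro w t; exact dep2 (const g) q hcp hp 0 1 t w (fun w => (h1 w).symm)
    have c3 : (cl v m g v0 v1).trans (cl q' g g h0' h1') = (cl B m m B0 B1).trans (cl v m g v0 v1) := by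
      apply cl_square (S := toSq (S3 g q' hp'))
      · intro w t; exact dep3 (const g) q' hcp hp' 0 0 t w (fun w => (h0' w).symm)
      · intro w s; exact (S3_one g q' hp' w s).symm
      · intro w s; exact (S3_zero g (const g) q' hcp hp' w 0 s (fun _ => rfl)).symm
      · intro w t; exact dep3 (const g) q' hcp hp' 0 1 t w (fun w => (h1' w).symm)
    have r1 : cl R m m R0 R1 =
        (cl u m g u0 u1).trans ((cl q g g h0 h1).trans (cl u m g u0 u1).symm) := by
      rw [← Path.Homotopic.Quotient.trans_assoc, c2, Path.Homotopic.Quotient.trans_assoc,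
        Path.Homotopic.Quotient.trans_symm, Path.Homotopic.Quotient.trans_refl]
    have b1 : cl B m m B0 B1 =
        (cl v m g v0 v1).trans ((cl q' g g h0' h1').trans (cl v m g v0 v1).symm) := by
      rw [← Path.Homotopic.Quotient.trans_assoc, c3, Path.Homotopic.Quotient.trans_assoc,
        Path.Homotopic.Quotient.trans_symm, Path.Homotopic.Quotient.trans_refl]
    rw [r1, b1] at c1
    simpa only [Path.Homotopic.Quotient.trans_assoc] using c1
  -- the conjugating loop
  let w0 : C(W2 × I, Y) := Fam.cat (rev u) v (by intro w; simp [u0, v0])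
  have w00 : ∀ w, w0 (w, 0) = g w := by intro w; simp [w0, u1]
  have w01 : ∀ w, w0 (w, 1) = g w := by intro w; simp [w0, v1]
  have catpt : ∀ (a b : C(W2 × I, Y)) (h : ∀ w, a (w, 1) = b (w, 0)),
      (∀ t, a (pt, t) = g pt) → (∀ t, b (pt, t) = g pt) → ∀ t, Fam.cat a b h (pt, t) = g pt := by
    intro a b h ha hb t
    by_cases ht : (t : ℝ) ≤ 1 / 2
    · rw [cat_of_le ht, ha]
    · rw [cat_of_gt ht, hb]
  have w0pt : ∀ t, w0 (pt, t) = g pt :=
    catpt _ _ _ (fun t => by rw [rev_apply, upt]) vpt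
  have w0cl : cl w0 g g w00 w01 = (cl u m g u0 u1).symm.trans (cl v m g v0 v1) := by
    rw [← cl_rev]
    exact cl_cat g m g (fun w => by simp [u1]) (fun w => by simp [u0]) v1
  have e1 : ∀ w, rev w0 (w, 1) = q' (w, 0) := by intro w; rw [rev_apply, symm_one, w00, h0']
  let q1 : C(W2 × I, Y) := Fam.cat (rev w0) q' e1
  have e2 : ∀ w, q1 (w, 1) = w0 (w, 0) := by intro w; rw [w00]; simp [q1, h1']
  let q2 : C(W2 × I, Y) := Fam.cat q1 w0 e2
  have q10 : ∀ w, q1 (w, 0) = g w := by intro w; simp [q1, w01]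
  have q11 : ∀ w, q1 (w, 1) = g w := by intro w; simp [q1, h1']
  have q20 : ∀ w, q2 (w, 0) = g w := by intro w; simp [q2, q10]
  have q21 : ∀ w, q2 (w, 1) = g w := by intro w; simp [q2, w01]
  have q2pt : ∀ t, q2 (pt, t) = g pt :=
    catpt _ _ _ (catpt _ _ _ (fun t => by rw [rev_apply, w0pt]) hp') w0pt
  have q2cl : cl q2 g g q20 q21 = ((cl w0 g g w00 w01).symm.trans (cl q' g g h0' h1')).trans
      (cl w0 g g w00 w01) := by
    rw [← cl_rev]
    have a1 : cl q1 g g q10 q11 = (cl (rev w0) g g (fun w => by simp [w01])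
        (fun w => by simp [w00])).trans (cl q' g g h0' h1') :=
      cl_cat g g g (fun w => by simp [w01]) (fun w => by simp [w00]) h1'
    rw [← a1]
    exact cl_cat g g g q10 q11 w01
  have k := key q2 q20 q21 q2pt
  rw [q2cl, w0cl] at k
  simp only [PHQ.trans_symm_rev, PHQ.symm_symm, Path.Homotopic.Quotient.trans_assoc,
    PHQ.trans_symm_cancel_left, PHQ.symm_trans_cancel_left, Path.Homotopic.Quotient.trans_symm,
    Path.Homotopic.Quotient.trans_refl] at k
  -- k : u q' q u⁻¹ = u q q' u⁻¹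
  have k2 := PHQ.trans_cancel_left k
  rw [← Path.Homotopic.Quotient.trans_assoc, ← Path.Homotopic.Quotient.trans_assoc] at k2
  exact (PHQ.trans_cancel_right k2).symm

end W2

end Pool.H74
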