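import Pool.Agent.H74.Comm
import Pool.Agent.H74.Alpha
import Pool.Agent.H74.ZC.Tw

/-!
`W2` is a Hausdorff space, and the map of the mapping torus of the doubling induced by `psi` is a
homotopy equivalence.
-/

open Topology unitInterval Set

namespace Pool.H74

namespace W2

/-- The height function. -/
noncomputable def wt (k : KK) (t : I) : ℝ :=
  (t : ℝ) * (1 - t) * ‖(1 : ℂ) - ((AddCircle.toCircle k : Circle) : ℂ)‖

theorem toCircle_eq_one {k : KK} (h : ((AddCircle.toCircle k : Circle) : ℂ) = 1) : k = 0 := by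
  apply AddCircle.injective_toCircle (T := (1 : ℝ)) one_ne_zero
  rw [AddCircle.toCircle_zero]
  exact Subtype.ext h

theorem wt_eq_zero {k : KK} {t : I} (h : wt k t = 0) : k = 0 ∨ t = 0 ∨ t = 1 := by
  rcases mul_eq_zero.1 h with h | h
  · rcases mul_eq_zero.1 h with h | h
    · exact .inr (.inl (Subtype.ext h))
    · exact .inr (.inr (Subtype.ext (by simpa using (sub_eq_zero.1 h).symm)))
  · left
    exact toCircle_eq_one (sub_eq_zero.1 (norm_eq_zero.1 h)).symm

theorem continuous_wt : Continuous fun p : KK × I => wt p.1 p.2 := by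
  unfold wt
  have h1 : Continuous fun p : KK × I => ((AddCircle.toCircle p.1 : Circle) : ℂ) :=
    continuous_subtype_val.comp (AddCircle.continuous_toCircle.comp continuous_fst)
  fun_prop

/-- The separating map on one sphere. -/
noncomputable def sepf : C(KK × I, ℝ × ℂ × ℝ) where
  toFun p := (wt p.1 p.2, (wt p.1 p.2 : ℂ) * ((AddCircle.toCircle p.1 : Circle) : ℂ),
    wt p.1 p.2 * p.2)
  continuous_toFun := by
    have h0 := continuous_wt
    have h1 : Continuous fun p : KK × I => ((AddCircle.toCircle p.1 : Circle) : ℂ) :=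
      continuous_subtype_val.comp (AddCircle.continuous_toCircle.comp continuous_fst)
    fun_prop

theorem sepf_inj {k k' : KK} {t t' : I} (h : sepf (k, t) = sepf (k', t')) (h0 : wt k t ≠ 0) :
    k = k' ∧ t = t' := by
  have h1 : wt k t = wt k' t' := congrArg Prod.fst h
  have h2 : (wt k t : ℂ) * ((AddCircle.toCircle k : Circle) : ℂ) =
      (wt k' t' : ℂ) * ((AddCircle.toCircle k' : Circle) : ℂ) := congrArg (fun x => x.2.1) h
  have h3 : wt k t * (t : ℝ) = wt k' t' * t' := congrArg (fun x => x.2.2) h
  rw [← h1] at h2 h3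
  constructor
  · have h4 := mul_left_cancel₀ (Complex.ofReal_ne_zero.2 h0) h2
    exact AddCircle.injective_toCircle (T := (1 : ℝ)) one_ne_zero (Subtype.ext h4)
  · exact Subtype.ext (mul_left_cancel₀ h0 h3)

theorem sepf_base {k : KK} {t : I} (h : k = 0 ∨ t = 0 ∨ t = 1) : sepf (k, t) = 0 := by
  have h0 : wt k t = 0 := by
    rcases h with rfl | rfl | rfl
    · simp [wt, AddCircle.toCircle_zero]
    · simp [wt]
    · simp [wt]
  change (_, _, _) = (0 : ℝ × ℂ × ℝ)
  simp [h0]

/-- The separating map. -/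
noncomputable def sepg : C((KK × Bool) × I, (ℝ × ℂ × ℝ) × (ℝ × ℂ × ℝ)) where
  toFun p := (if p.1.2 then 0 else sepf (p.1.1, p.2), if p.1.2 then sepf (p.1.1, p.2) else 0)
  continuous_toFun := by
    have e : Continuous fun p : (KK × I) × Bool =>
        ((if p.2 then 0 else sepf p.1, if p.2 then sepf p.1 else 0) :
          (ℝ × ℂ × ℝ) × (ℝ × ℂ × ℝ)) := by
      rw [continuous_prod_of_discrete_right]
      intro b
      cases b
      · simp only [Bool.false_eq_true, if_false]; fun_prop
      · simp only [if_true]; fun_prop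
    exact e.comp (by fun_prop : Continuous fun p : (KK × Bool) × I => ((p.1.1, p.2), p.1.2))

/-- The injective map out of `W2`. -/
noncomputable def sep : C(W2, (ℝ × ℂ × ℝ) × (ℝ × ℂ × ℝ)) :=
  desc sepg 0 (by
    rintro ⟨⟨k, i⟩, t⟩ h
    change ((if i then 0 else sepf (k, t), if i then sepf (k, t) else 0) :
          (ℝ × ℂ × ℝ) × (ℝ × ℂ × ℝ)) = 0
    rw [sepf_base h]
    cases i <;> simp)

theorem sep_mk (k : KK) (i : Bool) (t : I) : sep (mk ((k, i), t)) =
    (if i then 0 else sepf (k, t), if i then sepf (k, t) else 0) := rfl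

theorem sepf_ne_zero {k : KK} {t : I} (h : wt k t ≠ 0) : sepf (k, t) ≠ 0 :=
  fun e => h (congrArg Prod.fst e)

theorem sep_injective : Function.Injective sep := by
  intro x y
  induction x using ind with
  | h k i t =>
    induction y using ind with
    | h k' i' t' =>
      intro e
      rw [sep_mk, sep_mk] at e
      have e1 := congrArg Prod.fst e
      have e2 := congrArg Prod.snd e
      by_cases hb : wt k t = 0
      · have hb1 := wt_eq_zero hb
        rw [sepf_base hb1] at e1 e2
        have hb' : wt k' t' = 0 := by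
          by_contra hne
          have := sepf_ne_zero hne
          cases i <;> cases i' <;> simp at e1 e2 <;> first | exact this e1.symm | exact this e2.symm
        rw [mk_base (p := ((k, i), t)) hb1, mk_base (p := ((k', i'), t')) (wt_eq_zero hb')]
      · have h1 := sepf_ne_zero hb
        cases i <;> cases i' <;> simp at e1 e2
        · obtain ⟨rfl, rfl⟩ := sepf_inj e1 hb
          rfl
        · exact absurd e1 h1
        · exact absurd e2 h1
        · obtain ⟨rfl, rfl⟩ := sepf_inj e2 hb
          rfl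

instance : T2Space W2 := T2Space.of_injective_continuous sep_injective sep.continuous

open Fam

theorem isHE_map_psi : IsHE (MT.map (α := W2.dbl) (α' := W2.dbl) W2.psi
    (fun x => congrArg (fun f : C(W2, W2) => f x) W2.psi_dbl)) := by
  obtain ⟨α, α0, α1, αp⟩ := exists_alpha
  have hf : ∀ x, psi (dbl x) = dbl (psi x) :=
    fun x => congrArg (fun f : C(W2, W2) => f x) W2.psi_dbl
  have hc : ∀ w, rev (dbl.comp α) (w, 1) = pre α dbl (w, 0) := by
    intro w; simp [α0, hf]
  have k0 : ∀ x, Fam.cat (rev (dbl.comp α)) (pre α dbl) hc (x, 0) = dbl (dbl x) := by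
    intro x; simp [α1]
  have k1 : ∀ x, Fam.cat (rev (dbl.comp α)) (pre α dbl) hc (x, 1) = dbl (dbl x) := by
    intro x; simp [α1]
  have kp : ∀ t, Fam.cat (rev (dbl.comp α)) (pre α dbl) hc (pt, t) = pt := by
    intro t
    by_cases ht : (t : ℝ) ≤ 1 / 2
    · rw [cat_of_le ht]; simp [αp]
    · rw [cat_of_gt ht]; simp [αp]
  refine MT.isHE_of_sq dbl psi α α0 α1 hf (Fam.cat (rev (dbl.comp α)) (pre α dbl) hc) rfl k0 k1 ?_
  unfold MT.Comm3
  refine comm_loops ((dbl.comp dbl).comp dbl) _ _ _ _ _ _ ?_ ?_
  · intro t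
    change Fam.cat (rev (dbl.comp α)) (pre α dbl) hc (dbl pt, t) = _
    simp [kp]
  · intro t
    change dbl (Fam.cat (rev (dbl.comp α)) (pre α dbl) hc (pt, t)) = _
    simp [kp]

end W2

end Pool.H74
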