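import Pool.Agent.H74.Chain4
import Pool.Agent.H74.Psi

/-!
A homotopy equivalence from `X` to its double cover which is given on `D` by the unrolling.
-/

open Topology unitInterval Set Pool.H74 Pool.H74.Fam CategoryTheory

namespace Pool.H74

noncomputable section

section

variable {D V E Z : Type} [TopologicalSpace D] [TopologicalSpace V] [TopologicalSpace E]
  [TopologicalSpace Z] {c : C(E, D)} {r : C(E, V)}

/-- The homotopy extension property of the left end of a double mapping cylinder. -/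
theorem DM.exists_extend [LocallyCompactSpace E] (f : C(DM c r, Z)) (k : C(D, Z))
    (H : (f.comp (DM.inD c r)).Homotopic k) :
    ∃ f' : C(DM c r, Z), f.Homotopic f' ∧ ∀ d, f' (DM.inD c r d) = k d := by
  obtain ⟨H⟩ := H
  let G : C(D × I, Z) := ⟨fun p => H (p.2, p.1), by fun_prop⟩
  have hG0 : ∀ d, G (d, 0) = f (DM.inD c r d) := fun d => H.apply_zero d
  have hG1 : ∀ d, G (d, 1) = k d := fun d => H.apply_one d
  have hj : ∀ e, rev (pre G c) (e, 1) = (f.comp (DM.cyl c r)) (e, 0) := by
    intro e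
    change G (c e, σ 1) = f (DM.cyl c r (e, 0))
    rw [unitInterval.symm_one, hG0, DM.cyl_zero]
  let q : C(E × I, Z) := cat (rev (pre G c)) (f.comp (DM.cyl c r)) hj
  have hq0 : ∀ e, q (e, 0) = k (c e) := by
    intro e
    rw [cat_zero]
    change G (c e, σ 0) = _
    rw [unitInterval.symm_zero, hG1]
  have hq1 : ∀ e, q (e, 1) = f (DM.inV c r (r e)) := by
    intro e
    rw [cat_one]
    change f (DM.cyl c r (e, 1)) = _
    rw [DM.cyl_one]
  let f' : C(DM c r, Z) := DM.desc k (f.comp (DM.inV c r)) q hq0 hq1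
  refine ⟨f', ?_, fun _ => rfl⟩
  let G' : C((D ⊕ V) × I, Z) := ⟨fun p => Sum.elim (fun d => G (d, p.2))
    (fun v => f (DM.inV c r v)) p.1, by
      have e : (fun p : (D ⊕ V) × I => Sum.elim (fun d => G (d, p.2))
        (fun v => f (DM.inV c r v)) p.1) = fun p =>
        (sumC G.curry (ContinuousMap.curry ((f.comp (DM.inV c r)).comp .fst)) p.1) p.2 := by
        funext p
        rcases p with ⟨x | x, t⟩ <;> rfl
      rw [e]
      fun_prop⟩
  refine ZC.uhl G' (by rintro (x | x); exacts [hG0 x, rfl]) (by rintro (x | x); exacts [hG1 x, rfl])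
    (f.comp (DM.cyl c r)) q (pre G c) (const (f.comp ((DM.inV c r).comp r)))
    (f.comp ((DM.inD c r).comp c)) (f.comp ((DM.inV c r).comp r)) (k.comp c)
    (f.comp ((DM.inV c r).comp r)) (fun _ _ => rfl) (fun _ _ => rfl) (fun _ _ => rfl)
    (fun _ _ => rfl) (by intro w; simp) (by intro w; simp) (by intro w; simp) (by intro w; simp)
    (fun w => hG0 _) (fun w => hG1 _) hq0 hq1 ?_
  rw [cl_const, Path.Homotopic.Quotient.trans_refl]
  have e1 := cl_cat (k.comp c) (f.comp ((DM.inD c r).comp c)) (f.comp ((DM.inV c r).comp r))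
    (q := rev (pre G c)) (q' := f.comp (DM.cyl c r)) (h := hj)
    (by intro w; change G (c w, σ 0) = _; rw [unitInterval.symm_zero, hG1]; rfl)
    (by intro w; change G (c w, σ 1) = _; rw [unitInterval.symm_one, hG0]; rfl)
    (by intro w; change f (DM.cyl c r (w, 1)) = _; rw [DM.cyl_one]; rfl)
  have e2 := cl_rev (q := pre G c) (f.comp ((DM.inD c r).comp c)) (k.comp c) (fun w => hG0 _)
    (fun w => hG1 _)
  rw [e2] at e1
  exact (PHQ.trans_symm_cancel_left _ _).symm.trans (congrArg _ e1.symm)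

end

theorem exists_strict : ∃ h : C(GS.one.X, GS.two.X), IsHE h ∧
    ∀ d, h (DM.inD _ _ d) = DM.inD _ _ (Ch.lamT d) := by
  obtain ⟨h', hh', H⟩ := Ch.exists_equiv W2.isHE_map_psi
  obtain ⟨h, h1, h2⟩ := DM.exists_extend h' ((DM.inD _ _).comp Ch.lamT) H
  exact ⟨h, hh'.congr h1, h2⟩

/-- Surjectivity of a homotopy equivalence on path classes. -/
theorem IsHE.exists_path {X Y : Type} [TopologicalSpace X] [TopologicalSpace Y] {h : C(X, Y)}
    (hh : IsHE h) {x x' : X} (δ : Path (h x) (h x')) :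
    ∃ γ : Path x x', (γ.map h.continuous).Homotopic δ := by
  obtain ⟨g, h1, h2⟩ := hh
  let e : ContinuousMap.HomotopyEquiv X Y := ⟨h, g, h1, h2⟩
  have hF : (FundamentalGroupoid.map h).Full :=
    (inferInstance : (FundamentalGroupoidFunctor.equivOfHomotopyEquiv e).functor.Full)
  let δ' : (FundamentalGroupoid.map h).obj ⟨x⟩ ⟶ (FundamentalGroupoid.map h).obj ⟨x'⟩ :=
    Path.Homotopic.Quotient.mk δ
  obtain ⟨p, hp⟩ := (FundamentalGroupoid.map h).map_surjective δ'
  change Path.Homotopic.Quotient x x' at p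
  induction p using Path.Homotopic.Quotient.ind with | mk γ =>
  exact ⟨γ, Path.Homotopic.Quotient.exact hp⟩

end

end Pool.H74
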