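import Pool.Agent.H74.Pi
import Pool.Agent.H74.Strict

/-!
The conditions on the self-covering.
-/

open Topology unitInterval Set Pool.H74 Pool.H74.Fam

namespace Pool.H74

namespace GS

noncomputable section

/-! ### Connectedness -/

theorem pathConnected_of {S : Type} [TopologicalSpace S] [DiscreteTopology S] (a : GS S) (x₀ : S)
    (h : ∀ x, Joined (a.xpt x₀) (a.xpt x)) : PathConnectedSpace a.X where
  nonempty := ⟨a.xpt x₀⟩
  joined z z' := by
    obtain ⟨x, hx⟩ := a.joined_xpt z
    obtain ⟨x', hx'⟩ := a.joined_xpt z'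
    exact (hx.trans (h x).symm).trans ((h x').trans hx'.symm)

instance pathConnected_one : PathConnectedSpace one.X :=
  pathConnected_of one () (fun _ => Joined.refl _)

instance pathConnected_two : PathConnectedSpace two.X := by
  refine pathConnected_of two false (fun x => ?_)
  cases x
  · exact Joined.refl _
  · exact ⟨two.lp .t false⟩

instance pathConnected_int : PathConnectedSpace int.X := by
  refine pathConnected_of int (0 : ℤ) (fun x => ?_)
  have hs : ∀ n : ℤ, Joined (int.xpt n) (int.xpt (n + 1)) := fun n => ⟨int.lp .t n⟩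
  induction x using Int.induction_on with
  | zero => exact Joined.refl _
  | succ n ih => exact ih.trans (hs _)
  | pred n ih =>
    refine ih.trans ?_
    have := (hs (-(n : ℤ) - 1)).symm
    rwa [sub_add_cancel] at this

/-! ### The lifting conditions -/

/-- Parity. -/
def par : C(ℤ, Bool) := ⟨fun n => decide (n % 2 = 1), continuous_of_discreteTopology⟩

theorem par_hom : HomT int two par := by
  refine ⟨⟨⟨fun _ => rfl, fun _ => rfl, fun _ => rfl⟩, fun _ => rfl, fun _ => rfl⟩, fun x => ?_⟩
  change decide ((x + 1) % 2 = 1) = !(decide (x % 2 = 1))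
  rcases Int.emod_two_eq_zero_or_one x with h | h
  · have h' : (x + 1) % 2 = 1 := by omega
    simp [h, h']
  · have h' : (x + 1) % 2 = 0 := by omega
    simp [h, h']

theorem par_eq_false (n : ℤ) : par n = false ↔ (2 : ℤ) ∣ n := by
  change decide (n % 2 = 1) = false ↔ _
  rw [decide_eq_false_iff_not]
  omega

theorem lift_two (γ : Path (one.xpt ()) (one.xpt ())) :
    (∃ γ' : Path (two.xpt false) (two.xpt false), ∀ s, two.pr (γ' s) = γ s) ↔
      (2 : ℤ) ∣ Multiplicative.toAdd (phi (Path.Homotopic.Quotient.mk γ)) := by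
  rw [lift_iff two_bij]
  have h := mon_map int_bij two_bij par_hom (.mk γ) 0
  have h0 : par 0 = false := rfl
  rw [h0] at h
  rw [← h, par_eq_false]
  rfl

theorem lift_int (γ : Path (one.xpt ()) (one.xpt ())) :
    (∃ γ' : Path (int.xpt 0) (int.xpt 0), ∀ s, int.pr (γ' s) = γ s) ↔
      phi (Path.Homotopic.Quotient.mk γ) = 1 := by
  rw [lift_iff int_bij]
  rfl

/-! ### The self-covering -/

variable (h : C(one.X, two.X)) (hD : ∀ d, h (DM.inD _ _ d) = DM.inD _ _ (Ch.lamT d))

include hD

theorem h_xpt : h (one.xpt ()) = two.xpt false := hD _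

theorem F_xpt : (two.pr.comp h) (one.xpt ()) = one.xpt () := by
  change two.pr (h (one.xpt ())) = _
  rw [h_xpt h hD]
  rfl

theorem F_lp_t (s : I) : (two.pr.comp h) (lp1 .t s) = ((lp1 .t).trans (lp1 .t)) s := by
  have e : (two.pr.comp h) (lp1 .t s) = two.pr (DM.inD _ _ (Ch.lamT (ZC.hdl _ _
    (one.inB (one.vpt ()), s)))) := congrArg two.pr (hD _)
  rw [e, Path.trans_apply]
  split_ifs with ht
  · have h1 := MT.unrollTo_hdl_le _ _ Ch.tB0 Ch.tB1 (one.inB (one.vpt ())) s ht
    refine (congrArg (fun v => two.pr (DM.inD _ _ v)) h1).trans ?_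
    rw [projIcc_of_mem]
    rfl
  · have h1 := MT.unrollTo_hdl_gt _ _ Ch.tB0 Ch.tB1 (one.inB (one.vpt ())) s ht
    refine (congrArg (fun v => two.pr (DM.inD _ _ v)) h1).trans ?_
    rw [projIcc_of_mem]
    rfl

theorem F_lp_ne (g : Gn) (hg : g ≠ .t) (s : I) : (two.pr.comp h) (lp1 g s) = lp1 g s := by
  cases g
  · exact congrArg two.pr (hD _)
  · exact congrArg two.pr (hD _)
  · exact congrArg two.pr (hD _)
  · exact congrArg two.pr (hD _)
  · exact congrArg two.pr (hD _)
  · exact (hg rfl).elim

theorem phi_F (γ : P1) : phi (FundamentalGroup.mapOfEq (two.pr.comp h) (F_xpt h hD) γ) =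
    phi γ ^ 2 := by
  have key : (phi.comp (FundamentalGroup.mapOfEq (two.pr.comp h) (F_xpt h hD))).eqLocus
      ((powMonoidHom 2).comp phi) = ⊤ := by
    apply gen_top
    intro g
    change phi (FundamentalGroup.mapOfEq (two.pr.comp h) (F_xpt h hD) (lc g)) = phi (lc g) ^ 2
    rw [FundamentalGroup.mapOfEq_apply]
    by_cases hg : g = .t
    · subst hg
      have e : (Path.Homotopic.Quotient.map (lc .t) (two.pr.comp h)).cast (F_xpt h hD).symm
          (F_xpt h hD).symm = Path.Homotopic.Quotient.mk ((lp1 .t).trans (lp1 .t)) := by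
        refine congrArg Path.Homotopic.Quotient.mk ?_
        ext s
        exact F_lp_t h hD s
      refine (congrArg phi e).trans ?_
      rw [sq, ← map_mul]
      rfl
    · have e : (Path.Homotopic.Quotient.map (lc g) (two.pr.comp h)).cast (F_xpt h hD).symm
          (F_xpt h hD).symm = Path.Homotopic.Quotient.mk (lp1 g) := by
        refine congrArg Path.Homotopic.Quotient.mk ?_
        ext s
        exact F_lp_ne h hD g hg s
      refine (congrArg phi e).trans ?_
      have h1 := phi_lc_ne g hg
      rw [h1, one_pow]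
      exact h1
  have : γ ∈ (phi.comp (FundamentalGroup.mapOfEq (two.pr.comp h) (F_xpt h hD))).eqLocus
      ((powMonoidHom 2).comp phi) := by rw [key]; trivial
  exact this

theorem phi_path (γ δ : Path (one.xpt ()) (one.xpt ())) (e : ∀ s, two.pr (h (γ s)) = δ s) :
    phi (Path.Homotopic.Quotient.mk δ) = phi (Path.Homotopic.Quotient.mk γ) ^ 2 := by
  rw [← phi_F h hD]
  rw [FundamentalGroup.mapOfEq_apply]
  refine congrArg phi (congrArg Path.Homotopic.Quotient.mk ?_)
  ext s
  exact (e s).symm

theorem cond_G (hh : IsHE h) (δ : Path (h (one.xpt ())) (h (one.xpt ()))) :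
    (∃ γ : Path (one.xpt ()) (one.xpt ()), phi (Path.Homotopic.Quotient.mk γ) = 1 ∧
      ∀ s, two.pr (δ s) = γ s) ↔
    (∃ γ : Path (one.xpt ()) (one.xpt ()), phi (Path.Homotopic.Quotient.mk γ) = 1 ∧
      (γ.map h.continuous).Homotopic δ) := by
  have hF := F_xpt h hD
  -- the projected loop
  let δ' : Path (one.xpt ()) (one.xpt ()) := (δ.map two.pr.continuous).cast hF.symm hF.symm
  have key : ∀ γ : Path (one.xpt ()) (one.xpt ()), (γ.map h.continuous).Homotopic δ →
      phi (Path.Homotopic.Quotient.mk δ') = phi (Path.Homotopic.Quotient.mk γ) ^ 2 := by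
    intro γ hγ
    let γ' : Path (one.xpt ()) (one.xpt ()) :=
      ((γ.map h.continuous).map two.pr.continuous).cast hF.symm hF.symm
    have e1 : phi (Path.Homotopic.Quotient.mk γ') = phi (Path.Homotopic.Quotient.mk γ) ^ 2 :=
      phi_path h hD γ γ' (fun _ => rfl)
    rw [← e1]
    refine congrArg phi ?_
    have e2 := hγ.map two.pr
    have e3 : (Path.Homotopic.Quotient.mk ((γ.map h.continuous).map two.pr.continuous)).cast
      hF.symm hF.symm = (Path.Homotopic.Quotient.mk (δ.map two.pr.continuous)).cast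
      hF.symm hF.symm := congrArg (fun q => q.cast hF.symm hF.symm) (Path.Homotopic.Quotient.eq.2 e2)
    exact e3.symm
  constructor
  · rintro ⟨γ, h1, h2⟩
    have e : δ' = γ := by ext s; exact h2 s
    obtain ⟨γ₁, hγ₁⟩ := hh.exists_path δ
    refine ⟨γ₁, ?_, hγ₁⟩
    have h3 := key γ₁ hγ₁
    rw [e, h1] at h3
    have h4 := congrArg Multiplicative.toAdd h3
    rw [toAdd_one, toAdd_pow] at h4
    apply Multiplicative.toAdd.injective
    rw [toAdd_one]
    have h5 : (2 : ℤ) * Multiplicative.toAdd (phi (Path.Homotopic.Quotient.mk γ₁)) = 0 := by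
      rw [h4, nsmul_eq_mul]; rfl
    omega
  · rintro ⟨γ, h1, h2⟩
    refine ⟨δ', ?_, fun _ => rfl⟩
    rw [key γ h2, h1, one_pow]

end

end GS

end Pool.H74
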