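import Pool.Agent.H74.ZC.Core
import Mathlib

/-!
Covering maps of homotopy coequalizers.
-/

open Topology unitInterval Set

namespace Pool.H74

/-- `α` over `α'` restricts to bijections of the fibres of `p` and `p₁`. -/
structure FB {E E₁ X X₁ : Type} (p : E → X) (p₁ : E₁ → X₁) (α : E → E₁) (α' : X → X₁) : Prop where
  comm : ∀ e, p₁ (α e) = α' (p e)
  inj : ∀ e e', p e = p e' → α e = α e' → e = e'
  surj : ∀ x e₁, p₁ e₁ = α' x → ∃ e, p e = x ∧ α e = e₁

/-- Pointwise criterion for evenly covered neighbourhoods. -/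
theorem isEvenlyCovered_of_sheets {E X : Type} [TopologicalSpace E] [TopologicalSpace X]
    {f : E → X} (hf : Continuous f) (ho : IsOpenMap f) {x : X} {U : Set X} (hU : IsOpen U)
    (hx : x ∈ U) {J : Type} [TopologicalSpace J] [DiscreteTopology J] (g : E → J)
    (hg : ContinuousOn g (f ⁻¹' U))
    (hinj : ∀ e e', f e ∈ U → f e = f e' → g e = g e' → e = e')
    (hsurj : ∀ y ∈ U, ∀ j, ∃ e, f e = y ∧ g e = j) : IsEvenlyCovered f x J := by
  have hfU : IsOpen (f ⁻¹' U) := hU.preimage hf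
  let F : f ⁻¹' U → U × J := fun e => (⟨f e.1, e.2⟩, g e.1)
  have hFc : Continuous F := by
    refine Continuous.prodMk ?_ ?_
    · exact (hf.comp continuous_subtype_val).subtype_mk _
    · exact continuousOn_iff_continuous_domRestrict.1 hg
  have hFi : Function.Injective F := by
    rintro ⟨e, he⟩ ⟨e', he'⟩ h
    have h1 : f e = f e' := congrArg (fun q : U × J => (q.1 : X)) h
    have h2 : g e = g e' := congrArg Prod.snd h
    exact Subtype.ext (hinj e e' he h1 h2)
  have hFs : Function.Surjective F := by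
    rintro ⟨⟨y, hy⟩, j⟩
    obtain ⟨e, he, hj⟩ := hsurj y hy j
    refine ⟨⟨e, by rw [mem_preimage, he]; exact hy⟩, ?_⟩
    exact Prod.ext (Subtype.ext he) hj
  have hFo : IsOpenMap F := by
    intro O hO
    rw [isOpen_iff_mem_nhds]
    rintro _ ⟨⟨e, he⟩, heO, rfl⟩
    -- the part of `O` on the sheet of `e`
    have hO' : IsOpen (Subtype.val '' O : Set E) := hfU.isOpenMap_subtype_val O hO
    have hS : IsOpen (f ⁻¹' U ∩ g ⁻¹' {g e}) :=
      hg.isOpen_inter_preimage hfU (isOpen_discrete _)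
    have hI : IsOpen (f '' (Subtype.val '' O ∩ (f ⁻¹' U ∩ g ⁻¹' {g e}))) :=
      ho _ (hO'.inter hS)
    have hV : IsOpen {q : U × J | (q.1 : X) ∈ f '' (Subtype.val '' O ∩ (f ⁻¹' U ∩ g ⁻¹' {g e})) ∧
        q.2 = g e} := by
      apply IsOpen.inter
      · exact hI.preimage (continuous_subtype_val.comp continuous_fst)
      · exact (isOpen_discrete ({g e} : Set J)).preimage continuous_snd
    refine Filter.mem_of_superset (hV.mem_nhds ⟨⟨e, ⟨⟨⟨e, he⟩, heO, rfl⟩, he, rfl⟩, rfl⟩, rfl⟩) ?_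
    rintro ⟨⟨y, hy⟩, j⟩ ⟨⟨e', ⟨⟨⟨e'', he''⟩, heO'', rfl⟩, hU'', hj''⟩, hy'⟩, hj⟩
    refine ⟨⟨e'', he''⟩, heO'', Prod.ext (Subtype.ext hy') ?_⟩
    have hj3 : g e'' = g e := hj''
    have hj4 : j = g e := hj
    change g e'' = j
    rw [hj3, hj4]
  exact ⟨inferInstance, U, hx, hU, hfU,
    (Equiv.ofBijective F ⟨hFi, hFs⟩).toHomeomorphOfContinuousOpen hFc hFo, fun e => rfl⟩

theorem isCoveringMap_of_sheets {E X : Type} [TopologicalSpace E] [TopologicalSpace X] {f : E → X}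
    (hf : Continuous f) (ho : IsOpenMap f)
    (h : ∀ x, ∃ U : Set X, IsOpen U ∧ x ∈ U ∧ ∃ (J : Type) (_ : TopologicalSpace J)
      (_ : DiscreteTopology J) (g : E → J), ContinuousOn g (f ⁻¹' U) ∧
      (∀ e e', f e ∈ U → f e = f e' → g e = g e' → e = e') ∧
      ∀ y ∈ U, ∀ j, ∃ e, f e = y ∧ g e = j) : IsCoveringMap f := by
  intro x
  obtain ⟨U, hU, hx, J, _, _, g, hg, hi, hs⟩ := h x
  exact (isEvenlyCovered_of_sheets hf ho hU hx g hg hi hs).to_isEvenlyCovered_preimage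

/-- Evenly covered neighbourhoods with an explicit sheet function. -/
theorem exists_sheet {E X : Type} [TopologicalSpace E] [TopologicalSpace X] {f : E → X} {x : X}
    {J : Type} [TopologicalSpace J] [Nonempty J] (h : IsEvenlyCovered f x J) :
    ∃ U : Set X, x ∈ U ∧ IsOpen U ∧ ∃ g : E → J, (∀ j, IsOpen (f ⁻¹' U ∩ g ⁻¹' {j})) ∧
      (∀ e e', f e ∈ U → f e = f e' → g e = g e' → e = e') ∧
      ∀ y ∈ U, ∀ j, ∃ e, f e = y ∧ g e = j := by
  classical
  obtain ⟨hd, U, hx, hU, hfU, H, hH⟩ := h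
  refine ⟨U, hx, hU, fun e => if he : f e ∈ U then (H ⟨e, he⟩).2 else Classical.arbitrary J,
    ?_, ?_, ?_⟩
  · intro j
    have h1 : IsOpen (Subtype.val '' ((fun e => (H e).2) ⁻¹' ({j} : Set J)) : Set E) :=
      hfU.isOpenMap_subtype_val _
        ((isOpen_discrete _).preimage (continuous_snd.comp H.continuous))
    convert h1 using 1
    ext e
    simp only [mem_inter_iff, mem_preimage, mem_singleton_iff, mem_image, Subtype.exists,
      exists_and_right, exists_eq_right]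
    constructor
    · rintro ⟨he, h2⟩
      exact ⟨he, by simpa [he] using h2⟩
    · rintro ⟨he, h2⟩
      exact ⟨he, by simpa [show f e ∈ U from he] using h2⟩
  · intro e e' he hee hg
    have he' : f e' ∈ U := hee ▸ he
    simp only [he, he', dif_pos] at hg
    have : H ⟨e, he⟩ = H ⟨e', he'⟩ := by
      refine Prod.ext (Subtype.ext ?_) hg
      rw [hH, hH]; exact hee
    exact congrArg Subtype.val (H.injective this)
  · intro y hy j
    have h1 : f (H.symm (⟨y, hy⟩, j)) = y := by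
      rw [← hH, H.apply_symm_apply]
    refine ⟨(H.symm (⟨y, hy⟩, j)).1, h1, ?_⟩
    have h2 : f (H.symm (⟨y, hy⟩, j)) ∈ U := by rw [h1]; exact hy
    simp only [h2, dif_pos]
    simp

theorem exists_sheet_cases {E X : Type} [TopologicalSpace E] [TopologicalSpace X] {f : E → X}
    (hf : IsCoveringMap f) (x : X) : (∃ U : Set X, x ∈ U ∧ IsOpen U ∧ f ⁻¹' U = ∅) ∨
    ∃ U : Set X, x ∈ U ∧ IsOpen U ∧ ∃ (J : Type) (_ : Nonempty J) (g : E → J),
      (∀ j, IsOpen (f ⁻¹' U ∩ g ⁻¹' {j})) ∧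
      (∀ e e', f e ∈ U → f e = f e' → g e = g e' → e = e') ∧
      ∀ y ∈ U, ∀ j, ∃ e, f e = y ∧ g e = j := by
  rcases isEmpty_or_nonempty (f ⁻¹' {x}) with he | hn
  · left
    obtain ⟨hd, U, hx, hU, hfU, H, hH⟩ := hf x
    refine ⟨U, hx, hU, ?_⟩
    rw [eq_empty_iff_forall_notMem]
    intro e he'
    exact he.elim (H ⟨e, he'⟩).2
  · right
    obtain ⟨U, hx, hU, g, h1, h2, h3⟩ := exists_sheet (hf x)
    exact ⟨U, hx, hU, _, hn, g, h1, h2, h3⟩

namespace ZC

variable {A W A' W' : Type} [TopologicalSpace A] [TopologicalSpace W]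
    [TopologicalSpace A'] [TopologicalSpace W'] {a b : C(W, A)} {a' b' : C(W', A')}

theorem map_eq_inA (p : C(A, A')) (pW : C(W, W')) (ha : ∀ w, p (a w) = a' (pW w))
    (hb : ∀ w, p (b w) = b' (pW w)) {z : ZC a b} {x' : A'}
    (h : map p pW ha hb z = inA a' b' x') : ∃ x, z = inA a b x ∧ p x = x' := by
  rcases cases_pt z with ⟨x, rfl⟩ | ⟨w, t, h0, h1, rfl⟩
  · exact ⟨x, rfl, inA_inj.1 h⟩
  · exact absurd h (hdl_ne_inA h0 h1 _)

theorem map_eq_hdl (p : C(A, A')) (pW : C(W, W')) (ha : ∀ w, p (a w) = a' (pW w))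
    (hb : ∀ w, p (b w) = b' (pW w)) {z : ZC a b} {w' : W'} {t : I} (h0 : t ≠ 0) (h1 : t ≠ 1)
    (h : map p pW ha hb z = hdl a' b' (w', t)) : ∃ w, z = hdl a b (w, t) ∧ pW w = w' := by
  rcases cases_pt z with ⟨x, rfl⟩ | ⟨w, t', h0', h1', rfl⟩
  · exact absurd h.symm (hdl_ne_inA h0 h1 _)
  · obtain ⟨e1, e2⟩ := hdl_inj h0' h1' h
    subst e2
    exact ⟨w, rfl, e1⟩

theorem isOpenMap_map (p : C(A, A')) (pW : C(W, W')) (ha : ∀ w, p (a w) = a' (pW w))
    (hb : ∀ w, p (b w) = b' (pW w)) (hp : IsOpenMap p) (hpW : IsOpenMap pW)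
    (Ha : FB pW p a a') (Hb : FB pW p b b') :
    IsOpenMap (map (a := a) (b := b) (a' := a') (b' := b') p pW ha hb) := by
  intro O hO
  rw [isOpen_iff] at hO
  rw [isOpen_iff]
  constructor
  · convert hp _ hO.1 using 1
    ext x'
    constructor
    · rintro ⟨z, hz, h⟩
      obtain ⟨x, rfl, hx⟩ := map_eq_inA p pW ha hb h
      exact ⟨x, hz, hx⟩
    · rintro ⟨x, hx, rfl⟩
      exact ⟨inA a b x, hx, rfl⟩
  · have ho2 : IsOpenMap (Prod.map pW (id : I → I)) := hpW.prodMap IsOpenMap.id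
    convert ho2 _ hO.2 using 1
    ext ⟨w', t⟩
    constructor
    · rintro ⟨z, hz, h⟩
      by_cases h0 : t = 0
      · subst h0
        rw [hdl_zero] at h
        obtain ⟨x, rfl, hx⟩ := map_eq_inA p pW ha hb h
        obtain ⟨w, hw, hw'⟩ := Ha.surj _ _ hx
        refine ⟨(w, 0), ?_, Prod.ext hw rfl⟩
        rw [mem_preimage, hdl_zero, hw']; exact hz
      by_cases h1 : t = 1
      · subst h1
        rw [hdl_one] at h
        obtain ⟨x, rfl, hx⟩ := map_eq_inA p pW ha hb h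
        obtain ⟨w, hw, hw'⟩ := Hb.surj _ _ hx
        refine ⟨(w, 1), ?_, Prod.ext hw rfl⟩
        rw [mem_preimage, hdl_one, hw']; exact hz
      obtain ⟨w, rfl, hw⟩ := map_eq_hdl p pW ha hb h0 h1 h
      exact ⟨(w, t), hz, Prod.ext hw rfl⟩
    · rintro ⟨⟨w, s⟩, hw, h⟩
      obtain ⟨h1, h2⟩ := Prod.ext_iff.1 h
      have h1' : pW w = w' := h1
      have h2' : s = t := h2
      subst h1' h2'
      exact ⟨hdl a b (w, s), hw, rfl⟩

/-- The sheet function on a collar. -/
noncomputable def gColl {J : Type} (a b : C(W, A)) (g : A → J) (z : ZC a b) : J :=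
  match nf z with
  | .inl x => g x
  | .inr (w, t) => open Classical in if (t : ℝ) < 1 / 2 then g (a w) else g (b w)

theorem gColl_inA {J : Type} (g : A → J) (x : A) : gColl a b g (inA a b x) = g x := by
  simp [gColl]

theorem gColl_hdl_lt {J : Type} (g : A → J) (w : W) {t : I} (ht : (t : ℝ) < 1 / 2) :
    gColl a b g (hdl a b (w, t)) = g (a w) := by
  by_cases h0 : t = 0
  · subst h0; rw [hdl_zero, gColl_inA]
  by_cases h1 : t = 1
  · subst h1; norm_num at ht
  unfold gColl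
  rw [nf_hdl h0 h1]
  exact if_pos ht

theorem gColl_hdl_gt {J : Type} (g : A → J) (w : W) {t : I} (ht : 1 / 2 < (t : ℝ)) :
    gColl a b g (hdl a b (w, t)) = g (b w) := by
  by_cases h0 : t = 0
  · subst h0; norm_num at ht
  by_cases h1 : t = 1
  · subst h1; rw [hdl_one, gColl_inA]
  unfold gColl
  rw [nf_hdl h0 h1]
  exact if_neg (not_lt.2 ht.le)

theorem map_mem_collar (p : C(A, A')) (pW : C(W, W')) (ha : ∀ w, p (a w) = a' (pW w))
    (hb : ∀ w, p (b w) = b' (pW w)) {U' : Set A'} {z : ZC a b} :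
    map p pW ha hb z ∈ collar a' b' U' ↔ z ∈ collar a b (p ⁻¹' U') := by
  induction z using ind with
  | h1 x => rw [map_inA, inA_mem_collar, inA_mem_collar]; rfl
  | h2 w t => rw [map_hdl, hdl_mem_collar, hdl_mem_collar, mem_preimage, mem_preimage, ha, hb]

theorem gColl_collar {J : Type} (g : A → J) (V : Set A) (j : J) (z : ZC a b) :
    z ∈ collar a b (V ∩ g ⁻¹' {j}) ↔ z ∈ collar a b V ∧ gColl a b g z = j := by
  induction z using ind with
  | h1 x => rw [inA_mem_collar, inA_mem_collar, gColl_inA]; rfl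
  | h2 w t =>
    rw [hdl_mem_collar, hdl_mem_collar]
    rcases lt_trichotomy (t : ℝ) (1 / 2) with ht | ht | ht
    · rw [gColl_hdl_lt g w ht]
      have h2 : ¬ (1 / 2 < (t : ℝ)) := not_lt.2 ht.le
      simp only [ht, h2, false_and, true_and, or_false]
      rfl
    · have h1 : ¬ ((t : ℝ) < 1 / 2) := by rw [ht]; exact lt_irrefl _
      have h2 : ¬ (1 / 2 < (t : ℝ)) := by rw [ht]; exact lt_irrefl _
      simp only [h1, h2, false_and, or_self]
    · rw [gColl_hdl_gt g w ht]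
      have h1 : ¬ ((t : ℝ) < 1 / 2) := not_lt.2 ht.le
      simp only [h1, ht, false_and, true_and, false_or]
      rfl

/-- The sheet function on the open handle. -/
noncomputable def gHdl {J : Type} [Nonempty J] (a b : C(W, A)) (g : W → J) (z : ZC a b) : J :=
  match nf z with
  | .inl _ => Classical.arbitrary J
  | .inr (w, _) => g w

theorem gHdl_hdl {J : Type} [Nonempty J] (g : W → J) (w : W) {t : I} (h0 : t ≠ 0) (h1 : t ≠ 1) :
    gHdl a b g (hdl a b (w, t)) = g w := by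
  unfold gHdl
  rw [nf_hdl h0 h1]

theorem isCoveringMap_map
    (p : C(A, A')) (pW : C(W, W')) (ha : ∀ w, p (a w) = a' (pW w))
    (hb : ∀ w, p (b w) = b' (pW w)) (hp : IsCoveringMap p) (hpW : IsCoveringMap pW)
    (Ha : FB pW p a a') (Hb : FB pW p b b') :
    IsCoveringMap (ZC.map (a := a) (b := b) (a' := a') (b' := b') p pW ha hb) := by
  have hopen : IsOpenMap (ZC.map (a := a) (b := b) (a' := a') (b' := b') p pW ha hb) :=
    isOpenMap_map p pW ha hb hp.isOpenMap hpW.isOpenMap Ha Hb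
  have hcont : Continuous (ZC.map (a := a) (b := b) (a' := a') (b' := b') p pW ha hb) :=
    ContinuousMap.continuous _
  intro y
  rcases cases_pt y with ⟨x', rfl⟩ | ⟨w', t₀, ht0, ht1, rfl⟩
  · rcases exists_sheet_cases hp x' with ⟨U, hx, hU, he⟩ | ⟨U, hx, hU, J, hJ, g, hg, hi, hs⟩
    · refine (IsEvenlyCovered.of_preimage_eq_empty Empty
        ((isOpen_collar hU).mem_nhds (inA_mem_collar.2 hx)) ?_).to_isEvenlyCovered_preimage
      rw [eq_empty_iff_forall_notMem]
      intro z hz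
      rw [mem_preimage, map_mem_collar, he] at hz
      rcases hz with ⟨x, hx, _⟩ | ⟨q, hq, _⟩
      · exact hx
      · rcases hq with hq | hq
        · exact hq.2
        · exact hq.2
    · let _ : TopologicalSpace J := ⊥
      have _ : DiscreteTopology J := ⟨rfl⟩
      refine (isEvenlyCovered_of_sheets hcont hopen (isOpen_collar hU) (inA_mem_collar.2 hx)
        (gColl a b g) ?_ ?_ ?_).to_isEvenlyCovered_preimage
      · intro z hz
        apply ContinuousAt.continuousWithinAt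
        rw [mem_preimage, map_mem_collar] at hz
        have hO := isOpen_collar (a := a) (b := b) (hg (gColl a b g z))
        have hev : gColl a b g =ᶠ[𝓝 z] fun _ => gColl a b g z := by
          filter_upwards [hO.mem_nhds ((gColl_collar g _ _ z).2 ⟨hz, rfl⟩)] with z' hz'
          exact ((gColl_collar g _ _ z').1 hz').2
        exact continuousAt_const.congr hev.symm
      · intro z z' hz hzz hgz
        have hz' := hz
        rw [hzz] at hz'
        rw [map_mem_collar] at hz hz'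
        rcases cases_pt z with ⟨x, rfl⟩ | ⟨w, t, h0, h1, rfl⟩
        · rw [map_inA] at hzz
          obtain ⟨y, rfl, hy⟩ := map_eq_inA p pW ha hb hzz.symm
          rw [gColl_inA, gColl_inA] at hgz
          rw [inA_mem_collar] at hz
          rw [hi x y hz hy.symm hgz]
        · rw [map_hdl] at hzz
          obtain ⟨w2, rfl, hw2⟩ := map_eq_hdl p pW ha hb h0 h1 hzz.symm
          rw [hdl_mem_collar] at hz
          rcases hz with ⟨hlt, hz⟩ | ⟨hgt, hz⟩
          · rw [gColl_hdl_lt g w hlt, gColl_hdl_lt g w2 hlt] at hgz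
            have : a w = a w2 := hi _ _ hz (by rw [ha, ha, hw2]) hgz
            rw [Ha.inj w w2 hw2.symm this]
          · rw [gColl_hdl_gt g w hgt, gColl_hdl_gt g w2 hgt] at hgz
            have : b w = b w2 := hi _ _ hz (by rw [hb, hb, hw2]) hgz
            rw [Hb.inj w w2 hw2.symm this]
      · intro y hy j
        rcases hy with ⟨x2, hx2, rfl⟩ | ⟨⟨w2, t⟩, ⟨ht, hw⟩ | ⟨ht, hw⟩, rfl⟩
        · obtain ⟨x, h1, h2⟩ := hs x2 hx2 j
          exact ⟨inA a b x, by rw [map_inA, h1], by rw [gColl_inA, h2]⟩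
        · obtain ⟨x, h1, h2⟩ := hs (a' w2) hw j
          obtain ⟨w, h3, h4⟩ := Ha.surj _ _ h1
          exact ⟨hdl a b (w, t), by rw [map_hdl, h3], by rw [gColl_hdl_lt g w ht, h4, h2]⟩
        · obtain ⟨x, h1, h2⟩ := hs (b' w2) hw j
          obtain ⟨w, h3, h4⟩ := Hb.surj _ _ h1
          exact ⟨hdl a b (w, t), by rw [map_hdl, h3], by rw [gColl_hdl_gt g w ht, h4, h2]⟩
  · have hI : ∀ V : Set W, IsOpen V → IsOpen {q : W × I | q.1 ∈ V ∧ q.2 ≠ 0 ∧ q.2 ≠ 1} :=
      fun V hV => (hV.preimage continuous_fst).inter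
        (((isOpen_compl_singleton (x := (0 : I))).preimage continuous_snd).inter
          ((isOpen_compl_singleton (x := (1 : I))).preimage continuous_snd))
    have hI' : ∀ V : Set W', IsOpen V → IsOpen {q : W' × I | q.1 ∈ V ∧ q.2 ≠ 0 ∧ q.2 ≠ 1} :=
      fun V hV => (hV.preimage continuous_fst).inter
        (((isOpen_compl_singleton (x := (0 : I))).preimage continuous_snd).inter
          ((isOpen_compl_singleton (x := (1 : I))).preimage continuous_snd))
    rcases exists_sheet_cases hpW w' with ⟨U, hx, hU, he⟩ | ⟨U, hx, hU, J, hJ, g, hg, hi, hs⟩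
    · refine (IsEvenlyCovered.of_preimage_eq_empty
          (U := hdl a' b' '' {q : W' × I | q.1 ∈ U ∧ q.2 ≠ 0 ∧ q.2 ≠ 1}) Empty
          ((isOpen_hdl_image (hI' U hU) fun q hq => hq.2).mem_nhds
          ⟨(w', t₀), ⟨hx, ht0, ht1⟩, rfl⟩) ?_).to_isEvenlyCovered_preimage
      rw [eq_empty_iff_forall_notMem]
      rintro z ⟨⟨w2, t⟩, ⟨hw, h0, h1⟩, hz⟩
      obtain ⟨w, rfl, hw2⟩ := map_eq_hdl p pW ha hb h0 h1 hz.symm
      have : w ∈ pW ⁻¹' U := by rw [mem_preimage, hw2]; exact hw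
      rw [he] at this
      exact this
    · let _ : TopologicalSpace J := ⊥
      have _ : DiscreteTopology J := ⟨rfl⟩
      refine (isEvenlyCovered_of_sheets hcont hopen (isOpen_hdl_image (hI' U hU) fun q hq => hq.2)
        ⟨(w', t₀), ⟨hx, ht0, ht1⟩, rfl⟩
        (gHdl a b g) ?_ ?_ ?_).to_isEvenlyCovered_preimage
      · intro z hz
        apply ContinuousAt.continuousWithinAt
        obtain ⟨⟨w2, t⟩, ⟨hw, h0, h1⟩, hz⟩ := hz
        obtain ⟨w, rfl, hw2⟩ := map_eq_hdl p pW ha hb h0 h1 hz.symm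
        have hO := isOpen_hdl_image (a := a) (b := b) (hI _ (hg (g w))) fun q hq => hq.2
        have hev : gHdl a b g =ᶠ[𝓝 (hdl a b (w, t))] fun _ => gHdl a b g (hdl a b (w, t)) := by
          filter_upwards [hO.mem_nhds ⟨(w, t), ⟨⟨by rw [mem_preimage, hw2]; exact hw, rfl⟩, h0, h1⟩,
            rfl⟩] with z' hz'
          obtain ⟨⟨w3, t3⟩, ⟨⟨_, hw3⟩, h3, h3'⟩, rfl⟩ := hz'
          rw [gHdl_hdl g w3 h3 h3', gHdl_hdl g w h0 h1]
          exact hw3
        exact continuousAt_const.congr hev.symm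
      · rintro z z' ⟨⟨w2, t⟩, ⟨hw, h0, h1⟩, hz⟩ hzz hgz
        rw [← hz] at hzz
        obtain ⟨w, rfl, hw2⟩ := map_eq_hdl p pW ha hb h0 h1 hz.symm
        obtain ⟨w3, rfl, hw3⟩ := map_eq_hdl p pW ha hb h0 h1 hzz.symm
        rw [gHdl_hdl g w h0 h1, gHdl_hdl g w3 h0 h1] at hgz
        rw [hi w w3 (by rw [hw2]; exact hw) (by rw [hw2, hw3]) hgz]
      · rintro y ⟨⟨w2, t⟩, ⟨hw, h0, h1⟩, rfl⟩ j
        obtain ⟨w, e1, e2⟩ := hs w2 hw j
        exact ⟨hdl a b (w, t), by rw [map_hdl, e1], by rw [gHdl_hdl g w h0 h1, e2]⟩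

end ZC

end Pool.H74
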