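import Pool.Agent.H74.Spaces
import Pool.Agent.H74.Cov

/-!
The maps of the spaces `X` induced by maps of discrete sets are covering maps.
-/

open Topology unitInterval Set Pool.H74 Pool.H74.Fam

namespace Pool.H74

namespace FB

variable {E E₁ E₂ X X₁ X₂ : Type} {p : E → X} {p₁ : E₁ → X₁} {p₂ : E₂ → X₂} {α : E → E₁}
  {α' : X → X₁} {β : E₁ → E₂} {β' : X₁ → X₂}

theorem comp (k : FB p₁ p₂ β β') (h : FB p p₁ α α') :
    FB p p₂ (fun e => β (α e)) (fun x => β' (α' x)) where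
  comm e := by rw [k.comm, h.comm]
  inj e e' h1 h2 := h.inj e e' h1 (k.inj _ _ (by rw [h.comm, h.comm, h1]) h2)
  surj x e₂ h2 := by
    obtain ⟨e₁, h3, h4⟩ := k.surj _ _ h2
    obtain ⟨e, h5, h6⟩ := h.surj _ _ h3
    exact ⟨e, h5, by rw [h6, h4]⟩

theorem refl (p : E → X) : FB p p (fun e => e) (fun x => x) where
  comm _ := rfl
  inj _ _ _ h := h
  surj _ e h := ⟨e, h, rfl⟩

end FB

namespace ZC

variable {A W A' W' Z Z' : Type} [TopologicalSpace A] [TopologicalSpace W]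
    [TopologicalSpace A'] [TopologicalSpace W'] {a b : C(W, A)} {a' b' : C(W', A')}
    {p : C(A, A')} {pW : C(W, W')} {ha : ∀ w, p (a w) = a' (pW w)}
    {hb : ∀ w, p (b w) = b' (pW w)}

theorem fb_of_slices {q : Z → Z'} {F : ZC a b → Z} {F' : ZC a' b' → Z'}
    (hA : FB p q (fun x => F (inA a b x)) (fun x => F' (inA a' b' x)))
    (hW : ∀ t, t ≠ 0 → t ≠ 1 → FB pW q (fun w => F (hdl a b (w, t)))
      (fun w => F' (hdl a' b' (w, t)))) :
    FB (ZC.map p pW ha hb) q F F' where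
  comm z := by
    rcases cases_pt z with ⟨x, rfl⟩ | ⟨w, t, h0, h1, rfl⟩
    · exact hA.comm x
    · exact (hW t h0 h1).comm w
  inj z z' h1 h2 := by
    rcases cases_pt z with ⟨x, rfl⟩ | ⟨w, t, h0, h1', rfl⟩
    · rw [map_inA] at h1
      obtain ⟨y, rfl, hy⟩ := map_eq_inA p pW ha hb h1.symm
      rw [hA.inj x y hy.symm h2]
    · rw [map_hdl] at h1
      obtain ⟨y, rfl, hy⟩ := map_eq_hdl p pW ha hb h0 h1' h1.symm
      rw [(hW t h0 h1').inj w y hy.symm h2]
  surj z' e h := by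
    rcases cases_pt z' with ⟨x, rfl⟩ | ⟨w, t, h0, h1', rfl⟩
    · obtain ⟨y, h3, h4⟩ := hA.surj x e h
      exact ⟨inA a b y, by rw [map_inA, h3], h4⟩
    · obtain ⟨y, h3, h4⟩ := (hW t h0 h1').surj w e h
      exact ⟨hdl a b (y, t), by rw [map_hdl, h3], h4⟩

theorem fb_inA : FB p (ZC.map p pW ha hb) (fun x => inA a b x) (fun x => inA a' b' x) where
  comm x := rfl
  inj x y _ h := inA_inj.1 h
  surj x e h := by
    obtain ⟨y, rfl, hy⟩ := map_eq_inA p pW ha hb h
    exact ⟨y, hy, rfl⟩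

theorem fb_hdl_int {t : I} (h0 : t ≠ 0) (h1 : t ≠ 1) :
    FB pW (ZC.map p pW ha hb) (fun w => hdl a b (w, t)) (fun w => hdl a' b' (w, t)) where
  comm x := rfl
  inj x y _ h := (hdl_inj h0 h1 h).1
  surj x e h := by
    obtain ⟨y, rfl, hy⟩ := map_eq_hdl p pW ha hb h0 h1 h
    exact ⟨y, hy, rfl⟩

theorem fb_hdl (Ha : FB pW p a a') (Hb : FB pW p b b') (t : I) :
    FB pW (ZC.map p pW ha hb) (fun w => hdl a b (w, t)) (fun w => hdl a' b' (w, t)) := by
  by_cases h0 : t = 0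
  · subst h0
    have h := (fb_inA (a := a) (b := b) (a' := a') (b' := b') (p := p) (pW := pW) (ha := ha)
      (hb := hb)).comp Ha
    simp only [hdl_zero]
    exact h
  by_cases h1 : t = 1
  · subst h1
    have h := (fb_inA (a := a) (b := b) (a' := a') (b' := b') (p := p) (pW := pW) (ha := ha)
      (hb := hb)).comp Hb
    simp only [hdl_one]
    exact h
  exact fb_hdl_int h0 h1

theorem fb_map {A₂ W₂ A₂' W₂' : Type} [TopologicalSpace A₂] [TopologicalSpace W₂]
    [TopologicalSpace A₂'] [TopologicalSpace W₂'] {a₂ b₂ : C(W₂, A₂)} {a₂' b₂' : C(W₂', A₂')}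
    {p₂ : C(A₂, A₂')} {pW₂ : C(W₂, W₂')} {ha₂ : ∀ w, p₂ (a₂ w) = a₂' (pW₂ w)}
    {hb₂ : ∀ w, p₂ (b₂ w) = b₂' (pW₂ w)} {g : C(A, A₂)} {g' : C(A', A₂')} {k : C(W, W₂)}
    {k' : C(W', W₂')} {ga : ∀ w, g (a w) = a₂ (k w)} {gb : ∀ w, g (b w) = b₂ (k w)}
    {ga' : ∀ w, g' (a' w) = a₂' (k' w)} {gb' : ∀ w, g' (b' w) = b₂' (k' w)}
    (hg : FB p p₂ g g') (hk : FB pW pW₂ k k') :
    FB (ZC.map (a := a) (b := b) (a' := a') (b' := b') p pW ha hb)
      (ZC.map (a := a₂) (b := b₂) (a' := a₂') (b' := b₂') p₂ pW₂ ha₂ hb₂)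
      (ZC.map (a := a) (b := b) (a' := a₂) (b' := b₂) g k ga gb)
      (ZC.map (a := a') (b := b') (a' := a₂') (b' := b₂') g' k' ga' gb') :=
  fb_of_slices (fb_inA.comp hg) (fun _ h0 h1 => (fb_hdl_int h0 h1).comp hk)

end ZC

namespace MT

variable {A A' A₂ A₂' : Type} [TopologicalSpace A] [TopologicalSpace A'] [TopologicalSpace A₂]
  [TopologicalSpace A₂'] {α : C(A, A)} {α' : C(A', A')} {α₂ : C(A₂, A₂)} {α₂' : C(A₂', A₂')}
  {p : C(A, A')} {p₂ : C(A₂, A₂')}

theorem fb_map {hp : ∀ x, p (α x) = α' (p x)} {hp₂ : ∀ x, p₂ (α₂ x) = α₂' (p₂ x)}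
    {g : C(A, A₂)} {g' : C(A', A₂')} {hg : ∀ x, g (α x) = α₂ (g x)}
    {hg' : ∀ x, g' (α' x) = α₂' (g' x)} (h : FB p p₂ g g') :
    FB (MT.map p hp) (MT.map p₂ hp₂) (MT.map g hg) (MT.map g' hg') :=
  ZC.fb_map h h

theorem isCoveringMap_map {hp : ∀ x, p (α x) = α' (p x)} (h : IsCoveringMap p)
    (hα : FB p p α α') : IsCoveringMap (MT.map p hp) :=
  ZC.isCoveringMap_map p p _ _ h h (FB.refl p) hα

theorem fb_flow {hp : ∀ x, p (α x) = α' (p x)} (hα : FB p p α α') (t : I) :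
    FB (MT.map p hp) (MT.map p hp) (fun x => flow α (x, t)) (fun x => flow α' (x, t)) := by
  have hs : ∀ t, FB p (MT.map p hp) (fun x => ZC.hdl (.id A) α (x, t))
      (fun x => ZC.hdl (.id A') α' (x, t)) := fun t => ZC.fb_hdl (FB.refl p) hα t
  refine ZC.fb_of_slices (hs t) ?_
  intro s _ _
  by_cases h : ((avg s t : I) : ℝ) ≤ 1 / 2
  · simp only [flow_hdl, cat_of_le h]
    exact hs _
  · simp only [flow_hdl, cat_of_gt h]
    exact (hs _).comp hα

end MT

/-! ### Coverings of sums -/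

theorem evenly_of_openEmbedding {E X A A' : Type} [TopologicalSpace E] [TopologicalSpace X]
    [TopologicalSpace A] [TopologicalSpace A'] {f : E → X} (hf : Continuous f) (ho : IsOpenMap f)
    {i : A → E} {j : A' → X} (hi : IsOpenEmbedding i) (hj : IsOpenEmbedding j) {p : A → A'}
    (hp : IsCoveringMap p) (h : FB p f i j) (x : A') : IsEvenlyCovered f (j x) (f ⁻¹' {j x}) := by
  rcases exists_sheet_cases hp x with ⟨U, hx, hU, he⟩ | ⟨U, hx, hU, J, hJ, g, hg, hinj, hs⟩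
  · refine (IsEvenlyCovered.of_preimage_eq_empty (U := j '' U) Empty
        ((hj.isOpenMap U hU).mem_nhds ⟨x, hx, rfl⟩) ?_).to_isEvenlyCovered_preimage
    rw [eq_empty_iff_forall_notMem]
    rintro e ⟨u, hu, hue⟩
    obtain ⟨a, ha, _⟩ := h.surj u e hue.symm
    have : a ∈ p ⁻¹' U := by rw [mem_preimage, ha]; exact hu
    rw [he] at this
    exact this
  · classical
    let _ : TopologicalSpace J := ⊥
    have _ : DiscreteTopology J := ⟨rfl⟩
    let G : E → J := fun e => if h : ∃ a, i a = e then g h.choose else Classical.arbitrary J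
    have hG : ∀ a, G (i a) = g a := by
      intro a
      have h' : ∃ a', i a' = i a := ⟨a, rfl⟩
      change (if h : ∃ a', i a' = i a then g h.choose else Classical.arbitrary J) = g a
      rw [dif_pos h']
      exact congrArg g (hi.injective h'.choose_spec)
    refine (isEvenlyCovered_of_sheets hf ho (hj.isOpenMap U hU) ⟨x, hx, rfl⟩ G
      ?_ ?_ ?_).to_isEvenlyCovered_preimage
    · rintro e ⟨u, hu, hue⟩
      obtain ⟨a, ha, rfl⟩ := h.surj u e hue.symm
      apply ContinuousAt.continuousWithinAt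
      have hO : IsOpen (i '' (p ⁻¹' U ∩ g ⁻¹' {g a})) := hi.isOpenMap _ (hg (g a))
      have hev : G =ᶠ[𝓝 (i a)] fun _ => G (i a) := by
        filter_upwards [hO.mem_nhds ⟨a, ⟨by rw [mem_preimage, ha]; exact hu, rfl⟩, rfl⟩] with e' he'
        obtain ⟨a', ⟨_, ha'⟩, rfl⟩ := he'
        rw [hG, hG]
        exact ha'
      exact continuousAt_const.congr hev.symm
    · rintro e e' ⟨u, hu, hue⟩ hee hGG
      obtain ⟨a, ha, rfl⟩ := h.surj u e hue.symm
      obtain ⟨a', ha', rfl⟩ := h.surj u e' (by rw [← hee, hue])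
      rw [hG, hG] at hGG
      rw [hinj a a' (by rw [ha]; exact hu) (by rw [ha, ha']) hGG]
    · rintro y ⟨u, hu, rfl⟩ k
      obtain ⟨a, ha, hk⟩ := hs u hu k
      exact ⟨i a, by rw [h.comm, ha], by rw [hG, hk]⟩

section Sums

variable {A A' B B' : Type} [TopologicalSpace A] [TopologicalSpace A'] [TopologicalSpace B]
  [TopologicalSpace B']

theorem fb_inl (p : C(A, A')) (q : C(B, B')) :
    FB p (sumMapC p q) (Sum.inl : A → A ⊕ B) (Sum.inl : A' → A' ⊕ B') where
  comm _ := rfl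
  inj x y _ h := Sum.inl_injective h
  surj x e h := by
    rcases e with e | e
    · exact ⟨e, Sum.inl_injective h, rfl⟩
    · cases h

theorem fb_inr (p : C(A, A')) (q : C(B, B')) :
    FB q (sumMapC p q) (Sum.inr : B → A ⊕ B) (Sum.inr : B' → A' ⊕ B') where
  comm _ := rfl
  inj x y _ h := Sum.inr_injective h
  surj x e h := by
    rcases e with e | e
    · cases h
    · exact ⟨e, Sum.inr_injective h, rfl⟩

theorem isCoveringMap_sumMapC {p : C(A, A')} {q : C(B, B')} (hp : IsCoveringMap p)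
    (hq : IsCoveringMap q) : IsCoveringMap (sumMapC p q) := by
  have ho : IsOpenMap (sumMapC p q) := by
    rw [isOpenMap_sum]
    exact ⟨isOpenMap_inl.comp hp.isOpenMap, isOpenMap_inr.comp hq.isOpenMap⟩
  rintro (x | x)
  · exact evenly_of_openEmbedding (sumMapC p q).continuous ho .inl .inl hp (fb_inl p q) x
  · exact evenly_of_openEmbedding (sumMapC p q).continuous ho .inr .inr hq (fb_inr p q) x

end Sums

/-! ### Pullbacks of maps of discrete spaces -/

theorem isCoveringMap_of_pullback {E X S S' : Type} [TopologicalSpace E] [TopologicalSpace X]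
    [TopologicalSpace S] [DiscreteTopology S] [TopologicalSpace S'] [DiscreteTopology S']
    {p : E → X} {f : S → S'} {g : E → S} {g' : X → S'} (hp : Continuous p) (ho : IsOpenMap p)
    (hg : Continuous g) (hg' : Continuous g') (h : FB p f g g') : IsCoveringMap p := by
  intro x
  have hU : IsOpen (g' ⁻¹' {g' x}) := (isOpen_discrete _).preimage hg'
  rcases isEmpty_or_nonempty (f ⁻¹' {g' x}) with he | hn
  · refine (IsEvenlyCovered.of_preimage_eq_empty Empty (hU.mem_nhds rfl)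
      ?_).to_isEvenlyCovered_preimage
    rw [eq_empty_iff_forall_notMem]
    intro e he'
    exact he.elim ⟨g e, by rw [mem_preimage, h.comm]; exact he'⟩
  · classical
    let G₀ : S → f ⁻¹' {g' x} := fun s => if h : f s = g' x then ⟨s, h⟩ else Classical.arbitrary _
    have hG : ∀ s, f s = g' x → (G₀ s : S) = s := by
      intro s hs
      change ((if h : f s = g' x then ⟨s, h⟩ else Classical.arbitrary _ : f ⁻¹' {g' x}) : S) = s
      rw [dif_pos hs]
    refine (isEvenlyCovered_of_sheets hp ho hU rfl (J := f ⁻¹' {g' x}) (fun e => G₀ (g e))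
      ?_ ?_ ?_).to_isEvenlyCovered_preimage
    · exact ((continuous_of_discreteTopology (f := G₀)).comp hg).continuousOn
    · intro e e' he hee hG'
      have he1 : f (g e) = g' x := by rw [h.comm]; exact he
      have he2 : f (g e') = g' x := by rw [h.comm, ← hee]; exact he
      refine h.inj e e' hee ?_
      rw [← hG _ he1, ← hG _ he2, hG']
    · rintro y hy ⟨s, hs⟩
      obtain ⟨e, h1, h2⟩ := h.surj y s (hs.trans hy.symm)
      exact ⟨e, h1, Subtype.ext (by rw [h2]; exact hG s hs)⟩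

/-! ### The tower -/

namespace H3

variable {S S' S₂ S₂' : Type} [TopologicalSpace S] [TopologicalSpace S'] [TopologicalSpace S₂]
  [TopologicalSpace S₂'] {H : H3 S} {H' : H3 S'} {H₂ : H3 S₂} {H₂' : H3 S₂'}

/-- The actions are pulled back along `f`. -/
structure FBH (H : H3 S) (H' : H3 S') (f : C(S, S')) : Prop where
  z : FB f f H.z H'.z
  u : FB f f H.u H'.u
  y : FB f f H.y H'.y

variable {f : C(S, S')} {f₂ : C(S₂, S₂')}

theorem fb_map1 {hz hz₂} {g : C(S, S₂)} {g' : C(S', S₂')} {gz gz'} (h : FB f f₂ g g') :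
    FB (map1 (H := H) (H' := H') f hz) (map1 (H := H₂) (H' := H₂') f₂ hz₂)
      (map1 (H := H) (H' := H₂) g gz) (map1 (H := H') (H' := H₂') g' gz') := MT.fb_map h

theorem fb_map2 {hz hu hz₂ hu₂} {g : C(S, S₂)} {g' : C(S', S₂')} {gz gu gz' gu'}
    (h : FB f f₂ g g') :
    FB (map2 (H := H) (H' := H') f hz hu) (map2 (H := H₂) (H' := H₂') f₂ hz₂ hu₂)
      (map2 (H := H) (H' := H₂) g gz gu) (map2 (H := H') (H' := H₂') g' gz' gu') :=
  MT.fb_map (fb_map1 h)

theorem fb_map3 {hf hf₂} {g : C(S, S₂)} {g' : C(S', S₂')} {hg hg'}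
    (h : FB f f₂ g g') :
    FB (map3 (H := H) (H' := H') f hf) (map3 (H := H₂) (H' := H₂') f₂ hf₂)
      (map3 (H := H) (H' := H₂) g hg) (map3 (H := H') (H' := H₂') g' hg') :=
  MT.fb_map (fb_map2 h)

theorem fb_u1 {hz} (h : FBH H H' f) :
    FB (map1 (H := H) (H' := H') f hz) (map1 (H := H) (H' := H') f hz) H.u1 H'.u1 :=
  MT.fb_map h.u

theorem fb_y1 {hz} (h : FBH H H' f) :
    FB (map1 (H := H) (H' := H') f hz) (map1 (H := H) (H' := H') f hz) H.y1 H'.y1 :=
  MT.fb_map h.y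

theorem fb_y2 {hz hu} (h : FBH H H' f) :
    FB (map2 (H := H) (H' := H') f hz hu) (map2 (H := H) (H' := H') f hz hu) H.y2 H'.y2 :=
  MT.fb_map (fb_y1 h)

theorem isCoveringMap_map3 {hf} (h : FBH H H' f) (hc : IsCoveringMap f) :
    IsCoveringMap (map3 (H := H) (H' := H') f hf) :=
  MT.isCoveringMap_map (MT.isCoveringMap_map (MT.isCoveringMap_map hc h.z) (fb_u1 h)) (fb_y2 h)

theorem FBH.K (h : FBH H H' f) : FBH H.K H'.K (ContinuousMap.prodMap (.id KC) f) where
  z := by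
    refine ⟨fun e => Prod.ext rfl (h.z.comm e.2), ?_, ?_⟩
    · rintro ⟨k, x⟩ ⟨k', x'⟩ h1 h2
      have e1 : k = k' := congrArg (fun q : KC × S' => q.1) h1
      have e2 : f x = f x' := congrArg (fun q : KC × S' => q.2) h1
      have e3 : H.z x = H.z x' := congrArg (fun q : KC × S => q.2) h2
      rw [e1, h.z.inj _ _ e2 e3]
    · rintro ⟨k, x'⟩ ⟨k₁, y⟩ h1
      have e1 : k₁ = k + k := congrArg (fun q : KC × S' => q.1) h1
      have e2 : f y = H'.z x' := congrArg (fun q : KC × S' => q.2) h1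
      obtain ⟨x, h3, h4⟩ := h.z.surj _ _ e2
      exact ⟨(k, x), Prod.ext rfl h3, Prod.ext e1.symm h4⟩
  u := by
    refine ⟨fun e => Prod.ext rfl (h.u.comm e.2), ?_, ?_⟩
    · rintro ⟨k, x⟩ ⟨k', x'⟩ h1 h2
      have e1 : k = k' := congrArg (fun q : KC × S' => q.1) h1
      have e2 : f x = f x' := congrArg (fun q : KC × S' => q.2) h1
      have e3 : H.u x = H.u x' := congrArg (fun q : KC × S => q.2) h2
      rw [e1, h.u.inj _ _ e2 e3]
    · rintro ⟨k, x'⟩ ⟨k₁, y⟩ h1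
      have e1 : k₁ = -k := congrArg (fun q : KC × S' => q.1) h1
      have e2 : f y = H'.u x' := congrArg (fun q : KC × S' => q.2) h1
      obtain ⟨x, h3, h4⟩ := h.u.surj _ _ e2
      exact ⟨(k, x), Prod.ext rfl h3, Prod.ext e1.symm h4⟩
  y := by
    refine ⟨fun e => Prod.ext rfl (h.y.comm e.2), ?_, ?_⟩
    · rintro ⟨k, x⟩ ⟨k', x'⟩ h1 h2
      have e1 : k = k' := congrArg (fun q : KC × S' => q.1) h1
      have e2 : f x = f x' := congrArg (fun q : KC × S' => q.2) h1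
      have e3 : H.y x = H.y x' := congrArg (fun q : KC × S => q.2) h2
      rw [e1, h.y.inj _ _ e2 e3]
    · rintro ⟨k, x'⟩ ⟨k₁, y⟩ h1
      have e1 : k₁ = k := congrArg (fun q : KC × S' => q.1) h1
      have e2 : f y = H'.y x' := congrArg (fun q : KC × S' => q.2) h1
      obtain ⟨x, h3, h4⟩ := h.y.surj _ _ e2
      exact ⟨(k, x), Prod.ext rfl h3, Prod.ext e1.symm h4⟩

theorem fb_snd (f : C(S, S')) : FB (ContinuousMap.prodMap (.id KC) f) f
    (Prod.snd : KC × S → S) (Prod.snd : KC × S' → S') where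
  comm _ := rfl
  inj := by
    rintro ⟨k, x⟩ ⟨k', x'⟩ h1 h2
    have e1 : k = k' := congrArg (fun q : KC × S' => q.1) h1
    have e2 : x = x' := h2
    rw [e1, e2]
  surj := by
    rintro ⟨k, x'⟩ y h
    exact ⟨(k, y), Prod.ext rfl h, rfl⟩

theorem isCoveringMap_prodMap [DiscreteTopology S] [DiscreteTopology S'] (f : C(S, S')) :
    IsCoveringMap (ContinuousMap.prodMap (.id KC) f) :=
  isCoveringMap_of_pullback (ContinuousMap.continuous _)
    (IsOpenMap.id.prodMap (fun _ _ => isOpen_discrete _)) continuous_snd continuous_snd (fb_snd f)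

end H3

namespace GS

variable {S S' : Type} [TopologicalSpace S] [TopologicalSpace S'] {a : GS S} {b : GS S'}
  {f : C(S, S')}

/-- The actions are pulled back along `f`. -/
def FBG (a : GS S) (b : GS S') (f : C(S, S')) : Prop := ∀ g, FB f f (a.act g) (b.act g)

theorem FBG.h3 (h : FBG a b f) : H3.FBH a.toH3 b.toH3 f := ⟨h .z, h .u, h .y⟩

theorem fbg_of_bij (ha : a.Bij) (hb : b.Bij) (h : HomT a b f) : FBG a b f := by
  have hc : ∀ g x, f (a.act g x) = b.act g (f x) := by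
    intro g
    cases g
    · exact h.g.z
    · exact h.g.u
    · exact h.g.y
    · exact h.g.s
    · exact h.g.r
    · exact h.t
  intro g
  refine ⟨hc g, fun e e' _ h2 => (ha g).1 h2, ?_⟩
  intro x e h1
  obtain ⟨e', rfl⟩ := (ha g).2 e
  refine ⟨e', (hb g).1 ?_, rfl⟩
  rw [← hc, h1]

variable (h : HomT a b f) (hF : FBG a b f)

include hF in
theorem fb_s2 : FB (H3.map2 f h.g.z h.g.u) (H3.map2 f h.g.z h.g.u) a.s2 b.s2 :=
  H3.fb_map2 (hF .s)

include hF in
theorem fb_r2 : FB (H3.map2 f h.g.z h.g.u) (H3.map2 f h.g.z h.g.u) a.r2 b.r2 :=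
  H3.fb_map2 (hF .r)

theorem fb_inAV : FB (H3.map2 f h.g.z h.g.u) (fV f h.g)
    (fun x => ZC.inA (.id _) a.y2 x) (fun x => ZC.inA (.id _) b.y2 x) :=
  ZC.fb_inA (a := .id _) (b := a.y2) (a' := .id _) (b' := b.y2) (p := H3.map2 f h.g.z h.g.u)
    (pW := H3.map2 f h.g.z h.g.u) (ha := fun _ => rfl) (hb := H3.map2_y2 h.g.toHom)

theorem fb_inAB1 : FB (fV f h.g) (fB1 f h.g)
    (fun x => ZC.inA (.id _) a.sig x) (fun x => ZC.inA (.id _) b.sig x) :=
  ZC.fb_inA (a := .id _) (b := a.sig) (a' := .id _) (b' := b.sig) (p := fV f h.g)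
    (pW := fV f h.g) (ha := fun _ => rfl) (hb := fV_sig h.g)

theorem fb_inAB : FB (fB1 f h.g) (fB f h.g)
    (fun x => ZC.inA (ZC.inA (.id _) a.sig) ((ZC.inA (.id _) a.sig).comp a.rho) x)
    (fun x => ZC.inA (ZC.inA (.id _) b.sig) ((ZC.inA (.id _) b.sig).comp b.rho) x) :=
  ZC.fb_inA (a := ZC.inA (.id _) a.sig) (b := (ZC.inA (.id _) a.sig).comp a.rho)
    (a' := ZC.inA (.id _) b.sig) (b' := (ZC.inA (.id _) b.sig).comp b.rho) (p := fB1 f h.g)
    (pW := fV f h.g) (ha := fun _ => rfl) (hb := fun x => congrArg (ZC.inA _ _) (fV_rho h.g x))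

theorem fb_inAD : FB (fB f h.g) (fD f h)
    (fun x => ZC.inA (.id _) a.tB x) (fun x => ZC.inA (.id _) b.tB x) :=
  ZC.fb_inA (a := .id _) (b := a.tB) (a' := .id _) (b' := b.tB) (p := fB f h.g)
    (pW := fB f h.g) (ha := fun _ => rfl) (hb := fB_tB h)

include hF in
theorem fb_hdlV (t : I) : FB (H3.map2 f h.g.z h.g.u) (fV f h.g)
    (fun x => ZC.hdl (.id _) a.y2 (x, t)) (fun x => ZC.hdl (.id _) b.y2 (x, t)) :=
  ZC.fb_hdl (a := .id _) (b := a.y2) (a' := .id _) (b' := b.y2) (p := H3.map2 f h.g.z h.g.u)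
    (pW := H3.map2 f h.g.z h.g.u) (ha := fun _ => rfl) (hb := H3.map2_y2 h.g.toHom)
    (FB.refl _) (H3.fb_y2 hF.h3) t

include hF in
theorem fb_sig : FB (fV f h.g) (fV f h.g) a.sig b.sig := by
  refine ZC.fb_of_slices (a := .id _) (b := a.y2) (a' := .id _) (b' := b.y2)
    (p := H3.map2 f h.g.z h.g.u) (pW := H3.map2 f h.g.z h.g.u) (ha := fun _ => rfl)
    (hb := H3.map2_y2 h.g.toHom) ?_ ?_
  · exact (fb_inAV h).comp (fb_s2 h hF)
  · intro t _ _
    by_cases ht : (t : ℝ) ≤ 1 / 2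
    · simp only [sig_hdl_le _ _ _ ht]
      exact (fb_hdlV h hF _).comp (fb_s2 h hF)
    · simp only [sig_hdl_gt _ _ _ ht]
      exact (fb_hdlV h hF _).comp ((H3.fb_y2 hF.h3).comp (fb_s2 h hF))

include hF in
theorem fb_rho : FB (fV f h.g) (fV f h.g) a.rho b.rho := by
  refine ZC.fb_of_slices (a := .id _) (b := a.y2) (a' := .id _) (b' := b.y2)
    (p := H3.map2 f h.g.z h.g.u) (pW := H3.map2 f h.g.z h.g.u) (ha := fun _ => rfl)
    (hb := H3.map2_y2 h.g.toHom) ?_ ?_
  · exact (fb_inAV h).comp (fb_r2 h hF)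
  · intro t _ _
    by_cases ht : (t : ℝ) ≤ 1 / 2
    · simp only [rho_hdl_le _ _ _ ht]
      exact (fb_hdlV h hF _).comp (fb_r2 h hF)
    · simp only [rho_hdl_gt _ _ _ ht]
      exact (fb_inAV h).comp
        ((MT.fb_flow (H3.fb_u1 hF.h3) _).comp ((H3.fb_y2 hF.h3).comp (fb_r2 h hF)))

include hF in
theorem fb_tV : FB (fV f h.g) (fV f h.g) (fV a.t a.tHom) (fV b.t b.tHom) :=
  H3.fb_map3 (hF .t)

include hF in
theorem fb_tB : FB (fB f h.g) (fB f h.g) a.tB b.tB :=
  ZC.fb_map (a := ZC.inA (.id _) a.sig) (b := (ZC.inA (.id _) a.sig).comp a.rho)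
    (a' := ZC.inA (.id _) b.sig) (b' := (ZC.inA (.id _) b.sig).comp b.rho)
    (a₂ := ZC.inA (.id _) a.sig) (b₂ := (ZC.inA (.id _) a.sig).comp a.rho)
    (a₂' := ZC.inA (.id _) b.sig) (b₂' := (ZC.inA (.id _) b.sig).comp b.rho)
    (p := fB1 f h.g) (pW := fV f h.g) (p₂ := fB1 f h.g) (pW₂ := fV f h.g)
    (g := fB1 a.t a.tHom) (k := fV a.t a.tHom) (g' := fB1 b.t b.tHom) (k' := fV b.t b.tHom)
    (ga := fun _ => rfl) (gb := fun x => congrArg (ZC.inA _ _) (fV_rho a.tHom x))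
    (ga' := fun _ => rfl) (gb' := fun x => congrArg (ZC.inA _ _) (fV_rho b.tHom x))
    (ha := fun _ => rfl) (hb := fun x => congrArg (ZC.inA _ _) (fV_rho h.g x))
    (ha₂ := fun _ => rfl) (hb₂ := fun x => congrArg (ZC.inA _ _) (fV_rho h.g x))
    (MT.fb_map (fb_tV h hF)) (fb_tV h hF)

variable [DiscreteTopology S] [DiscreteTopology S']

include hF in
theorem isCoveringMap_fV : IsCoveringMap (fV f h.g) :=
  H3.isCoveringMap_map3 hF.h3 (IsCoveringMap.of_discreteTopology _)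

include hF in
theorem isCoveringMap_fB1 : IsCoveringMap (fB1 f h.g) :=
  MT.isCoveringMap_map (isCoveringMap_fV h hF) (fb_sig h hF)

include hF in
theorem isCoveringMap_fB : IsCoveringMap (fB f h.g) :=
  ZC.isCoveringMap_map _ _ _ _ (isCoveringMap_fB1 h hF) (isCoveringMap_fV h hF) (fb_inAB1 h)
    ((fb_inAB1 h).comp (fb_rho h hF))

include hF in
theorem isCoveringMap_fD : IsCoveringMap (fD f h) :=
  MT.isCoveringMap_map (isCoveringMap_fB h hF) (fb_tB h hF)

include hF in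
theorem isCoveringMap_fE : IsCoveringMap (fE f h.g.toHom) :=
  H3.isCoveringMap_map3 hF.h3.K (H3.isCoveringMap_prodMap f)

omit [DiscreteTopology S] [DiscreteTopology S'] in
theorem fb_rE : FB (fE f h.g.toHom) (fV f h.g) a.rE b.rE :=
  H3.fb_map3 (H3.fb_snd f)

omit [DiscreteTopology S] [DiscreteTopology S'] in
theorem fb_inVD : FB (fV f h.g) (fD f h) a.inVD b.inVD :=
  (fb_inAD h).comp ((fb_inAB h).comp (fb_inAB1 h))

include hF in
theorem isCoveringMap_fX' : IsCoveringMap (fX f h) :=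
  ZC.isCoveringMap_map _ _
    (fun e => congrArg (fun x => Sum.inl (b.inVD x)) (GS.rE_fE h.g e).symm)
    (fun e => congrArg Sum.inr (GS.rE_fE h.g e).symm)
    (isCoveringMap_sumMapC (isCoveringMap_fD h hF) (isCoveringMap_fV h hF)) (isCoveringMap_fE h hF)
    ((fb_inl _ _).comp ((fb_inVD h).comp (fb_rE h))) ((fb_inr _ _).comp (fb_rE h))

end GS

theorem GS.isCoveringMap_fX {S S' : Type} [TopologicalSpace S] [DiscreteTopology S]
    [TopologicalSpace S'] [DiscreteTopology S'] {a : GS S} {b : GS S'} (ha : a.Bij) (hb : b.Bij)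
    (f : C(S, S')) (h : GS.HomT a b f) : IsCoveringMap (GS.fX f h) :=
  GS.isCoveringMap_fX' h (GS.fbg_of_bij ha hb h)

theorem GS.fb_xpt {S S' : Type} [TopologicalSpace S] [TopologicalSpace S'] {a : GS S}
    {b : GS S'} (f : C(S, S')) (h : GS.HomT a b f) : FB f (GS.fX f h) a.xpt b.xpt :=
  have h1 : FB f (H3.map1 (H := a.toH3) (H' := b.toH3) f h.g.z)
      (fun x => ZC.inA (.id _) a.z x) (fun x => ZC.inA (.id _) b.z x) :=
    ZC.fb_inA (a := .id _) (b := a.z) (a' := .id _) (b' := b.z) (p := f) (pW := f)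
      (ha := fun _ => rfl) (hb := h.g.z)
  have h2 : FB (H3.map1 (H := a.toH3) (H' := b.toH3) f h.g.z)
      (H3.map2 (H := a.toH3) (H' := b.toH3) f h.g.z h.g.u)
      (fun x => ZC.inA (.id _) a.u1 x) (fun x => ZC.inA (.id _) b.u1 x) :=
    ZC.fb_inA (a := .id _) (b := a.u1) (a' := .id _) (b' := b.u1) (p := H3.map1 f h.g.z)
      (pW := H3.map1 f h.g.z) (ha := fun _ => rfl) (hb := H3.map1_u1 h.g.z h.g.u)
  have h3 : FB (sumMapC (GS.fD f h) (GS.fV f h.g)) (GS.fX f h)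
      (fun x => ZC.inA (inlC.comp (a.inVD.comp a.rE)) (inrC.comp a.rE) x)
      (fun x => ZC.inA (inlC.comp (b.inVD.comp b.rE)) (inrC.comp b.rE) x) :=
    ZC.fb_inA (a := inlC.comp (a.inVD.comp a.rE)) (b := inrC.comp a.rE)
      (a' := inlC.comp (b.inVD.comp b.rE)) (b' := inrC.comp b.rE)
      (p := sumMapC (GS.fD f h) (GS.fV f h.g)) (pW := GS.fE f h.g.toHom)
      (ha := fun e => congrArg (fun x => Sum.inl (b.inVD x)) (GS.rE_fE h.g e).symm)
      (hb := fun e => congrArg Sum.inr (GS.rE_fE h.g e).symm)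
  (h3.comp (fb_inl _ _)).comp ((GS.fb_inVD h).comp ((GS.fb_inAV h).comp (h2.comp h1)))

theorem GS.fX_eq_xpt {S S' : Type} [TopologicalSpace S] [TopologicalSpace S'] {a : GS S}
    {b : GS S'} (f : C(S, S')) (h : GS.HomT a b f) (z : a.X) (x : S') (hz : GS.fX f h z = b.xpt x) :
    ∃ w, f w = x ∧ z = a.xpt w := by
  obtain ⟨w, h1, h2⟩ := (GS.fb_xpt f h).surj x z hz
  exact ⟨w, h1, h2.symm⟩

theorem GS.xpt_injective {S : Type} [TopologicalSpace S] (a : GS S) :
    Function.Injective a.xpt := by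
  intro x y h
  have h1 := ZC.inA_injective h
  have h2 := Sum.inl_injective h1
  exact ZC.inA_injective (ZC.inA_injective (ZC.inA_injective (ZC.inA_injective
    (ZC.inA_injective (ZC.inA_injective h2)))))

end Pool.H74
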