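import Mathlib

/-! A degree argument: the degree-`n` self-map of the 2-sphere (as a suspension) is not homotopic,
through maps of suspensions, to a map that misses a point. -/

open Topology unitInterval Set

namespace Pool.H74.Deg

/-- Propagation along the interval. -/
theorem unit_induction (P : I → Prop) (h0 : P 0) (δ : ℝ) (hδ : 0 < δ)
    (h : ∀ s s' : I, |(s : ℝ) - s'| < δ → P s → P s') : P 1 := by
  have key : ∀ i : ℕ, ∀ s : I, (s : ℝ) ≤ i * (δ / 2) → P s := by
    intro i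
    induction i with
    | zero =>
      intro s hs
      have : s = 0 := by
        apply Subtype.ext
        have h1 := s.2.1
        have h2 : (s : ℝ) ≤ 0 := by simpa using hs
        exact le_antisymm h2 h1
      rw [this]; exact h0
    | succ i ih =>
      intro s hs
      by_cases hsi : (s : ℝ) ≤ i * (δ / 2)
      · exact ih s hsi
      · push Not at hsi
        have hs' : (i : ℝ) * (δ / 2) ∈ Icc (0 : ℝ) 1 :=
          ⟨by positivity, hsi.le.trans s.2.2⟩
        refine h ⟨_, hs'⟩ s ?_ (ih _ le_rfl)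
        push_cast at hs
        rw [abs_lt]
        constructor
        · simp only; linarith
        · simp only; linarith
  obtain ⟨i, hi⟩ := exists_nat_gt (1 / (δ / 2))
  refine key i 1 ?_
  have : 1 / (δ / 2) * (δ / 2) = 1 := by field_simp
  have h2 : 1 / (δ / 2) * (δ / 2) ≤ i * (δ / 2) := by
    apply mul_le_mul_of_nonneg_right hi.le (by positivity)
  simp only [Set.Icc.coe_one]
  linarith

/-- Uniform continuity in the last variable. -/
theorem exists_delta {X E : Type} [TopologicalSpace X] [CompactSpace X] [PseudoMetricSpace E]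
    (f : C(X × I, E)) (ε : ℝ) (hε : 0 < ε) :
    ∃ δ > 0, ∀ x (s s' : I), |(s : ℝ) - s'| < δ → dist (f (x, s)) (f (x, s')) < ε := by
  -- curry: I → C(X, E) is continuous, hence uniformly continuous
  let F : C(I, C(X, E)) := (f.comp ⟨Prod.swap, continuous_swap⟩).curry
  have hF : UniformContinuous F := CompactSpace.uniformContinuous_of_continuous F.continuous
  rw [Metric.uniformContinuous_iff] at hF
  obtain ⟨δ, hδ, h⟩ := hF ε hε
  refine ⟨δ, hδ, fun x s s' hs => ?_⟩
  have h1 : dist (F s) (F s') < ε := h (by rw [Subtype.dist_eq, Real.dist_eq]; exact hs)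
  exact (ContinuousMap.dist_apply_le_dist x).trans_lt h1

/-- A nowhere vanishing function on `K × I` induces a logarithm of the quotient of the ends. -/
theorem exists_log {K : Type} [TopologicalSpace K] [CompactSpace K] (g : C(K × I, ℂ))
    (hg : ∀ x, g x ≠ 0) : ∃ Θ : C(K, ℂ), ∀ k, g (k, 1) = g (k, 0) * Complex.exp (Θ k) := by
  -- the quotients are uniformly close to one
  have hmin : ∃ m > 0, ∀ x, m ≤ ‖g x‖ := by
    by_cases hK : Nonempty K
    · obtain ⟨x0, hx0⟩ := (isCompact_univ (X := K × I)).exists_isMinOn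
        (univ_nonempty) (g.continuous.norm.continuousOn)
      refine ⟨‖g x0‖, norm_pos_iff.2 (hg x0), fun x => ?_⟩
      exact hx0.2 (mem_univ x)
    · refine ⟨1, one_pos, fun x => (hK ⟨x.1⟩).elim⟩
  obtain ⟨m, hm, hm'⟩ := hmin
  obtain ⟨δ, hδ, h⟩ := exists_delta g m hm
  refine unit_induction (fun τ => ∃ Θ : C(K, ℂ), ∀ k, g (k, τ) = g (k, 0) * Complex.exp (Θ k))
    ⟨0, by simp⟩ δ hδ ?_
  rintro s s' hs ⟨Θ, hΘ⟩
  have hr : ∀ k, g (k, s') / g (k, s) ∈ Complex.slitPlane := by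
    intro k
    left
    have h1 : ‖g (k, s') / g (k, s) - 1‖ < 1 := by
      have h2 : g (k, s') / g (k, s) - 1 = (g (k, s') - g (k, s)) / g (k, s) := by
        field_simp [hg]
      rw [h2, norm_div, div_lt_one (norm_pos_iff.2 (hg _))]
      have := h k s s' hs
      rw [dist_comm, dist_eq_norm] at this
      exact this.trans_le (hm' _)
    have h3 := (Complex.abs_re_le_norm (g (k, s') / g (k, s) - 1)).trans_lt h1
    rw [Complex.sub_re, Complex.one_re, abs_lt] at h3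
    linarith [h3.1]
  refine ⟨⟨fun k => Θ k + Complex.log (g (k, s') / g (k, s)), ?_⟩, ?_⟩
  · refine Θ.continuous.add (Continuous.clog ?_ hr)
    refine Continuous.div ?_ ?_ (fun k => hg _)
    · exact g.continuous.comp (by fun_prop)
    · exact g.continuous.comp (by fun_prop)
  · intro k
    simp only [ContinuousMap.coe_mk]
    rw [Complex.exp_add, Complex.exp_log (div_ne_zero (hg _) (hg _)), ← mul_assoc, ← hΘ k]
    field_simp [hg]

/-- No nowhere vanishing function on `circle × I` is constant at one end and a nonzero power at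
the other. -/
theorem winding (n : ℤ) (hn : n ≠ 0) (g : C(AddCircle (1 : ℝ) × I, ℂ)) (hg : ∀ x, g x ≠ 0)
    (c0 c1 : ℂ) (h0 : ∀ k, g (k, 0) = c0)
    (h1 : ∀ k, g (k, 1) = c1 * ((AddCircle.toCircle (n • k) : Circle) : ℂ)) : False := by
  obtain ⟨Θ, hΘ⟩ := exists_log g hg
  have hc0 : c0 ≠ 0 := by rw [← h0 0]; exact hg _
  have hc1 : c1 ≠ 0 := by
    intro h
    have := h1 0
    rw [h, zero_mul] at this
    exact hg _ this
  -- φ t = Θ t - 2 π i n t
  have hexp : ∀ t : ℝ, Complex.exp (Θ (t : AddCircle (1 : ℝ)) - 2 * Real.pi * Complex.I * n * t)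
      = c1 / c0 := by
    intro t
    have h2 := hΘ (t : AddCircle (1 : ℝ))
    rw [h1, h0] at h2
    have h3 : ((AddCircle.toCircle (n • (t : AddCircle (1 : ℝ))) : Circle) : ℂ)
        = Complex.exp (2 * Real.pi * Complex.I * n * t) := by
      rw [← AddCircle.coe_zsmul, AddCircle.toCircle_apply_mk]
      rw [Circle.coe_exp]
      congr 1
      push_cast
      simp
      ring
    rw [h3] at h2
    rw [Complex.exp_sub, div_eq_div_iff (Complex.exp_ne_zero _) hc0, mul_comm, ← h2]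
  let f : ℝ → ℝ := fun t =>
    (Θ (t : AddCircle (1 : ℝ)) - 2 * Real.pi * Complex.I * n * t - Θ 0).im / (2 * Real.pi)
  have hf : Continuous f := by
    refine Continuous.div_const (Complex.continuous_im.comp ?_) _
    refine (Continuous.sub ?_ ?_).sub continuous_const
    · exact Θ.continuous.comp (AddCircle.continuous_mk' 1)
    · fun_prop
  have hint : ∀ t, ∃ j : ℤ, f t = j := by
    intro t
    have h2 := hexp t
    have h3 := hexp 0
    rw [← h3, Complex.exp_eq_exp_iff_exists_int] at h2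
    obtain ⟨j, hj⟩ := h2
    refine ⟨j, ?_⟩
    have h4 : Θ (t : AddCircle (1 : ℝ)) - 2 * Real.pi * Complex.I * n * t - Θ 0
        = j * (2 * Real.pi * Complex.I) := by
      rw [hj]
      simp
    simp only [f]
    rw [h4]
    have h5 : ((j : ℂ) * (2 * Real.pi * Complex.I)).im = j * (2 * Real.pi) := by
      have : (j : ℂ) * (2 * Real.pi * Complex.I) = ((j * (2 * Real.pi) : ℝ) : ℂ) * Complex.I := by
        push_cast; ring
      rw [this]
      simp
    rw [h5]
    field_simp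
  have hf0 : f 0 = 0 := by simp [f]
  have hf1 : f 1 = -n := by
    have h2 : ((1 : ℝ) : AddCircle (1 : ℝ)) = 0 := AddCircle.coe_period 1
    simp only [f]
    rw [h2]
    have h5 : (Θ 0 - 2 * Real.pi * Complex.I * n * ((1 : ℝ) : ℂ) - Θ 0).im = -n * (2 * Real.pi) := by
      have : Θ 0 - 2 * Real.pi * Complex.I * n * ((1 : ℝ) : ℂ) - Θ 0
        = ((-n * (2 * Real.pi) : ℝ) : ℂ) * Complex.I := by
        push_cast; ring
      rw [this]
      simp
    rw [h5]
    field_simp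
  have hhalf : ∀ t, ∀ j : ℤ, f t ≠ j + 1 / 2 := by
    intro t j h
    obtain ⟨l, hl⟩ := hint t
    rw [hl] at h
    have h2 : (2 * l : ℝ) = 2 * j + 1 := by linarith
    have h3 : (2 * l : ℤ) = 2 * j + 1 := by exact_mod_cast h2
    omega
  rcases lt_or_gt_of_ne hn with h | h
  · -- f 1 = -n ≥ 1
    have h2 : (1 : ℝ) ≤ f 1 := by
      rw [hf1]
      have : n ≤ -1 := by omega
      have : (n : ℝ) ≤ -1 := by exact_mod_cast this
      linarith
    obtain ⟨t, ht⟩ := mem_range_of_exists_le_of_exists_ge (c := (1 / 2 : ℝ)) hf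
      ⟨0, by rw [hf0]; norm_num⟩ ⟨1, by linarith⟩
    exact hhalf t 0 (by rw [ht]; norm_num)
  · have h2 : f 1 ≤ -1 := by
      rw [hf1]
      have : 1 ≤ n := by omega
      have : (1 : ℝ) ≤ n := by exact_mod_cast this
      linarith
    obtain ⟨t, ht⟩ := mem_range_of_exists_le_of_exists_ge (c := (-1 / 2 : ℝ)) hf
      ⟨1, by linarith⟩ ⟨0, by rw [hf0]; norm_num⟩
    exact hhalf t (-1) (by rw [ht]; norm_num)

/-- The point `v` lies on the line of `(a, b)`. -/
def OnLine (p : ℝ × ℂ) (v : ℂ × ℂ) : Prop :=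
  (1 + p.1) * v.1 + (starRingEnd ℂ) p.2 * v.2 = 2 * v.1 ∧
    p.2 * v.1 + (1 - p.1) * v.2 = 2 * v.2

/-- The projection. -/
noncomputable def proj (p : ℝ × ℂ) (v : ℂ × ℂ) : ℂ × ℂ :=
  (((1 + p.1) * v.1 + (starRingEnd ℂ) p.2 * v.2) / 2, (p.2 * v.1 + (1 - p.1) * v.2) / 2)

theorem normSq_eq (p : ℝ × ℂ) (hp : p.1 ^ 2 + ‖p.2‖ ^ 2 = 1) :
    p.2 * (starRingEnd ℂ) p.2 = 1 - (p.1 : ℂ) ^ 2 := by
  rw [Complex.mul_conj, Complex.normSq_eq_norm_sq]
  have : ‖p.2‖ ^ 2 = 1 - p.1 ^ 2 := by linarith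
  rw [this]
  push_cast
  ring

theorem onLine_proj (p : ℝ × ℂ) (hp : p.1 ^ 2 + ‖p.2‖ ^ 2 = 1) (v : ℂ × ℂ) :
    OnLine p (proj p v) := by
  have h := normSq_eq p hp
  unfold OnLine proj
  simp only
  constructor
  · linear_combination (v.1 / 2) * h
  · linear_combination (v.2 / 2) * h

theorem proj_ne_zero (p p' : ℝ × ℂ) (hp : p.1 ^ 2 + ‖p.2‖ ^ 2 = 1)
    (hd : dist p p' < 1) (v : ℂ × ℂ) (hv : v ≠ 0) (hl : OnLine p v) : proj p' v ≠ 0 := by
  intro h0
  unfold proj at h0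
  rw [Prod.mk_eq_zero] at h0
  obtain ⟨e1, e2⟩ := h0
  obtain ⟨l1, l2⟩ := hl
  -- with A = a + a', B = b + b' : A v1 + conj B v2 = 0, B v1 - A v2 = 0
  have k1 : ((p.1 + p'.1 : ℝ) : ℂ) * v.1 + (starRingEnd ℂ) (p.2 + p'.2) * v.2 = 0 := by
    rw [map_add]
    push_cast
    linear_combination l1 + 2 * e1
  have k2 : (p.2 + p'.2) * v.1 - ((p.1 + p'.1 : ℝ) : ℂ) * v.2 = 0 := by
    push_cast
    linear_combination l2 + 2 * e2
  have hdet : ((p.1 + p'.1) ^ 2 + ‖p.2 + p'.2‖ ^ 2 : ℝ) ≠ 0 := by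
    intro h
    have hA : p.1 + p'.1 = 0 := by nlinarith [sq_nonneg (p.1 + p'.1), sq_nonneg ‖p.2 + p'.2‖]
    have hB : p.2 + p'.2 = 0 := by
      rw [← norm_eq_zero]
      nlinarith [sq_nonneg (p.1 + p'.1), sq_nonneg ‖p.2 + p'.2‖]
    rw [Prod.dist_eq, max_lt_iff, Real.dist_eq, dist_eq_norm] at hd
    have h1 : p'.1 = - p.1 := by linarith
    have h2 : p'.2 = - p.2 := by linear_combination hB
    rw [h1, h2] at hd
    have h3 : |p.1 - -p.1| = 2 * |p.1| := by
      rw [sub_neg_eq_add, ← two_mul, abs_mul]; norm_num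
    have h4 : ‖p.2 - -p.2‖ = 2 * ‖p.2‖ := by
      rw [sub_neg_eq_add, ← two_mul, norm_mul]; norm_num
    rw [h3, h4] at hd
    have h5 := abs_nonneg p.1
    have h6 := norm_nonneg p.2
    have h7 : |p.1| ^ 2 = p.1 ^ 2 := sq_abs _
    nlinarith [hd.1, hd.2]
  have hdet' : (((p.1 + p'.1) ^ 2 + ‖p.2 + p'.2‖ ^ 2 : ℝ) : ℂ) ≠ 0 := by
    exact_mod_cast hdet
  have hN : (p.2 + p'.2) * (starRingEnd ℂ) (p.2 + p'.2) = ((‖p.2 + p'.2‖ ^ 2 : ℝ) : ℂ) := by
    rw [Complex.mul_conj, Complex.normSq_eq_norm_sq]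
  apply hv
  apply Prod.ext
  · have : (((p.1 + p'.1) ^ 2 + ‖p.2 + p'.2‖ ^ 2 : ℝ) : ℂ) * v.1 = 0 := by
      push_cast at hN ⊢
      push_cast at k1 k2
      linear_combination (p.1 + p'.1 : ℂ) * k1 + (starRingEnd ℂ) (p.2 + p'.2) * k2 - v.1 * hN
    exact (mul_eq_zero.1 this).resolve_left hdet'
  · have : (((p.1 + p'.1) ^ 2 + ‖p.2 + p'.2‖ ^ 2 : ℝ) : ℂ) * v.2 = 0 := by
      push_cast at hN ⊢
      push_cast at k1 k2
      linear_combination (p.2 + p'.2) * k1 - (p.1 + p'.1 : ℂ) * k2 - v.2 * hN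
    exact (mul_eq_zero.1 this).resolve_left hdet'

theorem degree_contradiction (n : ℤ) (hn : n ≠ 0)
    (Φ : C((AddCircle (1 : ℝ) × I) × I, ℝ × ℂ))
    (hnorm : ∀ p, (Φ p).1 ^ 2 + ‖(Φ p).2‖ ^ 2 = 1)
    (h0 : ∀ k k' s, Φ ((k, 0), s) = Φ ((k', 0), s))
    (h1 : ∀ k k' s, Φ ((k, 1), s) = Φ ((k', 1), s))
    (hone : ∀ k τ, Φ ((k, τ), 1) =
      (Real.cos (Real.pi * (τ : ℝ)), (Real.sin (Real.pi * (τ : ℝ)) : ℂ) *
        ((AddCircle.toCircle (n • k) : Circle) : ℂ)))
    (hzero : ∀ k τ, -1 < (Φ ((k, τ), 0)).1) : False := by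
  obtain ⟨δ, hδ, hunif⟩ := exists_delta Φ 1 one_pos
  -- a section over all of `K × I` at time one
  have hsec : ∃ v : C(AddCircle (1 : ℝ) × I, ℂ × ℂ), (∀ x, v x ≠ 0) ∧
      (∀ x, OnLine (Φ (x, 1)) (v x)) ∧ (∀ k k', v (k, 0) = v (k', 0)) ∧
      (∀ k k', v (k, 1) = v (k', 1)) := by
    refine unit_induction (fun s => ∃ v : C(AddCircle (1 : ℝ) × I, ℂ × ℂ), (∀ x, v x ≠ 0) ∧
      (∀ x, OnLine (Φ (x, s)) (v x)) ∧ (∀ k k', v (k, 0) = v (k', 0)) ∧
      (∀ k k', v (k, 1) = v (k', 1))) ?_ δ hδ ?_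
    · refine ⟨⟨fun x => (((1 + (Φ (x, 0)).1 : ℝ) : ℂ), (Φ (x, 0)).2), by fun_prop⟩, ?_, ?_, ?_, ?_⟩
      · rintro ⟨k, τ⟩ h
        simp only [ContinuousMap.coe_mk, Prod.mk_eq_zero] at h
        have h2 := hzero k τ
        have h3 : 1 + (Φ ((k, τ), 0)).1 = 0 := by exact_mod_cast h.1
        linarith
      · intro x
        have h := normSq_eq _ (hnorm (x, 0))
        unfold OnLine
        simp only [ContinuousMap.coe_mk]
        push_cast
        constructor
        · linear_combination h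
        · ring
      · intro k k'
        simp only [ContinuousMap.coe_mk]
        rw [h0 k k']
      · intro k k'
        simp only [ContinuousMap.coe_mk]
        rw [h1 k k']
    · rintro s s' hs ⟨v, hv, hl, hv0, hv1⟩
      refine ⟨⟨fun x => proj (Φ (x, s')) (v x), ?_⟩, ?_, ?_, ?_, ?_⟩
      · unfold proj
        fun_prop
      · intro x
        exact proj_ne_zero _ _ (hnorm _) (hunif x s s' hs) _ (hv x) (hl x)
      · intro x
        exact onLine_proj _ (hnorm _) _
      · intro k k'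
        simp only [ContinuousMap.coe_mk]
        rw [h0 k k', hv0 k k']
      · intro k k'
        simp only [ContinuousMap.coe_mk]
        rw [h1 k k', hv1 k k']
  obtain ⟨v, hv, hl, hv0, hv1⟩ := hsec
  -- the coefficient function
  let g : C(AddCircle (1 : ℝ) × I, ℂ) :=
    ⟨fun x => (Real.cos (Real.pi * (x.2 : ℝ) / 2) : ℂ) * (v x).1 +
      (Real.sin (Real.pi * (x.2 : ℝ) / 2) : ℂ) *
      ((AddCircle.toCircle (-(n • x.1)) : Circle) : ℂ) * (v x).2, by
      refine Continuous.add ?_ ?_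
      · fun_prop
      · refine Continuous.mul (Continuous.mul ?_ ?_) ?_
        · fun_prop
        · refine continuous_subtype_val.comp (AddCircle.continuous_toCircle.comp ?_)
          fun_prop
        · fun_prop⟩
  have hg : ∀ x, g x ≠ 0 := by
    rintro ⟨k, τ⟩ hgx
    have hlx := hl (k, τ)
    rw [hone k τ] at hlx
    obtain ⟨l1, l2⟩ := hlx
    simp only [ContinuousMap.coe_mk, g] at hgx
    set z : ℂ := ((AddCircle.toCircle (n • k) : Circle) : ℂ) with hz
    have hzz : z * (starRingEnd ℂ) z = 1 := by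
      rw [hz, Complex.mul_conj, Circle.normSq_coe]; simp
    have hinv : ((AddCircle.toCircle (-(n • k)) : Circle) : ℂ) = (starRingEnd ℂ) z := by
      rw [AddCircle.toCircle_neg, hz, Circle.coe_inv_eq_conj]
    rw [hinv] at hgx
    simp only [map_mul, Complex.conj_ofReal] at l1 l2
    set θ : ℝ := Real.pi * (τ : ℝ) / 2 with hθ
    have hπ : Real.pi * (τ : ℝ) = 2 * θ := by rw [hθ]; ring
    rw [hπ] at l1 l2
    have hc : ((Real.cos (2 * θ) : ℝ) : ℂ) = 2 * (Real.cos θ : ℂ) ^ 2 - 1 := by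
      rw [Real.cos_two_mul]; push_cast; ring
    have hs : ((Real.sin (2 * θ) : ℝ) : ℂ) = 2 * (Real.sin θ : ℂ) * (Real.cos θ : ℂ) := by
      rw [Real.sin_two_mul]; push_cast; ring
    have hcs : (Real.cos θ : ℂ) ^ 2 + (Real.sin θ : ℂ) ^ 2 = 1 := by
      exact_mod_cast Real.cos_sq_add_sin_sq θ
    rw [hc, hs] at l1 l2
    apply hv (k, τ)
    set v1 := (v (k, τ)).1 with hv1'
    set v2 := (v (k, τ)).2 with hv2'
    have a1 : v1 = 0 := by
      -- v1 = cos θ * g
      linear_combination (-1 / 2 : ℂ) * l1 + (Real.cos θ : ℂ) * hgx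
    have a2 : v2 = 0 := by
      linear_combination (-1 / 2 : ℂ) * l2 + (Real.sin θ : ℂ) * z * hgx
        - (Real.sin θ : ℂ) ^ 2 * v2 * hzz - v2 * hcs
    exact Prod.ext a1 a2
  refine winding (-n) (neg_ne_zero.2 hn) g hg ((v (0, 0)).1) ((v (0, 1)).2) ?_ ?_
  · intro k
    simp only [ContinuousMap.coe_mk, g]
    rw [hv0 k 0]
    simp
  · intro k
    simp only [ContinuousMap.coe_mk, g]
    rw [hv1 k 0]
    have h3 : Real.pi * ((1 : I) : ℝ) / 2 = Real.pi / 2 := by simp
    rw [h3, Real.cos_pi_div_two, Real.sin_pi_div_two, neg_smul]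
    push_cast
    ring

end Pool.H74.Deg
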