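import Pool.Agent.H74.Spaces
import Pool.Agent.H74.Deg

/-!
The space `X` of the integers is not dominated by a compact space.
-/

open Topology unitInterval Set Pool.H74 Pool.H74.Fam

namespace Pool.H74

noncomputable section

section Wt

variable {A A' Z : Type} [TopologicalSpace A] [TopologicalSpace A'] [TopologicalSpace Z]

/-- A function on the vertices and `z`-handles of an iterated mapping torus that is invariant
under `u` and `y`. -/
structure Wt (H : H3 A) (Z : Type) [TopologicalSpace Z] where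
  φ : C(A × I, Z)
  z : ∀ x, φ (x, 1) = φ (H.z x, 0)
  u : ∀ x t, φ (H.u x, t) = φ (x, t)
  y : ∀ x t, φ (H.y x, t) = φ (x, t)

namespace Wt

variable {H : H3 A} {H' : H3 A'} (W : Wt H Z) (W' : Wt H' Z)

/-- The function on the first mapping torus. -/
def l1 : C(H.T1, Z) :=
  ZC.desc (W.φ.comp ⟨fun x => (x, 0), by fun_prop⟩) W.φ (fun _ => rfl) (fun x => W.z x)

theorem l1_map (g : C(A, A')) (hz : ∀ x, g (H.z x) = H'.z (g x))
    (h : ∀ x t, W'.φ (g x, t) = W.φ (x, t)) (w : H.T1) : W'.l1 (H3.map1 g hz w) = W.l1 w := by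
  induction w using ZC.ind with
  | h1 x => exact h x 0
  | h2 x t => exact h x t

theorem l1_u1 (w : H.T1) : W.l1 (H.u1 w) = W.l1 w :=
  l1_map W W H.u (fun x => (H.zu x).symm) W.u w

theorem l1_y1 (w : H.T1) : W.l1 (H.y1 w) = W.l1 w :=
  l1_map W W H.y (fun x => (H.zy x).symm) W.y w

/-- The function on the second mapping torus. -/
def l2 : C(H.T2, Z) := ZC.desc W.l1 (const W.l1) (fun _ => rfl) (fun x => (W.l1_u1 x).symm)

theorem l2_map (g : C(A, A')) (hz : ∀ x, g (H.z x) = H'.z (g x))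
    (hu : ∀ x, g (H.u x) = H'.u (g x))
    (h : ∀ x t, W'.φ (g x, t) = W.φ (x, t)) (w : H.T2) : W'.l2 (H3.map2 g hz hu w) = W.l2 w := by
  induction w using ZC.ind with
  | h1 x => exact l1_map W W' g hz h x
  | h2 x t => exact l1_map W W' g hz h x

theorem l2_y2 (w : H.T2) : W.l2 (H.y2 w) = W.l2 w := by
  induction w using ZC.ind with
  | h1 x => exact l1_y1 W x
  | h2 x t => exact l1_y1 W x

theorem l2_flow (w : H.T2) (t : I) : W.l2 (MT.flow H.u1 (w, t)) = W.l2 w := by
  induction w using ZC.ind with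
  | h1 x => rfl
  | h2 x s =>
    rw [MT.flow_hdl]
    by_cases hs : ((MT.avg s t : I) : ℝ) ≤ 1 / 2
    · rw [cat_of_le hs]; rfl
    · rw [cat_of_gt hs]; exact l1_u1 W x

/-- The function on the third mapping torus. -/
def l3 : C(H.TT, Z) := ZC.desc W.l2 (const W.l2) (fun _ => rfl) (fun x => (W.l2_y2 x).symm)

theorem l3_map (g : C(A, A')) (hg : H3.Hom H H' g)
    (h : ∀ x t, W'.φ (g x, t) = W.φ (x, t)) (w : H.TT) : W'.l3 (H3.map3 g hg w) = W.l3 w := by
  induction w using ZC.ind with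
  | h1 x => exact l2_map W W' g hg.z hg.u h x
  | h2 x t => exact l2_map W W' g hg.z hg.u h x

/-- Every point has coordinates `(x, t)`, at which all functions are evaluated. -/
theorem exists_coord (w : H.TT) : ∃ x t, ∀ (Z : Type) [TopologicalSpace Z] (W : Wt H Z),
    W.l3 w = W.φ (x, t) := by
  have e1 : ∀ w : H.T1, ∃ x t, ∀ (Z : Type) [TopologicalSpace Z] (W : Wt H Z),
      W.l1 w = W.φ (x, t) := by
    intro w
    induction w using ZC.ind with
    | h1 x => exact ⟨x, 0, fun Z _ W => rfl⟩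
    | h2 x t => exact ⟨x, t, fun Z _ W => rfl⟩
  have e2 : ∀ w : H.T2, ∃ x t, ∀ (Z : Type) [TopologicalSpace Z] (W : Wt H Z),
      W.l2 w = W.φ (x, t) := by
    intro w
    induction w using ZC.ind with
    | h1 x => exact e1 x
    | h2 x t => exact e1 x
  induction w using ZC.ind with
  | h1 x => exact e2 x
  | h2 x t => exact e2 x

end Wt

end Wt

section Height

variable {S Z : Type} [TopologicalSpace S] [TopologicalSpace Z] (a : GS S) (W : Wt a.toH3 Z)
  (hs : ∀ x t, W.φ (a.s x, t) = W.φ (x, t)) (hr : ∀ x t, W.φ (a.r x, t) = W.φ (x, t))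
  (ht : ∀ x t, W.φ (a.t x, t) = W.φ (x, t))

include hs in
theorem Wt.l3_sig (v : a.V) : W.l3 (a.sig v) = W.l3 v := by
  have e2 : ∀ x, W.l2 (a.s2 x) = W.l2 x := fun x => Wt.l2_map W W a.s a.sz a.su hs x
  induction v using ZC.ind with
  | h1 x => exact e2 x
  | h2 x t =>
    by_cases h : (t : ℝ) ≤ 1 / 2
    · rw [GS.sig_hdl_le _ _ _ h]; exact e2 x
    · rw [GS.sig_hdl_gt _ _ _ h]; exact (W.l2_y2 _).trans (e2 x)

include hr in
theorem Wt.l3_rho (v : a.V) : W.l3 (a.rho v) = W.l3 v := by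
  have e2 : ∀ x, W.l2 (a.r2 x) = W.l2 x := fun x => Wt.l2_map W W a.r a.rz a.ru hr x
  induction v using ZC.ind with
  | h1 x => exact e2 x
  | h2 x t =>
    by_cases h : (t : ℝ) ≤ 1 / 2
    · rw [GS.rho_hdl_le _ _ _ h]; exact e2 x
    · rw [GS.rho_hdl_gt _ _ _ h]
      exact (W.l2_flow _ _).trans ((W.l2_y2 _).trans (e2 x))

/-- The extension to `B1`. -/
def Wt.lB1 : C(a.B1, Z) :=
  ZC.desc W.l3 (const W.l3) (fun _ => rfl) (fun v => (W.l3_sig a hs v).symm)

/-- The extension to `B`. -/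
def Wt.lB : C(a.B, Z) :=
  ZC.desc (W.lB1 a hs) (const W.l3) (fun _ => rfl) (fun v => (W.l3_rho a hr v).symm)

include ht in
theorem Wt.lB_tB (x : a.B) : W.lB a hs hr (a.tB x) = W.lB a hs hr x := by
  have e3 : ∀ v, W.l3 (GS.fV a.t a.tHom v) = W.l3 v :=
    fun v => Wt.l3_map W W a.t a.tHom.toHom ht v
  induction x using ZC.ind with
  | h1 x =>
    induction x using ZC.ind with
    | h1 x => exact e3 x
    | h2 x t => exact e3 x
  | h2 x t => exact e3 x

/-- The extension to `D`. -/
def Wt.lD : C(a.D, Z) :=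
  ZC.desc (W.lB a hs hr) (const (W.lB a hs hr)) (fun _ => rfl)
    (fun v => (W.lB_tB a hs hr ht v).symm)

/-- The extension to `X`. -/
def Wt.lX : C(a.X, Z) :=
  DM.desc (W.lD a hs hr ht) W.l3 (const (W.l3.comp a.rE)) (fun _ => rfl) (fun _ => rfl)

end Height

/-! ### The sheets -/

/-- The half turn. -/
def hf : KC := ((1 / 2 : ℝ) : AddCircle (1 : ℝ))

theorem hf_add_hf : hf + hf = 0 := by
  have : hf + hf = (((1 / 2 : ℝ) + 1 / 2 : ℝ) : AddCircle (1 : ℝ)) := (AddCircle.coe_add _ _ _).symm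
  rw [this, show (1 / 2 : ℝ) + 1 / 2 = 1 by norm_num]
  exact AddCircle.coe_period 1

theorem hf_ne_zero : hf ≠ 0 := by
  intro h
  obtain ⟨n, hn⟩ := (AddCircle.coe_eq_zero_iff (1 : ℝ)).1 h
  simp only [zsmul_eq_mul, mul_one] at hn
  have h2 : ((2 * n : ℤ) : ℝ) = 1 := by push_cast; linarith
  have h3 : (2 * n : ℤ) = 1 := by exact_mod_cast h2
  omega

theorem two_torsion (d : KC) (h : d + d = 0) : d = 0 ∨ d = hf := by
  induction d using QuotientAddGroup.induction_on with
  | H r =>
    have h' : ((r + r : ℝ) : AddCircle (1 : ℝ)) = 0 := h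
    obtain ⟨n, hn⟩ := (AddCircle.coe_eq_zero_iff (1 : ℝ)).1 h'
    simp only [zsmul_eq_mul, mul_one] at hn
    rcases Int.even_or_odd' n with ⟨m, rfl | rfl⟩
    · left
      refine (AddCircle.coe_eq_zero_iff (1 : ℝ)).2 ⟨m, ?_⟩
      push_cast at hn
      simp only [zsmul_eq_mul, mul_one]
      linarith
    · right
      have : r = 1 / 2 + m := by push_cast at hn; linarith
      change ((r : ℝ) : AddCircle (1 : ℝ)) = ((1 / 2 : ℝ) : AddCircle (1 : ℝ))
      rw [this, AddCircle.coe_add]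
      have : ((m : ℝ) : AddCircle (1 : ℝ)) = 0 :=
        (AddCircle.coe_eq_zero_iff (1 : ℝ)).2 ⟨m, by simp⟩
      rw [this, add_zero]

theorem exists_half (x : KC) : ∃ h : KC, h + h = x := by
  induction x using QuotientAddGroup.induction_on with
  | H r =>
    refine ⟨((r / 2 : ℝ) : AddCircle (1 : ℝ)), ?_⟩
    rw [← AddCircle.coe_add, add_halves]

/-- A choice of a half. -/
def half (x : KC) : KC := (exists_half x).choose

theorem half_add_half (x : KC) : half x + half x = x := (exists_half x).choose_spec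

/-- The turn of a residue modulo two. -/
def trn (n : ℕ) : KC := if n % 2 = 0 then 0 else hf

theorem trn_add_trn (n : ℕ) : trn n + trn n = 0 := by
  unfold trn; split_ifs
  · simp
  · exact hf_add_hf

theorem trn_inj {m n : ℕ} (h : trn m = trn n) : m % 2 = n % 2 := by
  unfold trn at h
  split_ifs at h with h1 h2 h2
  · omega
  · exact absurd h.symm hf_ne_zero
  · exact absurd h hf_ne_zero
  · omega

/-- The sheets. -/
@[ext] structure Sh where
  ζ : KC
  l : KC
  n : ℕ
  c : ℤ
  j : ℤ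

instance : TopologicalSpace Sh := ⊥
instance : DiscreteTopology Sh := ⟨rfl⟩

/-- The action on the sheets. -/
def shGS : GS Sh where
  z := ⟨fun x => { x with c := x.c + 1 }, continuous_of_discreteTopology⟩
  u := ⟨fun x => { x with ζ := x.ζ + hf }, continuous_of_discreteTopology⟩
  y := ⟨fun x => { x with ζ := x.ζ + x.l }, continuous_of_discreteTopology⟩
  zu _ := rfl
  zy _ := rfl
  uy x := by
    ext
    · exact add_right_comm _ _ _
    all_goals rfl
  s := ⟨fun x => { x with l := half x.l + trn x.n, n := x.n / 2 },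
    continuous_of_discreteTopology⟩
  r := ⟨fun x => { x with l := x.l + hf }, continuous_of_discreteTopology⟩
  t := ⟨fun x => { x with j := x.j + 1 }, continuous_of_discreteTopology⟩
  sz _ := rfl
  su _ := rfl
  sy x := by
    ext
    · change x.ζ + x.l = x.ζ + (half x.l + trn x.n) + (half x.l + trn x.n)
      rw [add_assoc, add_add_add_comm, half_add_half, trn_add_trn, add_zero]
    all_goals rfl
  rz _ := rfl
  ru _ := rfl
  ry x := by
    ext
    · change x.ζ + x.l = x.ζ + (x.l + hf) + hf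
      rw [← add_assoc, add_assoc, hf_add_hf, add_zero]
    all_goals rfl
  tz _ := rfl
  tu _ := rfl
  ty _ := rfl
  ts _ := rfl
  tr _ := rfl

theorem shGS_bij : shGS.Bij := by
  intro g
  cases g
  · refine ⟨fun x y h => ?_, fun x => ⟨{ x with c := x.c - 1 }, ?_⟩⟩
    · have h' := Sh.ext_iff.1 h
      ext
      · exact h'.1
      · exact h'.2.1
      · exact h'.2.2.1
      · exact add_right_cancel h'.2.2.2.1
      · exact h'.2.2.2.2
    · ext
      all_goals first | rfl | exact sub_add_cancel _ _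
  · refine ⟨fun x y h => ?_, fun x => ⟨{ x with ζ := x.ζ - hf }, ?_⟩⟩
    · have h' := Sh.ext_iff.1 h
      ext
      · exact add_right_cancel h'.1
      · exact h'.2.1
      · exact h'.2.2.1
      · exact h'.2.2.2.1
      · exact h'.2.2.2.2
    · ext
      all_goals first | rfl | exact sub_add_cancel _ _
  · refine ⟨fun x y h => ?_, fun x => ⟨{ x with ζ := x.ζ - x.l }, ?_⟩⟩
    · have h' := Sh.ext_iff.1 h
      have hl : x.l = y.l := h'.2.1
      have h1 : x.ζ + x.l = y.ζ + y.l := h'.1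
      rw [hl] at h1
      ext
      · exact add_right_cancel h1
      · exact h'.2.1
      · exact h'.2.2.1
      · exact h'.2.2.2.1
      · exact h'.2.2.2.2
    · ext
      all_goals first | rfl | exact sub_add_cancel _ _
  · refine ⟨fun x y h => ?_, fun x => ?_⟩
    · have h' := Sh.ext_iff.1 h
      have h2 : half x.l + trn x.n = half y.l + trn y.n := h'.2.1
      have h3 : x.n / 2 = y.n / 2 := h'.2.2.1
      have hl : x.l = y.l := by
        have : (half x.l + trn x.n) + (half x.l + trn x.n) =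
            (half y.l + trn y.n) + (half y.l + trn y.n) := by rw [h2]
        rwa [add_add_add_comm, half_add_half, trn_add_trn, add_zero, add_add_add_comm,
          half_add_half, trn_add_trn, add_zero] at this
      rw [hl] at h2
      have h4 := trn_inj (add_left_cancel h2)
      ext
      · exact h'.1
      · exact hl
      · omega
      · exact h'.2.2.2.1
      · exact h'.2.2.2.2
    · have h1 : (x.l - half (x.l + x.l)) + (x.l - half (x.l + x.l)) = 0 := by
        rw [sub_add_sub_comm, half_add_half, sub_self]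
      rcases two_torsion _ h1 with h2 | h2
      · refine ⟨{ x with l := x.l + x.l, n := 2 * x.n }, ?_⟩
        ext
        · rfl
        · change half (x.l + x.l) + trn (2 * x.n) = x.l
          rw [trn, if_pos (by omega), add_zero, ← sub_eq_zero.1 h2]
        · change 2 * x.n / 2 = x.n; omega
        · rfl
        · rfl
      · refine ⟨{ x with l := x.l + x.l, n := 2 * x.n + 1 }, ?_⟩
        ext
        · rfl
        · change half (x.l + x.l) + trn (2 * x.n + 1) = x.l
          rw [trn, if_neg (by omega), ← h2]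
          exact add_sub_cancel _ _
        · change (2 * x.n + 1) / 2 = x.n; omega
        · rfl
        · rfl
  · refine ⟨fun x y h => ?_, fun x => ⟨{ x with l := x.l - hf }, ?_⟩⟩
    · have h' := Sh.ext_iff.1 h
      ext
      · exact h'.1
      · exact add_right_cancel h'.2.1
      · exact h'.2.2.1
      · exact h'.2.2.2.1
      · exact h'.2.2.2.2
    · ext
      all_goals first | rfl | exact sub_add_cancel _ _
  · refine ⟨fun x y h => ?_, fun x => ⟨{ x with j := x.j - 1 }, ?_⟩⟩
    · have h' := Sh.ext_iff.1 h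
      ext
      · exact h'.1
      · exact h'.2.1
      · exact h'.2.2.1
      · exact h'.2.2.2.1
      · exact add_right_cancel h'.2.2.2.2
    · ext
      all_goals first | rfl | exact sub_add_cancel _ _

theorem int_bij : GS.int.Bij := by
  intro g
  cases g
  · exact Function.bijective_id
  · exact Function.bijective_id
  · exact Function.bijective_id
  · exact Function.bijective_id
  · exact Function.bijective_id
  · exact ⟨fun x y h => add_right_cancel (h : x + 1 = y + 1),
      fun x => ⟨x - 1, sub_add_cancel x 1⟩⟩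

/-- The level. -/
def shJ : C(Sh, ℤ) := ⟨Sh.j, continuous_of_discreteTopology⟩

theorem shJ_hom : GS.HomT shGS GS.int shJ :=
  ⟨⟨⟨fun _ => rfl, fun _ => rfl, fun _ => rfl⟩, fun _ => rfl, fun _ => rfl⟩, fun _ => rfl⟩

/-! ### The detecting function -/

/-- The cut-off. -/
def rad (C : ℕ) (h : ℝ) : ℝ := max 0 (min 1 (C + 1 - h))

theorem continuous_rad (C : ℕ) : Continuous (rad C) := by unfold rad; fun_prop

theorem rad_of_le {C : ℕ} {h : ℝ} (hh : h ≤ C) : rad C h = 1 := by
  unfold rad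
  rw [min_eq_left (by linarith), max_eq_right zero_le_one]

theorem rad_of_ge {C : ℕ} {h : ℝ} (hh : C + 1 ≤ h) : rad C h = 0 := by
  unfold rad
  exact max_eq_left ((min_le_right _ _).trans (by linarith))

open scoped Classical in
/-- The sign of a sheet. -/
def eps (x : Sh) : ℤ := if x.l = 0 then (if x.ζ = 0 then 1 else if x.ζ = hf then -1 else 0) else 0

/-- The multiplicity of a sheet. -/
def mlt (C : ℕ) (x : Sh) : ℤ := eps x * 2 ^ ((C : ℤ) - x.c).toNat

theorem eps_z (x : Sh) : eps (shGS.z x) = eps x := rfl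

theorem eps_u (x : Sh) : eps (shGS.u x) = -eps x := by
  change eps { x with ζ := x.ζ + hf } = _
  unfold eps
  simp only
  by_cases hl : x.l = 0
  · rw [if_pos hl, if_pos hl]
    by_cases h0 : x.ζ = 0
    · rw [h0, zero_add, if_neg hf_ne_zero, if_pos rfl, if_pos rfl]
    · by_cases h1 : x.ζ = hf
      · rw [h1, hf_add_hf, if_pos rfl, if_neg hf_ne_zero, if_pos rfl]; rfl
      · rw [if_neg h0, if_neg h1, if_neg, if_neg]
        · rfl
        · intro h; exact h0 (add_eq_right.1 h)
        · intro h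
          refine h1 ?_
          rw [← hf_add_hf] at h
          exact add_right_cancel h
  · rw [if_neg hl, if_neg hl]; rfl

theorem eps_y (x : Sh) : eps (shGS.y x) = eps x := by
  change eps { x with ζ := x.ζ + x.l } = _
  unfold eps
  simp only
  by_cases hl : x.l = 0
  · rw [if_pos hl, if_pos hl, hl, add_zero]
  · rw [if_neg hl, if_neg hl]

/-- The exponential. -/
def ee (k : KC) : ℂ := ((AddCircle.toCircle k : Circle) : ℂ)

theorem continuous_ee : Continuous ee := by
  have h : Continuous (AddCircle.toCircle (T := (1 : ℝ))) := AddCircle.continuous_toCircle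
  unfold ee
  fun_prop

theorem norm_ee (k : KC) : ‖ee k‖ = 1 := Circle.norm_coe _

/-- The function `β` on the circle bundle. -/
def beta (C : ℕ) : Wt shGS.toH3.K ℂ where
  φ := ⟨fun p => (rad C (p.1.2.c + (p.2 : ℝ)) : ℂ) * ee (mlt C p.1.2 • p.1.1), by
    have h : Continuous (fun q : Sh × (KC × I) =>
        (rad C (q.1.c + (q.2.2 : ℝ)) : ℂ) * ee (mlt C q.1 • q.2.1)) := by
      rw [continuous_prod_of_discrete_left]
      intro x
      refine Continuous.mul ?_ ?_
      · exact Complex.continuous_ofReal.comp ((continuous_rad C).comp (by fun_prop))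
      · exact (continuous_ee.comp (continuous_zsmul (mlt C x))).comp
          (continuous_fst (X := KC) (Y := I))
    exact h.comp (by fun_prop :
      Continuous (fun p : (KC × Sh) × I => ((p.1.2, (p.1.1, p.2)) : Sh × (KC × I))))⟩
  z := by
    rintro ⟨k, x⟩
    change (rad C (x.c + ((1 : I) : ℝ)) : ℂ) * ee (mlt C x • k) =
      (rad C (((x.c + 1 : ℤ) : ℝ) + ((0 : I) : ℝ)) : ℂ) * ee (mlt C (shGS.z x) • (k + k))
    have e0 : (x.c : ℝ) + ((1 : I) : ℝ) = ((x.c + 1 : ℤ) : ℝ) + ((0 : I) : ℝ) := by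
      push_cast; simp
    rw [e0]
    by_cases hc : x.c < C
    · have e1 : mlt C x = 2 * mlt C (shGS.z x) := by
        unfold mlt
        rw [eps_z]
        change eps x * 2 ^ ((C : ℤ) - x.c).toNat = 2 * (eps x * 2 ^ ((C : ℤ) - (x.c + 1)).toNat)
        have : ((C : ℤ) - x.c).toNat = ((C : ℤ) - (x.c + 1)).toNat + 1 := by omega
        rw [this, pow_succ]; ring
      have e2 : mlt C x • k = mlt C (shGS.z x) • (k + k) := by
        rw [e1, two_mul, add_zsmul, ← zsmul_add]
      rw [e2]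
    · have : rad C (((x.c + 1 : ℤ) : ℝ) + ((0 : I) : ℝ)) = 0 := by
        apply rad_of_ge
        have : (C : ℤ) ≤ x.c := by omega
        have : ((C : ℤ) : ℝ) ≤ x.c := by exact_mod_cast this
        push_cast at this ⊢
        simp; linarith
      rw [this]; simp
  u := by
    rintro ⟨k, x⟩ t
    change (rad C (x.c + (t : ℝ)) : ℂ) * ee (mlt C (shGS.u x) • (-k)) =
      (rad C (x.c + (t : ℝ)) : ℂ) * ee (mlt C x • k)
    have : mlt C (shGS.u x) = -mlt C x := by
      unfold mlt; rw [eps_u, neg_mul]; rfl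
    rw [this, neg_zsmul, zsmul_neg, neg_neg]
  y := by
    rintro ⟨k, x⟩ t
    change (rad C (x.c + (t : ℝ)) : ℂ) * ee (mlt C (shGS.y x) • k) =
      (rad C (x.c + (t : ℝ)) : ℂ) * ee (mlt C x • k)
    have : mlt C (shGS.y x) = mlt C x := by
      unfold mlt; rw [eps_y]; rfl
    rw [this]

/-- The height. -/
def shH : Wt shGS.toH3 ℝ where
  φ := ⟨fun p => p.1.c + (p.2 : ℝ), by
    rw [continuous_prod_of_discrete_left]; intro x; fun_prop⟩
  z x := by
    change (x.c : ℝ) + ((1 : I) : ℝ) = ((x.c + 1 : ℤ) : ℝ) + ((0 : I) : ℝ)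
    push_cast; simp
  u _ _ := rfl
  y _ _ := rfl

/-- The height on the circle bundle. -/
def shHE : Wt shGS.toH3.K ℝ where
  φ := shH.φ.comp ⟨fun p => (p.1.2, p.2), by fun_prop⟩
  z x := shH.z x.2
  u _ _ := rfl
  y _ _ := rfl

theorem shH_rE (e : shGS.E) : shH.l3 (shGS.rE e) = shHE.l3 e :=
  Wt.l3_map shHE shH (.snd : C(KC × Sh, Sh)) H3.K_snd (fun _ _ => rfl) e

/-- The height on `X`. -/
def hgt : C(shGS.X, ℝ) := shH.lX shGS (fun _ _ => rfl) (fun _ _ => rfl) (fun _ _ => rfl)

theorem norm_beta (C : ℕ) (e : shGS.E) (h : shH.l3 (shGS.rE e) ≤ C) : ‖(beta C).l3 e‖ = 1 := by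
  obtain ⟨⟨k, x⟩, t, hx⟩ := Wt.exists_coord (H := shGS.toH3.K) e
  rw [shH_rE, hx] at h
  rw [hx]
  have h' : (x.c : ℝ) + (t : ℝ) ≤ C := h
  change ‖(rad C (x.c + (t : ℝ)) : ℂ) * ee (mlt C x • k)‖ = 1
  rw [rad_of_le h', norm_mul, norm_ee]
  simp

/-- The label. -/
def labW : Wt GS.int.toH3 ℤ where
  φ := .fst
  z _ := rfl
  u _ _ := rfl
  y _ _ := rfl

/-- The label on the space `V` of the integers. -/
def lab : C(GS.int.V, ℤ) := labW.l3

/-- The indicator of a label. -/
def ind (j : ℤ) : C(ℤ, ℝ) := ⟨fun i => if i = j then 1 else 0, continuous_of_discreteTopology⟩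

theorem ind_self (j : ℤ) : ind j j = 1 := if_pos rfl
theorem ind_ne {i j : ℤ} (h : i ≠ j) : ind j i = 0 := if_neg h

theorem ind_cases (j i : ℤ) : ind j i = 0 ∨ ind j i = 1 := by
  by_cases h : i = j
  · right; rw [h]; exact ind_self j
  · left; exact ind_ne h

/-- The first coordinate of the detecting function. -/
def fst1 (j : ℤ) : C(GS.int.X, ℝ) :=
  DM.desc (.const _ 1) ⟨fun v => Real.cos (Real.pi * ind j (lab v)), by fun_prop⟩
    ⟨fun p => Real.cos (Real.pi * ((p.2 : ℝ) * ind j (lab (GS.int.rE p.1)))), by fun_prop⟩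
    (fun e => by simp) (fun e => by simp)

/-- The level function. -/
def lev : C(GS.int.X, ℝ) :=
  DM.desc (.const _ 0) ⟨fun v => (lab v : ℝ), by fun_prop⟩
    ⟨fun p => (p.2 : ℝ) * (lab (GS.int.rE p.1) : ℝ), by fun_prop⟩
    (fun e => by simp) (fun e => by simp)

/-- The label on the sheets. -/
def labS : C(shGS.V, ℤ) := lab.comp (GS.fV shJ shJ_hom.g)

/-- The second coordinate of the detecting function. -/
def snd1 (C : ℕ) (j : ℤ) : C(shGS.X, ℂ) :=
  DM.desc (.const _ 0) (.const _ 0)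
    ⟨fun p => (Real.sin (Real.pi * ((p.2 : ℝ) * ind j (labS (shGS.rE p.1)))) : ℂ) *
      (beta C).l3 p.1, by fun_prop⟩
    (fun e => by simp) (fun e => by
      rcases ind_cases j (labS (shGS.rE e)) with h | h <;> simp [h])

theorem norm_det (C : ℕ) (j : ℤ) (x : shGS.X) (h : hgt x ≤ C) :
    fst1 j (GS.fX shJ shJ_hom x) ^ 2 + ‖snd1 C j x‖ ^ 2 = 1 := by
  induction x using DM.ind with
  | h1 x =>
    change (1 : ℝ) ^ 2 + ‖(0 : ℂ)‖ ^ 2 = 1
    simp
  | h2 v =>
    change Real.cos (Real.pi * ind j (labS v)) ^ 2 + ‖(0 : ℂ)‖ ^ 2 = 1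
    rcases ind_cases j (labS v) with h | h <;> simp [h]
  | h3 e t =>
    have h' : shH.l3 (shGS.rE e) ≤ C := h
    have hr : lab (GS.int.rE (GS.fE shJ shJ_hom.g.toHom e)) = labS (shGS.rE e) :=
      congrArg lab (GS.rE_fE shJ_hom.g e)
    change Real.cos (Real.pi * ((t : ℝ) * ind j (lab (GS.int.rE
        (GS.fE shJ shJ_hom.g.toHom e))))) ^ 2 +
      ‖(Real.sin (Real.pi * ((t : ℝ) * ind j (labS (shGS.rE e)))) : ℂ) * (beta C).l3 e‖ ^ 2 = 1
    rw [hr, norm_mul, norm_beta C e h', mul_one, Complex.norm_real, Real.norm_eq_abs, sq_abs]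
    exact Real.cos_sq_add_sin_sq _

/-! ### The contradiction -/

/-- The upper half of the block of level `j`: the copy of `V` of level `j` together with the upper
half of the cylinder of level `j`. -/
def GS.esc (j : ℤ) : Set GS.int.X :=
  {x | (∃ v, lab v = j ∧ x = DM.inV _ _ v) ∨
    ∃ e, ∃ t : I, lab (GS.int.rE e) = j ∧ 1 / 2 ≤ (t : ℝ) ∧ x = DM.cyl _ _ (e, t)}

theorem fst1_gt' (j : ℤ) (x : GS.int.X) (h : x ∉ GS.esc j) : -1 < fst1 j x := by
  induction x using DM.ind with
  | h1 x => change (-1 : ℝ) < 1; norm_num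
  | h2 v =>
    change (-1 : ℝ) < Real.cos (Real.pi * ind j (lab v))
    have : lab v ≠ j := fun e => h (.inl ⟨v, e, rfl⟩)
    rw [ind_ne this]; simp
  | h3 e t =>
    change (-1 : ℝ) < Real.cos (Real.pi * ((t : ℝ) * ind j (lab (GS.int.rE e))))
    by_cases he : lab (GS.int.rE e) = j
    · rw [he]
      rw [ind_self, mul_one]
      have ht1 : (t : ℝ) < 1 / 2 := by
        by_contra hn
        exact h (.inr ⟨e, t, he, not_lt.1 hn, rfl⟩)
      rw [← Real.cos_pi]
      apply Real.cos_lt_cos_of_nonneg_of_le_pi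
      · have := t.2.1; positivity
      · exact le_rfl
      · have := Real.pi_pos; nlinarith
    · rw [ind_ne he]; simp

/-- A compact subset misses the upper half of the block of some (arbitrarily large) level. -/
theorem GS.exists_disjoint_esc (Q : Set GS.int.X) (hQ : IsCompact Q) (m : ℤ) :
    ∃ j, m ≤ j ∧ Disjoint Q (GS.esc j) := by
  obtain ⟨B, hB⟩ : BddAbove (lev '' Q) := (hQ.image lev.continuous).bddAbove
  obtain ⟨n, hn⟩ := exists_nat_gt (2 * B)
  refine ⟨max m n, le_max_left _ _, ?_⟩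
  have h1 : (n : ℤ) ≤ max m n := le_max_right _ _
  generalize max m n = j at h1
  have h1' : ((n : ℤ) : ℝ) ≤ (j : ℝ) := by exact_mod_cast h1
  have h2 : 2 * B < j := by push_cast at h1'; linarith
  have h0 : (0 : ℝ) ≤ j := le_trans (by positivity : (0 : ℝ) ≤ ((n : ℤ) : ℝ)) h1'
  rw [Set.disjoint_left]
  rintro x hx (⟨v, hv, rfl⟩ | ⟨e, t, he, ht, rfl⟩)
  · have h3 : lev (DM.inV _ _ v) ≤ B := hB ⟨_, hx, rfl⟩
    have h4 : (lab v : ℝ) ≤ B := h3
    rw [hv] at h4
    linarith
  · have h3 : lev (DM.cyl _ _ (e, t)) ≤ B := hB ⟨_, hx, rfl⟩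
    have h4 : (t : ℝ) * (lab (GS.int.rE e) : ℝ) ≤ B := h3
    rw [he] at h4
    nlinarith

/-- The base circle over a vertex. -/
def GS.pk {S : Type} [TopologicalSpace S] (a : GS S) (x : S) : C(KC, a.E) :=
  (ZC.inA _ _).comp ((ZC.inA _ _).comp ((ZC.inA _ _).comp ⟨fun k => (k, x), by fun_prop⟩))

/-- The cylinder of the base circle over a vertex. -/
def GS.fl {S : Type} [TopologicalSpace S] (a : GS S) (x : S) : C(KC × I, a.X) :=
  (DM.cyl _ _).comp ((a.pk x).prodMap (.id I))

theorem GS.fl_zero {S : Type} [TopologicalSpace S] (a : GS S) (x : S) (k k' : KC) :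
    a.fl x (k, 0) = a.fl x (k', 0) :=
  (DM.cyl_zero _ _ (a.pk x k)).trans (DM.cyl_zero (a.inVD.comp a.rE) a.rE (a.pk x k')).symm

theorem GS.fl_one {S : Type} [TopologicalSpace S] (a : GS S) (x : S) (k k' : KC) :
    a.fl x (k, 1) = a.fl x (k', 1) :=
  (DM.cyl_one _ _ (a.pk x k)).trans (DM.cyl_one (a.inVD.comp a.rE) a.rE (a.pk x k')).symm

/-- The suspension of the base circle at level `j` cannot be moved away from the upper half of the
block of level `j` (relative to suspensions). -/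
theorem GS.no_escape_of (cov : IsCoveringMap (GS.fX shJ shJ_hom)) (j : ℤ)
    (F : C((KC × I) × I, GS.int.X))
    (hF1 : ∀ k τ, F ((k, τ), 1) =
      DM.cyl _ _ (ZC.inA _ _ (ZC.inA _ _ (ZC.inA _ _ (k, j))), τ))
    (h0 : ∀ k k' s, F ((k, 0), s) = F ((k', 0), s))
    (h1 : ∀ k k' s, F ((k, 1), s) = F ((k', 1), s))
    (hF0 : ∀ k τ, F ((k, τ), 0) ∉ GS.esc j) : False := by
  let x : Sh := ⟨0, 0, 0, 0, j⟩
  let p : C(shGS.X, GS.int.X) := GS.fX shJ shJ_hom
  let G : C(I × (KC × I), GS.int.X) := F.comp ⟨fun q => (q.2, σ q.1), by fun_prop⟩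
  have hG : ∀ s a, G (s, a) = F (a, σ s) := fun _ _ => rfl
  have G0 : ∀ a, G (0, a) = p (shGS.fl x a) := fun a => by
    rw [hG, symm_zero]; exact hF1 a.1 a.2
  let L : C(I × (KC × I), shGS.X) := cov.liftHomotopy G (shGS.fl x) G0
  have hL0 : ∀ a, L (0, a) = shGS.fl x a := cov.liftHomotopy_zero G (shGS.fl x) G0
  have hL : ∀ q, p (L q) = G q := fun q => congrFun (cov.liftHomotopy_lifts G (shGS.fl x) G0) q
  have hend : ∀ a a', (∀ s, F (a, s) = F (a', s)) → shGS.fl x a = shGS.fl x a' →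
      ∀ s, L (s, a) = L (s, a') := by
    intro a a' hF h s
    have key := cov.eq_of_comp_eq (g₁ := fun s => L (s, a)) (g₂ := fun s => L (s, a'))
      (by fun_prop) (by fun_prop) (by
        funext s
        change p (L (s, a)) = p (L (s, a'))
        rw [hL, hL, hG, hG, hF]) 0 (by
        rw [hL0, hL0, h])
    exact congrFun key s
  obtain ⟨B', hB'⟩ : BddAbove (range (fun q => hgt (L q))) :=
    (isCompact_range (hgt.continuous.comp L.continuous)).bddAbove
  obtain ⟨C, hC⟩ := exists_nat_gt B'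
  refine Deg.degree_contradiction (2 ^ C) (by positivity)
    ⟨fun q => (fst1 j (p (L (σ q.2, q.1))), snd1 C j (L (σ q.2, q.1))), by fun_prop⟩
    ?_ ?_ ?_ ?_ ?_
  · intro q
    exact norm_det C j _ ((hB' ⟨_, rfl⟩).trans hC.le)
  · intro k k' s
    change (fst1 j (p (L (σ s, (k, 0)))), snd1 C j (L (σ s, (k, 0)))) =
      (fst1 j (p (L (σ s, (k', 0)))), snd1 C j (L (σ s, (k', 0))))
    rw [hend (k, 0) (k', 0) (h0 k k') (shGS.fl_zero x k k')]
  · intro k k' s
    change (fst1 j (p (L (σ s, (k, 1)))), snd1 C j (L (σ s, (k, 1)))) =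
      (fst1 j (p (L (σ s, (k', 1)))), snd1 C j (L (σ s, (k', 1))))
    rw [hend (k, 1) (k', 1) (h1 k k') (shGS.fl_one x k k')]
  · intro k τ
    change (fst1 j (p (L (σ 1, (k, τ)))), snd1 C j (L (σ 1, (k, τ)))) = _
    rw [symm_one, hL0]
    have e1 : fst1 j (p (shGS.fl x (k, τ))) = Real.cos (Real.pi * ((τ : ℝ) * ind j j)) := rfl
    have e2 : snd1 C j (shGS.fl x (k, τ)) = (Real.sin (Real.pi * ((τ : ℝ) * ind j j)) : ℂ) *
        ((rad C (((0 : ℤ) : ℝ) + ((0 : I) : ℝ)) : ℂ) * ee (mlt C x • k)) := rfl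
    have e3 : mlt C x = 2 ^ C := by
      have : eps x = 1 := by
        unfold eps
        rw [if_pos rfl, if_pos rfl]
      unfold mlt
      rw [this, one_mul]
      change (2 : ℤ) ^ ((C : ℤ) - 0).toNat = 2 ^ C
      simp
    have e4 : rad C (((0 : ℤ) : ℝ) + ((0 : I) : ℝ)) = 1 := by
      apply rad_of_le; simp
    rw [e1, e2, e3, e4, ind_self, mul_one, Complex.ofReal_one, one_mul]
    rfl
  · intro k τ
    change -1 < fst1 j (p (L (σ 0, (k, τ))))
    rw [symm_zero, hL, hG, symm_one]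
    exact fst1_gt' j _ (hF0 k τ)

theorem GS.not_dominated_of (cov : IsCoveringMap (GS.fX shJ shJ_hom)) (P : Type)
    [TopologicalSpace P] [CompactSpace P] (i : C(GS.int.X, P)) (ρ : C(P, GS.int.X)) :
    ¬ (ρ.comp i).Homotopic (.id _) := by
  rintro ⟨H⟩
  obtain ⟨j, -, hj⟩ := GS.exists_disjoint_esc (range ρ) (isCompact_range ρ.continuous) 0
  let g : C(KC × I, GS.int.X) := GS.int.fl j
  have g0 : ∀ k k', g (k, 0) = g (k', 0) := GS.int.fl_zero j
  have g1 : ∀ k k', g (k, 1) = g (k', 1) := GS.int.fl_one j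
  refine GS.no_escape_of cov j
    (H.toContinuousMap.comp ⟨fun q => (q.2, g q.1), by fun_prop⟩) ?_ ?_ ?_ ?_
  · intro k τ
    exact H.apply_one (g (k, τ))
  · intro k k' s
    change H (s, g (k, 0)) = H (s, g (k', 0))
    rw [g0 k k']
  · intro k k' s
    change H (s, g (k, 1)) = H (s, g (k', 1))
    rw [g1 k k']
  · intro k τ
    have h : H (0, g (k, τ)) = ρ (i (g (k, τ))) := H.apply_zero (g (k, τ))
    change H (0, g (k, τ)) ∉ _
    rw [h]
    exact fun hm => Set.disjoint_left.1 hj ⟨_, rfl⟩ hm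

end

end Pool.H74
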