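import Pool.Agent.H74.ZC.Fam

/-!
Every path class of a homotopy coequalizer between points of the vertex space is a product of
classes of paths in the vertex space and of handle paths.
-/

open Topology unitInterval Set Pool.H74 Pool.H74.Fam

namespace Pool.H74.Spec

/-- The handle path. -/
def hdlPath {A W : Type} [TopologicalSpace A] [TopologicalSpace W] (a b : C(W, A)) (w : W) :
    Path (ZC.inA a b (a w)) (ZC.inA a b (b w)) where
  toFun t := ZC.hdl a b (w, t)
  continuous_toFun := (ZC.hdl a b).continuous.comp (by fun_prop)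
  source' := ZC.hdl_zero w
  target' := ZC.hdl_one w

namespace Gen

variable {A W : Type} [TopologicalSpace A] [TopologicalSpace W] {a b : C(W, A)}

/-- The squeezing function. -/
noncomputable def phi : C(I, I) := ⟨fun t => projIcc 0 1 zero_le_one (3 * (t : ℝ) - 1), by fun_prop⟩

theorem phi_of_le {t : I} (h : (t : ℝ) ≤ 1 / 3) : phi t = 0 :=
  projIcc_of_le_left zero_le_one (by linarith)

theorem phi_of_ge {t : I} (h : 2 / 3 ≤ (t : ℝ)) : phi t = 1 :=
  projIcc_of_right_le zero_le_one (by linarith)

/-- The straight line homotopy from the identity to the squeezing function. -/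
noncomputable def conv : C(I × I, I) :=
  ⟨fun p => ⟨(1 - p.2) * p.1 + p.2 * phi p.1, by
    constructor
    · have := p.1.2; have := p.2.2; have := (phi p.1).2
      have h1 : (0 : ℝ) ≤ (1 - p.2) * p.1 := mul_nonneg (by linarith [p.2.2.2]) p.1.2.1
      have h2 : (0 : ℝ) ≤ p.2 * phi p.1 := mul_nonneg p.2.2.1 (phi p.1).2.1
      linarith
    · have h1 : (1 - (p.2 : ℝ)) * p.1 ≤ (1 - p.2) * 1 :=
        mul_le_mul_of_nonneg_left p.1.2.2 (by linarith [p.2.2.2])
      have h2 : (p.2 : ℝ) * phi p.1 ≤ p.2 * 1 := mul_le_mul_of_nonneg_left (phi p.1).2.2 p.2.2.1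
      linarith⟩, by fun_prop⟩

theorem conv_coe (p : I × I) : (conv p : ℝ) = (1 - p.2) * p.1 + p.2 * phi p.1 := rfl

@[simp] theorem conv_zero_left (s : I) : conv (0, s) = 0 := by
  have : phi 0 = 0 := phi_of_le (by norm_num)
  apply Subtype.ext; rw [conv_coe, this]; simp

@[simp] theorem conv_one_left (s : I) : conv (1, s) = 1 := by
  have : phi 1 = 1 := phi_of_ge (by norm_num)
  apply Subtype.ext; rw [conv_coe, this]; simp

@[simp] theorem conv_zero_right (t : I) : conv (t, 0) = t := by
  apply Subtype.ext; rw [conv_coe]; simp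

@[simp] theorem conv_one_right (t : I) : conv (t, 1) = phi t := by
  apply Subtype.ext; rw [conv_coe]; simp

variable (a b) in
/-- The deformation squeezing the collar into the vertex space, as a family of paths. -/
noncomputable def defo : C(ZC a b, C(I, ZC a b)) :=
  ZC.desc (ContinuousMap.curry ⟨fun p : A × I => ZC.inA a b p.1, by fun_prop⟩)
    (ContinuousMap.curry ⟨fun p : (W × I) × I => ZC.hdl a b (p.1.1, conv (p.1.2, p.2)),
      by fun_prop⟩)
    (by intro w; ext s; simp) (by intro w; ext s; simp)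

@[simp] theorem defo_inA (x : A) (s : I) : defo a b (ZC.inA a b x) s = ZC.inA a b x := rfl

theorem defo_hdl (w : W) (t s : I) :
    defo a b (ZC.hdl a b (w, t)) s = ZC.hdl a b (w, conv (t, s)) := rfl

@[simp] theorem defo_zero (z : ZC a b) : defo a b z 0 = z := by
  induction z using ZC.ind with
  | h1 x => rfl
  | h2 w t => rw [defo_hdl, conv_zero_right]

theorem continuous_defo : Continuous fun p : ZC a b × I => defo a b p.1 p.2 :=
  ContinuousMap.continuous_uncurry_of_continuous (defo a b)

/-- The squeezed path. -/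
noncomputable def squeeze {x y : A} (γ : Path (ZC.inA a b x) (ZC.inA a b y)) :
    Path (ZC.inA a b x) (ZC.inA a b y) where
  toFun t := defo a b (γ t) 1
  continuous_toFun := continuous_defo.comp (f := fun t : I => (γ t, (1 : I))) (by fun_prop)
  source' := by simp
  target' := by simp

theorem mk_squeeze {x y : A} (γ : Path (ZC.inA a b x) (ZC.inA a b y)) :
    Path.Homotopic.Quotient.mk (squeeze γ) = .mk γ := by
  have := square (M := ZC a b) ⟨fun p => defo a b (γ p.2) p.1,
      continuous_defo.comp (f := fun p : I × I => (γ p.2, p.1)) (by fun_prop)⟩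
    γ (.refl _) (.refl _) (squeeze γ) (by intro t; simp) (by intro s; simp) (by intro s; simp)
    (by intro t; rfl)
  simpa using this.symm

/-- The height above the vertex space. -/
noncomputable def eta : C(ZC a b, ℝ) := ZC.desc (.const _ 0)
    ⟨fun p => min (p.2 : ℝ) (1 - p.2), by fun_prop⟩ (by intro w; simp) (by intro w; simp)

theorem eta_inA (x : A) : eta (ZC.inA a b x) = 0 := rfl

theorem eta_hdl (w : W) (t : I) : eta (ZC.hdl a b (w, t)) = min (t : ℝ) (1 - t) := rfl

theorem defo_one_mem {z : ZC a b} (h : eta z < 1 / 3) :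
    defo a b z 1 ∈ range (ZC.inA a b) := by
  induction z using ZC.ind with
  | h1 x => exact ⟨x, rfl⟩
  | h2 w t =>
    rw [eta_hdl, min_lt_iff] at h
    rw [defo_hdl, conv_one_right]
    rcases h with h | h
    · rw [phi_of_le h.le, ZC.hdl_zero]; exact ⟨_, rfl⟩
    · rw [phi_of_ge (by linarith), ZC.hdl_one]; exact ⟨_, rfl⟩

theorem mem_handle {z : ZC a b} (h : 0 < eta z) :
    z ∈ range (fun p : W × {t : I // t ≠ 0 ∧ t ≠ 1} => ZC.hdl a b (p.1, p.2.1)) := by
  rcases ZC.cases_pt z with ⟨x, rfl⟩ | ⟨w, t, h0, h1, rfl⟩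
  · rw [eta_inA] at h; exact absurd h (lt_irrefl _)
  · exact ⟨(w, ⟨t, h0, h1⟩), rfl⟩

theorem exists_lift {Y Z : Type} [TopologicalSpace Y] [TopologicalSpace Z] {e : Y → Z}
    (he : IsEmbedding e) {f : I → Z} (hf : Continuous f) (h : ∀ s, f s ∈ range e) :
    ∃ g : C(I, Y), ∀ s, e (g s) = f s := by
  choose g hg using h
  refine ⟨⟨g, ?_⟩, hg⟩
  rw [he.isInducing.continuous_iff]
  have : e ∘ g = f := funext hg
  rwa [this]

/-- Elementary paths. -/
def Elem {z z' : ZC a b} (p : Path z z') : Prop :=
  (∃ β : C(I, A), ∀ s, p s = ZC.inA a b (β s)) ∨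
    ∃ (ω : C(I, W)) (τ : C(I, I)), ∀ s, p s = ZC.hdl a b (ω s, τ s)

/-- Slides from the vertex space. -/
def Slide {x : A} {z : ZC a b} (p : Path (ZC.inA a b x) z) : Prop :=
  (∀ s, p s = ZC.inA a b x) ∨ ∃ (w : W) (t : I), ∀ s, p s = ZC.hdl a b (w, s * t)

/-- The slide to a point of the handle. -/
def slide (w : W) (t : I) : Path (ZC.inA a b (a w)) (ZC.hdl a b (w, t)) where
  toFun s := ZC.hdl a b (w, s * t)
  continuous_toFun := by fun_prop
  source' := by simp
  target' := by simp

theorem slide_slide (w : W) (t : I) : Slide (slide (a := a) (b := b) w t) := .inr ⟨w, t, fun _ => rfl⟩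

section
variable (P : ∀ x y : A, Path.Homotopic.Quotient (ZC.inA a b x) (ZC.inA a b y) → Prop)
    (h_inA : ∀ x y (γ : Path x y), P x y (.mk (γ.map (ZC.inA a b).continuous)))
    (h_hdl : ∀ w, P (a w) (b w) (.mk (hdlPath a b w)))
    (h_symm : ∀ x y q, P x y q → P y x q.symm)
    (h_trans : ∀ x y z q q', P x y q → P y z q' → P x z (q.trans q'))

include h_inA in
theorem P_refl (x : A) : P x x (.refl _) := by
  have := h_inA x x (.refl x)
  exact this

include h_inA h_hdl in
theorem P_slide {x y : A} {p : Path (ZC.inA a b x) (ZC.inA a b y)} (hp : Slide p) :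
    P x y (.mk p) := by
  rcases hp with hp | ⟨w, t, hp⟩
  · obtain rfl : x = y := ZC.inA_injective (by rw [← hp 1, p.target])
    have : p = .refl _ := by ext s; rw [hp s]; rfl
    rw [this]
    exact P_refl P h_inA x
  · obtain rfl : x = a w := ZC.inA_injective (by rw [← p.source, hp 0]; simp)
    have e : ZC.inA a b y = ZC.hdl a b (w, t) := by rw [← p.target, hp 1]; simp
    by_cases h0 : t = 0
    · subst h0
      rw [ZC.hdl_zero] at e
      obtain rfl := ZC.inA_injective e
      have : p = .refl _ := by ext s; rw [hp s]; simp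
      rw [this]
      exact P_refl P h_inA _
    by_cases h1 : t = 1
    · subst h1
      rw [ZC.hdl_one] at e
      obtain rfl := ZC.inA_injective e
      have : p = hdlPath a b w := by ext s; rw [hp s, mul_one]; rfl
      rw [this]
      exact h_hdl w
    · exact absurd e.symm (ZC.hdl_ne_inA h0 h1 _)

include h_inA h_hdl h_symm h_trans in
theorem P_slides {x x' : A} {z : ZC a b} {p : Path (ZC.inA a b x) z} {p' : Path (ZC.inA a b x') z}
    (hp : Slide p) (hp' : Slide p') :
    P x x' ((Path.Homotopic.Quotient.mk p).trans (Path.Homotopic.Quotient.mk p').symm) := by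
  rcases ZC.cases_pt z with ⟨y, rfl⟩ | ⟨w, t, h0, h1, rfl⟩
  · exact h_trans _ _ _ _ _ (P_slide P h_inA h_hdl hp)
      (h_symm _ _ _ (P_slide P h_inA h_hdl hp'))
  · have key : ∀ {x : A} {p : Path (ZC.inA a b x) (ZC.hdl a b (w, t))}, Slide p →
        x = a w ∧ ∀ s, p s = ZC.hdl a b (w, s * t) := by
      intro x p hp
      rcases hp with hp | ⟨w', t', hp⟩
      · have := hp 1
        rw [p.target] at this
        exact absurd this (ZC.hdl_ne_inA h0 h1 _)
      · have e := hp 1
        rw [p.target, one_mul] at e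
        obtain ⟨rfl, rfl⟩ := ZC.hdl_inj h0 h1 e
        refine ⟨ZC.inA_injective (a := a) (b := b) ?_, hp⟩
        rw [← p.source, hp 0]; simp
    obtain ⟨rfl, e1⟩ := key hp
    obtain ⟨rfl, e2⟩ := key hp'
    have : p = p' := by ext s; rw [e1, e2]
    rw [this, Path.Homotopic.Quotient.trans_symm]
    exact P_refl P h_inA _

/-- The induction predicate. -/
def Good (x : A) (z : ZC a b) (q : Path.Homotopic.Quotient (ZC.inA a b x) z) : Prop :=
  ∀ (x' : A) (p : Path (ZC.inA a b x') z), Slide p →
    P x x' (q.trans (Path.Homotopic.Quotient.mk p).symm)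

include h_inA h_hdl h_symm h_trans in
theorem good_of {x x' : A} {z : ZC a b} {q : Path.Homotopic.Quotient (ZC.inA a b x) z}
    {p : Path (ZC.inA a b x') z} (hp : Slide p)
    (h : P x x' (q.trans (Path.Homotopic.Quotient.mk p).symm)) : Good P x z q := by
  intro x'' p' hp'
  have h1 := h_trans _ _ _ _ _ h (P_slides P h_inA h_hdl h_symm h_trans hp hp')
  rwa [Path.Homotopic.Quotient.trans_assoc, PHQ.symm_trans_cancel_left] at h1

include h_inA h_hdl h_symm h_trans in
theorem good_step {x : A} {z z' : ZC a b} {q : Path.Homotopic.Quotient (ZC.inA a b x) z}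
    (hq : Good P x z q) {p : Path z z'} (hp : Elem p) :
    Good P x z' (q.trans (Path.Homotopic.Quotient.mk p)) := by
  rcases hp with ⟨β, hβ⟩ | ⟨ω, τ, hp⟩
  · obtain rfl : z = ZC.inA a b (β 0) := by rw [← hβ 0, p.source]
    obtain rfl : z' = ZC.inA a b (β 1) := by rw [← hβ 1, p.target]
    let γ : Path (β 0) (β 1) := ⟨β, rfl, rfl⟩
    have e : p = γ.map (ZC.inA a b).continuous := by ext s; exact hβ s
    have h1 := hq (β 0) (.refl _) (.inl fun s => rfl)
    rw [Path.Homotopic.Quotient.mk_refl, PHQ.refl_symm, Path.Homotopic.Quotient.trans_refl] at h1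
    have h2 := h_trans _ _ _ _ _ h1 (h_inA _ _ γ)
    rw [← e] at h2
    refine good_of P h_inA h_hdl h_symm h_trans (p := .refl _) (.inl fun s => rfl) ?_
    rwa [Path.Homotopic.Quotient.mk_refl, PHQ.refl_symm, Path.Homotopic.Quotient.trans_refl]
  · obtain rfl : z = ZC.hdl a b (ω 0, τ 0) := by rw [← hp 0, p.source]
    obtain rfl : z' = ZC.hdl a b (ω 1, τ 1) := by rw [← hp 1, p.target]
    let γ : Path (a (ω 0)) (a (ω 1)) := ⟨a.comp ω, rfl, rfl⟩
    have sq := square (M := ZC a b) ⟨fun p => ZC.hdl a b (ω p.1, p.2 * τ p.1), by fun_prop⟩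
      (slide (ω 0) (τ 0)) p (γ.map (ZC.inA a b).continuous) (slide (ω 1) (τ 1))
      (fun t => rfl) (by intro s; simp [hp]) (by intro s; simp [γ]) (fun t => rfl)
    have h1 := hq _ (slide (ω 0) (τ 0)) (slide_slide _ _)
    have h2 := h_trans _ _ _ _ _ h1 (h_inA _ _ γ)
    refine good_of P h_inA h_hdl h_symm h_trans (p := slide (ω 1) (τ 1)) (slide_slide _ _) ?_
    have e : (q.trans (Path.Homotopic.Quotient.mk (slide (ω 0) (τ 0))).symm).trans
        (Path.Homotopic.Quotient.mk (γ.map (ZC.inA a b).continuous)) =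
        (q.trans (Path.Homotopic.Quotient.mk p)).trans
          (Path.Homotopic.Quotient.mk (slide (ω 1) (τ 1))).symm := by
      apply PHQ.trans_cancel_right (q := Path.Homotopic.Quotient.mk (slide (ω 1) (τ 1)))
      rw [Path.Homotopic.Quotient.trans_assoc, ← sq, Path.Homotopic.Quotient.trans_assoc,
        PHQ.symm_trans_cancel_left, Path.Homotopic.Quotient.trans_assoc,
        Path.Homotopic.Quotient.symm_trans, Path.Homotopic.Quotient.trans_refl]
    rwa [e] at h2

end

theorem mk_cast_trans {M : Type} [TopologicalSpace M] {p q r p' : M} (h : p' = p) {γ : Path p q}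
    {γ' : Path q r} {γ'' : Path p r} (H : (γ.trans γ').Homotopic γ'') :
    Path.Homotopic.Quotient.mk (γ''.cast h rfl) =
      (Path.Homotopic.Quotient.mk (γ.cast h rfl)).trans (Path.Homotopic.Quotient.mk γ') := by
  subst h
  rw [← Path.Homotopic.Quotient.mk_trans]
  exact (Path.Homotopic.Quotient.eq.2 H).symm

theorem mk_trans_cast_refl {M : Type} [TopologicalSpace M] {u v v' : M} (h : v = v')
    (γ : Path u v') : (Path.Homotopic.Quotient.mk γ).trans
      (Path.Homotopic.Quotient.mk ((Path.refl v).cast rfl h.symm)).symm =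
      Path.Homotopic.Quotient.mk (γ.cast rfl h) := by
  subst h
  change (Path.Homotopic.Quotient.mk γ).trans (Path.Homotopic.Quotient.mk (Path.refl v)).symm = _
  rw [Path.Homotopic.Quotient.mk_refl, PHQ.refl_symm, Path.Homotopic.Quotient.trans_refl]
  rfl

end Gen

open Gen

theorem ZC.path_induction {A W : Type} [TopologicalSpace A] [TopologicalSpace W] {a b : C(W, A)}
    (P : ∀ x y : A, Path.Homotopic.Quotient (ZC.inA a b x) (ZC.inA a b y) → Prop)
    (h_inA : ∀ x y (γ : Path x y), P x y (.mk (γ.map (ZC.inA a b).continuous)))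
    (h_hdl : ∀ w, P (a w) (b w) (.mk (hdlPath a b w)))
    (h_symm : ∀ x y q, P x y q → P y x q.symm)
    (h_trans : ∀ x y z q q', P x y q → P y z q' → P x z (q.trans q')) (x y : A)
    (q : Path.Homotopic.Quotient (ZC.inA a b x) (ZC.inA a b y)) : P x y q := by
  induction q using Path.Homotopic.Quotient.ind with | mk γ =>
  rw [← mk_squeeze]
  set δ := squeeze γ with hδ
  -- subdivision
  have hc : ∃ t : ℕ → I, t 0 = 0 ∧ Monotone t ∧ (∃ n, ∀ m ≥ n, t m = 1) ∧
      ∀ n, ∃ i : Bool, Icc (t n) (t (n + 1)) ⊆ (bif i then {s : I | eta (γ s) < 1 / 3}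
        else {s : I | 0 < eta (γ s)}) := by
    apply exists_monotone_Icc_subset_open_cover_unitInterval
    · rintro (_ | _)
      · exact isOpen_lt continuous_const (by fun_prop)
      · exact isOpen_lt (by fun_prop) continuous_const
    · intro s _
      rw [mem_iUnion]
      by_cases h : eta (γ s) < 1 / 3
      · exact ⟨true, h⟩
      · exact ⟨false, by
          change 0 < eta (γ s)
          push Not at h
          linarith⟩
  obtain ⟨t, ht0, htm, ⟨N, hN⟩, hcov⟩ := hc
  have helem : ∀ n, Elem (δ.subpath (t n) (t (n + 1))) := by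
    intro n
    obtain ⟨i, hi⟩ := hcov n
    have hmem : ∀ s, Icc.convexComb (t n) (t (n + 1)) s ∈ Icc (t n) (t (n + 1)) := by
      intro s
      have := Path.range_subpathAux (t n) (t (n + 1))
      rw [← uIcc_of_le (htm n.le_succ), ← this]
      exact mem_range_self s
    cases i with
    | true =>
      left
      obtain ⟨β, hβ⟩ := exists_lift (Z := ZC a b) (e := ZC.inA a b) ZC.isEmbedding_inA
        (f := δ.subpath (t n) (t (n + 1))) (δ.subpath (t n) (t (n + 1))).continuous (by
          intro s
          exact defo_one_mem (hi (hmem s)))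
      exact ⟨β, fun s => (hβ s).symm⟩
    | false =>
      right
      obtain ⟨g, hg⟩ := exists_lift (Z := ZC a b) (ZC.isOpenEmbedding_hdl (a := a) (b := b)).isEmbedding
        (f := fun s => γ (Icc.convexComb (t n) (t (n + 1)) s))
        ((γ.subpath (t n) (t (n + 1))).continuous) (by
          intro s
          exact mem_handle (hi (hmem s)))
      refine ⟨⟨fun s => (g s).1, by fun_prop⟩, ⟨fun s => phi (g s).2.1, by fun_prop⟩, fun s => ?_⟩
      change defo a b (γ (Icc.convexComb (t n) (t (n + 1)) s)) 1 = _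
      rw [← hg s, defo_hdl, conv_one_right]
      rfl
  -- induction
  have hind : ∀ n, Good P x (δ (t n))
      (Path.Homotopic.Quotient.mk ((δ.subpath 0 (t n)).cast δ.source.symm rfl)) := by
    intro n
    induction n with
    | zero =>
      rw [ht0]
      refine good_of P h_inA h_hdl h_symm h_trans (p := (Path.refl _).cast rfl δ.source)
        (.inl fun s => rfl) ?_
      have e : (δ.subpath 0 0).cast δ.source.symm rfl = (Path.refl _).cast rfl δ.source := by
        ext s
        rw [Path.subpath_self]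
        exact δ.source
      rw [e, Path.Homotopic.Quotient.trans_symm]
      exact P_refl P h_inA x
    | succ n ih =>
      rw [mk_cast_trans δ.source.symm
        ⟨Path.Homotopy.subpathTransSubpath δ 0 (t n) (t (n + 1))⟩]
      exact good_step P h_inA h_hdl h_symm h_trans ih (helem n)
  have hfin := hind N
  rw [hN N le_rfl] at hfin
  have h1 := hfin y ((Path.refl _).cast rfl δ.target) (.inl fun s => rfl)
  rw [mk_trans_cast_refl δ.target.symm] at h1
  have e : ((δ.subpath 0 1).cast δ.source.symm rfl).cast rfl δ.target.symm = δ := by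
    ext s
    rw [Path.subpath_zero_one]
    rfl
  rwa [e] at h1

end Pool.H74.Spec
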