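import Pool.Agent.H74.Spaces

/-!
The group theory: the kernel of `φ` is the finitely presented group `G`.
-/

open Topology unitInterval Set Pool.H74 Pool.H74.Fam

namespace Pool.H74

open scoped Classical in
/-- The relators of the group `G` (generators `z u y s r = 0 1 2 3 4`). -/
noncomputable def rels : Finset (FreeGroup (Fin 5)) :=
  let z := FreeGroup.of (0 : Fin 5)
  let u := FreeGroup.of (1 : Fin 5)
  let y := FreeGroup.of (2 : Fin 5)
  let s := FreeGroup.of (3 : Fin 5)
  let r := FreeGroup.of (4 : Fin 5)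
  {z * u * (u * z)⁻¹, z * y * (y * z)⁻¹, u * y * (y * u)⁻¹, s * z * (z * s)⁻¹, s * u * (u * s)⁻¹,
    s * y * (y * y * s)⁻¹, r * z * (z * r)⁻¹, r * u * (u * r)⁻¹, r * y * (u * y * r)⁻¹}

/-- The group `G`. -/
abbrev GG : Type := PresentedGroup (rels : Set (FreeGroup (Fin 5)))

/-- The generators in `G`; `t` goes to `1`. -/
noncomputable def GG.gen : Gn → GG
  | .z => PresentedGroup.of 0
  | .u => PresentedGroup.of 1
  | .y => PresentedGroup.of 2
  | .s => PresentedGroup.of 3
  | .r => PresentedGroup.of 4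
  | .t => 1

theorem GG.rel {w w' : FreeGroup (Fin 5)} (h : w * w'⁻¹ ∈ rels) :
    (PresentedGroup.mk (rels : Set (FreeGroup (Fin 5))) w) = PresentedGroup.mk _ w' := by
  have h1 : PresentedGroup.mk (rels : Set (FreeGroup (Fin 5))) (w * w'⁻¹) = 1 :=
    PresentedGroup.one_of_mem h
  rw [map_mul, map_inv] at h1
  exact mul_inv_eq_one.1 h1

theorem GG.zu : gen .z * gen .u = gen .u * gen .z :=
  GG.rel (w := FreeGroup.of 0 * FreeGroup.of 1) (w' := FreeGroup.of 1 * FreeGroup.of 0)
    (by simp [rels])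

theorem GG.zy : gen .z * gen .y = gen .y * gen .z :=
  GG.rel (w := FreeGroup.of 0 * FreeGroup.of 2) (w' := FreeGroup.of 2 * FreeGroup.of 0)
    (by simp [rels])

theorem GG.uy : gen .u * gen .y = gen .y * gen .u :=
  GG.rel (w := FreeGroup.of 1 * FreeGroup.of 2) (w' := FreeGroup.of 2 * FreeGroup.of 1)
    (by simp [rels])

theorem GG.sz : gen .s * gen .z = gen .z * gen .s :=
  GG.rel (w := FreeGroup.of 3 * FreeGroup.of 0) (w' := FreeGroup.of 0 * FreeGroup.of 3)
    (by simp [rels])

theorem GG.su : gen .s * gen .u = gen .u * gen .s :=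
  GG.rel (w := FreeGroup.of 3 * FreeGroup.of 1) (w' := FreeGroup.of 1 * FreeGroup.of 3)
    (by simp [rels])

theorem GG.sy : gen .s * gen .y = gen .y * gen .y * gen .s :=
  GG.rel (w := FreeGroup.of 3 * FreeGroup.of 2)
    (w' := FreeGroup.of 2 * FreeGroup.of 2 * FreeGroup.of 3) (by simp [rels])

theorem GG.rz : gen .r * gen .z = gen .z * gen .r :=
  GG.rel (w := FreeGroup.of 4 * FreeGroup.of 0) (w' := FreeGroup.of 0 * FreeGroup.of 4)
    (by simp [rels])

theorem GG.ru : gen .r * gen .u = gen .u * gen .r :=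
  GG.rel (w := FreeGroup.of 4 * FreeGroup.of 1) (w' := FreeGroup.of 1 * FreeGroup.of 4)
    (by simp [rels])

theorem GG.ry : gen .r * gen .y = gen .u * gen .y * gen .r :=
  GG.rel (w := FreeGroup.of 4 * FreeGroup.of 2)
    (w' := FreeGroup.of 1 * FreeGroup.of 2 * FreeGroup.of 4) (by simp [rels])

section

variable {Γ : Type} [Group Γ] (l : Gn → Γ)
  (hcomm : ∀ g g', (g, g') ∈ ({(.z, .u), (.z, .y), (.u, .y), (.s, .z),
    (.s, .u), (.r, .z), (.r, .u), (.t, .z), (.t, .u), (.t, .y), (.t, .s), (.t, .r)} :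
    Set (Gn × Gn)) → l g * l g' = l g' * l g)
  (hs : l .s * l .y = l .y * l .y * l .s) (hr : l .r * l .y = l .u * l .y * l .r)

/-- The images of the generators. -/
def gf : Fin 5 → Γ := ![l .z, l .u, l .y, l .s, l .r]

include hcomm hs hr in
theorem gf_rels : ∀ w ∈ (rels : Set (FreeGroup (Fin 5))), FreeGroup.lift (gf l) w = 1 := by
  intro w hw
  have e1 := hcomm .z .u (by simp)
  have e2 := hcomm .z .y (by simp)
  have e3 := hcomm .u .y (by simp)
  have e4 := hcomm .s .z (by simp)
  have e5 := hcomm .s .u (by simp)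
  have e6 := hcomm .r .z (by simp)
  have e7 := hcomm .r .u (by simp)
  simp only [rels, Finset.coe_insert, Finset.coe_singleton, Set.mem_insert_iff,
    Set.mem_singleton_iff] at hw
  rcases hw with rfl | rfl | rfl | rfl | rfl | rfl | rfl | rfl | rfl
  all_goals
    rw [map_mul, map_inv, mul_inv_eq_one]
    simp only [map_mul, FreeGroup.lift_apply_of, gf]
  · exact e1
  · exact e2
  · exact e3
  · exact e4
  · exact e5
  · exact hs
  · exact e6
  · exact e7
  · exact hr

end

theorem ker_fp {Γ : Type} [Group Γ] (l : Gn → Γ) (φ : Γ →* Multiplicative ℤ) (ψ : Γ →* GG)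
    (hgen : ∀ H : Subgroup Γ, (∀ g, l g ∈ H) → H = ⊤)
    (hcomm : ∀ g g', (g, g') ∈ ({(.z, .u), (.z, .y), (.u, .y), (.s, .z),
      (.s, .u), (.r, .z), (.r, .u), (.t, .z), (.t, .u), (.t, .y), (.t, .s), (.t, .r)} :
      Set (Gn × Gn)) → l g * l g' = l g' * l g)
    (hs : l .s * l .y = l .y * l .y * l .s) (hr : l .r * l .y = l .u * l .y * l .r)
    (hφ : ∀ g, g ≠ .t → φ (l g) = 1) (hφt : φ (l .t) = Multiplicative.ofAdd 1)
    (hψ : ∀ g, ψ (l g) = GG.gen g) :
    ∃ (n : ℕ) (R : Finset (FreeGroup (Fin n))),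
      Nonempty (↥φ.ker ≃* PresentedGroup (R : Set (FreeGroup (Fin n)))) := by
  let θ : GG →* Γ := PresentedGroup.toGroup (f := gf l) (gf_rels l hcomm hs hr)
  have hθ : ∀ i, θ (PresentedGroup.of i) = gf l i := fun i => PresentedGroup.toGroup.of _
  -- `ψ ∘ θ = id`
  have h1 : ψ.comp θ = MonoidHom.id GG := by
    apply PresentedGroup.ext
    intro i
    rw [MonoidHom.comp_apply, hθ]
    fin_cases i
    · exact hψ .z
    · exact hψ .u
    · exact hψ .y
    · exact hψ .s
    · exact hψ .r
  have h1' : ∀ a, ψ (θ a) = a := fun a => congrArg (fun f : GG →* GG => f a) h1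
  -- `φ ∘ θ` is trivial
  have h2 : φ.comp θ = 1 := by
    apply PresentedGroup.ext
    intro i
    rw [MonoidHom.comp_apply, hθ]
    fin_cases i
    · exact hφ .z (by simp)
    · exact hφ .u (by simp)
    · exact hφ .y (by simp)
    · exact hφ .s (by simp)
    · exact hφ .r (by simp)
  have h2' : ∀ a, φ (θ a) = 1 := fun a => congrArg (fun f : GG →* Multiplicative ℤ => f a) h2
  -- `t` commutes with the image of `θ`
  have h3 : ∀ a, l .t * θ a = θ a * l .t := by
    have : θ.range ≤ Subgroup.centralizer {l .t} := by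
      rw [MonoidHom.range_eq_map, ← PresentedGroup.closure_range_of, MonoidHom.map_closure,
        Subgroup.closure_le]
      rintro _ ⟨_, ⟨i, rfl⟩, rfl⟩
      change θ (PresentedGroup.of i) ∈ Subgroup.centralizer {l .t}
      rw [hθ, Subgroup.mem_centralizer_singleton_iff]
      fin_cases i
      · exact (hcomm .t .z (by simp)).symm
      · exact (hcomm .t .u (by simp)).symm
      · exact (hcomm .t .y (by simp)).symm
      · exact (hcomm .t .s (by simp)).symm
      · exact (hcomm .t .r (by simp)).symm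
    intro a
    exact (Subgroup.mem_centralizer_singleton_iff.1 (this ⟨a, rfl⟩)).symm
  have h3' : ∀ a (k : ℤ), Commute (l .t ^ k) (θ a) := fun a k => Commute.zpow_left (h3 a) k
  -- every element is of the form `θ a * t ^ k`
  let H : Subgroup Γ :=
    { carrier := {g | ∃ a k, g = θ a * l .t ^ (k : ℤ)}
      one_mem' := ⟨1, 0, by simp⟩
      mul_mem' := by
        rintro _ _ ⟨a, k, rfl⟩ ⟨b, m, rfl⟩
        refine ⟨a * b, k + m, ?_⟩
        rw [map_mul, zpow_add, mul_assoc, ← mul_assoc _ (θ b), (h3' b k).eq]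
        simp only [mul_assoc]
      inv_mem' := by
        rintro _ ⟨a, k, rfl⟩
        refine ⟨a⁻¹, -k, ?_⟩
        rw [mul_inv_rev, ← zpow_neg, ← map_inv, (h3' a⁻¹ (-k)).eq] }
  have hH : H = ⊤ := by
    apply hgen
    intro g
    cases g
    · exact ⟨PresentedGroup.of 0, 0, by rw [hθ]; simp [gf]⟩
    · exact ⟨PresentedGroup.of 1, 0, by rw [hθ]; simp [gf]⟩
    · exact ⟨PresentedGroup.of 2, 0, by rw [hθ]; simp [gf]⟩
    · exact ⟨PresentedGroup.of 3, 0, by rw [hθ]; simp [gf]⟩
    · exact ⟨PresentedGroup.of 4, 0, by rw [hθ]; simp [gf]⟩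
    · exact ⟨1, 1, by simp⟩
  let θ' : GG →* φ.ker := θ.codRestrict φ.ker (fun a => h2' a)
  have hbij : Function.Bijective θ' := by
    constructor
    · intro a b e
      have : θ a = θ b := congrArg Subtype.val e
      rw [← h1' a, this, h1']
    · rintro ⟨g, hg⟩
      obtain ⟨a, k, hk⟩ : g ∈ H := by rw [hH]; trivial
      have hg' : φ g = 1 := hg
      rw [hk, map_mul, h2', one_mul, map_zpow, hφt] at hg'
      have hk0 : k = 0 := by
        have := congrArg Multiplicative.toAdd hg'
        simpa using this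
      subst hk0
      refine ⟨a, Subtype.ext ?_⟩
      change θ a = g
      rw [hk]
      simp
  exact ⟨5, rels, ⟨(MulEquiv.ofBijective θ' hbij).symm⟩⟩

/-- `G` with left multiplication by the generators, `t` trivial; discrete topology. -/
theorem exists_GS_GG : ∃ (a : @GS GG ⊥), @GS.Bij GG ⊥ a ∧
    ∀ (g : Gn) (x : GG), @GS.act GG ⊥ a g x = GG.gen g * x := by
  let _ : TopologicalSpace GG := ⊥
  have _ : DiscreteTopology GG := ⟨rfl⟩
  let m : Gn → C(GG, GG) := fun g => ⟨fun x => GG.gen g * x, continuous_of_discreteTopology⟩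
  have hm : ∀ g x, m g x = GG.gen g * x := fun g x => rfl
  let a : GS GG :=
    { z := m .z
      u := m .u
      y := m .y
      s := m .s
      r := m .r
      t := m .t
      zu := fun x => by simp only [hm, ← mul_assoc, GG.zu]
      zy := fun x => by simp only [hm, ← mul_assoc, GG.zy]
      uy := fun x => by simp only [hm, ← mul_assoc, GG.uy]
      sz := fun x => by simp only [hm, ← mul_assoc, GG.sz]
      su := fun x => by simp only [hm, ← mul_assoc, GG.su]
      sy := fun x => by simp only [hm, ← mul_assoc, GG.sy]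
      rz := fun x => by simp only [hm, ← mul_assoc, GG.rz]
      ru := fun x => by simp only [hm, ← mul_assoc, GG.ru]
      ry := fun x => by simp only [hm, ← mul_assoc, GG.ry]
      tz := fun x => by simp only [hm]; simp [GG.gen]
      tu := fun x => by simp only [hm]; simp [GG.gen]
      ty := fun x => by simp only [hm]; simp [GG.gen]
      ts := fun x => by simp only [hm]; simp [GG.gen]
      tr := fun x => by simp only [hm]; simp [GG.gen] }
  have hact : ∀ (g : Gn) (x : GG), a.act g x = GG.gen g * x := by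
    intro g x
    cases g <;> rfl
  refine ⟨a, ?_, hact⟩
  intro g
  have : (a.act g : GG → GG) = fun x => GG.gen g * x := funext (hact g)
  rw [this]
  exact Group.mulLeft_bijective _

end Pool.H74
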