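import Pool.Agent.H74.Spaces
import Pool.Agent.H74.Gen

/-!
Loops in the space `X` of the one-point set: the relations between the generating loops, and
generation of the fundamental group by them.
-/

open Topology unitInterval Set Pool.H74 Pool.H74.Fam

namespace Pool.H74

namespace Loops

noncomputable section

open Path.Homotopic

/-- Predicates on loops closed under the group operations. -/
structure LC {M : Type} [TopologicalSpace M] {m : M}
    (P : Path.Homotopic.Quotient m m → Prop) : Prop where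
  refl : P (.refl m)
  symm : ∀ q, P q → P q.symm
  trans : ∀ q q', P q → P q' → P (q.trans q')

theorem LC.map {M N : Type} [TopologicalSpace M] [TopologicalSpace N] {m : M} (F : C(M, N))
    {P : Path.Homotopic.Quotient (F m) (F m) → Prop} (h : LC P) :
    LC (fun q : Path.Homotopic.Quotient m m => P (q.map F)) where
  refl := by rw [PHQ.map_refl]; exact h.refl
  symm q hq := by rw [PHQ.map_symm]; exact h.symm _ hq
  trans q q' hq hq' := by rw [PHQ.map_trans]; exact h.trans _ _ hq hq'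

theorem conj_cancel {M : Type} [TopologicalSpace M] {x y : M}
    (p : Path.Homotopic.Quotient x y) (q : Path.Homotopic.Quotient y y) :
    (p.symm.trans ((p.trans q).trans p.symm)).trans p = q := by
  simp only [Path.Homotopic.Quotient.trans_assoc, PHQ.symm_trans_cancel_left,
    Path.Homotopic.Quotient.symm_trans, Path.Homotopic.Quotient.trans_refl]

section ZCstep

variable {A W : Type} [TopologicalSpace A] [TopologicalSpace W] {a b : C(W, A)}

/-- The square lemma in a homotopy coequalizer. -/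
theorem zc_nat {x0 : A} {w0 w : W} (d : Path w0 w) (ha : a w0 = x0) (hb : b w0 = x0)
    (ℓ : Path (ZC.inA a b x0) (ZC.inA a b x0)) (hℓ : ∀ t, ℓ t = ZC.hdl a b (w0, t)) :
    (Path.Homotopic.Quotient.mk ℓ).trans
      ((Path.Homotopic.Quotient.mk ((d.map b.continuous).cast hb.symm rfl)).map (ZC.inA a b)) =
    ((Path.Homotopic.Quotient.mk ((d.map a.continuous).cast ha.symm rfl)).map (ZC.inA a b)).trans
      (.mk (Spec.hdlPath a b w)) := by
  rw [← Path.Homotopic.Quotient.mk_map, ← Path.Homotopic.Quotient.mk_map]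
  refine Fam.square ((ZC.hdl a b).comp ⟨fun p => (d p.1, p.2), by fun_prop⟩) _ _ _ _ ?_ ?_ ?_ ?_
  · intro t
    rw [hℓ]
    change _ = ZC.hdl a b (d 0, t)
    rw [d.source]
  · intro s
    change ZC.inA a b (b (d s)) = ZC.hdl a b (d s, 1)
    rw [ZC.hdl_one]
  · intro s
    change ZC.inA a b (a (d s)) = ZC.hdl a b (d s, 0)
    rw [ZC.hdl_zero]
  · intro t
    change ZC.hdl a b (w, t) = ZC.hdl a b (d 1, t)
    rw [d.target]

theorem zc_loops [PathConnectedSpace A] [PathConnectedSpace W] {x0 : A} {w0 : W}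
    (ha : a w0 = x0) (hb : b w0 = x0)
    {P : Path.Homotopic.Quotient (ZC.inA a b x0) (ZC.inA a b x0) → Prop} (hP : LC P)
    (hA : ∀ q : Path.Homotopic.Quotient x0 x0, P (q.map (ZC.inA a b)))
    (ℓ : Path (ZC.inA a b x0) (ZC.inA a b x0)) (hℓ : ∀ t, ℓ t = ZC.hdl a b (w0, t))
    (hPℓ : P (.mk ℓ)) (q : Path.Homotopic.Quotient (ZC.inA a b x0) (ZC.inA a b x0)) : P q := by
  let c : ∀ x : A, Path.Homotopic.Quotient x0 x := fun x =>
    .mk (PathConnectedSpace.somePath x0 x)
  have key := Spec.ZC.path_induction (a := a) (b := b)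
    (fun x y q => P ((((c x).map (ZC.inA a b)).trans q).trans ((c y).map (ZC.inA a b)).symm))
    ?_ ?_ ?_ ?_ x0 x0 q
  · have h1 := hP.trans _ _ (hP.trans _ _ (hP.symm _ (hA (c x0))) key) (hA (c x0))
    have e : (((c x0).map (ZC.inA a b)).symm.trans ((((c x0).map (ZC.inA a b)).trans q).trans
        ((c x0).map (ZC.inA a b)).symm)).trans ((c x0).map (ZC.inA a b)) = q := by
      simp only [Path.Homotopic.Quotient.trans_assoc, PHQ.symm_trans_cancel_left,
        Path.Homotopic.Quotient.symm_trans, Path.Homotopic.Quotient.trans_refl]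
    rwa [e] at h1
  · intro x y γ
    have h1 := hA (((c x).trans (.mk γ)).trans (c y).symm)
    rw [PHQ.map_trans, PHQ.map_trans, PHQ.map_symm, ← Path.Homotopic.Quotient.mk_map] at h1
    exact h1
  · intro w
    let d : Path w0 w := PathConnectedSpace.somePath w0 w
    have hn := zc_nat d ha hb ℓ hℓ
    set α : Path.Homotopic.Quotient x0 (a w) := .mk ((d.map a.continuous).cast ha.symm rfl)
    set β : Path.Homotopic.Quotient x0 (b w) := .mk ((d.map b.continuous).cast hb.symm rfl)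
    have e1 : Path.Homotopic.Quotient.mk (Spec.hdlPath a b w) =
        ((α.map (ZC.inA a b)).symm.trans (.mk ℓ)).trans (β.map (ZC.inA a b)) := by
      rw [Path.Homotopic.Quotient.trans_assoc, hn, PHQ.symm_trans_cancel_left]
    have h1 := hA ((c (a w)).trans α.symm)
    have h2 := hA (β.trans (c (b w)).symm)
    rw [PHQ.map_trans, PHQ.map_symm] at h1 h2
    have h3 := hP.trans _ _ (hP.trans _ _ h1 hPℓ) h2
    simp only [Path.Homotopic.Quotient.trans_assoc] at h3
    rw [e1]
    simp only [Path.Homotopic.Quotient.trans_assoc]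
    exact h3
  · intro x y q hq
    have h1 := hP.symm _ hq
    simp only [PHQ.trans_symm_rev, PHQ.symm_symm] at h1
    simp only [Path.Homotopic.Quotient.trans_assoc]
    exact h1
  · intro x y z q q' hq hq'
    have h1 := hP.trans _ _ hq hq'
    simp only [Path.Homotopic.Quotient.trans_assoc, PHQ.symm_trans_cancel_left] at h1
    simp only [Path.Homotopic.Quotient.trans_assoc]
    exact h1

/-- The same for the images in another space. -/
theorem zc_step {X : Type} [TopologicalSpace X] [PathConnectedSpace A] [PathConnectedSpace W]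
    {x0 : A} {w0 : W} (ha : a w0 = x0) (hb : b w0 = x0) (F : C(ZC a b, X))
    {P : Path.Homotopic.Quotient (F (ZC.inA a b x0)) (F (ZC.inA a b x0)) → Prop} (hP : LC P)
    (hA : ∀ q : Path.Homotopic.Quotient x0 x0, P (q.map (F.comp (ZC.inA a b))))
    (ℓ : Path (F (ZC.inA a b x0)) (F (ZC.inA a b x0))) (hℓ : ∀ t, ℓ t = F (ZC.hdl a b (w0, t)))
    (hPℓ : P (.mk ℓ)) (q : Path.Homotopic.Quotient (ZC.inA a b x0) (ZC.inA a b x0)) :
    P (q.map F) := by
  let ℓ' : Path (ZC.inA a b x0) (ZC.inA a b x0) :=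
    (Spec.hdlPath a b w0).cast (congrArg _ ha.symm) (congrArg _ hb.symm)
  refine zc_loops ha hb (LC.map F hP) ?_ ℓ' (fun t => rfl) ?_ q
  · intro q
    have h1 := hA q
    induction q using Path.Homotopic.Quotient.ind with | mk γ =>
    rw [← Path.Homotopic.Quotient.mk_map] at h1
    change P (((Path.Homotopic.Quotient.mk γ).map (ZC.inA a b)).map F)
    rw [← Path.Homotopic.Quotient.mk_map, ← Path.Homotopic.Quotient.mk_map]
    exact h1
  · rw [← Path.Homotopic.Quotient.mk_map]
    have e : ℓ'.map F.continuous = ℓ := by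
      ext t
      exact (hℓ t).symm
    rw [e]
    exact hPℓ

end ZCstep

section DMstep

variable {D V E : Type} [TopologicalSpace D] [TopologicalSpace V] [TopologicalSpace E]
  {c : C(E, D)} {r : C(E, V)}

/-- A path in a sum starting and ending on the left. -/
theorem path_inl {x y : D} (γ : Path (Sum.inl x : D ⊕ V) (Sum.inl y)) :
    ∃ γ' : Path x y, ∀ t, γ t = Sum.inl (γ' t) := by
  have h : ∀ t, γ t ∈ range (Sum.inl : D → D ⊕ V) := by
    have hc : IsClopen (γ ⁻¹' range (Sum.inl : D → D ⊕ V)) :=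
      IsClopen.preimage ⟨isClosed_range_inl, isOpen_range_inl⟩ γ.continuous
    rcases isClopen_iff.1 hc with h | h
    · exfalso
      have h0 : (0 : I) ∈ γ ⁻¹' range (Sum.inl : D → D ⊕ V) := by
        rw [mem_preimage, γ.source]; exact ⟨x, rfl⟩
      rw [h] at h0
      exact h0
    · intro t
      have : t ∈ γ ⁻¹' range (Sum.inl : D → D ⊕ V) := by rw [h]; trivial
      exact this
  let ρ : C(D ⊕ V, D) := sumC (.id D) (.const _ x)
  refine ⟨⟨⟨fun t => ρ (γ t), by fun_prop⟩, ?_, ?_⟩, ?_⟩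
  · change ρ (γ 0) = x; rw [γ.source]; rfl
  · change ρ (γ 1) = y; rw [γ.target]; rfl
  · intro t
    obtain ⟨z, hz⟩ := h t
    change γ t = Sum.inl (ρ (γ t))
    rw [← hz]; rfl

theorem path_inr {x y : V} (γ : Path (Sum.inr x : D ⊕ V) (Sum.inr y)) :
    ∃ γ' : Path x y, ∀ t, γ t = Sum.inr (γ' t) := by
  have h : ∀ t, γ t ∈ range (Sum.inr : V → D ⊕ V) := by
    have hc : IsClopen (γ ⁻¹' range (Sum.inr : V → D ⊕ V)) :=
      IsClopen.preimage ⟨isClosed_range_inr, isOpen_range_inr⟩ γ.continuous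
    rcases isClopen_iff.1 hc with h | h
    · exfalso
      have h0 : (0 : I) ∈ γ ⁻¹' range (Sum.inr : V → D ⊕ V) := by
        rw [mem_preimage, γ.source]; exact ⟨x, rfl⟩
      rw [h] at h0
      exact h0
    · intro t
      have : t ∈ γ ⁻¹' range (Sum.inr : V → D ⊕ V) := by rw [h]; trivial
      exact this
  let ρ : C(D ⊕ V, V) := sumC (.const _ x) (.id V)
  refine ⟨⟨⟨fun t => ρ (γ t), by fun_prop⟩, ?_, ?_⟩, ?_⟩
  · change ρ (γ 0) = x; rw [γ.source]; rfl
  · change ρ (γ 1) = y; rw [γ.target]; rfl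
  · intro t
    obtain ⟨z, hz⟩ := h t
    change γ t = Sum.inr (ρ (γ t))
    rw [← hz]; rfl

theorem no_path_inl_inr {x : D} {y : V} (γ : Path (Sum.inl x : D ⊕ V) (Sum.inr y)) : False := by
  have hc : IsClopen (γ ⁻¹' range (Sum.inl : D → D ⊕ V)) :=
    IsClopen.preimage ⟨isClosed_range_inl, isOpen_range_inl⟩ γ.continuous
  rcases isClopen_iff.1 hc with h | h
  · have h0 : (0 : I) ∈ γ ⁻¹' range (Sum.inl : D → D ⊕ V) := by
      rw [mem_preimage, γ.source]; exact ⟨x, rfl⟩
    rw [h] at h0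
    exact h0
  · have : (1 : I) ∈ γ ⁻¹' range (Sum.inl : D → D ⊕ V) := by rw [h]; trivial
    rw [mem_preimage, γ.target] at this
    obtain ⟨z, hz⟩ := this
    cases hz

/-- The path from the left end to a point of the right end, through the section. -/
def secPath (c : C(E, D)) (r : C(E, V)) (sec : C(V, E)) (hsec : ∀ v, r (sec v) = v) (v : V) :
    Path (DM.inD c r (c (sec v))) (DM.inV c r v) where
  toFun t := DM.cyl c r (sec v, t)
  continuous_toFun := by fun_prop
  source' := DM.cyl_zero c r (sec v)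
  target' := (DM.cyl_one c r (sec v)).trans (congrArg _ (hsec v))

theorem sec_nat (c : C(E, D)) (r : C(E, V)) (sec : C(V, E)) (hsec : ∀ v, r (sec v) = v) {v v' : V}
    (γ : Path v v') :
    (Path.Homotopic.Quotient.mk (secPath c r sec hsec v)).trans
      (.mk (γ.map (DM.inV c r).continuous)) =
    (Path.Homotopic.Quotient.mk ((γ.map (c.comp sec).continuous).map (DM.inD c r).continuous)).trans
      (.mk (secPath c r sec hsec v')) := by
  refine Fam.square ((DM.cyl c r).comp ⟨fun p => (sec (γ p.1), p.2), by fun_prop⟩) _ _ _ _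
    ?_ ?_ ?_ ?_
  · intro t
    change DM.cyl c r (sec v, t) = DM.cyl c r (sec (γ 0), t)
    rw [γ.source]
  · intro s
    change DM.inV c r (γ s) = DM.cyl c r (sec (γ s), 1)
    rw [DM.cyl_one, hsec]
  · intro s
    change DM.inD c r (c (sec (γ s))) = DM.cyl c r (sec (γ s), 0)
    rw [DM.cyl_zero]
  · intro t
    change DM.cyl c r (sec v', t) = DM.cyl c r (sec (γ 1), t)
    rw [γ.target]

/-- The cylinder path. -/
def cylPath (c : C(E, D)) (r : C(E, V)) (e : E) : Path (DM.inD c r (c e)) (DM.inV c r (r e)) where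
  toFun t := DM.cyl c r (e, t)
  continuous_toFun := by fun_prop
  source' := DM.cyl_zero c r e
  target' := DM.cyl_one c r e

theorem cyl_nat (c : C(E, D)) (r : C(E, V)) {e e' : E} (g : Path e e') :
    (Path.Homotopic.Quotient.mk (cylPath c r e)).trans
      (.mk ((g.map r.continuous).map (DM.inV c r).continuous)) =
    (Path.Homotopic.Quotient.mk ((g.map c.continuous).map (DM.inD c r).continuous)).trans
      (.mk (cylPath c r e')) := by
  refine Fam.square ((DM.cyl c r).comp ⟨fun p => (g p.1, p.2), by fun_prop⟩) _ _ _ _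
    ?_ ?_ ?_ ?_
  · intro t
    change DM.cyl c r (e, t) = DM.cyl c r (g 0, t)
    rw [g.source]
  · intro s
    change DM.inV c r (r (g s)) = DM.cyl c r (g s, 1)
    rw [DM.cyl_one]
  · intro s
    change DM.inD c r (c (g s)) = DM.cyl c r (g s, 0)
    rw [DM.cyl_zero]
  · intro t
    change DM.cyl c r (e', t) = DM.cyl c r (g 1, t)
    rw [g.target]

/-- The cylinder path at a point `e` is, up to paths in `D`, the path through the section. -/
theorem exists_cyl_eq (c : C(E, D)) (r : C(E, V)) (sec : C(V, E)) (hsec : ∀ v, r (sec v) = v)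
    [PathConnectedSpace E] (e : E) : ∃ γ : Path.Homotopic.Quotient (c e) (c (sec (r e))),
      Path.Homotopic.Quotient.mk (cylPath c r e) =
        (γ.map (DM.inD c r)).trans (.mk (secPath c r sec hsec (r e))) := by
  -- a path from `e` to `sec (r e)`
  let g : Path e (sec (r e)) := PathConnectedSpace.somePath _ _
  have h1 := cyl_nat c r g
  -- its image in `V` is a loop
  let g' : Path (r e) (r e) := (g.map r.continuous).cast rfl (hsec (r e)).symm
  have h2 := sec_nat c r sec hsec g'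
  -- rewrite `h1` with casts
  have h3 : (Path.Homotopic.Quotient.mk (cylPath c r e)).trans
      (.mk (g'.map (DM.inV c r).continuous)) =
    (Path.Homotopic.Quotient.mk ((g.map c.continuous).map (DM.inD c r).continuous)).trans
      (.mk (secPath c r sec hsec (r e))) := by
    refine Fam.square ((DM.cyl c r).comp ⟨fun p => (g p.1, p.2), by fun_prop⟩) _ _ _ _
      ?_ ?_ ?_ ?_
    · intro t
      change DM.cyl c r (e, t) = DM.cyl c r (g 0, t)
      rw [g.source]
    · intro s
      change DM.inV c r (r (g s)) = DM.cyl c r (g s, 1)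
      rw [DM.cyl_one]
    · intro s
      change DM.inD c r (c (g s)) = DM.cyl c r (g s, 0)
      rw [DM.cyl_zero]
    · intro t
      change DM.cyl c r (sec (r e), t) = DM.cyl c r (g 1, t)
      rw [g.target]
  refine ⟨(Path.Homotopic.Quotient.mk (g.map c.continuous)).trans
    (Path.Homotopic.Quotient.mk (g'.map (c.comp sec).continuous)).symm, ?_⟩
  rw [PHQ.map_trans, PHQ.map_symm, ← Path.Homotopic.Quotient.mk_map,
    ← Path.Homotopic.Quotient.mk_map]
  apply PHQ.trans_cancel_right (q := .mk (g'.map (DM.inV c r).continuous))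
  rw [h3, Path.Homotopic.Quotient.trans_assoc, Path.Homotopic.Quotient.trans_assoc, h2,
    PHQ.symm_trans_cancel_left]

theorem dm_loops (sec : C(V, E)) (hsec : ∀ v, r (sec v) = v)
    [PathConnectedSpace D] [PathConnectedSpace E] {x0 : D}
    {P : Path.Homotopic.Quotient (DM.inD c r x0) (DM.inD c r x0) → Prop} (hP : LC P)
    (hD : ∀ q : Path.Homotopic.Quotient x0 x0, P (q.map (DM.inD c r)))
    (q : Path.Homotopic.Quotient (DM.inD c r x0) (DM.inD c r x0)) : P q := by
  let k : ∀ x : D, Path.Homotopic.Quotient x0 x := fun x =>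
    .mk (PathConnectedSpace.somePath x0 x)
  let K : ∀ z : D ⊕ V, Path.Homotopic.Quotient (DM.inD c r x0)
      (ZC.inA (inlC.comp c) (inrC.comp r) z) := fun z =>
    match z with
    | .inl x => (k x).map (DM.inD c r)
    | .inr v => ((k (c (sec v))).map (DM.inD c r)).trans (.mk (secPath c r sec hsec v))
  have key := Spec.ZC.path_induction (a := inlC.comp c) (b := inrC.comp r)
    (fun x y q => P (((K x).trans q).trans (K y).symm)) ?_ ?_ ?_ ?_ (Sum.inl x0) (Sum.inl x0) q
  · have hk : P (K (.inl x0)) := hD (k x0)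
    have h1 := hP.trans _ _ (hP.trans _ _ (hP.symm _ hk) key) hk
    exact (congrArg P (conj_cancel (M := DM c r) (x := DM.inD c r x0) (y := DM.inD c r x0)
      (K (.inl x0)) q)).mp h1
  · rintro (x | x) (y | y) γ
    · obtain ⟨γ', hγ'⟩ := path_inl γ
      have e : γ.map (ZC.inA (inlC.comp c) (inrC.comp r)).continuous =
          γ'.map (DM.inD c r).continuous := by
        ext t
        exact congrArg (ZC.inA (inlC.comp c) (inrC.comp r)) (hγ' t)
      rw [e]
      have h1 := hD (((k x).trans (.mk γ')).trans (k y).symm)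
      rw [PHQ.map_trans, PHQ.map_trans, PHQ.map_symm, ← Path.Homotopic.Quotient.mk_map] at h1
      exact h1
    · exact (no_path_inl_inr γ).elim
    · exact (no_path_inl_inr γ.symm).elim
    · obtain ⟨γ', hγ'⟩ := path_inr γ
      have e : γ.map (ZC.inA (inlC.comp c) (inrC.comp r)).continuous =
          γ'.map (DM.inV c r).continuous := by
        ext t
        exact congrArg (ZC.inA (inlC.comp c) (inrC.comp r)) (hγ' t)
      rw [e]
      have hn := sec_nat c r sec hsec γ'
      have h1 := hD (((k (c (sec x))).trans (.mk (γ'.map (c.comp sec).continuous))).trans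
        (k (c (sec y))).symm)
      rw [PHQ.map_trans, PHQ.map_trans, PHQ.map_symm, ← Path.Homotopic.Quotient.mk_map] at h1
      change P (((((k (c (sec x))).map (DM.inD c r)).trans (.mk (secPath c r sec hsec x))).trans
        (.mk (γ'.map (DM.inV c r).continuous))).trans
        (((k (c (sec y))).map (DM.inD c r)).trans (.mk (secPath c r sec hsec y))).symm)
      rw [Path.Homotopic.Quotient.trans_assoc (_) (Path.Homotopic.Quotient.mk
        (secPath c r sec hsec x)), hn, PHQ.trans_symm_rev]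
      simp only [Path.Homotopic.Quotient.trans_assoc, PHQ.trans_symm_cancel_left]
      simp only [Path.Homotopic.Quotient.trans_assoc] at h1
      exact h1
  · intro e
    obtain ⟨γ, hγ⟩ := exists_cyl_eq c r sec hsec e
    change P ((((k (c e)).map (DM.inD c r)).trans (.mk (cylPath c r e))).trans
        (((k (c (sec (r e)))).map (DM.inD c r)).trans (.mk (secPath c r sec hsec (r e)))).symm)
    rw [hγ, PHQ.trans_symm_rev]
    have h1 := hD (((k (c e)).trans γ).trans (k (c (sec (r e)))).symm)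
    rw [PHQ.map_trans, PHQ.map_trans, PHQ.map_symm] at h1
    simp only [Path.Homotopic.Quotient.trans_assoc, PHQ.trans_symm_cancel_left]
    simp only [Path.Homotopic.Quotient.trans_assoc] at h1
    exact h1
  · intro x y q hq
    have h1 := hP.symm _ hq
    simp only [PHQ.trans_symm_rev, PHQ.symm_symm] at h1
    simp only [Path.Homotopic.Quotient.trans_assoc]
    exact h1
  · intro x y z q q' hq hq'
    have h1 := hP.trans _ _ hq hq'
    simp only [Path.Homotopic.Quotient.trans_assoc, PHQ.symm_trans_cancel_left] at h1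
    simp only [Path.Homotopic.Quotient.trans_assoc]
    exact h1

end DMstep

section Squares

variable {A W X : Type} [TopologicalSpace A] [TopologicalSpace W] [TopologicalSpace X]
  {a b : C(W, A)}

theorem sq_zc (F : C(ZC a b, X)) {w0 : W} (p' : Path w0 w0) {m : X} (p r q : Path m m)
    (hq : ∀ t, q t = F (ZC.hdl a b (w0, t))) (hp : ∀ s, p s = F (ZC.inA a b (a (p' s))))
    (hr : ∀ s, r s = F (ZC.inA a b (b (p' s)))) :
    (Path.Homotopic.Quotient.mk q).trans (.mk r) =
      (Path.Homotopic.Quotient.mk p).trans (.mk q) := by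
  refine Fam.square (F.comp ((ZC.hdl a b).comp ⟨fun x => (p' x.1, x.2), by fun_prop⟩)) _ _ _ _
    ?_ ?_ ?_ ?_
  · intro t
    rw [hq]
    change _ = F (ZC.hdl a b (p' 0, t))
    rw [p'.source]
  · intro s
    rw [hr]
    change _ = F (ZC.hdl a b (p' s, 1))
    rw [ZC.hdl_one]
  · intro s
    rw [hp]
    change _ = F (ZC.hdl a b (p' s, 0))
    rw [ZC.hdl_zero]
  · intro t
    rw [hq]
    change _ = F (ZC.hdl a b (p' 1, t))
    rw [p'.target]

theorem comm_zc (F : C(ZC a b, X)) {w0 : W} (p' : Path w0 w0) {m : X} (p q : Path m m)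
    (hq : ∀ t, q t = F (ZC.hdl a b (w0, t))) (hp : ∀ s, p s = F (ZC.inA a b (a (p' s))))
    (hp' : ∀ s, p s = F (ZC.inA a b (b (p' s)))) :
    (Path.Homotopic.Quotient.mk p).trans (.mk q) =
      (Path.Homotopic.Quotient.mk q).trans (.mk p) :=
  (sq_zc F p' p p q hq hp hp').symm

end Squares

/-- The loops in the first mapping torus. -/
def z1 : Path (ZC.inA (.id Unit) GS.one.z ()) (ZC.inA (.id Unit) GS.one.z ()) :=
  Spec.hdlPath (.id Unit) GS.one.z ()

/-- The loops in the second mapping torus. -/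
def z2 : Path (ZC.inA (.id _) GS.one.u1 (ZC.inA (.id Unit) GS.one.z ()))
    (ZC.inA (.id _) GS.one.u1 (ZC.inA (.id Unit) GS.one.z ())) :=
  z1.map (ZC.inA (.id _) GS.one.u1).continuous

/-- The loops in the second mapping torus. -/
def u2 : Path (ZC.inA (.id _) GS.one.u1 (ZC.inA (.id Unit) GS.one.z ()))
    (ZC.inA (.id _) GS.one.u1 (ZC.inA (.id Unit) GS.one.z ())) :=
  Spec.hdlPath (.id _) GS.one.u1 (ZC.inA (.id Unit) GS.one.z ())

/-- The loops in `V`. -/
def zV : Path (GS.one.vpt ()) (GS.one.vpt ()) := z2.map (ZC.inA (.id _) GS.one.y2).continuous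
/-- The loops in `V`. -/
def uV : Path (GS.one.vpt ()) (GS.one.vpt ()) := u2.map (ZC.inA (.id _) GS.one.y2).continuous
/-- The loops in `V`. -/
def yV : Path (GS.one.vpt ()) (GS.one.vpt ()) := Spec.hdlPath (.id _) GS.one.y2
  (ZC.inA (.id _) GS.one.u1 (ZC.inA (.id Unit) GS.one.z ()))

/-- The loops in `B`. -/
def zB : Path (GS.one.inB (GS.one.vpt ())) (GS.one.inB (GS.one.vpt ())) :=
  zV.map GS.one.inB.continuous
/-- The loops in `B`. -/
def uB : Path (GS.one.inB (GS.one.vpt ())) (GS.one.inB (GS.one.vpt ())) :=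
  uV.map GS.one.inB.continuous
/-- The loops in `B`. -/
def yB : Path (GS.one.inB (GS.one.vpt ())) (GS.one.inB (GS.one.vpt ())) :=
  yV.map GS.one.inB.continuous
/-- The loops in `B`. -/
def sB : Path (GS.one.inB (GS.one.vpt ())) (GS.one.inB (GS.one.vpt ())) :=
  (Spec.hdlPath (.id _) GS.one.sig (GS.one.vpt ())).map (ZC.inA (ZC.inA (.id _) GS.one.sig)
    ((ZC.inA (.id _) GS.one.sig).comp GS.one.rho)).continuous
/-- The loops in `B`. -/
def rB : Path (GS.one.inB (GS.one.vpt ())) (GS.one.inB (GS.one.vpt ())) :=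
  Spec.hdlPath (ZC.inA (.id _) GS.one.sig)
    ((ZC.inA (.id _) GS.one.sig).comp GS.one.rho) (GS.one.vpt ())

/-- The maps to `X`. -/
def FD : C(GS.one.D, GS.one.X) := DM.inD _ _
/-- The maps to `X`. -/
def FB : C(GS.one.B, GS.one.X) := (DM.inD _ _).comp (ZC.inA _ _)
/-- The maps to `X`. -/
def FB1 : C(GS.one.B1, GS.one.X) := (DM.inD _ _).comp ((ZC.inA _ _).comp (ZC.inA _ _))
/-- The maps to `X`. -/
def FV : C(GS.one.V, GS.one.X) := (DM.inD _ _).comp GS.one.inVD
/-- The maps to `X`. -/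
def F2 : C(GS.one.T2, GS.one.X) := FV.comp (ZC.inA _ _)
/-- The maps to `X`. -/
def F1 : C(GS.one.T1, GS.one.X) := F2.comp (ZC.inA _ _)

theorem comm_zu : (Path.Homotopic.Quotient.mk (GS.lp1 .z)).trans (.mk (GS.lp1 .u)) =
    (Path.Homotopic.Quotient.mk (GS.lp1 .u)).trans (.mk (GS.lp1 .z)) :=
  comm_zc F2 z1 _ _ (fun _ => rfl) (fun _ => rfl) (fun _ => rfl)

theorem comm_zy : (Path.Homotopic.Quotient.mk (GS.lp1 .z)).trans (.mk (GS.lp1 .y)) =
    (Path.Homotopic.Quotient.mk (GS.lp1 .y)).trans (.mk (GS.lp1 .z)) :=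
  comm_zc FV z2 _ _ (fun _ => rfl) (fun _ => rfl) (fun _ => rfl)

theorem comm_uy : (Path.Homotopic.Quotient.mk (GS.lp1 .u)).trans (.mk (GS.lp1 .y)) =
    (Path.Homotopic.Quotient.mk (GS.lp1 .y)).trans (.mk (GS.lp1 .u)) :=
  comm_zc FV u2 _ _ (fun _ => rfl) (fun _ => rfl) (fun _ => rfl)

theorem comm_zs : (Path.Homotopic.Quotient.mk (GS.lp1 .z)).trans (.mk (GS.lp1 .s)) =
    (Path.Homotopic.Quotient.mk (GS.lp1 .s)).trans (.mk (GS.lp1 .z)) :=
  comm_zc FB1 zV _ _ (fun _ => rfl) (fun _ => rfl) (fun _ => rfl)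

theorem comm_us : (Path.Homotopic.Quotient.mk (GS.lp1 .u)).trans (.mk (GS.lp1 .s)) =
    (Path.Homotopic.Quotient.mk (GS.lp1 .s)).trans (.mk (GS.lp1 .u)) :=
  comm_zc FB1 uV _ _ (fun _ => rfl) (fun _ => rfl) (fun _ => rfl)

theorem comm_zr : (Path.Homotopic.Quotient.mk (GS.lp1 .z)).trans (.mk (GS.lp1 .r)) =
    (Path.Homotopic.Quotient.mk (GS.lp1 .r)).trans (.mk (GS.lp1 .z)) :=
  comm_zc FB zV _ _ (fun _ => rfl) (fun _ => rfl) (fun _ => rfl)

theorem comm_ur : (Path.Homotopic.Quotient.mk (GS.lp1 .u)).trans (.mk (GS.lp1 .r)) =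
    (Path.Homotopic.Quotient.mk (GS.lp1 .r)).trans (.mk (GS.lp1 .u)) :=
  comm_zc FB uV _ _ (fun _ => rfl) (fun _ => rfl) (fun _ => rfl)

theorem comm_zt : (Path.Homotopic.Quotient.mk (GS.lp1 .z)).trans (.mk (GS.lp1 .t)) =
    (Path.Homotopic.Quotient.mk (GS.lp1 .t)).trans (.mk (GS.lp1 .z)) :=
  comm_zc FD zB _ _ (fun _ => rfl) (fun _ => rfl) (fun _ => rfl)

theorem comm_ut : (Path.Homotopic.Quotient.mk (GS.lp1 .u)).trans (.mk (GS.lp1 .t)) =
    (Path.Homotopic.Quotient.mk (GS.lp1 .t)).trans (.mk (GS.lp1 .u)) :=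
  comm_zc FD uB _ _ (fun _ => rfl) (fun _ => rfl) (fun _ => rfl)

theorem comm_yt : (Path.Homotopic.Quotient.mk (GS.lp1 .y)).trans (.mk (GS.lp1 .t)) =
    (Path.Homotopic.Quotient.mk (GS.lp1 .t)).trans (.mk (GS.lp1 .y)) :=
  comm_zc FD yB _ _ (fun _ => rfl) (fun _ => rfl) (fun _ => rfl)

theorem comm_st : (Path.Homotopic.Quotient.mk (GS.lp1 .s)).trans (.mk (GS.lp1 .t)) =
    (Path.Homotopic.Quotient.mk (GS.lp1 .t)).trans (.mk (GS.lp1 .s)) :=
  comm_zc FD sB _ _ (fun _ => rfl) (fun _ => rfl) (fun _ => rfl)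

theorem comm_rt : (Path.Homotopic.Quotient.mk (GS.lp1 .r)).trans (.mk (GS.lp1 .t)) =
    (Path.Homotopic.Quotient.mk (GS.lp1 .t)).trans (.mk (GS.lp1 .r)) :=
  comm_zc FD rB _ _ (fun _ => rfl) (fun _ => rfl) (fun _ => rfl)

theorem y_s_eq : (Path.Homotopic.Quotient.mk (GS.lp1 .y)).trans (.mk (GS.lp1 .s)) =
    (Path.Homotopic.Quotient.mk (GS.lp1 .s)).trans
      ((Path.Homotopic.Quotient.mk (GS.lp1 .y)).trans (.mk (GS.lp1 .y))) := by
  rw [← Path.Homotopic.Quotient.mk_trans (GS.lp1 .y) (GS.lp1 .y)]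
  refine (sq_zc FB1 yV _ _ _ (fun _ => rfl) (fun _ => rfl) ?_).symm
  intro t
  rw [Path.trans_apply]
  split_ifs with ht
  · have h := GS.sig_hdl_le GS.one (ZC.inA (.id _) GS.one.u1 (ZC.inA (.id Unit) GS.one.z ())) t ht
    refine Eq.trans ?_ (congrArg (fun v => FB1 (ZC.inA _ _ v)) h).symm
    rw [projIcc_of_mem]
    rfl
  · have h := GS.sig_hdl_gt GS.one (ZC.inA (.id _) GS.one.u1 (ZC.inA (.id Unit) GS.one.z ())) t ht
    refine Eq.trans ?_ (congrArg (fun v => FB1 (ZC.inA _ _ v)) h).symm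
    rw [projIcc_of_mem]
    rfl

theorem y_r_eq : (Path.Homotopic.Quotient.mk (GS.lp1 .y)).trans (.mk (GS.lp1 .r)) =
    (Path.Homotopic.Quotient.mk (GS.lp1 .r)).trans
      ((Path.Homotopic.Quotient.mk (GS.lp1 .y)).trans (.mk (GS.lp1 .u))) := by
  rw [← Path.Homotopic.Quotient.mk_trans (GS.lp1 .y) (GS.lp1 .u)]
  refine (sq_zc FB yV _ _ _ (fun _ => rfl) (fun _ => rfl) ?_).symm
  intro t
  rw [Path.trans_apply]
  split_ifs with ht
  · have h := GS.rho_hdl_le GS.one (ZC.inA (.id _) GS.one.u1 (ZC.inA (.id Unit) GS.one.z ())) t ht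
    refine Eq.trans ?_ (congrArg (fun v => FB (ZC.inA _ _ (ZC.inA _ _ v))) h).symm
    rw [projIcc_of_mem]
    rfl
  · have h := GS.rho_hdl_gt GS.one (ZC.inA (.id _) GS.one.u1 (ZC.inA (.id Unit) GS.one.z ())) t ht
    refine Eq.trans ?_ (congrArg (fun v => FB (ZC.inA _ _ (ZC.inA _ _ v))) h).symm
    rw [projIcc_of_mem]
    rfl

/-! ### The section of the circle bundle -/

theorem K_sec {S : Type} [TopologicalSpace S] (H : H3 S) :
    H3.Hom H H.K (⟨fun x => ((0 : KC), x), by fun_prop⟩ : C(S, KC × S)) :=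
  ⟨fun _ => Prod.ext (add_zero (0 : KC)).symm rfl, fun _ => Prod.ext (neg_zero (G := KC)).symm rfl,
    fun _ => rfl⟩

/-- The section of the circle bundle. -/
def sec {S : Type} [TopologicalSpace S] (a : GS S) : C(a.V, a.E) :=
  H3.map3 ⟨fun x => ((0 : KC), x), by fun_prop⟩ (K_sec a.toH3)

theorem rE_sec {S : Type} [TopologicalSpace S] (a : GS S) (v : a.V) : a.rE (sec a v) = v :=
  (H3.map3_comp _ _ _ _ v).trans (congrArg (fun f : C(_, _) => f v)
    (H3.map3_id (H := a.toH3) ⟨fun _ => rfl, fun _ => rfl, fun _ => rfl⟩))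

/-! ### Every point is joined to a vertex -/

theorem zc_joined {A W : Type} [TopologicalSpace A] [TopologicalSpace W] {a b : C(W, A)}
    {S : Type} (v : S → A) (h : ∀ x, ∃ s, Joined x (v s)) (z : ZC a b) :
    ∃ s, Joined z (ZC.inA a b (v s)) := by
  induction z using ZC.ind with
  | h1 x =>
    obtain ⟨s, ⟨γ⟩⟩ := h x
    exact ⟨s, ⟨γ.map (ZC.inA a b).continuous⟩⟩
  | h2 w t =>
    obtain ⟨s, ⟨γ⟩⟩ := h (a w)
    exact ⟨s, (ZC.joined_hdl w t).symm.trans ⟨γ.map (ZC.inA a b).continuous⟩⟩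

theorem joined_vpt {S : Type} [TopologicalSpace S] (a : GS S) (v : a.V) :
    ∃ x, Joined v (a.vpt x) :=
  zc_joined _ (zc_joined _ (zc_joined id fun x => ⟨x, ⟨Path.refl _⟩⟩)) v

theorem joined_D {S : Type} [TopologicalSpace S] (a : GS S) (d : a.D) :
    ∃ x, Joined d (a.inVD (a.vpt x)) :=
  zc_joined _ (zc_joined _ (zc_joined _ (joined_vpt a))) d

end

end Loops

open Loops

theorem GS.joined_xpt {S : Type} [TopologicalSpace S] [DiscreteTopology S] (a : GS S) (z : a.X) :
    ∃ x, Joined z (a.xpt x) := by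
  have hD : ∀ d : a.D, ∃ x, Joined (DM.inD (a.inVD.comp a.rE) a.rE d) (a.xpt x) := by
    intro d
    obtain ⟨x, ⟨γ⟩⟩ := joined_D a d
    exact ⟨x, ⟨γ.map (DM.inD (a.inVD.comp a.rE) a.rE).continuous⟩⟩
  induction z using DM.ind with
  | h1 d => exact hD d
  | h2 v =>
    obtain ⟨x, h⟩ := hD (a.inVD (a.rE (sec a v)))
    exact ⟨x, Joined.trans ⟨(secPath (a.inVD.comp a.rE) a.rE (sec a) (rE_sec a) v).symm⟩ h⟩
  | h3 e t =>
    obtain ⟨x, h⟩ := hD (a.inVD (a.rE e))
    exact ⟨x, (ZC.joined_hdl (a := inlC.comp (a.inVD.comp a.rE)) (b := inrC.comp a.rE)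
      e t).symm.trans h⟩

open Path.Homotopic in
theorem GS.commute_loops (g g' : Gn) (h : (g, g') ∈ ({(.z, .u), (.z, .y), (.u, .y), (.s, .z),
    (.s, .u), (.r, .z), (.r, .u), (.t, .z), (.t, .u), (.t, .y), (.t, .s), (.t, .r)} :
      Set (Gn × Gn))) :
    (Path.Homotopic.Quotient.mk (GS.lp1 g)).trans (.mk (GS.lp1 g')) =
      (Path.Homotopic.Quotient.mk (GS.lp1 g')).trans (.mk (GS.lp1 g)) := by
  simp only [mem_insert_iff, mem_singleton_iff, Prod.mk.injEq] at h
  rcases h with ⟨rfl, rfl⟩ | ⟨rfl, rfl⟩ | ⟨rfl, rfl⟩ | ⟨rfl, rfl⟩ | ⟨rfl, rfl⟩ | ⟨rfl, rfl⟩ |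
    ⟨rfl, rfl⟩ | ⟨rfl, rfl⟩ | ⟨rfl, rfl⟩ | ⟨rfl, rfl⟩ | ⟨rfl, rfl⟩ | ⟨rfl, rfl⟩
  · exact comm_zu
  · exact comm_zy
  · exact comm_uy
  · exact comm_zs.symm
  · exact comm_us.symm
  · exact comm_zr.symm
  · exact comm_ur.symm
  · exact comm_zt.symm
  · exact comm_ut.symm
  · exact comm_yt.symm
  · exact comm_st.symm
  · exact comm_rt.symm

theorem GS.s_loop : (Path.Homotopic.Quotient.mk (GS.lp1 .y)).trans (.mk (GS.lp1 .s)) =
    (Path.Homotopic.Quotient.mk (GS.lp1 .s)).trans
      ((Path.Homotopic.Quotient.mk (GS.lp1 .y)).trans (.mk (GS.lp1 .y))) := y_s_eq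

theorem GS.r_loop : (Path.Homotopic.Quotient.mk (GS.lp1 .y)).trans (.mk (GS.lp1 .r)) =
    (Path.Homotopic.Quotient.mk (GS.lp1 .r)).trans
      ((Path.Homotopic.Quotient.mk (GS.lp1 .y)).trans (.mk (GS.lp1 .u))) := y_r_eq

theorem GS.loop_induction (P : Path.Homotopic.Quotient (GS.one.xpt ()) (GS.one.xpt ()) → Prop)
    (h_refl : P (.refl _)) (h_lp : ∀ g, P (.mk (GS.lp1 g))) (h_symm : ∀ q, P q → P q.symm)
    (h_trans : ∀ q q', P q → P q' → P (q.trans q')) (q) : P q := by
  have hP : LC P := ⟨h_refl, h_symm, h_trans⟩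
  have : PathConnectedSpace GS.one.T1 := inferInstance
  have : PathConnectedSpace GS.one.T2 := inferInstance
  have : PathConnectedSpace GS.one.V := inferInstance
  have : PathConnectedSpace GS.one.B1 := inferInstance
  have : PathConnectedSpace GS.one.B := inferInstance
  have : PathConnectedSpace GS.one.D := inferInstance
  have : PathConnectedSpace GS.one.toH3.K.T1 := inferInstance
  have : PathConnectedSpace GS.one.toH3.K.T2 := inferInstance
  have : PathConnectedSpace GS.one.E := inferInstance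
  have h0 : ∀ q : Path.Homotopic.Quotient () (),
      P (q.map (F1.comp (ZC.inA (.id Unit) GS.one.z))) := by
    intro q
    induction q using Path.Homotopic.Quotient.ind with | mk γ =>
    have : γ = Path.refl () := by ext
    rw [this, Path.Homotopic.Quotient.mk_refl, PHQ.map_refl]
    exact h_refl
  have h1 := zc_step (a := .id Unit) (b := GS.one.z) (w0 := ()) rfl rfl F1 hP h0 (GS.lp1 .z)
    (fun _ => rfl) (h_lp .z)
  have h2 := zc_step (a := .id _) (b := GS.one.u1) (w0 := ZC.inA _ _ ()) rfl rfl F2 hP h1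
    (GS.lp1 .u) (fun _ => rfl) (h_lp .u)
  have h3 := zc_step (a := .id _) (b := GS.one.y2) (w0 := ZC.inA _ _ (ZC.inA _ _ ())) rfl rfl FV hP
    h2 (GS.lp1 .y) (fun _ => rfl) (h_lp .y)
  have h4 := zc_step (a := .id _) (b := GS.one.sig) (w0 := GS.one.vpt ()) rfl rfl FB1 hP
    h3 (GS.lp1 .s) (fun _ => rfl) (h_lp .s)
  have h5 := zc_step (a := ZC.inA (.id _) GS.one.sig)
    (b := (ZC.inA (.id _) GS.one.sig).comp GS.one.rho) (w0 := GS.one.vpt ()) rfl rfl FB hP
    h4 (GS.lp1 .r) (fun _ => rfl) (h_lp .r)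
  have h6 := zc_step (a := .id _) (b := GS.one.tB) (w0 := GS.one.inB (GS.one.vpt ())) rfl rfl FD hP
    h5 (GS.lp1 .t) (fun _ => rfl) (h_lp .t)
  exact dm_loops (sec GS.one) (rE_sec GS.one) hP h6 q

end Pool.H74
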