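import Pool.Agent.H74.CovX
import Pool.Agent.H74.Loops

/-!
Monodromy of the coverings of `X` in terms of the labels.
-/

open Topology unitInterval Set Pool.H74 Pool.H74.Fam

namespace Pool.H74

namespace GS

noncomputable section

variable {S S' : Type} [TopologicalSpace S] [DiscreteTopology S] [TopologicalSpace S']
  [DiscreteTopology S']

omit [DiscreteTopology S] in
theorem toOne (a : GS S) : HomT a one (.const S ()) :=
  ⟨⟨⟨fun _ => rfl, fun _ => rfl, fun _ => rfl⟩, fun _ => rfl, fun _ => rfl⟩, fun _ => rfl⟩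

theorem one_bij : one.Bij := fun _ => ⟨fun _ _ _ => rfl, fun _ => ⟨(), rfl⟩⟩

theorem two_bij : two.Bij := by
  intro g
  cases g
  · exact Function.bijective_id
  · exact Function.bijective_id
  · exact Function.bijective_id
  · exact Function.bijective_id
  · exact Function.bijective_id
  · exact Function.Involutive.bijective Bool.not_not

theorem int_bij : int.Bij := by
  intro g
  cases g
  · exact Function.bijective_id
  · exact Function.bijective_id
  · exact Function.bijective_id
  · exact Function.bijective_id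
  · exact Function.bijective_id
  · exact (Equiv.addRight (1 : ℤ)).bijective

/-- The projection to the base space. -/
def pr (a : GS S) : C(a.X, one.X) := fX _ a.toOne

omit [DiscreteTopology S] in
theorem pr_xpt (a : GS S) (x : S) : a.pr (a.xpt x) = one.xpt () := rfl

omit [DiscreteTopology S] in
theorem pr_lp (a : GS S) (g : Gn) (x : S) (t : I) : a.pr (a.lp g x t) = lp1 g t := by
  cases g <;> rfl

theorem pr_cov {a : GS S} (ha : a.Bij) : IsCoveringMap a.pr :=
  isCoveringMap_fX ha one_bij _ _

omit [DiscreteTopology S] in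
theorem exists_of_pr (a : GS S) (z : a.X) (hz : a.pr z = one.xpt ()) : ∃ w, z = a.xpt w := by
  obtain ⟨w, -, h⟩ := fX_eq_xpt _ a.toOne z () hz
  exact ⟨w, h⟩

/-- Homotopy classes of loops in the base space. -/
abbrev Q1 : Type := Path.Homotopic.Quotient (one.xpt ()) (one.xpt ())

/-- The vertex labelled `x` as a point of the fibre. -/
def fpt (a : GS S) (x : S) : a.pr ⁻¹' {one.xpt ()} := ⟨a.xpt x, rfl⟩

theorem exists_mon {a : GS S} (ha : a.Bij) (γ : Q1) (x : S) :
    ∃ w, (pr_cov ha).monodromy γ (a.fpt x) = a.fpt w := by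
  obtain ⟨w, hw⟩ := a.exists_of_pr _ ((pr_cov ha).monodromy γ (a.fpt x)).2
  exact ⟨w, Subtype.ext hw⟩

/-- The monodromy action on labels. -/
def mon {a : GS S} (ha : a.Bij) (γ : Q1) (x : S) : S := (exists_mon ha γ x).choose

variable {a : GS S} {b : GS S'} (ha : a.Bij) (hb : b.Bij)

theorem mon_spec (γ : Q1) (x : S) :
    (pr_cov ha).monodromy γ (a.fpt x) = a.fpt (mon ha γ x) := (exists_mon ha γ x).choose_spec

omit [DiscreteTopology S] in
theorem fpt_injective (a : GS S) : Function.Injective a.fpt := fun _ _ h =>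
  a.xpt_injective (congrArg Subtype.val h)

theorem mon_refl (x : S) : mon ha (.refl _) x = x := by
  apply a.fpt_injective
  rw [← mon_spec, (pr_cov ha).monodromy_refl]
  rfl

theorem mon_trans (γ δ : Q1) (x : S) : mon ha (γ.trans δ) x = mon ha δ (mon ha γ x) := by
  apply a.fpt_injective
  rw [← mon_spec, ← mon_spec, (pr_cov ha).monodromy_trans_apply, mon_spec]

theorem mon_eq_of_path {x y : S} (Γ : Path (a.xpt x) (a.xpt y)) (γ : Path (one.xpt ()) (one.xpt ()))
    (h : ∀ s, a.pr (Γ s) = γ s) : mon ha (.mk γ) x = y := by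
  apply a.fpt_injective
  rw [← mon_spec]
  refine (pr_cov ha).monodromy_eq_of_map_eq (ex := a.fpt x) (ey := a.fpt y) (.mk Γ) ?_
  refine congrArg Path.Homotopic.Quotient.mk ?_
  ext s
  exact h s

theorem mon_lp (g : Gn) (x : S) : mon ha (.mk (lp1 g)) x = a.act g x :=
  mon_eq_of_path ha (a.lp g x) _ (a.pr_lp g x)

theorem mon_symm_left (γ : Q1) (x : S) : mon ha γ.symm (mon ha γ x) = x := by
  rw [← mon_trans]
  have : γ.trans γ.symm = .refl _ := by
    induction γ using Path.Homotopic.Quotient.ind with | mk γ =>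
    exact Path.Homotopic.Quotient.trans_symm _
  rw [this, mon_refl]

theorem mon_symm_right (γ : Q1) (x : S) : mon ha γ (mon ha γ.symm x) = x := by
  rw [← mon_trans]
  have : γ.symm.trans γ = .refl _ := by
    induction γ using Path.Homotopic.Quotient.ind with | mk γ =>
    exact Path.Homotopic.Quotient.symm_trans _
  rw [this, mon_refl]

/-- Naturality of the monodromy. -/
theorem mon_map {f : C(S, S')} (h : HomT a b f) (γ : Q1) (x : S) :
    f (mon ha γ x) = mon hb γ (f x) := by
  revert x
  induction γ using loop_induction with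
  | h_refl => intro x; rw [mon_refl, mon_refl]
  | h_lp g =>
    intro x
    rw [mon_lp, mon_lp]
    cases g
    · exact h.g.z x
    · exact h.g.u x
    · exact h.g.y x
    · exact h.g.s x
    · exact h.g.r x
    · exact h.t x
  | h_symm q hq =>
    intro x
    have h1 := hq (mon ha q.symm x)
    rw [mon_symm_right] at h1
    rw [h1, mon_symm_left]
  | h_trans q q' hq hq' =>
    intro x
    rw [mon_trans, mon_trans, hq', hq]

/-- Lifting of loops to loops. -/
theorem lift_iff (γ : Path (one.xpt ()) (one.xpt ())) (x : S) :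
    (∃ γ' : Path (a.xpt x) (a.xpt x), ∀ s, a.pr (γ' s) = γ s) ↔ mon ha (.mk γ) x = x := by
  constructor
  · rintro ⟨γ', h⟩
    exact mon_eq_of_path ha γ' γ h
  · intro h
    have h0 : γ 0 = a.pr (a.xpt x) := γ.source
    let Γ := (pr_cov ha).liftPath γ (a.xpt x) h0
    have h1 : Γ 1 = a.xpt x := by
      have := congrArg Subtype.val (mon_spec ha (.mk γ) x)
      rw [h] at this
      exact this
    exact ⟨⟨Γ, (pr_cov ha).liftPath_zero .., h1⟩,
      fun s => congrFun ((pr_cov ha).liftPath_lifts γ (a.xpt x) h0) s⟩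

end

end GS

end Pool.H74
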