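import Pool.Agent.H74.PushA
import Pool.Agent.H74.Detect

/-!
The infinite cyclic cover is not homotopy equivalent to a complex of finite type.
-/

open Topology unitInterval Set Pool.H74 Pool.H74.Fam

namespace Pool.H74

theorem isCompact_skeletonLT {Y : Type} [TopologicalSpace Y] [T2Space Y]
    [Topology.CWComplex (Set.univ : Set Y)] [Topology.RelCWComplex.FiniteType (Set.univ : Set Y)]
    (n : ℕ) : IsCompact (Topology.RelCWComplex.skeletonLT (Set.univ : Set Y) n : Set Y) := by
  induction n with
  | zero =>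
    have : (Topology.RelCWComplex.skeletonLT (Set.univ : Set Y) ((0 : ℕ) : ℕ∞) : Set Y) = ∅ :=
      Topology.CWComplex.skeletonLT_zero_eq_empty
    rw [this]
    exact isCompact_empty
  | succ n ih =>
    have h := Topology.RelCWComplex.skeletonLT_union_iUnion_closedCell_eq_skeletonLT_succ
      (C := (Set.univ : Set Y)) n
    have h' : (Topology.RelCWComplex.skeletonLT (Set.univ : Set Y) ((n + 1 : ℕ) : ℕ∞) : Set Y) =
        (Topology.RelCWComplex.skeletonLT (Set.univ : Set Y) n : Set Y) ∪
          ⋃ (j : Topology.RelCWComplex.cell (Set.univ : Set Y) n),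
            Topology.RelCWComplex.closedCell n j := by
      rw [h]
      rfl
    rw [h']
    have hft : Topology.RelCWComplex.FiniteType (Set.univ : Set Y) := inferInstance
    have := hft.finite_cell n
    exact ih.union (isCompact_iUnion fun j => Topology.RelCWComplex.isCompact_closedCell)

theorem GS.not_finiteType_of (cov : IsCoveringMap (GS.fX shJ shJ_hom)) (Y : Type)
    [TopologicalSpace Y] [T2Space Y] [Topology.CWComplex (Set.univ : Set Y)]
    [Topology.RelCWComplex.FiniteType (Set.univ : Set Y)]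
    (e : ContinuousMap.HomotopyEquiv GS.int.X Y) : False := by
  obtain ⟨H⟩ := e.left_inv
  have hc : IsCompact (e.invFun '' (Topology.RelCWComplex.skeletonLT (Set.univ : Set Y) 3 : Set Y)) :=
    (isCompact_skeletonLT 3).image e.invFun.continuous
  obtain ⟨j, -, hj⟩ := GS.exists_disjoint_esc _ hc 0
  let g : C(KC × I, GS.int.X) := GS.int.fl j
  have g0 : ∀ k k', g (k, 0) = g (k', 0) := GS.int.fl_zero j
  have g1 : ∀ k k', g (k, 1) = g (k', 1) := GS.int.fl_one j
  obtain ⟨F, F1, Fa, Fb, F0⟩ := exists_push (e.toFun.comp g) (fun k => congrArg e.toFun (g0 k 0))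
    (fun k => congrArg e.toFun (g1 k 0))
  let P : C((KC × I) × I, GS.int.X) := e.invFun.comp F
  let R : C((KC × I) × I, GS.int.X) := H.toContinuousMap.comp ⟨fun q => (q.2, g q.1), by fun_prop⟩
  have hR0 : ∀ p, R (p, 0) = e.invFun (e.toFun (g p)) := fun p => H.apply_zero (g p)
  have hR1 : ∀ p, R (p, 1) = g p := fun p => H.apply_one (g p)
  have hPR : ∀ p, P (p, 1) = R (p, 0) := fun p => by
    rw [hR0]
    exact congrArg e.invFun (F1 p)
  have ends : ∀ (p p' : KC × I), (∀ s, P (p, s) = P (p', s)) → (∀ s, R (p, s) = R (p', s)) →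
      ∀ s, cat P R hPR (p, s) = cat P R hPR (p', s) := by
    intro p p' h1 h2 s
    by_cases hs : (s : ℝ) ≤ 1 / 2
    · rw [cat_of_le hs, cat_of_le hs, h1]
    · rw [cat_of_gt hs, cat_of_gt hs, h2]
  refine GS.no_escape_of cov j (cat P R hPR) ?_ ?_ ?_ ?_
  · intro k τ
    rw [cat_one, hR1]
    rfl
  · intro k k' s
    refine ends _ _ ?_ ?_ s
    · intro s
      exact congrArg e.invFun ((Fa k s).trans (Fa k' s).symm)
    · intro s
      change H (s, g (k, 0)) = H (s, g (k', 0))
      rw [g0 k k']
  · intro k k' s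
    refine ends _ _ ?_ ?_ s
    · intro s
      exact congrArg e.invFun ((Fb k s).trans (Fb k' s).symm)
    · intro s
      change H (s, g (k, 1)) = H (s, g (k', 1))
      rw [g1 k k']
  · intro k τ
    rw [cat_zero]
    exact fun hm => Set.disjoint_left.1 hj ⟨_, F0 (k, τ), rfl⟩ hm

end Pool.H74
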