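import Pool.Agent.H74.Mono
import Pool.Agent.H74.Grp

/-!
The homomorphism to the integers and its kernel.
-/

open Topology unitInterval Set Pool.H74 Pool.H74.Fam

namespace Pool.H74

namespace GS

noncomputable section

theorem int_shift (m : ℤ) : HomT int int ⟨fun n => n + m, continuous_of_discreteTopology⟩ :=
  ⟨⟨⟨fun _ => rfl, fun _ => rfl, fun _ => rfl⟩, fun _ => rfl, fun _ => rfl⟩,
    fun x => add_right_comm x 1 m⟩

theorem mon_int_add (γ : Q1) (n m : ℤ) : mon int_bij γ (n + m) = mon int_bij γ n + m :=
  (mon_map int_bij int_bij (int_shift m) γ n).symm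

theorem mon_int (γ : Q1) (n : ℤ) : mon int_bij γ n = mon int_bij γ 0 + n := by
  rw [← mon_int_add, zero_add]

/-- The fundamental group of the base space. -/
abbrev P1 : Type := FundamentalGroup one.X (one.xpt ())

/-- The homomorphism to the integers. -/
def phi : P1 →* Multiplicative ℤ where
  toFun γ := .ofAdd (mon int_bij γ 0)
  map_one' := congrArg _ (mon_refl int_bij 0)
  map_mul' γ γ' := by
    change Multiplicative.ofAdd (mon int_bij (Path.Homotopic.Quotient.trans γ' γ) 0) =
      .ofAdd (mon int_bij γ 0 + mon int_bij γ' 0)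
    rw [mon_trans, ← mon_int_add, zero_add]

theorem phi_def (γ : P1) : phi γ = .ofAdd (mon int_bij γ 0) := rfl

/-- The class of a generating loop. -/
def lc (g : Gn) : P1 := Path.Homotopic.Quotient.mk (lp1 g)

theorem phi_lc (g : Gn) : phi (lc g) = .ofAdd (int.act g 0) :=
  congrArg Multiplicative.ofAdd (mon_lp int_bij g 0)

theorem phi_lc_t : phi (lc .t) = .ofAdd 1 := phi_lc .t

theorem phi_lc_ne (g : Gn) (hg : g ≠ .t) : phi (lc g) = 1 := by
  rw [phi_lc]
  cases g <;> first | rfl | exact (hg rfl).elim

theorem phi_surjective : Function.Surjective phi := by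
  intro n
  refine ⟨lc .t ^ (Multiplicative.toAdd n), ?_⟩
  rw [map_zpow, phi_lc_t, ← ofAdd_zsmul]
  simp

theorem exists_psi : ∃ ψ : P1 →* GG, ∀ g, ψ (lc g) = GG.gen g := by
  let _ : TopologicalSpace GG := ⊥
  have : DiscreteTopology GG := ⟨rfl⟩
  obtain ⟨a, ha, hact⟩ := exists_GS_GG
  have hR : ∀ w : GG, HomT a a ⟨fun x => x * w, continuous_of_discreteTopology⟩ := by
    intro w
    refine ⟨⟨⟨?_, ?_, ?_⟩, ?_, ?_⟩, ?_⟩
    · intro x
      have h1 := hact .z x
      have h2 := hact .z (x * w)
      change a.z x * w = a.z (x * w)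
      change a.z x = _ at h1
      change a.z (x * w) = _ at h2
      rw [h1, h2, mul_assoc]
    · intro x
      have h1 := hact .u x
      have h2 := hact .u (x * w)
      change a.u x * w = a.u (x * w)
      change a.u x = _ at h1
      change a.u (x * w) = _ at h2
      rw [h1, h2, mul_assoc]
    · intro x
      have h1 := hact .y x
      have h2 := hact .y (x * w)
      change a.y x * w = a.y (x * w)
      change a.y x = _ at h1
      change a.y (x * w) = _ at h2
      rw [h1, h2, mul_assoc]
    · intro x
      have h1 := hact .s x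
      have h2 := hact .s (x * w)
      change a.s x * w = a.s (x * w)
      change a.s x = _ at h1
      change a.s (x * w) = _ at h2
      rw [h1, h2, mul_assoc]
    · intro x
      have h1 := hact .r x
      have h2 := hact .r (x * w)
      change a.r x * w = a.r (x * w)
      change a.r x = _ at h1
      change a.r (x * w) = _ at h2
      rw [h1, h2, mul_assoc]
    · intro x
      have h1 := hact .t x
      have h2 := hact .t (x * w)
      change a.t x * w = a.t (x * w)
      change a.t x = _ at h1
      change a.t (x * w) = _ at h2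
      rw [h1, h2, mul_assoc]
  have hmul : ∀ (γ : Q1) (x w : GG), mon ha γ (x * w) = mon ha γ x * w := fun γ x w =>
    (mon_map ha ha (hR w) γ x).symm
  refine ⟨⟨⟨fun γ => mon ha γ 1, mon_refl ha 1⟩, ?_⟩, ?_⟩
  · intro γ γ'
    change mon ha (Path.Homotopic.Quotient.trans γ' γ) 1 = mon ha γ 1 * mon ha γ' 1
    rw [mon_trans, ← hmul, one_mul]
  · intro g
    change mon ha (Path.Homotopic.Quotient.mk (lp1 g)) 1 = _
    rw [mon_lp, hact, mul_one]

theorem gen_top (H : Subgroup P1) (hH : ∀ g, lc g ∈ H) : H = ⊤ := by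
  rw [eq_top_iff]
  intro q _
  exact loop_induction (fun q => (show P1 from q) ∈ H) H.one_mem hH
    (fun q hq => H.inv_mem hq) (fun q q' hq hq' => H.mul_mem hq' hq) q

theorem phi_ker_fp : ∃ (n : ℕ) (R : Finset (FreeGroup (Fin n))),
    Nonempty (↥phi.ker ≃* PresentedGroup (R : Set (FreeGroup (Fin n)))) := by
  obtain ⟨ψ, hψ⟩ := exists_psi
  refine ker_fp lc phi ψ gen_top ?_ ?_ ?_ phi_lc_ne phi_lc_t hψ
  · intro g g' h
    exact (commute_loops g g' h).symm
  · exact s_loop
  · exact r_loop

end

end GS

end Pool.H74
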