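import Pool.Agent.H74.PushA1

/-!
A map from a compact Hausdorff space with the approximation property (such as the 2-sphere) into a
CW complex is homotopic to one into the 2-skeleton.
-/

open Topology unitInterval Set Metric Filter

namespace Pool.H74.PushA

open Topology.CWComplex

/-- The approximation property. -/
def Approx (A : Type*) [TopologicalSpace A] : Prop :=
  ∀ (n : ℕ), 3 ≤ n → ∀ (g : C(A, Fin n → ℝ)) (ε : ℝ), 0 < ε →
      ∃ p : C(A, Fin n → ℝ), (∀ x, dist (p x) (g x) < ε) ∧ Dense (Set.range p)ᶜ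

variable {Y : Type*} [TopologicalSpace Y] [T2Space Y] [Topology.CWComplex (Set.univ : Set Y)]

/-- A compact set meets finitely many open cells. -/
theorem finite_cells {K : Set Y} (hK : IsCompact K) :
    {e : Σ n, cell (Set.univ : Set Y) n |
      (K ∩ openCell (C := (Set.univ : Set Y)) e.1 e.2).Nonempty}.Finite := by
  classical
  set P := {e : Σ n, cell (Set.univ : Set Y) n |
      (K ∩ openCell (C := (Set.univ : Set Y)) e.1 e.2).Nonempty} with hP
  by_contra hinf
  have hinf : P.Infinite := hinf
  have hch : ∀ e : P, ∃ y, y ∈ K ∩ openCell (C := (Set.univ : Set Y)) e.1.1 e.1.2 := fun e => e.2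
  choose p hp using hch
  have hpinj : Function.Injective p := by
    intro e e' he
    by_contra hne
    have hd := disjoint_openCell_of_ne (C := (Set.univ : Set Y)) (i := e.1.2) (j := e'.1.2)
      (n := e.1.1) (m := e'.1.1) (fun h => hne (Subtype.ext h))
    exact Set.disjoint_left.1 hd (hp e).2 (he ▸ (hp e').2)
  have hclosed : ∀ Q : Set P, IsClosed (p '' Q) := by
    intro Q
    rw [Topology.CWComplex.closed (Set.univ : Set Y) _ (subset_univ _)]
    intro n j
    apply Set.Finite.isClosed
    obtain ⟨J, hJ⟩ := Topology.CWComplex.cellFrontier_subset_finite_openCell (C := (Set.univ : Set Y)) n j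
    -- the finite set of cells
    set F : Set (Σ n, cell (Set.univ : Set Y) n) :=
      insert ⟨n, j⟩ (⋃ m ∈ Finset.range n, (fun i => (⟨m, i⟩ : Σ n, cell (Set.univ : Set Y) n)) '' (J m : Set (cell (Set.univ : Set Y) m))) with hF
    have hFfin : F.Finite := by
      refine Set.Finite.insert _ ?_
      refine Set.Finite.biUnion (Finset.finite_toSet _) (fun m _ => ?_)
      exact (Finset.finite_toSet _).image _
    have hsub : p '' Q ∩ closedCell (C := (Set.univ : Set Y)) n j ⊆ p '' {e : P | e.1 ∈ F} := by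
      rintro y ⟨⟨e, he, rfl⟩, hy⟩
      refine ⟨e, ?_, rfl⟩
      rw [← cellFrontier_union_openCell_eq_closedCell] at hy
      have hpe := (hp e).2
      rcases hy with hy | hy
      · have := hJ hy
        simp only [mem_iUnion, exists_prop] at this
        obtain ⟨m, hm, i, hi, hyi⟩ := this
        have heq : e.1 = ⟨m, i⟩ := by
          by_contra hne
          have hd := disjoint_openCell_of_ne (C := (Set.univ : Set Y)) (i := e.1.2) (j := i)
            (n := e.1.1) (m := m) hne
          exact Set.disjoint_left.1 hd hpe hyi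
        show e.1 ∈ F
        rw [heq]
        right
        simp only [mem_iUnion, exists_prop]
        exact ⟨m, by simpa using hm, i, hi, rfl⟩
      · have heq : e.1 = ⟨n, j⟩ := by
          by_contra hne
          have hd := disjoint_openCell_of_ne (C := (Set.univ : Set Y)) (i := e.1.2) (j := j)
            (n := e.1.1) (m := n) hne
          exact Set.disjoint_left.1 hd hpe hy
        show e.1 ∈ F
        rw [heq]
        exact Set.mem_insert _ _
    refine Set.Finite.subset ?_ hsub
    refine Set.Finite.image _ ?_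
    exact hFfin.preimage Subtype.val_injective.injOn
  have hrange : (Set.range p).Infinite := by
    have : Infinite P := hinf.to_subtype
    exact Set.infinite_range_of_injective hpinj
  have hsubK : Set.range p ⊆ K := by
    rintro _ ⟨e, rfl⟩
    exact (hp e).1
  obtain ⟨y, hyK, hacc⟩ := hrange.exists_accPt_of_subset_isCompact hK hsubK
  rw [accPt_principal_iff_clusterPt, ← mem_closure_iff_clusterPt] at hacc
  have h1 : Set.range p \ {y} = p '' {e | p e ≠ y} := by
    ext z
    constructor
    · rintro ⟨⟨e, rfl⟩, hz⟩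
      exact ⟨e, hz, rfl⟩
    · rintro ⟨e, he, rfl⟩
      exact ⟨⟨e, rfl⟩, he⟩
  rw [h1, (hclosed _).closure_eq] at hacc
  obtain ⟨e, he, hey⟩ := hacc
  exact he hey

omit [T2Space Y] in
theorem target_eq (N : ℕ) (e : cell (Set.univ : Set Y) N) :
    (map (C := (Set.univ : Set Y)) N e).target = openCell (C := (Set.univ : Set Y)) N e := by
  rw [openCell, ← source_eq (C := (Set.univ : Set Y)) N e, PartialEquiv.image_source_eq_target]

/-- Removing one cell. -/
theorem remove_cell {A : Type*} [TopologicalSpace A] [CompactSpace A] [T2Space A]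
    (hA : Approx A) (N : ℕ) (hN : 3 ≤ N) (F : Finset (cell (Set.univ : Set Y) N))
    (e : cell (Set.univ : Set Y) N) (f : C(A, Y))
    (hf : ∀ x, f x ∈ (skeletonLT (Set.univ : Set Y) N : Set Y) ∨
      ∃ e' : cell (Set.univ : Set Y) N, (e' = e ∨ e' ∈ F) ∧ f x ∈ openCell (C := (Set.univ : Set Y)) N e') :
    ∃ f' : C(A, Y), ContinuousMap.Homotopic f f' ∧
      ∀ x, f' x ∈ (skeletonLT (Set.univ : Set Y) N : Set Y) ∨
      ∃ e' : cell (Set.univ : Set Y) N, e' ∈ F ∧ f' x ∈ openCell (C := (Set.univ : Set Y)) N e' := by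
  classical
  by_cases heF : e ∈ F
  · refine ⟨f, ContinuousMap.Homotopic.refl f, fun x => ?_⟩
    rcases hf x with h | ⟨e', h1, h2⟩
    · exact Or.inl h
    · rcases h1 with rfl | h1
      · exact Or.inr ⟨_, heF, h2⟩
      · exact Or.inr ⟨_, h1, h2⟩
  have htgt := target_eq (Y := Y) N e
  have hopen : IsOpen (f ⁻¹' (map (C := (Set.univ : Set Y)) N e).target) := by
    rw [htgt]
    have hc : IsClosed ((skeletonLT (Set.univ : Set Y) N : Set Y) ∪
        ⋃ e' ∈ F, closedCell (C := (Set.univ : Set Y)) N e') := by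
      refine (skeletonLT (Set.univ : Set Y) N).closed.union ?_
      exact Set.Finite.isClosed_biUnion (Finset.finite_toSet F) (fun _ _ => isClosed_closedCell)
    have heq : f ⁻¹' (openCell (C := (Set.univ : Set Y)) N e) =
        (f ⁻¹' ((skeletonLT (Set.univ : Set Y) N : Set Y) ∪
        ⋃ e' ∈ F, closedCell (C := (Set.univ : Set Y)) N e'))ᶜ := by
      ext x
      simp only [mem_preimage, mem_compl_iff, mem_union, mem_iUnion, exists_prop, not_or, not_exists,
        not_and]
      constructor
      · intro hx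
        have hns : f x ∉ (skeletonLT (Set.univ : Set Y) N : Set Y) := fun hs =>
          Set.disjoint_left.1 (disjoint_skeletonLT_openCell (C := (Set.univ : Set Y)) (j := e) le_rfl) hs hx
        refine ⟨hns, ?_⟩
        intro e' he' hx'
        rw [← cellFrontier_union_openCell_eq_closedCell] at hx'
        rcases hx' with hx' | hx'
        · exact hns (cellFrontier_subset_skeletonLT N e' hx')
        · have hne : e ≠ e' := fun h => heF (h ▸ he')
          have hd := disjoint_openCell_of_ne (C := (Set.univ : Set Y)) (i := e) (j := e')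
            (n := N) (m := N) (by simpa using hne)
          exact Set.disjoint_left.1 hd hx hx'
      · rintro ⟨h1, h2⟩
        rcases hf x with h | ⟨e', h3, h4⟩
        · exact absurd h h1
        · rcases h3 with rfl | h3
          · exact h4
          · exact absurd (openCell_subset_closedCell _ _ h4) (h2 e' h3)
    rw [heq]
    exact (hc.preimage f.continuous).isOpen_compl
  obtain ⟨f₁, hh₁, hoff₁, hon₁, q, hq, hqf⟩ := miss_point (hA N hN)
    (map (C := (Set.univ : Set Y)) N e) (source_eq N e) (continuousOn N e) (continuousOn_symm N e) f hopen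
  have hpre : f₁ ⁻¹' (map (C := (Set.univ : Set Y)) N e).target =
      f ⁻¹' (map (C := (Set.univ : Set Y)) N e).target := by
    ext x
    simp only [mem_preimage]
    constructor
    · intro hx
      by_contra hcon
      rw [hoff₁ x hcon] at hx
      exact hcon hx
    · exact hon₁ x
  obtain ⟨f₂, hh₂, hoff₂, hon₂⟩ := radial_push (map (C := (Set.univ : Set Y)) N e) (source_eq N e)
    (continuousOn N e) (continuousOn_symm N e) f₁ (by rw [hpre]; exact hopen) q hq hqf
  refine ⟨f₂, hh₁.trans hh₂, fun x => ?_⟩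
  by_cases hx : f x ∈ (map (C := (Set.univ : Set Y)) N e).target
  · left
    exact cellFrontier_subset_skeletonLT N e (hon₂ x (hon₁ x hx))
  · have hx₁ : f₁ x = f x := hoff₁ x hx
    have hx₂ : f₂ x = f x := by
      rw [hoff₂ x (by rw [hx₁]; exact hx), hx₁]
    rw [hx₂]
    rcases hf x with h | ⟨e', h1, h2⟩
    · exact Or.inl h
    · rcases h1 with rfl | h1
      · exact absurd (htgt ▸ h2) hx
      · exact Or.inr ⟨_, h1, h2⟩

theorem descend {A : Type*} [TopologicalSpace A] [CompactSpace A] [T2Space A]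
    (hA : Approx A) (N : ℕ) (hN : 3 ≤ N) (f : C(A, Y))
    (hf : ∀ x, f x ∈ (skeletonLT (Set.univ : Set Y) ((N + 1 : ℕ) : ℕ∞) : Set Y)) :
    ∃ f' : C(A, Y), ContinuousMap.Homotopic f f' ∧
      ∀ x, f' x ∈ (skeletonLT (Set.univ : Set Y) N : Set Y) := by
  classical
  have hfin := finite_cells (isCompact_range f.continuous)
  set P := {e : Σ n, cell (Set.univ : Set Y) n |
      (Set.range f ∩ openCell (C := (Set.univ : Set Y)) e.1 e.2).Nonempty} with hP
  have hPN : {e : cell (Set.univ : Set Y) N | (⟨N, e⟩ : Σ n, cell (Set.univ : Set Y) n) ∈ P}.Finite := by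
    refine hfin.preimage (f := fun e => (⟨N, e⟩ : Σ n, cell (Set.univ : Set Y) n)) ?_
    intro a _ b _ hab
    simpa using hab
  have key : ∀ (F : Finset (cell (Set.univ : Set Y) N)) (f : C(A, Y)),
      (∀ x, f x ∈ (skeletonLT (Set.univ : Set Y) N : Set Y) ∨
      ∃ e' : cell (Set.univ : Set Y) N, e' ∈ F ∧ f x ∈ openCell (C := (Set.univ : Set Y)) N e') →
      ∃ f' : C(A, Y), ContinuousMap.Homotopic f f' ∧
        ∀ x, f' x ∈ (skeletonLT (Set.univ : Set Y) N : Set Y) := by
    intro F
    induction F using Finset.induction_on with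
    | empty =>
      intro f hf
      refine ⟨f, ContinuousMap.Homotopic.refl f, fun x => ?_⟩
      rcases hf x with h | ⟨e', h1, h2⟩
      · exact h
      · exact absurd h1 (Finset.notMem_empty _)
    | insert e F heF ih =>
      intro f hf
      obtain ⟨f₁, hh₁, hf₁⟩ := remove_cell hA N hN F e f (fun x => by
        rcases hf x with h | ⟨e', h1, h2⟩
        · exact Or.inl h
        · exact Or.inr ⟨e', Finset.mem_insert.1 h1, h2⟩)
      obtain ⟨f₂, hh₂, hf₂⟩ := ih f₁ hf₁
      exact ⟨f₂, hh₁.trans hh₂, hf₂⟩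
  refine key hPN.toFinset f (fun x => ?_)
  have hx := hf x
  rw [SetLike.mem_coe, Topology.CWComplex.mem_skeletonLT_iff] at hx
  obtain ⟨m, hm, j, hj⟩ := hx
  have hm' : m < N + 1 := by exact_mod_cast hm
  rcases Nat.lt_succ_iff_lt_or_eq.1 hm' with h | h
  · left
    rw [SetLike.mem_coe, Topology.CWComplex.mem_skeletonLT_iff]
    exact ⟨m, by exact_mod_cast h, j, hj⟩
  · subst h
    right
    refine ⟨j, ?_, hj⟩
    rw [Set.Finite.mem_toFinset]
    exact ⟨f x, ⟨x, rfl⟩, hj⟩

theorem push {A : Type*} [TopologicalSpace A] [CompactSpace A] [T2Space A]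
    (hA : Approx A) (f : C(A, Y)) :
    ∃ f' : C(A, Y), ContinuousMap.Homotopic f f' ∧
      ∀ x, f' x ∈ (skeletonLT (Set.univ : Set Y) 3 : Set Y) := by
  classical
  have hfin := finite_cells (isCompact_range f.continuous)
  have hM : ∃ M : ℕ, ∀ x, f x ∈ (skeletonLT (Set.univ : Set Y) ((M + 3 : ℕ) : ℕ∞) : Set Y) := by
    obtain ⟨M, hM⟩ := (hfin.image Sigma.fst).bddAbove
    refine ⟨M, fun x => ?_⟩
    have hx : f x ∈ (Set.univ : Set Y) := mem_univ _
    rw [← Topology.CWComplex.iUnion_openCell_eq_complex (C := (Set.univ : Set Y))] at hx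
    simp only [mem_iUnion] at hx
    obtain ⟨n, j, hj⟩ := hx
    have hn : n ≤ M := hM ⟨⟨n, j⟩, ⟨f x, ⟨x, rfl⟩, hj⟩, rfl⟩
    rw [SetLike.mem_coe, Topology.CWComplex.mem_skeletonLT_iff]
    exact ⟨n, by exact_mod_cast (by omega : n < M + 3), j, hj⟩
  obtain ⟨M, hM⟩ := hM
  have key : ∀ (M : ℕ) (f : C(A, Y)),
      (∀ x, f x ∈ (skeletonLT (Set.univ : Set Y) ((M + 3 : ℕ) : ℕ∞) : Set Y)) →
      ∃ f' : C(A, Y), ContinuousMap.Homotopic f f' ∧
        ∀ x, f' x ∈ (skeletonLT (Set.univ : Set Y) 3 : Set Y) := by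
    intro M
    induction M with
    | zero =>
      intro f hf
      exact ⟨f, ContinuousMap.Homotopic.refl f, fun x => by simpa using hf x⟩
    | succ M ih =>
      intro f hf
      obtain ⟨f₁, hh₁, hf₁⟩ := descend hA (M + 3) (by omega) f (fun x => by
        have := hf x
        rwa [show M + 1 + 3 = M + 3 + 1 by omega] at this)
      obtain ⟨f₂, hh₂, hf₂⟩ := ih f₁ hf₁
      exact ⟨f₂, hh₁.trans hh₂, hf₂⟩
  exact key M f hM

end Pool.H74.PushA
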