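import Mathlib

/-!
Approximation of maps `S² → ℝⁿ` (`n ≥ 3`) by maps whose range has dense complement.
-/

open Topology unitInterval Set Metric

namespace Pool.H74

abbrev S2 : Type := Metric.sphere (0 : EuclideanSpace ℝ (Fin 3)) 1

namespace PushB

theorem mem_S2_iff (v : EuclideanSpace ℝ (Fin 3)) :
    v ∈ Metric.sphere (0 : EuclideanSpace ℝ (Fin 3)) 1 ↔ v 0 ^ 2 + v 1 ^ 2 + v 2 ^ 2 = 1 := by
  rw [mem_sphere_zero_iff_norm, EuclideanSpace.norm_eq, Real.sqrt_eq_one, Fin.sum_univ_three]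
  simp

/-- Spherical coordinates. -/
noncomputable def param (z : ℝ × ℝ) : S2 :=
  ⟨!₂[Real.sin z.2 * Real.cos z.1, Real.sin z.2 * Real.sin z.1, Real.cos z.2], by
    rw [mem_S2_iff]
    have h1 := Real.sin_sq_add_cos_sq z.1
    have h2 := Real.sin_sq_add_cos_sq z.2
    simp
    linear_combination Real.sin z.2 ^ 2 * h1 + h2⟩

theorem param_surjective : Function.Surjective param := by
  rintro ⟨v, hv⟩
  have hv' := (mem_S2_iff v).1 hv
  set w : ℂ := ⟨v 0, v 1⟩ with hw
  have h2 : -1 ≤ v 2 ∧ v 2 ≤ 1 := by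
    rw [← abs_le, ← sq_le_one_iff_abs_le_one]
    nlinarith [sq_nonneg (v 0), sq_nonneg (v 1)]
  have hcos : Real.cos (Real.arccos (v 2)) = v 2 := Real.cos_arccos h2.1 h2.2
  have hsin : Real.sin (Real.arccos (v 2)) = ‖w‖ := by
    rw [Real.sin_arccos, Complex.norm_def, Complex.normSq_apply]
    congr 1
    simp only [hw]
    linarith
  refine ⟨(Complex.arg w, Real.arccos (v 2)), ?_⟩
  apply Subtype.ext
  ext i
  fin_cases i
  · simp [param, hsin, Complex.norm_mul_cos_arg, hw]
  · simp [param, hsin, Complex.norm_mul_sin_arg, hw]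
  · simp [param, hcos]

/-- The subalgebra of functions that are `C¹` in spherical coordinates. -/
noncomputable def alg : Subalgebra ℝ C(S2, ℝ) where
  carrier := {a | ContDiff ℝ 1 (fun z => a (param z))}
  mul_mem' {a b} ha hb := by
    have ha' : ContDiff ℝ 1 (fun z => a (param z)) := ha
    have hb' : ContDiff ℝ 1 (fun z => b (param z)) := hb
    exact ha'.mul hb'
  add_mem' {a b} ha hb := by
    have ha' : ContDiff ℝ 1 (fun z => a (param z)) := ha
    have hb' : ContDiff ℝ 1 (fun z => b (param z)) := hb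
    exact ha'.add hb'
  algebraMap_mem' r := by
    show ContDiff ℝ 1 (fun z => (algebraMap ℝ C(S2, ℝ) r) (param z))
    exact contDiff_const

theorem alg_separates : alg.SeparatesPoints := by
  intro x y hxy
  have : ∃ i, x.1 i ≠ y.1 i := by
    by_contra hcon
    push Not at hcon
    apply hxy
    apply Subtype.ext
    ext i
    exact hcon i
  obtain ⟨i, hi⟩ := this
  have hc : Continuous (fun v : S2 => v.1 i) := by fun_prop
  refine ⟨fun v => v.1 i, ⟨⟨fun v => v.1 i, hc⟩, ?_, rfl⟩, hi⟩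
  show ContDiff ℝ 1 (fun z => (param z).1 i)
  fin_cases i
  · simp only [param]
    simp
    fun_prop
  · simp only [param]
    simp
    fun_prop
  · simp only [param]
    simp
    fun_prop

end PushB

theorem exists_approx (n : ℕ) (hn : 3 ≤ n) (g : C(S2, Fin n → ℝ)) (ε : ℝ) (hε : 0 < ε) :
    ∃ p : C(S2, Fin n → ℝ), (∀ x, dist (p x) (g x) < ε) ∧ Dense (Set.range p)ᶜ := by
  have h1 : ∀ i : Fin n, ∃ a : C(S2, ℝ), a ∈ PushB.alg ∧ ∀ x, ‖a x - g x i‖ < ε := by
    intro i
    obtain ⟨a, ha⟩ := ContinuousMap.exists_mem_subalgebra_near_continuousMap_of_separatesPoints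
      PushB.alg PushB.alg_separates (⟨fun x => g x i, by fun_prop⟩ : C(S2, ℝ)) ε hε
    refine ⟨a.1, a.2, fun x => ?_⟩
    rw [ContinuousMap.norm_lt_iff _ hε] at ha
    exact ha x
  choose a ha using h1
  refine ⟨⟨fun x i => a i x, by fun_prop⟩, ?_, ?_⟩
  · intro x
    rw [dist_pi_lt_iff hε]
    intro i
    rw [dist_eq_norm]
    exact (ha i).2 x
  · have hsm : ContDiff ℝ 1 (fun z : ℝ × ℝ => fun i : Fin n => a i (PushB.param z)) := by
      rw [contDiff_pi]
      intro i
      exact (ha i).1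
    have hd := hsm.dense_compl_range_of_finrank_lt_finrank (by simp; omega)
    refine hd.mono ?_
    apply compl_subset_compl.2
    rintro _ ⟨x, rfl⟩
    obtain ⟨z, rfl⟩ := PushB.param_surjective x
    exact ⟨z, rfl⟩

end Pool.H74
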