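import Pool.Agent.H74.Spaces
import Pool.Agent.H74.PushB

/-!
The 2-sphere as a quotient of a cylinder.
-/

open Topology unitInterval Set Metric

namespace Pool.H74

namespace PushC

/-- The quotient map. -/
noncomputable def q (p : KC × I) : S2 :=
  ⟨!₂[Real.sin (Real.pi * p.2) * ((AddCircle.toCircle p.1 : Circle) : ℂ).re,
      Real.sin (Real.pi * p.2) * ((AddCircle.toCircle p.1 : Circle) : ℂ).im,
      Real.cos (Real.pi * p.2)], by
    rw [PushB.mem_S2_iff]
    have h1 : ((AddCircle.toCircle p.1 : Circle) : ℂ).re ^ 2 +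
        ((AddCircle.toCircle p.1 : Circle) : ℂ).im ^ 2 = 1 := by
      have h := Circle.normSq_coe (AddCircle.toCircle p.1)
      rw [Complex.normSq_apply] at h
      linarith
    have h2 := Real.sin_sq_add_cos_sq (Real.pi * p.2)
    simp
    linear_combination Real.sin (Real.pi * p.2) ^ 2 * h1 + h2⟩

theorem continuous_q : Continuous q := by
  have h0 : Continuous (fun p : KC × I => ((AddCircle.toCircle p.1 : Circle) : ℂ)) :=
    continuous_subtype_val.comp (AddCircle.continuous_toCircle.comp continuous_fst)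
  refine Continuous.subtype_mk ?_ _
  refine (PiLp.continuous_toLp 2 _).comp (continuous_pi fun i => ?_)
  fin_cases i
  · exact (by fun_prop : Continuous (fun p : KC × I => Real.sin (Real.pi * p.2))).mul
      (Complex.continuous_re.comp h0)
  · exact (by fun_prop : Continuous (fun p : KC × I => Real.sin (Real.pi * p.2))).mul
      (Complex.continuous_im.comp h0)
  · exact (by fun_prop : Continuous (fun p : KC × I => Real.cos (Real.pi * p.2)))

theorem surjective_q : Function.Surjective q := by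
  rintro ⟨v, hv⟩
  have hv' := (PushB.mem_S2_iff v).1 hv
  set w : ℂ := ⟨v 0, v 1⟩ with hw
  have h2 : -1 ≤ v 2 ∧ v 2 ≤ 1 := by
    rw [← abs_le, ← sq_le_one_iff_abs_le_one]
    nlinarith [sq_nonneg (v 0), sq_nonneg (v 1)]
  have hcos : Real.cos (Real.arccos (v 2)) = v 2 := Real.cos_arccos h2.1 h2.2
  have hsin : Real.sin (Real.arccos (v 2)) = ‖w‖ := by
    rw [Real.sin_arccos, Complex.norm_def, Complex.normSq_apply]
    congr 1
    simp only [hw]
    linarith
  obtain ⟨x, hx⟩ := (AddCircle.homeomorphCircle (T := (1 : ℝ)) one_ne_zero).surjective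
    (Circle.exp (Complex.arg w))
  have hx' : AddCircle.toCircle x = Circle.exp (Complex.arg w) := by
    rw [← hx]; exact (AddCircle.homeomorphCircle_apply one_ne_zero x).symm
  have ht : Real.pi * (Real.arccos (v 2) / Real.pi) = Real.arccos (v 2) := by
    field_simp
  refine ⟨(x, ⟨Real.arccos (v 2) / Real.pi, div_nonneg (Real.arccos_nonneg _) Real.pi_pos.le,
    div_le_one_of_le₀ (Real.arccos_le_pi _) Real.pi_pos.le⟩), ?_⟩
  apply Subtype.ext
  ext i
  fin_cases i
  · simp [q, ht, hsin, hx', Circle.coe_exp, Complex.exp_ofReal_mul_I_re, Complex.norm_mul_cos_arg, hw]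
  · simp [q, ht, hsin, hx', Circle.coe_exp, Complex.exp_ofReal_mul_I_im, Complex.norm_mul_sin_arg, hw]
  · simp [q, ht, hcos]

theorem q_eq_iff (p p' : KC × I) :
    q p = q p' ↔ p = p' ∨ (p.2 = 0 ∧ p'.2 = 0) ∨ (p.2 = 1 ∧ p'.2 = 1) := by
  constructor
  · intro h
    have h' : (q p).1 = (q p').1 := congrArg Subtype.val h
    have h0 := congrArg (fun v : EuclideanSpace ℝ (Fin 3) => v 0) h'
    have h1 := congrArg (fun v : EuclideanSpace ℝ (Fin 3) => v 1) h'
    have h2 := congrArg (fun v : EuclideanSpace ℝ (Fin 3) => v 2) h'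
    simp [q] at h0 h1 h2
    have hm : ∀ t : I, Real.pi * (t : ℝ) ∈ Icc 0 Real.pi := fun t =>
      ⟨mul_nonneg Real.pi_pos.le t.2.1, by nlinarith [Real.pi_pos, t.2.2]⟩
    have h3 : Real.pi * (p.2 : ℝ) = Real.pi * (p'.2 : ℝ) := Real.injOn_cos (hm _) (hm _) h2
    have h4 : (p.2 : ℝ) = p'.2 := mul_left_cancel₀ Real.pi_ne_zero h3
    have h5 : p.2 = p'.2 := Subtype.ext h4
    by_cases ht0 : p.2 = 0
    · right; left; exact ⟨ht0, h5 ▸ ht0⟩
    by_cases ht1 : p.2 = 1
    · right; right; exact ⟨ht1, h5 ▸ ht1⟩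
    left
    have ht0' : 0 < (p.2 : ℝ) := lt_of_le_of_ne p.2.2.1 (fun h => ht0 (Subtype.ext h.symm))
    have ht1' : (p.2 : ℝ) < 1 := lt_of_le_of_ne p.2.2.2 (fun h => ht1 (Subtype.ext h))
    have hs : 0 < Real.sin (Real.pi * p.2) :=
      Real.sin_pos_of_pos_of_lt_pi (by positivity) (by nlinarith [Real.pi_pos])
    rw [← h4] at h0 h1
    have h6 := mul_left_cancel₀ hs.ne' h0
    have h7 := mul_left_cancel₀ hs.ne' h1
    have h8 : AddCircle.toCircle p.1 = AddCircle.toCircle p'.1 := Circle.ext (Complex.ext h6 h7)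
    have h9 : p.1 = p'.1 := AddCircle.injective_toCircle one_ne_zero h8
    exact Prod.ext h9 h5
  · rintro (h | ⟨h, h'⟩ | ⟨h, h'⟩)
    · rw [h]
    · apply Subtype.ext
      simp [q, h, h']
    · apply Subtype.ext
      simp [q, h, h']

end PushC

theorem exists_sphere_quot : ∃ q : C(KC × I, S2), Function.Surjective q ∧
    (∀ p p', q p = q p' ↔ p = p' ∨ (p.2 = 0 ∧ p'.2 = 0) ∨ (p.2 = 1 ∧ p'.2 = 1)) :=
  ⟨⟨PushC.q, PushC.continuous_q⟩, PushC.surjective_q, PushC.q_eq_iff⟩

end Pool.H74
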