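import Pool.Agent.H74.Spaces
import Pool.Agent.H74.PushA2
import Pool.Agent.H74.PushB
import Pool.Agent.H74.PushC

/-!
Pushing a map from the 2-sphere (or a map from the cylinder, constant on both ends) into a CW
complex into the 2-skeleton.
-/

open Topology unitInterval Set

namespace Pool.H74

theorem exists_push_sphere {Y : Type} [TopologicalSpace Y] [T2Space Y]
    [Topology.CWComplex (Set.univ : Set Y)] (f : C(S2, Y)) :
    ∃ F : C(S2 × I, Y), (∀ x, F (x, 1) = f x) ∧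
      ∀ x, F (x, 0) ∈ (Topology.RelCWComplex.skeletonLT (Set.univ : Set Y) 3 : Set Y) := by
  have hA : PushA.Approx S2 := fun n hn g ε hε => exists_approx n hn g ε hε
  obtain ⟨f', ⟨h⟩, hf'⟩ := PushA.push hA f
  refine ⟨⟨fun p => h (unitInterval.symm p.2, p.1), by fun_prop⟩, fun x => ?_, fun x => ?_⟩
  · show h (unitInterval.symm 1, x) = f x
    rw [unitInterval.symm_one]
    exact h.apply_zero x
  · show h (unitInterval.symm 0, x) ∈ _
    rw [unitInterval.symm_zero, h.apply_one x]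
    exact hf' x

theorem exists_push {Y : Type} [TopologicalSpace Y] [T2Space Y]
    [Topology.CWComplex (Set.univ : Set Y)] (f : C(KC × I, Y))
    (h0 : ∀ k, f (k, 0) = f (0, 0)) (h1 : ∀ k, f (k, 1) = f (0, 1)) :
    ∃ F : C((KC × I) × I, Y), (∀ p, F (p, 1) = f p) ∧ (∀ k s, F ((k, 0), s) = F ((0, 0), s)) ∧
      (∀ k s, F ((k, 1), s) = F ((0, 1), s)) ∧
      ∀ p, F (p, 0) ∈ (Topology.RelCWComplex.skeletonLT (Set.univ : Set Y) 3 : Set Y) := by
  obtain ⟨q, hq, hqe⟩ := exists_sphere_quot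
  have hfq : ∀ p p', q p = q p' → f p = f p' := by
    rintro ⟨k, t⟩ ⟨k', t'⟩ hpp
    rcases (hqe _ _).1 hpp with h | ⟨h, h'⟩ | ⟨h, h'⟩
    · rw [h]
    · simp only at h h'
      rw [h, h', h0 k, h0 k']
    · simp only at h h'
      rw [h, h', h1 k, h1 k']
  have hquot : IsQuotientMap q := IsQuotientMap.of_surjective_continuous hq q.continuous
  set fb : C(S2, Y) := hquot.lift f (fun p p' h => hfq p p' h) with hfb
  have hfb' : ∀ p, fb (q p) = f p := fun p =>
    congrArg (fun g : C(KC × I, Y) => g p) (hquot.lift_comp f (fun p p' h => hfq p p' h))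
  obtain ⟨F, hF1, hF0⟩ := exists_push_sphere fb
  refine ⟨⟨fun p => F (q p.1, p.2), by fun_prop⟩, fun p => ?_, fun k s => ?_, fun k s => ?_,
    fun p => hF0 _⟩
  · show F (q p, 1) = f p
    rw [hF1, hfb']
  · show F (q (k, 0), s) = F (q (0, 0), s)
    rw [(hqe (k, 0) (0, 0)).2 (Or.inr (Or.inl ⟨rfl, rfl⟩))]
  · show F (q (k, 1), s) = F (q (0, 1), s)
    rw [(hqe (k, 1) (0, 1)).2 (Or.inr (Or.inr ⟨rfl, rfl⟩))]

end Pool.H74
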