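import Mathlib

/-!
Gluing a homotopy of an open cell to a map into a CW complex, missing a point of a cell,
and the radial push to the boundary of a cell.
-/

open Topology unitInterval Set Metric Filter

namespace Pool.H74.PushA

/-- The gluing lemma. -/
theorem glue {A Y : Type*} [TopologicalSpace A] [TopologicalSpace Y] [T2Space Y] {n : ℕ}
    (Φ : PartialEquiv (Fin n → ℝ) Y) (hsrc : Φ.source = ball 0 1)
    (hc : ContinuousOn Φ (closedBall 0 1)) (hc' : ContinuousOn Φ.symm Φ.target) (f : C(A, Y))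
    (hW : IsOpen (f ⁻¹' Φ.target)) (T : Set (A × I × (Fin n → ℝ)))
    (H : A × I × (Fin n → ℝ) → (Fin n → ℝ)) (hH : ContinuousOn H T)
    (hT1 : ∀ x s, f x ∈ Φ.target → (x, s, Φ.symm (f x)) ∈ T)
    (hT2 : ∀ x s v, ‖v‖ = 1 → (x, s, v) ∈ T)
    (hHD : ∀ x s, f x ∈ Φ.target → H (x, s, Φ.symm (f x)) ∈ closedBall (0 : Fin n → ℝ) 1)
    (hHb : ∀ x s v, ‖v‖ = 1 → H (x, s, v) = v) [∀ x, Decidable (f x ∈ Φ.target)] :
    Continuous (fun p : A × I => if f p.1 ∈ Φ.target then Φ (H (p.1, p.2, Φ.symm (f p.1)))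
      else f p.1) := by
  set G : A × I → Y := fun p => if f p.1 ∈ Φ.target then Φ (H (p.1, p.2, Φ.symm (f p.1)))
      else f p.1 with hG
  have hsymm : ∀ y ∈ Φ.target, Φ.symm y ∈ ball (0 : Fin n → ℝ) 1 := fun y hy => by
    rw [← hsrc]; exact Φ.map_target hy
  rw [continuous_iff_continuousAt]
  rintro ⟨x₀, s₀⟩
  by_cases hx₀ : f x₀ ∈ Φ.target
  · -- inside
    have hopen : IsOpen ((fun p : A × I => p.1) ⁻¹' (f ⁻¹' Φ.target)) := hW.preimage continuous_fst
    have hmem : (x₀, s₀) ∈ (fun p : A × I => p.1) ⁻¹' (f ⁻¹' Φ.target) := hx₀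
    have h1 : ContinuousOn (fun p : A × I => Φ (H (p.1, p.2, Φ.symm (f p.1))))
        ((fun p : A × I => p.1) ⁻¹' (f ⁻¹' Φ.target)) := by
      have hg : ContinuousOn (fun p : A × I => Φ.symm (f p.1))
          ((fun p : A × I => p.1) ⁻¹' (f ⁻¹' Φ.target)) :=
        hc'.comp (f.continuous.comp continuous_fst).continuousOn (fun p hp => hp)
      have h2 : ContinuousOn (fun p : A × I => H (p.1, p.2, Φ.symm (f p.1)))
          ((fun p : A × I => p.1) ⁻¹' (f ⁻¹' Φ.target)) := by
        refine hH.comp (f := fun p : A × I => (p.1, p.2, Φ.symm (f p.1))) ?_ (fun p hp => hT1 _ _ hp)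
        exact continuous_fst.continuousOn.prodMk (continuous_snd.continuousOn.prodMk hg)
      exact hc.comp h2 (fun p hp => hHD _ _ hp)
    have h3 : ContinuousOn G ((fun p : A × I => p.1) ⁻¹' (f ⁻¹' Φ.target)) :=
      h1.congr (fun p hp => by simp only [hG]; exact if_pos hp)
    exact h3.continuousAt (hopen.mem_nhds hmem)
  · have hG0 : G (x₀, s₀) = f x₀ := by simp only [hG]; exact if_neg hx₀
    rw [continuousAt_iff_ultrafilter]
    intro U hU
    rw [hG0]
    have hfst : Tendsto (fun p : A × I => f p.1) U (𝓝 (f x₀)) :=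
      ((f.continuous.comp continuous_fst).continuousAt (x := (x₀, s₀))).tendsto.mono_left hU
    rcases U.mem_or_compl_mem ((fun p : A × I => p.1) ⁻¹' (f ⁻¹' Φ.target)) with hm | hm
    · -- the interesting case
      have hDm : ((U.map (fun p : A × I => Φ.symm (f p.1)) : Ultrafilter (Fin n → ℝ)) :
          Filter (Fin n → ℝ)) ≤ 𝓟 (closedBall (0 : Fin n → ℝ) 1) := by
        rw [le_principal_iff, Ultrafilter.coe_map, mem_map]
        refine mem_of_superset hm (fun p hp => ?_)
        exact ball_subset_closedBall (hsymm _ hp)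
      obtain ⟨v, hv, hvl⟩ := (isCompact_closedBall (0 : Fin n → ℝ) 1).ultrafilter_le_nhds _ hDm
      have htv : Tendsto (fun p : A × I => Φ.symm (f p.1)) U (𝓝 v) := hvl
      have hΦv : f x₀ = Φ v := by
        have h1 : Tendsto (fun p : A × I => Φ (Φ.symm (f p.1))) U (𝓝 (Φ v)) := by
          have := hc v hv
          refine this.tendsto.comp ?_
          rw [tendsto_nhdsWithin_iff]
          refine ⟨htv, mem_of_superset hm (fun p hp => ball_subset_closedBall (hsymm _ hp))⟩
        have h2 : Tendsto (fun p : A × I => Φ (Φ.symm (f p.1))) U (𝓝 (f x₀)) := by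
          refine hfst.congr' ?_
          exact mem_of_superset hm (fun p hp => (Φ.right_inv hp).symm)
        exact tendsto_nhds_unique h2 h1
      have hv1 : ‖v‖ = 1 := by
        refine le_antisymm (by simpa using hv) ?_
        by_contra hlt
        push Not at hlt
        apply hx₀
        rw [hΦv]
        apply Φ.map_source
        rw [hsrc]
        simpa using hlt
      have hHt : Tendsto (fun p : A × I => H (p.1, p.2, Φ.symm (f p.1))) U (𝓝 v) := by
        have h1 := hH (x₀, s₀, v) (hT2 _ _ _ hv1)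
        have h2 : Tendsto (fun p : A × I => (p.1, p.2, Φ.symm (f p.1))) U
            (𝓝[T] (x₀, s₀, v)) := by
          rw [tendsto_nhdsWithin_iff]
          refine ⟨?_, mem_of_superset hm (fun p hp => hT1 _ _ hp)⟩
          have h3 : Tendsto (fun p : A × I => p.1) U (𝓝 x₀) :=
            (continuous_fst.continuousAt (x := (x₀, s₀))).tendsto.mono_left hU
          have h4 : Tendsto (fun p : A × I => p.2) U (𝓝 s₀) :=
            (continuous_snd.continuousAt (x := (x₀, s₀))).tendsto.mono_left hU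
          exact h3.prodMk_nhds (h4.prodMk_nhds htv)
        have h5 := h1.tendsto.comp h2
        rw [hHb _ _ _ hv1] at h5
        exact h5
      have hfin : Tendsto (fun p : A × I => Φ (H (p.1, p.2, Φ.symm (f p.1)))) U (𝓝 (Φ v)) := by
        refine (hc v hv).tendsto.comp ?_
        rw [tendsto_nhdsWithin_iff]
        exact ⟨hHt, mem_of_superset hm (fun p hp => hHD _ _ hp)⟩
      rw [hΦv]
      refine hfin.congr' ?_
      refine mem_of_superset hm (fun p hp => ?_)
      show Φ (H (p.1, p.2, Φ.symm (f p.1))) = G p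
      simp only [hG]
      exact (if_pos hp).symm
    · refine hfst.congr' ?_
      refine mem_of_superset hm (fun p hp => ?_)
      show f p.1 = G p
      simp only [hG]
      exact (if_neg hp).symm

/-- The point of the ray from `q` through `v` on the unit sphere. -/
noncomputable def rad {n : ℕ} (q v : Fin n → ℝ) : Fin n → ℝ :=
  q + (gauge (closedBall (-q) 1) (v - q))⁻¹ • (v - q)

section rad

variable {n : ℕ} {q : Fin n → ℝ} (hq : ‖q‖ < 1)

include hq

theorem nhds_zero : closedBall (-q) 1 ∈ 𝓝 (0 : Fin n → ℝ) := by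
  apply closedBall_mem_nhds_of_mem
  simpa using hq

theorem gauge_pos' {v : Fin n → ℝ} (hv : v ≠ q) : 0 < gauge (closedBall (-q) 1) (v - q) := by
  rw [gauge_pos (absorbent_nhds_zero (nhds_zero hq))
    (NormedSpace.isVonNBounded_of_isBounded ℝ isBounded_closedBall)]
  exact sub_ne_zero.2 hv

theorem norm_rad {v : Fin n → ℝ} (hv : v ≠ q) : ‖rad q v‖ = 1 := by
  have hpos := gauge_pos' hq hv
  have h1 : gauge (closedBall (-q) 1) ((gauge (closedBall (-q) 1) (v - q))⁻¹ • (v - q)) = 1 := by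
    rw [gauge_smul_of_nonneg (inv_nonneg.2 hpos.le), smul_eq_mul, inv_mul_cancel₀ hpos.ne']
  rw [gauge_eq_one_iff_mem_frontier (convex_closedBall _ _) (nhds_zero hq),
    frontier_closedBall _ one_ne_zero] at h1
  have h2 : ‖(gauge (closedBall (-q) 1) (v - q))⁻¹ • (v - q) - -q‖ = 1 := by
    simpa using h1
  rw [sub_neg_eq_add] at h2
  rw [rad, add_comm]
  exact h2

theorem rad_eq {v : Fin n → ℝ} (hv : ‖v‖ = 1) : rad q v = v := by
  have h1 : v - q ∈ frontier (closedBall (-q) 1) := by
    rw [frontier_closedBall _ one_ne_zero]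
    simp [hv]
  rw [← gauge_eq_one_iff_mem_frontier (convex_closedBall _ _) (nhds_zero hq)] at h1
  rw [rad, h1]
  simp

theorem continuousOn_rad : ContinuousOn (rad q) {v | v ≠ q} := by
  have h1 : Continuous (fun v : Fin n → ℝ => gauge (closedBall (-q) 1) (v - q)) :=
    (continuous_gauge (convex_closedBall _ _) (nhds_zero hq)).comp (by fun_prop)
  refine continuousOn_const.add (ContinuousOn.smul (h1.continuousOn.inv₀ ?_) (by fun_prop))
  intro v hv
  exact (gauge_pos' hq hv).ne'

end rad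

/-- Radial push: a map missing a point of an open cell is homotopic to one missing the cell. -/
theorem radial_push {A Y : Type*} [TopologicalSpace A] [TopologicalSpace Y] [T2Space Y] {n : ℕ}
    (Φ : PartialEquiv (Fin n → ℝ) Y) (hsrc : Φ.source = ball 0 1)
    (hc : ContinuousOn Φ (closedBall 0 1)) (hc' : ContinuousOn Φ.symm Φ.target) (f : C(A, Y))
    (hW : IsOpen (f ⁻¹' Φ.target)) (q : Fin n → ℝ) (hq : ‖q‖ < 1)
    (hqf : ∀ x, f x ≠ Φ q) :
    ∃ f' : C(A, Y), ContinuousMap.Homotopic f f' ∧ (∀ x, f x ∉ Φ.target → f' x = f x) ∧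
      ∀ x, f x ∈ Φ.target → f' x ∈ Φ '' sphere 0 1 := by
  classical
  have hsymm : ∀ y ∈ Φ.target, Φ.symm y ∈ ball (0 : Fin n → ℝ) 1 := fun y hy => by
    rw [← hsrc]; exact Φ.map_target hy
  set T : Set (A × I × (Fin n → ℝ)) := {p | p.2.2 ≠ q} with hT
  set H : A × I × (Fin n → ℝ) → (Fin n → ℝ) :=
    fun p => p.2.2 + (p.2.1 : ℝ) • (rad q p.2.2 - p.2.2) with hH
  have hne : ∀ x, f x ∈ Φ.target → Φ.symm (f x) ≠ q := by
    intro x hx he
    apply hqf x
    rw [← he, Φ.right_inv hx]
  have hHc : ContinuousOn H T := by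
    have h0 : ContinuousOn (fun p : A × I × (Fin n → ℝ) => p.2.2) T := by fun_prop
    have h1 : ContinuousOn (fun p : A × I × (Fin n → ℝ) => rad q p.2.2) T :=
      (continuousOn_rad hq).comp h0 (fun p hp => hp)
    have h2 : ContinuousOn (fun p : A × I × (Fin n → ℝ) => (p.2.1 : ℝ)) T := by fun_prop
    exact h0.add (h2.smul (h1.sub h0))
  have hT2 : ∀ (x : A) (s : I) (v : Fin n → ℝ), ‖v‖ = 1 → (x, s, v) ∈ T := by
    intro x s v hv he
    simp only at he
    rw [he] at hv
    exact absurd hv hq.ne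
  have hHD : ∀ (x : A) (s : I), f x ∈ Φ.target → H (x, s, Φ.symm (f x)) ∈ closedBall (0 : Fin n → ℝ) 1 := by
    intro x s hx
    have h1 := ball_subset_closedBall (hsymm _ hx)
    have h2 : rad q (Φ.symm (f x)) ∈ closedBall (0 : Fin n → ℝ) 1 := by
      simpa using (norm_rad hq (hne x hx)).le
    exact (convex_closedBall (0 : Fin n → ℝ) 1).add_smul_sub_mem h1 h2 s.2
  have hHb : ∀ (x : A) (s : I) (v : Fin n → ℝ), ‖v‖ = 1 → H (x, s, v) = v := by
    intro x s v hv
    simp only [hH]
    rw [rad_eq hq hv]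
    simp
  have hG := glue Φ hsrc hc hc' f hW T H hHc (fun x s hx => hne x hx) hT2 hHD hHb
  refine ⟨⟨fun x => if f x ∈ Φ.target then Φ (H (x, 1, Φ.symm (f x))) else f x,
    hG.comp (f := fun x : A => (x, (1 : I))) (by fun_prop)⟩,
    ⟨⟨⟨fun p => if f p.2 ∈ Φ.target then Φ (H (p.2, p.1, Φ.symm (f p.2))) else f p.2,
      hG.comp (f := fun p : I × A => (p.2, p.1)) (by fun_prop)⟩, ?_, ?_⟩⟩, ?_, ?_⟩
  · intro x
    simp only
    split_ifs with hx
    · simp only [hH]
      simp [Φ.right_inv hx]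
    · rfl
  · intro x
    rfl
  · intro x hx
    simp only [ContinuousMap.coe_mk, if_neg hx]
  · intro x hx
    simp only [ContinuousMap.coe_mk, if_pos hx]
    refine ⟨_, ?_, rfl⟩
    simp only [hH, Set.Icc.coe_one, one_smul, add_sub_cancel, mem_sphere_iff_norm, sub_zero]
    exact norm_rad hq (hne x hx)

/-- Missing a point of an open cell. -/
theorem miss_point {A Y : Type*} [TopologicalSpace A] [CompactSpace A] [T2Space A]
    [TopologicalSpace Y] [T2Space Y] {n : ℕ}
    (hB : ∀ (g : C(A, Fin n → ℝ)) (ε : ℝ), 0 < ε →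
      ∃ p : C(A, Fin n → ℝ), (∀ x, dist (p x) (g x) < ε) ∧ Dense (Set.range p)ᶜ)
    (Φ : PartialEquiv (Fin n → ℝ) Y) (hsrc : Φ.source = ball 0 1)
    (hc : ContinuousOn Φ (closedBall 0 1)) (hc' : ContinuousOn Φ.symm Φ.target) (f : C(A, Y))
    (hW : IsOpen (f ⁻¹' Φ.target)) :
    ∃ f' : C(A, Y), ContinuousMap.Homotopic f f' ∧ (∀ x, f x ∉ Φ.target → f' x = f x) ∧
      (∀ x, f x ∈ Φ.target → f' x ∈ Φ.target) ∧
      ∃ q : Fin n → ℝ, ‖q‖ < 1 ∧ ∀ x, f' x ≠ Φ q := by
  classical
  have hsymm : ∀ y ∈ Φ.target, Φ.symm y ∈ ball (0 : Fin n → ℝ) 1 := fun y hy => by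
    rw [← hsrc]; exact Φ.map_target hy
  have htgt : Φ.target = Φ '' ball 0 1 := by rw [← hsrc, Φ.image_source_eq_target]
  set A₀ : Set A := f ⁻¹' (Φ '' closedBall 0 (2 / 3)) with hA₀
  have hsub : closedBall (0 : Fin n → ℝ) (2 / 3) ⊆ ball 0 1 := closedBall_subset_ball (by norm_num)
  have hA₀c : IsClosed A₀ := by
    refine IsClosed.preimage f.continuous ?_
    exact ((isCompact_closedBall _ _).image_of_continuousOn
      (hc.mono (hsub.trans ball_subset_closedBall))).isClosed
  have hA₀W : ∀ x ∈ A₀, f x ∈ Φ.target := by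
    intro x hx
    rw [htgt]
    exact image_mono hsub hx
  obtain ⟨g, hg⟩ := ContinuousMap.exists_restrict_eq hA₀c
    (⟨fun x : A₀ => Φ.symm (f x), by
      have : ContinuousOn (fun x => Φ.symm (f x)) A₀ :=
        hc'.comp f.continuous.continuousOn (fun x hx => hA₀W x hx)
      exact continuousOn_iff_continuous_domRestrict.1 this⟩ : C(A₀, Fin n → ℝ))
  have hg' : ∀ x ∈ A₀, g x = Φ.symm (f x) := by
    intro x hx
    exact congrArg (fun h : C(A₀, Fin n → ℝ) => h ⟨x, hx⟩) hg
  obtain ⟨p, hp, hpd⟩ := hB g (1 / 6) (by norm_num)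
  obtain ⟨q, hqr, hqb⟩ := hpd.exists_mem_open (isOpen_ball (x := (0 : Fin n → ℝ)) (ε := 1 / 6))
    ⟨0, by simp⟩
  have hq6 : ‖q‖ < 1 / 6 := by simpa using hqb
  set lam : (Fin n → ℝ) → ℝ := fun v => max 0 (min 1 (2 - 3 * ‖v‖)) with hlam
  have hlamc : Continuous lam := by fun_prop
  have hlam0 : ∀ v, 0 ≤ lam v := fun v => le_max_left _ _
  have hlam1 : ∀ v, lam v ≤ 1 := fun v => max_le zero_le_one (min_le_left _ _)
  set H : A × I × (Fin n → ℝ) → (Fin n → ℝ) :=
    fun z => z.2.2 + ((z.2.1 : ℝ) * lam z.2.2) • (p z.1 - z.2.2) with hH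
  have hHc : Continuous H := by fun_prop
  have hkey : ∀ (x : A), f x ∈ Φ.target → lam (Φ.symm (f x)) ≠ 0 →
      ‖Φ.symm (f x)‖ < 2 / 3 ∧ ‖p x - Φ.symm (f x)‖ < 1 / 6 := by
    intro x hx hl
    have h1 : ‖Φ.symm (f x)‖ < 2 / 3 := by
      by_contra hcon
      push Not at hcon
      apply hl
      simp only [hlam]
      rw [max_eq_left]
      exact (min_le_right _ _).trans (by linarith)
    refine ⟨h1, ?_⟩
    have hxA : x ∈ A₀ := by
      refine ⟨Φ.symm (f x), ?_, Φ.right_inv hx⟩
      simpa using h1.le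
    have := hp x
    rw [hg' x hxA, dist_eq_norm] at this
    exact this
  have hHball : ∀ (x : A) (s : I), f x ∈ Φ.target → H (x, s, Φ.symm (f x)) ∈ ball (0 : Fin n → ℝ) 1 := by
    intro x s hx
    by_cases hl : lam (Φ.symm (f x)) = 0
    · simp only [hH, hl]
      simpa using hsymm _ hx
    · obtain ⟨h1, h2⟩ := hkey x hx hl
      rw [mem_ball_zero_iff]
      calc ‖H (x, s, Φ.symm (f x))‖ ≤ ‖Φ.symm (f x)‖ +
            ‖((s : ℝ) * lam (Φ.symm (f x))) • (p x - Φ.symm (f x))‖ := norm_add_le _ _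
        _ = ‖Φ.symm (f x)‖ + ((s : ℝ) * lam (Φ.symm (f x))) * ‖p x - Φ.symm (f x)‖ := by
            rw [norm_smul, Real.norm_of_nonneg (mul_nonneg s.2.1 (hlam0 _))]
        _ ≤ ‖Φ.symm (f x)‖ + 1 * ‖p x - Φ.symm (f x)‖ := by
            gcongr
            exact mul_le_one₀ s.2.2 (hlam0 _) (hlam1 _)
        _ < 1 := by linarith
  have hHb : ∀ (x : A) (s : I) (v : Fin n → ℝ), ‖v‖ = 1 → H (x, s, v) = v := by
    intro x s v hv
    have : lam v = 0 := by
      simp only [hlam, hv]
      norm_num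
    simp only [hH, this]
    simp
  have hG := glue Φ hsrc hc hc' f hW Set.univ H hHc.continuousOn (fun x s hx => mem_univ _)
    (fun x s v hv => mem_univ _) (fun x s hx => ball_subset_closedBall (hHball x s hx)) hHb
  refine ⟨⟨fun x => if f x ∈ Φ.target then Φ (H (x, 1, Φ.symm (f x))) else f x,
    hG.comp (f := fun x : A => (x, (1 : I))) (by fun_prop)⟩,
    ⟨⟨⟨fun p => if f p.2 ∈ Φ.target then Φ (H (p.2, p.1, Φ.symm (f p.2))) else f p.2,
      hG.comp (f := fun p : I × A => (p.2, p.1)) (by fun_prop)⟩, ?_, ?_⟩⟩, ?_, ?_, q,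
      hq6.trans (by norm_num), ?_⟩
  · intro x
    simp only
    split_ifs with hx
    · simp only [hH]
      simp [Φ.right_inv hx]
    · rfl
  · intro x
    rfl
  · intro x hx
    simp only [ContinuousMap.coe_mk, if_neg hx]
  · intro x hx
    simp only [ContinuousMap.coe_mk, if_pos hx]
    apply Φ.map_source
    rw [hsrc]
    exact hHball x 1 hx
  · intro x he
    have hqs : q ∈ Φ.source := by
      rw [hsrc]
      simpa using hq6.trans (by norm_num : (1 / 6 : ℝ) < 1)
    simp only [ContinuousMap.coe_mk] at he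
    split_ifs at he with hx
    · have h1 : H (x, 1, Φ.symm (f x)) = q := by
        refine Φ.injOn ?_ hqs he
        rw [hsrc]
        exact hHball x 1 hx
      by_cases hl : lam (Φ.symm (f x)) = 0
      · have h2 : H (x, 1, Φ.symm (f x)) = Φ.symm (f x) := by
          simp only [hH, hl]
          simp
        rw [h2] at h1
        rw [h1] at hl
        have : lam q = 1 := by
          simp only [hlam]
          rw [min_eq_left (by linarith), max_eq_right zero_le_one]
        rw [this] at hl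
        exact one_ne_zero hl
      · obtain ⟨h2, h3⟩ := hkey x hx hl
        by_cases h13 : ‖Φ.symm (f x)‖ ≤ 1 / 3
        · have : lam (Φ.symm (f x)) = 1 := by
            simp only [hlam]
            rw [min_eq_left (by linarith), max_eq_right zero_le_one]
          apply hqr
          refine ⟨x, ?_⟩
          rw [← h1]
          simp only [hH, this]
          simp
        · push Not at h13
          have h4 : ‖Φ.symm (f x)‖ ≤ ‖q‖ + ‖p x - Φ.symm (f x)‖ := by
            have h5 : Φ.symm (f x) = q - lam (Φ.symm (f x)) • (p x - Φ.symm (f x)) := by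
              rw [← h1]
              simp only [hH]
              simp
            calc ‖Φ.symm (f x)‖ = ‖q - lam (Φ.symm (f x)) • (p x - Φ.symm (f x))‖ := by
                  rw [← h5]
              _ ≤ ‖q‖ + ‖lam (Φ.symm (f x)) • (p x - Φ.symm (f x))‖ := norm_sub_le _ _
              _ = ‖q‖ + lam (Φ.symm (f x)) * ‖p x - Φ.symm (f x)‖ := by
                  rw [norm_smul, Real.norm_of_nonneg (hlam0 _)]
              _ ≤ ‖q‖ + 1 * ‖p x - Φ.symm (f x)‖ := by
                  gcongr
                  exact hlam1 _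
              _ = _ := by rw [one_mul]
          linarith
    · apply hx
      rw [he]
      exact Φ.map_source hqs

end Pool.H74.PushA
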