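import Pool.Agent.H74.ZC.Tw

/-!
The spaces `V`, `B`, `D`, `X` attached to a set `S` with an action of the group `G × ⟨t⟩`.
-/

open Topology unitInterval Set

namespace Pool.H74

open Fam

noncomputable section

/-- The circle. -/
abbrev KC : Type := AddCircle (1 : ℝ)

section

variable {S S' S'' : Type} [TopologicalSpace S] [TopologicalSpace S'] [TopologicalSpace S'']

/-- The action on `K × S`: `z` doubles, `u` negates, `y` is the identity of the circle. -/
def H3.K (H : H3 S) : H3 (KC × S) where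
  z := ⟨fun p => (p.1 + p.1, H.z p.2), by fun_prop⟩
  u := ⟨fun p => (-p.1, H.u p.2), by fun_prop⟩
  y := ⟨fun p => (p.1, H.y p.2), by fun_prop⟩
  zu p := Prod.ext (by simp) (H.zu p.2)
  zy p := Prod.ext rfl (H.zy p.2)
  uy p := Prod.ext rfl (H.uy p.2)

/-- A space with self-maps satisfying the relations of the group `G × ⟨t⟩`. -/
structure GS (S : Type) [TopologicalSpace S] extends H3 S where
  s : C(S, S)
  r : C(S, S)
  t : C(S, S)
  sz : ∀ x, s (z x) = z (s x)
  su : ∀ x, s (u x) = u (s x)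
  sy : ∀ x, s (y x) = y (y (s x))
  rz : ∀ x, r (z x) = z (r x)
  ru : ∀ x, r (u x) = u (r x)
  ry : ∀ x, r (y x) = u (y (r x))
  tz : ∀ x, t (z x) = z (t x)
  tu : ∀ x, t (u x) = u (t x)
  ty : ∀ x, t (y x) = y (t x)
  ts : ∀ x, t (s x) = s (t x)
  tr : ∀ x, t (r x) = r (t x)

namespace H3

variable {H : H3 S} {H' : H3 S'} {H'' : H3 S''}

theorem map1_congr {g g' : C(S, S')} {hz : ∀ x, g (H.z x) = H'.z (g x)}
    {hz' : ∀ x, g' (H.z x) = H'.z (g' x)} (e : ∀ x, g x = g' x) : map1 g hz = map1 g' hz' :=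
  MT.map_congr e

theorem map1_comp (g : C(S, S')) (g' : C(S', S'')) (hz : ∀ x, g (H.z x) = H'.z (g x))
    (hz' : ∀ x, g' (H'.z x) = H''.z (g' x)) (x) :
    map1 g' hz' (map1 g hz x) = map1 (H := H) (H' := H'') (g'.comp g) (by intro x; simp [hz, hz']) x :=
  MT.map_map _ _ _ _ x

theorem map2_congr {g g' : C(S, S')} {hz : ∀ x, g (H.z x) = H'.z (g x)}
    {hu : ∀ x, g (H.u x) = H'.u (g x)} {hz' : ∀ x, g' (H.z x) = H'.z (g' x)}
    {hu' : ∀ x, g' (H.u x) = H'.u (g' x)} (e : ∀ x, g x = g' x) : map2 g hz hu = map2 g' hz' hu' :=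
  MT.map_congr (fun x => congrArg (fun f : C(_, _) => f x) (map1_congr e))

theorem map2_comp (g : C(S, S')) (g' : C(S', S'')) (hz : ∀ x, g (H.z x) = H'.z (g x))
    (hu : ∀ x, g (H.u x) = H'.u (g x)) (hz' : ∀ x, g' (H'.z x) = H''.z (g' x))
    (hu' : ∀ x, g' (H'.u x) = H''.u (g' x)) (x) :
    map2 g' hz' hu' (map2 g hz hu x) = map2 (H := H) (H' := H'') (g'.comp g)
      (by intro x; simp [hz, hz']) (by intro x; simp [hu, hu']) x :=
  (MT.map_map _ _ _ _ x).trans (congrArg (fun f : C(_, _) => f x)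
    (MT.map_congr (fun x => map1_comp g g' hz hz' x)))

theorem map3_congr {g g' : C(S, S')} {h : Hom H H' g} {h' : Hom H H' g'} (e : ∀ x, g x = g' x) :
    map3 g h = map3 g' h' :=
  MT.map_congr (fun x => congrArg (fun f : C(_, _) => f x) (map2_congr e))

theorem Hom.comp {g : C(S, S')} {g' : C(S', S'')} (h : Hom H H' g) (h' : Hom H' H'' g') :
    Hom H H'' (g'.comp g) :=
  ⟨fun x => by simp [h.z, h'.z], fun x => by simp [h.u, h'.u], fun x => by simp [h.y, h'.y]⟩

theorem map3_comp (g : C(S, S')) (g' : C(S', S'')) (h : Hom H H' g) (h' : Hom H' H'' g') (x) :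
    map3 g' h' (map3 g h x) = map3 (g'.comp g) (h.comp h') x :=
  (MT.map_map _ _ _ _ x).trans (congrArg (fun f : C(_, _) => f x)
    (MT.map_congr (fun x => map2_comp g g' h.z h.u h'.z h'.u x)))

theorem map3_id (h : Hom H H (.id S)) : map3 (.id S) h = .id _ := by
  have h1 : ∀ x, map1 (H := H) (H' := H) (.id S) h.z x = x := fun x =>
    congrArg (fun f : C(_, _) => f x) MT.map_id
  have e2 : map2 (H := H) (H' := H) (.id S) h.z h.u =
      MT.map (α := H.u1) (α' := H.u1) (.id _) (fun _ => rfl) := MT.map_congr h1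
  have h2 : ∀ x, map2 (H := H) (H' := H) (.id S) h.z h.u x = x := fun x => by
    rw [e2, MT.map_id]; rfl
  have e3 : map3 (H := H) (H' := H) (.id S) h =
      MT.map (α := H.y2) (α' := H.y2) (.id _) (fun _ => rfl) := MT.map_congr h2
  rw [e3, MT.map_id]

theorem K_map {g : C(S, S')} (h : Hom H H' g) : Hom H.K H'.K (ContinuousMap.prodMap (.id KC) g) :=
  ⟨fun x => Prod.ext rfl (h.z x.2), fun x => Prod.ext rfl (h.u x.2),
    fun x => Prod.ext rfl (h.y x.2)⟩

theorem K_snd : Hom H.K H (.snd : C(KC × S, S)) := ⟨fun _ => rfl, fun _ => rfl, fun _ => rfl⟩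

end H3

namespace GS

variable (a : GS S) (b : GS S') (c : GS S'')

/-- The space `V`. -/
abbrev V : Type := a.toH3.TT

/-- The map induced by `s` on the second mapping torus. -/
def s2 : C(a.T2, a.T2) := H3.map2 a.s a.sz a.su
/-- The map induced by `r` on the second mapping torus. -/
def r2 : C(a.T2, a.T2) := H3.map2 a.r a.rz a.ru

theorem y2_eq : a.y2 = H3.map2 a.y (fun x => (a.zy x).symm) (fun x => (a.uy x).symm) := rfl
theorem u2_eq : a.u2 = H3.map2 a.u (fun x => (a.zu x).symm) (fun _ => rfl) := rfl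

theorem s2_y2 (x : a.T2) : a.s2 (a.y2 x) = a.y2 (a.y2 (a.s2 x)) := by
  rw [y2_eq, s2, H3.map2_comp, H3.map2_comp, H3.map2_comp]
  exact congrArg (fun f : C(_, _) => f x) (H3.map2_congr a.sy)

theorem r2_y2 (x : a.T2) : a.r2 (a.y2 x) = a.u2 (a.y2 (a.r2 x)) := by
  rw [y2_eq, u2_eq, r2, H3.map2_comp, H3.map2_comp, H3.map2_comp]
  exact congrArg (fun f : C(_, _) => f x) (H3.map2_congr a.ry)

/-- The self-map of `V` for `s`: it doubles the `y`-handle. -/
def sig : C(a.V, a.V) :=
  ZC.desc ((ZC.inA _ _).comp a.s2)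
    (cat (pre (ZC.hdl (.id _) a.y2) a.s2) (pre (ZC.hdl (.id _) a.y2) (a.y2.comp a.s2))
      (by intro x; simp)) (by intro x; simp) (by intro x; simp [s2_y2])

@[simp] theorem sig_inA (x : a.T2) : a.sig (ZC.inA _ _ x) = ZC.inA _ _ (a.s2 x) := rfl

theorem sig_hdl_le (x : a.T2) (t : I) (ht : (t : ℝ) ≤ 1 / 2) : a.sig (ZC.hdl _ _ (x, t)) =
    ZC.hdl _ _ (a.s2 x, projIcc 0 1 zero_le_one (2 * (t : ℝ))) := by
  change cat (pre (ZC.hdl (.id _) a.y2) a.s2) (pre (ZC.hdl (.id _) a.y2) (a.y2.comp a.s2))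
      (by intro x; simp) (x, t) = _
  rw [cat_of_le ht]; rfl

theorem sig_hdl_gt (x : a.T2) (t : I) (ht : ¬ (t : ℝ) ≤ 1 / 2) : a.sig (ZC.hdl _ _ (x, t)) =
    ZC.hdl _ _ (a.y2 (a.s2 x), projIcc 0 1 zero_le_one (2 * (t : ℝ) - 1)) := by
  change cat (pre (ZC.hdl (.id _) a.y2) a.s2) (pre (ZC.hdl (.id _) a.y2) (a.y2.comp a.s2))
      (by intro x; simp) (x, t) = _
  rw [cat_of_gt ht]; rfl

/-- The flow in the `u`-direction, applied after `y`. -/
def yflow : C(a.T2 × I, a.T2) := (MT.flow a.u1).comp (a.y2.prodMap (.id I))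

/-- The self-map of `V` for `r`: the `y`-handle goes to the `y`-handle followed by the `u`-flow. -/
def rho : C(a.V, a.V) :=
  MT.twist (α := a.y2) (α' := a.y2) a.r2 (pre a.yflow a.r2)
    (fun x => MT.flow_zero _ _)
    (fun x => (MT.flow_one _ _).trans (a.r2_y2 x).symm)

@[simp] theorem rho_inA (x : a.T2) : a.rho (ZC.inA _ _ x) = ZC.inA _ _ (a.r2 x) := rfl

theorem rho_hdl_le (x : a.T2) (t : I) (ht : (t : ℝ) ≤ 1 / 2) : a.rho (ZC.hdl _ _ (x, t)) =
    ZC.hdl _ _ (a.r2 x, projIcc 0 1 zero_le_one (2 * (t : ℝ))) := by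
  change cat (pre (ZC.hdl (.id _) a.y2) a.r2) ((ZC.inA _ _).comp (pre a.yflow a.r2))
      (by intro x; simp [yflow]) (x, t) = _
  rw [cat_of_le ht]; rfl

theorem rho_hdl_gt (x : a.T2) (t : I) (ht : ¬ (t : ℝ) ≤ 1 / 2) : a.rho (ZC.hdl _ _ (x, t)) =
    ZC.inA _ _ (MT.flow a.u1 (a.y2 (a.r2 x), projIcc 0 1 zero_le_one (2 * (t : ℝ) - 1))) := by
  change cat (pre (ZC.hdl (.id _) a.y2) a.r2) ((ZC.inA _ _).comp (pre a.yflow a.r2))
      (by intro x; simp [yflow]) (x, t) = _
  rw [cat_of_gt ht]; rfl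

/-- `V` with the `s`-handle. -/
abbrev B1 : Type := MT a.sig

/-- `V` with the `s`-handle and the `r`-handle. -/
abbrev B : Type := ZC (ZC.inA (.id _) a.sig) ((ZC.inA (.id _) a.sig).comp a.rho)

/-- Maps compatible with the action of `G`. -/
structure Hom (f : C(S, S')) : Prop extends H3.Hom a.toH3 b.toH3 f where
  s : ∀ x, f (a.s x) = b.s (f x)
  r : ∀ x, f (a.r x) = b.r (f x)

/-- Maps compatible with the action of `G × ⟨t⟩`. -/
structure HomT (f : C(S, S')) : Prop where
  g : Hom a b f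
  t : ∀ x, f (a.t x) = b.t (f x)

variable {a b c}

theorem Hom.comp {f : C(S, S')} {g : C(S', S'')} (h : Hom a b f) (h' : Hom b c g) :
    Hom a c (g.comp f) :=
  ⟨h.toHom.comp h'.toHom, fun x => by simp [h.s, h'.s], fun x => by simp [h.r, h'.r]⟩

/-- The induced map of the spaces `V`. -/
def fV (f : C(S, S')) (h : Hom a b f) : C(a.V, b.V) := H3.map3 f h.toHom

theorem fV_sig {f : C(S, S')} (h : Hom a b f) (x : a.V) : fV f h (a.sig x) = b.sig (fV f h x) := by
  have e1 : ∀ x, H3.map2 f h.z h.u (a.s2 x) = b.s2 (H3.map2 f h.z h.u x) := by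
    intro x
    rw [s2, s2, H3.map2_comp, H3.map2_comp]
    exact congrArg (fun f : C(_, _) => f x) (H3.map2_congr h.s)
  have e2 := H3.map2_y2 h.toHom
  have : (fV f h).comp a.sig = b.sig.comp (fV f h) := by
    apply ZC.hom_ext
    · intro x
      exact congrArg (ZC.inA _ _) (e1 x)
    · rintro ⟨x, t⟩
      change fV f h (a.sig (ZC.hdl _ _ (x, t))) = b.sig (ZC.hdl _ _ (H3.map2 f h.z h.u x, t))
      by_cases ht : (t : ℝ) ≤ 1 / 2
      · rw [sig_hdl_le _ _ _ ht, sig_hdl_le _ _ _ ht]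
        exact congrArg (fun y => ZC.hdl _ _ (y, _)) (e1 x)
      · rw [sig_hdl_gt _ _ _ ht, sig_hdl_gt _ _ _ ht]
        exact congrArg (fun y => ZC.hdl _ _ (y, _)) ((e2 _).trans (congrArg _ (e1 x)))
  exact congrArg (fun f : C(_, _) => f x) this

theorem fV_rho {f : C(S, S')} (h : Hom a b f) (x : a.V) : fV f h (a.rho x) = b.rho (fV f h x) := by
  have e1 : ∀ x, H3.map2 f h.z h.u (a.r2 x) = b.r2 (H3.map2 f h.z h.u x) := by
    intro x
    rw [r2, r2, H3.map2_comp, H3.map2_comp]
    exact congrArg (fun f : C(_, _) => f x) (H3.map2_congr h.r)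
  have e2 := H3.map2_y2 h.toHom
  have : (fV f h).comp a.rho = b.rho.comp (fV f h) := by
    apply ZC.hom_ext
    · intro x
      exact congrArg (ZC.inA _ _) (e1 x)
    · rintro ⟨x, t⟩
      change fV f h (a.rho (ZC.hdl _ _ (x, t))) = b.rho (ZC.hdl _ _ (H3.map2 f h.z h.u x, t))
      by_cases ht : (t : ℝ) ≤ 1 / 2
      · rw [rho_hdl_le _ _ _ ht, rho_hdl_le _ _ _ ht]
        exact congrArg (fun y => ZC.hdl _ _ (y, _)) (e1 x)
      · rw [rho_hdl_gt _ _ _ ht, rho_hdl_gt _ _ _ ht]
        refine congrArg (ZC.inA _ _) ?_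
        refine (MT.map_flow _ _ _ _).trans ?_
        refine congrArg (fun y => MT.flow _ (y, _)) ?_
        exact (e2 _).trans (congrArg _ (e1 x))
  exact congrArg (fun f : C(_, _) => f x) this

/-- The induced map of the spaces `B1`. -/
def fB1 (f : C(S, S')) (h : Hom a b f) : C(a.B1, b.B1) := MT.map (fV f h) (fV_sig h)

/-- The induced map of the spaces `B`. -/
def fB (f : C(S, S')) (h : Hom a b f) : C(a.B, b.B) :=
  ZC.map (fB1 f h) (fV f h) (fun _ => rfl) (fun x => congrArg (ZC.inA _ _) (fV_rho h x))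

theorem fV_congr {f f' : C(S, S')} {h : Hom a b f} {h' : Hom a b f'} (e : ∀ x, f x = f' x) :
    fV f h = fV f' h' := H3.map3_congr e

theorem fB_congr {f f' : C(S, S')} {h : Hom a b f} {h' : Hom a b f'} (e : ∀ x, f x = f' x) :
    fB f h = fB f' h' := by
  obtain rfl : f = f' := by ext x; exact e x
  rfl

theorem fB_comp (f : C(S, S')) (g : C(S', S'')) (h : Hom a b f) (h' : Hom b c g) :
    (fB g h').comp (fB f h) = fB (g.comp f) (h.comp h') := by
  apply ZC.hom_ext
  · intro x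
    induction x using ZC.ind with
    | h1 x => exact congrArg (fun y => ZC.inA _ _ (ZC.inA _ _ y)) (H3.map3_comp _ _ _ _ x)
    | h2 x t => exact congrArg (fun y => ZC.inA _ _ (ZC.hdl _ _ (y, t))) (H3.map3_comp _ _ _ _ x)
  · rintro ⟨x, t⟩
    exact congrArg (fun y => ZC.hdl _ _ (y, t)) (H3.map3_comp _ _ _ _ x)

theorem fB_id (h : Hom a a (.id S)) : fB (.id S) h = .id _ := by
  apply ZC.hom_ext
  · intro x
    induction x using ZC.ind with
    | h1 x => exact congrArg (fun g : C(_, _) => ZC.inA _ _ (ZC.inA _ _ (g x))) (H3.map3_id h.toHom)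
    | h2 x t =>
      exact congrArg (fun g : C(_, _) => ZC.inA _ _ (ZC.hdl _ _ (g x, t))) (H3.map3_id h.toHom)
  · rintro ⟨x, t⟩
    exact congrArg (fun g : C(_, _) => ZC.hdl _ _ (g x, t)) (H3.map3_id h.toHom)

variable (a)

theorem tHom : Hom a a a.t := ⟨⟨a.tz, a.tu, a.ty⟩, a.ts, a.tr⟩

/-- The action of `t` on `B`. -/
def tB : C(a.B, a.B) := fB a.t a.tHom

/-- The space `D`. -/
abbrev D : Type := MT a.tB

/-- The inclusion of `V` in `B`. -/
def inB : C(a.V, a.B) := (ZC.inA _ _).comp (ZC.inA _ _)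

/-- The inclusion of `V` in `D`. -/
def inVD : C(a.V, a.D) := (ZC.inA _ _).comp a.inB

/-- The circle bundle over `V`. -/
abbrev E : Type := a.toH3.K.TT

/-- The projection of the circle bundle. -/
def rE : C(a.E, a.V) := H3.map3 .snd H3.K_snd

/-- The space `X`. -/
abbrev X : Type := DM (a.inVD.comp a.rE) a.rE

variable {a}

theorem fB_tB {f : C(S, S')} (h : HomT a b f) (x : a.B) :
    fB f h.g (a.tB x) = b.tB (fB f h.g x) := by
  have : (fB f h.g).comp a.tB = b.tB.comp (fB f h.g) := by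
    rw [tB, tB, fB_comp, fB_comp]
    exact fB_congr h.t
  exact congrArg (fun f : C(_, _) => f x) this

/-- The induced map of the spaces `D`. -/
def fD (f : C(S, S')) (h : HomT a b f) : C(a.D, b.D) := MT.map (fB f h.g) (fB_tB h)

/-- The induced map of the circle bundles. -/
def fE (f : C(S, S')) (h : H3.Hom a.toH3 b.toH3 f) : C(a.E, b.E) :=
  H3.map3 (ContinuousMap.prodMap (.id KC) f) (H3.K_map h)

theorem rE_fE {f : C(S, S')} (h : Hom a b f) (x : a.E) :
    b.rE (fE f h.toHom x) = fV f h (a.rE x) := by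
  rw [rE, rE, fE, fV, H3.map3_comp, H3.map3_comp]
  exact congrArg (fun f : C(_, _) => f x) (H3.map3_congr (fun _ => rfl))

/-- The induced map of the spaces `X`. -/
def fX (f : C(S, S')) (h : HomT a b f) : C(a.X, b.X) :=
  DM.map (fD f h) (fV f h.g) (fE f h.g.toHom)
    (fun x => congrArg b.inVD (rE_fE h.g x).symm) (fun x => (rE_fE h.g x).symm)

/-- The action with `z, u, y, s, r` trivial and a given `t`. -/
def ofT (τ : C(S, S)) : GS S where
  z := .id S
  u := .id S
  y := .id S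
  zu _ := rfl
  zy _ := rfl
  uy _ := rfl
  s := .id S
  r := .id S
  t := τ
  sz _ := rfl
  su _ := rfl
  sy _ := rfl
  rz _ := rfl
  ru _ := rfl
  ry _ := rfl
  tz _ := rfl
  tu _ := rfl
  ty _ := rfl
  ts _ := rfl
  tr _ := rfl

/-- The one-point set. -/
def one : GS Unit := ofT (.id Unit)

/-- The two-point set, exchanged by `t`. -/
def two : GS Bool := ofT ⟨Bool.not, continuous_of_discreteTopology⟩

/-- The integers, with translation by one for `t`. -/
def int : GS ℤ := ofT ⟨fun n => n + 1, continuous_of_discreteTopology⟩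

section Instances

instance instT2B [T2Space S] (a : GS S) : T2Space a.B :=
  have : T2Space a.V := inferInstance
  have : T2Space a.B1 := inferInstance
  inferInstance

instance instT2D [T2Space S] (a : GS S) : T2Space a.D :=
  have : T2Space a.B := inferInstance
  inferInstance

instance instT2E [T2Space S] (a : GS S) : T2Space a.E :=
  have : T2Space a.toH3.K.T1 := inferInstance
  have : T2Space a.toH3.K.T2 := inferInstance
  inferInstance

instance instT2X [T2Space S] (a : GS S) : T2Space a.X :=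
  have : T2Space a.D := inferInstance
  have : T2Space a.V := inferInstance
  have : T2Space a.E := inferInstance
  inferInstance

instance instCompactB [CompactSpace S] (a : GS S) : CompactSpace a.B :=
  have : CompactSpace a.V := inferInstance
  have : CompactSpace a.B1 := inferInstance
  inferInstance

instance instCompactD [CompactSpace S] (a : GS S) : CompactSpace a.D :=
  have : CompactSpace a.B := inferInstance
  inferInstance

instance instCompactE [CompactSpace S] (a : GS S) : CompactSpace a.E :=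
  have : CompactSpace a.toH3.K.T1 := inferInstance
  have : CompactSpace a.toH3.K.T2 := inferInstance
  inferInstance

instance instCompactX [CompactSpace S] (a : GS S) : CompactSpace a.X :=
  have : CompactSpace a.D := inferInstance
  have : CompactSpace a.V := inferInstance
  have : CompactSpace a.E := inferInstance
  inferInstance

end Instances

/-! ### Base points and generating paths -/

/-- The vertex of `V` labelled `x`. -/
def vpt (a : GS S) (x : S) : a.V := ZC.inA _ _ (ZC.inA _ _ (ZC.inA _ _ x))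

/-- The vertex of `X` labelled `x`. -/
def xpt (a : GS S) (x : S) : a.X := DM.inD _ _ (a.inVD (a.vpt x))

end GS

/-- The generators. -/
inductive Gn
  | z | u | y | s | r | t

namespace GS

/-- The action of a generator. -/
def act (a : GS S) : Gn → C(S, S)
  | .z => a.z
  | .u => a.u
  | .y => a.y
  | .s => a.s
  | .r => a.r
  | .t => a.t

/-- The handle of a generator at a vertex. -/
def hd (a : GS S) (x : S) : Gn → C(I, a.X)
  | .z => (DM.inD _ _).comp (a.inVD.comp ((ZC.inA _ _).comp ((ZC.inA _ _).comp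
      ((ZC.hdl _ _).comp ⟨fun t => (x, t), by fun_prop⟩))))
  | .u => (DM.inD _ _).comp (a.inVD.comp ((ZC.inA _ _).comp
      ((ZC.hdl _ _).comp ⟨fun t => (ZC.inA _ _ x, t), by fun_prop⟩)))
  | .y => (DM.inD _ _).comp (a.inVD.comp
      ((ZC.hdl _ _).comp ⟨fun t => (ZC.inA _ _ (ZC.inA _ _ x), t), by fun_prop⟩))
  | .s => (DM.inD _ _).comp ((ZC.inA _ _).comp ((ZC.inA _ _).comp
      ((ZC.hdl _ _).comp ⟨fun t => (a.vpt x, t), by fun_prop⟩)))
  | .r => (DM.inD _ _).comp ((ZC.inA _ _).comp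
      ((ZC.hdl _ _).comp ⟨fun t => (a.vpt x, t), by fun_prop⟩))
  | .t => (DM.inD _ _).comp ((ZC.hdl _ _).comp ⟨fun t => (a.inB (a.vpt x), t), by fun_prop⟩)

theorem hd_zero (a : GS S) (x : S) (g : Gn) : a.hd x g 0 = a.xpt x := by
  cases g
  · exact congrArg (fun p => DM.inD _ _ (a.inVD (ZC.inA _ _ (ZC.inA _ _ p)))) (ZC.hdl_zero x)
  · exact congrArg (fun p => DM.inD _ _ (a.inVD (ZC.inA _ _ p))) (ZC.hdl_zero _)
  · exact congrArg (fun p => DM.inD _ _ (a.inVD p)) (ZC.hdl_zero _)
  · exact congrArg (fun p => DM.inD _ _ (ZC.inA _ _ (ZC.inA _ _ p))) (ZC.hdl_zero _)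
  · exact congrArg (fun p => DM.inD _ _ (ZC.inA _ _ p)) (ZC.hdl_zero _)
  · exact congrArg (fun p => DM.inD _ _ p) (ZC.hdl_zero _)

theorem hd_one (a : GS S) (x : S) (g : Gn) : a.hd x g 1 = a.xpt (a.act g x) := by
  cases g
  · exact congrArg (fun p => DM.inD _ _ (a.inVD (ZC.inA _ _ (ZC.inA _ _ p)))) (ZC.hdl_one x)
  · exact congrArg (fun p => DM.inD _ _ (a.inVD (ZC.inA _ _ p))) (ZC.hdl_one _)
  · exact congrArg (fun p => DM.inD _ _ (a.inVD p)) (ZC.hdl_one _)
  · exact congrArg (fun p => DM.inD _ _ (ZC.inA _ _ (ZC.inA _ _ p))) (ZC.hdl_one _)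
  · exact congrArg (fun p => DM.inD _ _ (ZC.inA _ _ p)) (ZC.hdl_one _)
  · exact congrArg (fun p => DM.inD _ _ p) (ZC.hdl_one _)

/-- The generating path. -/
def lp (a : GS S) (g : Gn) (x : S) : Path (a.xpt x) (a.xpt (a.act g x)) where
  toContinuousMap := a.hd x g
  source' := a.hd_zero x g
  target' := a.hd_one x g

/-- The generating loops of the one-point case. -/
def lp1 (g : Gn) : Path (one.xpt ()) (one.xpt ()) := one.lp g ()

/-- All generators act bijectively. -/
def Bij (a : GS S) : Prop := ∀ g, Function.Bijective (a.act g)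

end GS

end

end

end Pool.H74
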