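import Mathlib

set_option autoImplicit false

/-!
# Arithmetic modulo 101

The sums for the lens spaces, with the 100-th root of unity replaced by `g` modulo 101, as functions
on natural numbers which the kernel can evaluate.
-/

namespace Pool.Agent.H74.WRT

/-- the 126 strictly decreasing quadruples of positive integers below 10 -/
def W : List (ℕ × ℕ × ℕ × ℕ) :=
  (List.range 10).flatMap fun a => (List.range a).flatMap fun b => (List.range b).flatMap fun c =>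
    ((List.range c).filter (fun d => Nat.blt 0 d)).map fun d => (a, b, c, d)

/-- `h ^ (x y) - 1` modulo 101 -/
def ent (h x y : ℕ) : ℕ := (Nat.pow h ((x * y) % 10) + 100) % 101

/-- 2 by 2 minor modulo 101 -/
def mn (h a b u v : ℕ) : ℕ := (ent h a u * ent h b v + 100 * (ent h a v * ent h b u)) % 101

/-- 4 by 4 minor modulo 101 -/
def dt (h a b c d u v w z : ℕ) : ℕ :=
  (mn h a b u v * mn h c d w z + 100 * (mn h a b u w * mn h c d v z) +
    mn h a b u z * mn h c d v w + mn h a b v w * mn h c d u z +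
    100 * (mn h a b v z * mn h c d u w) + mn h a b w z * mn h c d u v) % 101

/-- S-matrix entry modulo 101 -/
def Sn (g h : ℕ) (x y : ℕ × ℕ × ℕ × ℕ) : ℕ :=
  ((g ^ ((2 * (x.1 + x.2.1 + x.2.2.1 + x.2.2.2) * (y.1 + y.2.1 + y.2.2.1 + y.2.2.2)) % 100) % 101) *
    dt h x.1 x.2.1 x.2.2.1 x.2.2.2 y.1 y.2.1 y.2.2.1 y.2.2.2) % 101

/-- power of the twist modulo 101 -/
def Tn (g e : ℕ) (x : ℕ × ℕ × ℕ × ℕ) : ℕ :=
  g ^ ((e * (5 * (x.1 ^ 2 + x.2.1 ^ 2 + x.2.2.1 ^ 2 + x.2.2.2 ^ 2) +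
    99 * (x.1 + x.2.1 + x.2.2.1 + x.2.2.2) ^ 2 + 50)) % 100) % 101

/-- the vector `ρ` -/
def rn : ℕ × ℕ × ℕ × ℕ := (4, 3, 2, 1)

/-- sum for `L(5,1)` -/
def An (g h : ℕ) : ℕ := (W.map fun x => Sn g h x rn ^ 2 * Tn g 5 x).sum

/-- sum for `Δ` -/
def Gn (g h : ℕ) : ℕ := (W.map fun x => Sn g h x rn ^ 2 * Tn g 99 x).sum

/-- sum for `D` -/
def Kn (g h g' h' : ℕ) : ℕ := (W.map fun x => Sn g h x rn * Sn g' h' x rn).sum

/-- first vector in the sum for `L(5,2)` -/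
def Xn (g h : ℕ) (x : ℕ × ℕ × ℕ × ℕ) : ℕ := (Sn g h x rn * Tn g 3 x) % 101

/-- second vector in the sum for `L(5,2)` -/
def Yn (g h : ℕ) (x : ℕ × ℕ × ℕ × ℕ) : ℕ := (Sn g h x rn * Tn g 2 x) % 101

/-- sum for `L(5,2)` -/
def Bn (g h : ℕ) : ℕ :=
  (W.map fun x => Xn g h x * (W.map fun y => Sn g h x y * Yn g h y).sum).sum

theorem An_two : An 2 (2 ^ 90 % 101) % 101 = 9 := by decide +kernel

theorem An_51 : An 51 (51 ^ 90 % 101) % 101 = 19 := by decide +kernel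

theorem Gn_two : (Gn 2 (2 ^ 90 % 101) % 101 == 0) = false := by decide +kernel

theorem Kn_two : Kn 2 (2 ^ 90 % 101) 51 (51 ^ 90 % 101) % 101 = 5 := by decide +kernel

theorem Sn_two : (Sn 2 (2 ^ 90 % 101) rn rn % 101 == 0) = false := by decide +kernel

theorem Bn_two : Bn 2 (2 ^ 90 % 101) % 101 = 22 := by decide +kernel

theorem Bn_51 : Bn 51 (51 ^ 90 % 101) % 101 = 22 := by decide +kernel

end Pool.Agent.H74.WRT
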