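import Mathlib

/-!
# Witten-Reshetikhin-Turaev invariants of SU(N) for plumbed 3-manifolds

The modular data of SU(N) at level `r - N` (Kac-Peterson formula) and the Reshetikhin-Turaev surgery
formula, for the framed links which are tree-shaped connected sums of Hopf links (plumbing links).
-/

set_option autoImplicit false

namespace Pool.Agent.H74.WRT

open Finset

/-- The dominant integral weights of level at most `k = r - N` of `SU(N)`, shifted by `ρ`: a weight
`lam` is recorded by `x = lam + ρ` in `gl_N` coordinates normalised so that the last coordinate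
is `0`; so `x` runs over the strictly decreasing sequences
`r > x 0 > x 1 > ... > x (N - 1) = 0`. The Dynkin labels of `lam` are `x i - x (i + 1) - 1`. -/
def weights (N r : ℕ) : Finset (Fin N → ℕ) :=
  (Fintype.piFinset fun _ => Finset.range r).filter fun x =>
    (∀ i j : Fin N, i < j → x j < x i) ∧ ∀ i : Fin N, (i : ℕ) + 1 = N → x i = 0

/-- `ρ = (N - 1, ..., 1, 0)`, the shifted weight of the trivial representation. -/
def rho (N : ℕ) : Fin N → ℕ := fun i => N - 1 - i

/-- The basic inner product on weights of `SU(N)` (roots have square length `2`), in `gl_N`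
coordinates: it is the standard inner product of the projections to the hyperplane of coordinate
sum zero. -/
noncomputable def ip {N : ℕ} (x y : Fin N → ℕ) : ℝ :=
  ∑ i, (x i : ℝ) * (y i : ℝ) - (∑ i, (x i : ℝ)) * (∑ i, (y i : ℝ)) / (N : ℝ)

/-- The Kac-Peterson sum `∑_{w ∈ S_N} sign(w) exp(-2 π i ⟨w x, y⟩ / r)`, which is the modular
`S`-matrix entry of the (shifted) weights `x`, `y`, up to a factor independent of `x` and `y`. -/
noncomputable def S (N r : ℕ) (x y : Fin N → ℕ) : ℂ :=
  ∑ w : Equiv.Perm (Fin N), ((Equiv.Perm.sign w : ℤ) : ℂ) *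
    Complex.exp (-(2 * (Real.pi : ℂ) * Complex.I * (ip (x ∘ w) y : ℂ) / (r : ℂ)))

/-- The quantum dimension (the invariant of the 0-framed unknot with colour `x`). -/
noncomputable def qdim (N r : ℕ) (x : Fin N → ℕ) : ℂ := S N r x (rho N) / S N r (rho N) (rho N)

/-- The invariant of the 0-framed Hopf link with colours `x`, `y`. -/
noncomputable def hopf (N r : ℕ) (x y : Fin N → ℕ) : ℂ := S N r x y / S N r (rho N) (rho N)

/-- The twist `exp(π i ⟨lam, lam + 2 ρ⟩ / r)` of the colour `x = lam + ρ`: the effect of one
positive full twist of the framing. -/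
noncomputable def twist (N r : ℕ) (x : Fin N → ℕ) : ℂ :=
  Complex.exp ((Real.pi : ℂ) * Complex.I * ((ip x x - ip (rho N) (rho N) : ℝ) : ℂ) / (r : ℂ))

/-- The positive number `D` with `D ^ 2 = ∑ |dim(x)| ^ 2`. -/
noncomputable def D (N r : ℕ) : ℝ := Real.sqrt (∑ x ∈ weights N r, ‖qdim N r x‖ ^ 2)

/-- The Gauss sum `Δ = ∑ twist(x)⁻¹ dim(x) ^ 2`. -/
noncomputable def Delta (N r : ℕ) : ℂ := ∑ x ∈ weights N r, (twist N r x)⁻¹ * qdim N r x ^ 2

/-- A plumbing tree: a finite tree with an integer weight at each vertex. It presents the closed
oriented 3-manifold obtained by surgery on the framed link in `S³` whose components are unknots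
indexed by the vertices, two components forming a Hopf link if the vertices are adjacent and being
unlinked otherwise, with framings the weights. -/
structure Plumbing where
  /-- number of vertices -/
  n : ℕ
  /-- the tree -/
  tree : SimpleGraph (Fin n)
  isTree : tree.IsTree
  /-- the weights, i.e. the framings of the surgery link -/
  framing : Fin n → ℤ

namespace Plumbing

open Classical in
/-- The linking matrix of the surgery link. -/
noncomputable def linking (P : Plumbing) : Matrix (Fin P.n) (Fin P.n) ℝ :=
  Matrix.of fun v w => if v = w then (P.framing v : ℝ) else if P.tree.Adj v w then 1 else 0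

open Classical in
/-- The signature of the (real symmetric) linking matrix: number of positive eigenvalues minus
number of negative eigenvalues. -/
noncomputable def signature (P : Plumbing) : ℤ :=
  ((P.linking.charpoly.roots.filter (fun t => 0 < t)).card : ℤ) -
    ((P.linking.charpoly.roots.filter (fun t => t < 0)).card : ℤ)

open Classical in
/-- The number of neighbours of a vertex. -/
noncomputable def deg (P : Plumbing) (v : Fin P.n) : ℕ :=
  (Finset.univ.filter fun w => P.tree.Adj v w).card

open Classical in
/-- `∑ ∏_v dim(c_v) · J(c)`, the sum over all colourings `c` of the components, where `J(c)` is the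
`SU(N)` invariant of the framed surgery link coloured by `c`, that is
`J(c) = ∏_v twist(c_v) ^ framing(v) · dim(c_v) ^ (1 - deg v) · ∏_{edges vw} hopf(c_v, c_w)`. -/
noncomputable def linkSum (N r : ℕ) (P : Plumbing) : ℂ :=
  ∑ c ∈ Fintype.piFinset (fun _ : Fin P.n => weights N r),
    (∏ v, twist N r (c v) ^ (P.framing v) * qdim N r (c v) ^ (2 - (P.deg v : ℤ))) *
      ∏ v, ∏ w, if v < w ∧ P.tree.Adj v w then hopf N r (c v) (c w) else 1

/-- The Witten-Reshetikhin-Turaev `SU(N)` invariant at `r = k + N` of the 3-manifold presented by
the plumbing tree, normalised to be `1` for the 3-sphere: `(Δ / |Δ|) ^ σ · D ^ (-n) · linkSum`. -/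
noncomputable def wrt (N r : ℕ) (P : Plumbing) : ℂ :=
  (Delta N r / (‖Delta N r‖ : ℂ)) ^ P.signature * ((D N r : ℂ) ^ P.n)⁻¹ * P.linkSum N r

open Classical in
/-- The relators of the fundamental group of the plumbed manifold: the generators are the meridians
of the surgery link; meridians of adjacent components commute, and for each `v` the surgery slope
`x_v ^ (framing v) · ∏_{w adjacent to v} x_w` is trivial. -/
noncomputable def relators (P : Plumbing) : Set (FreeGroup (Fin P.n)) :=
  {g | ∃ v, g = FreeGroup.of v ^ (P.framing v) *
      ((List.finRange P.n).map fun w => if P.tree.Adj v w then FreeGroup.of w else 1).prod} ∪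
  {g | ∃ v w, P.tree.Adj v w ∧
      g = FreeGroup.of v * FreeGroup.of w * (FreeGroup.of v)⁻¹ * (FreeGroup.of w)⁻¹}

/-- The fundamental group of the plumbed manifold. -/
abbrev pi1 (P : Plumbing) : Type := PresentedGroup P.relators

end Plumbing

/-- The lens space `L(5,1)`: one unknot with framing `5`. -/
def L51 : Plumbing where
  n := 1
  tree := ⊤
  isTree := SimpleGraph.IsTree.of_subsingleton
  framing := fun _ => 5

/-- The lens space `L(5,2)`: a Hopf link with framings `3`, `2`; indeed `5 / 2 = 3 - 1 / 2`. -/
def L52 : Plumbing where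
  n := 2
  tree := ⊤
  isTree := ⟨SimpleGraph.connected_top, SimpleGraph.IsAcyclic.of_card_le_two (by simp)⟩
  framing := ![3, 2]

end Pool.Agent.H74.WRT
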