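import Mathlib
import Pool.Agent.H74.WRTDefs
import Pool.Agent.H74.WRTComp

set_option autoImplicit false

namespace Pool.Agent.H74.WRT

open Finset

theorem det5_ones {R : Type*} [CommRing R]
    (a00 a01 a02 a03 a10 a11 a12 a13 a20 a21 a22 a23 a30 a31 a32 a33 : R) :
    Matrix.det !![a00, a01, a02, a03, 1;
      a10, a11, a12, a13, 1;
      a20, a21, a22, a23, 1;
      a30, a31, a32, a33, 1;
      1, 1, 1, 1, 1] =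
     ((a00 - 1) * (a11 - 1) - (a01 - 1) * (a10 - 1)) * ((a22 - 1) * (a33 - 1) - (a23 - 1) * (a32 - 1)) -
     ((a00 - 1) * (a12 - 1) - (a02 - 1) * (a10 - 1)) * ((a21 - 1) * (a33 - 1) - (a23 - 1) * (a31 - 1)) +
     ((a00 - 1) * (a13 - 1) - (a03 - 1) * (a10 - 1)) * ((a21 - 1) * (a32 - 1) - (a22 - 1) * (a31 - 1)) +
     ((a01 - 1) * (a12 - 1) - (a02 - 1) * (a11 - 1)) * ((a20 - 1) * (a33 - 1) - (a23 - 1) * (a30 - 1)) -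
     ((a01 - 1) * (a13 - 1) - (a03 - 1) * (a11 - 1)) * ((a20 - 1) * (a32 - 1) - (a22 - 1) * (a30 - 1)) +
     ((a02 - 1) * (a13 - 1) - (a03 - 1) * (a12 - 1)) * ((a20 - 1) * (a31 - 1) - (a21 - 1) * (a30 - 1)) := by
  simp [Matrix.det_succ_row_zero, Fin.sum_univ_succ, Fin.succAbove]
  ring

/-- the shifted weight with the given first four coordinates -/
def vec (q : ℕ × ℕ × ℕ × ℕ) : Fin 5 → ℕ := ![q.1, q.2.1, q.2.2.1, q.2.2.2, 0]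

section ring
variable {R : Type*} [CommRing R]

/-- ring version of `S 5 10` -/
def SR (g : R) (x y : Fin 5 → ℕ) : R :=
  ∑ w : Equiv.Perm (Fin 5), ((Equiv.Perm.sign w : ℤ) : R) *
    g ^ (90 * ∑ i, x (w i) * y i + 2 * (∑ i, x i) * (∑ i, y i))

/-- ring version of the twist -/
def TR (g : R) (x : Fin 5 → ℕ) : R := g ^ (5 * ∑ i, x i ^ 2 + 99 * (∑ i, x i) ^ 2 + 50)

theorem SR_det (g : R) (x y : Fin 5 → ℕ) :
    SR g x y = g ^ (2 * (∑ i, x i) * (∑ i, y i)) *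
      Matrix.det (Matrix.of fun i j : Fin 5 => (g ^ 90) ^ (x i * y j)) := by
  rw [Matrix.det_apply', Finset.mul_sum, SR]
  refine Finset.sum_congr rfl fun w _ => ?_
  have : ∏ i, (Matrix.of fun i j : Fin 5 => (g ^ 90) ^ (x i * y j)) (w i) i
      = g ^ (90 * ∑ i, x (w i) * y i) := by
    simp only [Matrix.of_apply]
    rw [Finset.prod_pow_eq_pow_sum, ← pow_mul]
  rw [this, pow_add]
  ring

theorem SR_vec (g : R) (q p : ℕ × ℕ × ℕ × ℕ) (h : R) (hh : h = g ^ 90) :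
    SR g (vec q) (vec p) = g ^ (2 * (q.1 + q.2.1 + q.2.2.1 + q.2.2.2) * (p.1 + p.2.1 + p.2.2.1 + p.2.2.2)) *
     ((((h ^ (q.1 * p.1) - 1) * (h ^ (q.2.1 * p.2.1) - 1) -
        (h ^ (q.1 * p.2.1) - 1) * (h ^ (q.2.1 * p.1) - 1)) *
       ((h ^ (q.2.2.1 * p.2.2.1) - 1) * (h ^ (q.2.2.2 * p.2.2.2) - 1) -
        (h ^ (q.2.2.1 * p.2.2.2) - 1) * (h ^ (q.2.2.2 * p.2.2.1) - 1))) -
      (((h ^ (q.1 * p.1) - 1) * (h ^ (q.2.1 * p.2.2.1) - 1) -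
        (h ^ (q.1 * p.2.2.1) - 1) * (h ^ (q.2.1 * p.1) - 1)) *
       ((h ^ (q.2.2.1 * p.2.1) - 1) * (h ^ (q.2.2.2 * p.2.2.2) - 1) -
        (h ^ (q.2.2.1 * p.2.2.2) - 1) * (h ^ (q.2.2.2 * p.2.1) - 1))) +
      (((h ^ (q.1 * p.1) - 1) * (h ^ (q.2.1 * p.2.2.2) - 1) -
        (h ^ (q.1 * p.2.2.2) - 1) * (h ^ (q.2.1 * p.1) - 1)) *
       ((h ^ (q.2.2.1 * p.2.1) - 1) * (h ^ (q.2.2.2 * p.2.2.1) - 1) -
        (h ^ (q.2.2.1 * p.2.2.1) - 1) * (h ^ (q.2.2.2 * p.2.1) - 1))) +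
      (((h ^ (q.1 * p.2.1) - 1) * (h ^ (q.2.1 * p.2.2.1) - 1) -
        (h ^ (q.1 * p.2.2.1) - 1) * (h ^ (q.2.1 * p.2.1) - 1)) *
       ((h ^ (q.2.2.1 * p.1) - 1) * (h ^ (q.2.2.2 * p.2.2.2) - 1) -
        (h ^ (q.2.2.1 * p.2.2.2) - 1) * (h ^ (q.2.2.2 * p.1) - 1))) -
      (((h ^ (q.1 * p.2.1) - 1) * (h ^ (q.2.1 * p.2.2.2) - 1) -
        (h ^ (q.1 * p.2.2.2) - 1) * (h ^ (q.2.1 * p.2.1) - 1)) *
       ((h ^ (q.2.2.1 * p.1) - 1) * (h ^ (q.2.2.2 * p.2.2.1) - 1) -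
        (h ^ (q.2.2.1 * p.2.2.1) - 1) * (h ^ (q.2.2.2 * p.1) - 1))) +
      (((h ^ (q.1 * p.2.2.1) - 1) * (h ^ (q.2.1 * p.2.2.2) - 1) -
        (h ^ (q.1 * p.2.2.2) - 1) * (h ^ (q.2.1 * p.2.2.1) - 1)) *
       ((h ^ (q.2.2.1 * p.1) - 1) * (h ^ (q.2.2.2 * p.2.1) - 1) -
        (h ^ (q.2.2.1 * p.2.1) - 1) * (h ^ (q.2.2.2 * p.1) - 1)))) := by
  rw [SR_det, ← hh]
  have hM : (Matrix.of fun i j : Fin 5 => h ^ (vec q i * vec p j)) =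
     !![h ^ (q.1 * p.1), h ^ (q.1 * p.2.1), h ^ (q.1 * p.2.2.1), h ^ (q.1 * p.2.2.2), 1;
        h ^ (q.2.1 * p.1), h ^ (q.2.1 * p.2.1), h ^ (q.2.1 * p.2.2.1), h ^ (q.2.1 * p.2.2.2), 1;
        h ^ (q.2.2.1 * p.1), h ^ (q.2.2.1 * p.2.1), h ^ (q.2.2.1 * p.2.2.1),
          h ^ (q.2.2.1 * p.2.2.2), 1;
        h ^ (q.2.2.2 * p.1), h ^ (q.2.2.2 * p.2.1), h ^ (q.2.2.2 * p.2.2.1),
          h ^ (q.2.2.2 * p.2.2.2), 1;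
        1, 1, 1, 1, 1] := by
    ext i j
    fin_cases i <;> fin_cases j <;> simp [vec]
  rw [hM, det5_ones]
  congr 2
  · simp [vec, Fin.sum_univ_succ]
    ring

end ring

end Pool.Agent.H74.WRT
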