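import Mathlib
import Pool.Agent.H74.WRTDet

set_option autoImplicit false

namespace Pool.Agent.H74.WRT

open Finset

theorem mem_W (q : ℕ × ℕ × ℕ × ℕ) :
    q ∈ W ↔ q.1 < 10 ∧ q.2.1 < q.1 ∧ q.2.2.1 < q.2.1 ∧ q.2.2.2 < q.2.2.1 ∧ 0 < q.2.2.2 := by
  obtain ⟨a, b, c, d⟩ := q
  simp only [W, List.mem_flatMap, List.mem_range, List.mem_map, List.mem_filter, Nat.blt_eq,
    Prod.mk.injEq]
  constructor
  · rintro ⟨a', ha, b', hb, c', hc, d', ⟨hd, hd'⟩, rfl, rfl, rfl, rfl⟩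
    exact ⟨ha, hb, hc, hd, hd'⟩
  · rintro ⟨ha, hb, hc, hd, hd'⟩
    exact ⟨a, ha, b, hb, c, hc, d, ⟨hd, hd'⟩, rfl, rfl, rfl, rfl⟩

theorem W_nodup : W.Nodup := by decide +kernel

theorem vec_injective : Function.Injective vec := by
  rintro ⟨a, b, c, d⟩ ⟨a', b', c', d'⟩ h
  have h0 := congrFun h 0
  have h1 := congrFun h 1
  have h2 := congrFun h 2
  have h3 := congrFun h 3
  simp [vec] at h0 h1 h2 h3
  simp [h0, h1, h2, h3]

theorem weights_eq : weights 5 10 = W.toFinset.image vec := by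
  ext x
  simp only [weights, Finset.mem_filter, Fintype.mem_piFinset, Finset.mem_range, Finset.mem_image,
    List.mem_toFinset, mem_W]
  constructor
  · rintro ⟨hx, hanti, hlast⟩
    refine ⟨(x 0, x 1, x 2, x 3), ⟨hx 0, hanti 0 1 (by decide), hanti 1 2 (by decide),
      hanti 2 3 (by decide), ?_⟩, ?_⟩
    · have := hanti 3 4 (by decide)
      rw [hlast 4 rfl] at this
      exact this
    · funext i
      fin_cases i <;> simp [vec]
      exact (hlast 4 rfl).symm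
  · rintro ⟨⟨a, b, c, d⟩, ⟨h0, h1, h2, h3, h4⟩, rfl⟩
    simp only at h0 h1 h2 h3 h4
    refine ⟨?_, ?_, ?_⟩
    · intro i
      fin_cases i <;> simp [vec] <;> omega
    · intro i j hij
      fin_cases i <;> fin_cases j <;> simp [vec] at hij ⊢ <;> omega
    · intro i hi
      fin_cases i <;> simp [vec] at hi ⊢

theorem sum_weights {M : Type*} [AddCommMonoid M] (f : (Fin 5 → ℕ) → M) :
    ∑ x ∈ weights 5 10, f x = (W.map fun q => f (vec q)).sum := by
  rw [weights_eq, Finset.sum_image (fun a _ b _ h => vec_injective h),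
    List.sum_toFinset _ W_nodup]

section cast

variable {R : Type*} [CommRing R] [CharP R 101]
variable (g h : ℕ) (hg : (g : R) ^ 100 = 1) (hh : (h : R) = (g : R) ^ 90)

theorem cast_mod (x : ℕ) : ((x % 101 : ℕ) : R) = (x : R) := (CharP.cast_eq_mod R 101 x).symm

theorem cast_100 : ((100 : ℕ) : R) = -1 := by
  have h : ((101 : ℕ) : R) = 0 := CharP.cast_eq_zero R 101
  have h2 : ((101 : ℕ) : R) = ((100 : ℕ) : R) + 1 := by norm_cast
  rw [h2] at h
  exact eq_neg_of_add_eq_zero_left h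

include hg hh

theorem h10 : (h : R) ^ 10 = 1 := by
  rw [hh, ← pow_mul, show 90 * 10 = 100 * 9 by norm_num, pow_mul, hg, one_pow]

theorem ent_cast (x y : ℕ) : (ent h x y : R) = (h : R) ^ (x * y) - 1 := by
  rw [ent, cast_mod, Nat.cast_add]
  change ((h ^ (x * y % 10) : ℕ) : R) + ((100 : ℕ) : R) = _
  rw [Nat.cast_pow, pow_eq_pow_mod (x * y) (h10 g h hg hh), cast_100, sub_eq_add_neg]

theorem mn_cast (a b u v : ℕ) : (mn h a b u v : R) =
    ((h : R) ^ (a * u) - 1) * ((h : R) ^ (b * v) - 1) -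
    ((h : R) ^ (a * v) - 1) * ((h : R) ^ (b * u) - 1) := by
  rw [mn, cast_mod, Nat.cast_add, Nat.cast_mul, Nat.cast_mul, Nat.cast_mul, cast_100,
    ent_cast g h hg hh, ent_cast g h hg hh, ent_cast g h hg hh, ent_cast g h hg hh,
    neg_one_mul, ← sub_eq_add_neg]

theorem Sn_cast (q p : ℕ × ℕ × ℕ × ℕ) :
    (Sn g h q p : R) = SR (g : R) (vec q) (vec p) := by
  rw [SR_vec _ _ _ _ hh, Sn, cast_mod, Nat.cast_mul, cast_mod, dt,
    cast_mod, Nat.cast_pow, pow_eq_pow_mod (2 * _ * _) hg]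
  simp only [Nat.cast_add, Nat.cast_mul, cast_100, mn_cast g h hg hh, neg_one_mul,
    ← sub_eq_add_neg]

omit hh in
theorem Tn_cast (e : ℕ) (q : ℕ × ℕ × ℕ × ℕ) :
    (Tn g e q : R) = TR (g : R) (vec q) ^ e := by
  rw [Tn, cast_mod, Nat.cast_pow, ← pow_eq_pow_mod _ hg, TR, ← pow_mul, mul_comm e]
  congr 2
  simp [vec, Fin.sum_univ_succ]
  ring

end cast

end Pool.Agent.H74.WRT
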