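import Mathlib
import Pool.Agent.H74.WRTDefs
import Pool.Agent.H74.WRTDet

set_option autoImplicit false

namespace Pool.Agent.H74.WRT

open Finset

theorem sum_pi_one {α M : Type*} [DecidableEq α] [AddCommMonoid M] (s : Finset α)
    (f : (Fin 1 → α) → M) :
    ∑ c ∈ Fintype.piFinset (fun _ : Fin 1 => s), f c = ∑ x ∈ s, f (fun _ => x) := by
  refine Finset.sum_nbij' (fun c => c 0) (fun x _ => x) ?_ ?_ ?_ ?_ ?_
  · intro c hc
    exact Fintype.mem_piFinset.1 hc 0
  · intro x hx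
    exact Fintype.mem_piFinset.2 fun _ => hx
  · intro c _
    funext i
    fin_cases i
    rfl
  · intro x _
    rfl
  · intro c _
    congr 1
    funext i
    fin_cases i
    rfl

theorem sum_pi_two {α M : Type*} [DecidableEq α] [AddCommMonoid M] (s : Finset α)
    (f : (Fin 2 → α) → M) :
    ∑ c ∈ Fintype.piFinset (fun _ : Fin 2 => s), f c = ∑ x ∈ s, ∑ y ∈ s, f ![x, y] := by
  rw [← Finset.sum_product']
  refine Finset.sum_nbij' (fun c => (c 0, c 1)) (fun p => ![p.1, p.2]) ?_ ?_ ?_ ?_ ?_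
  · intro c hc
    exact Finset.mem_product.2 ⟨Fintype.mem_piFinset.1 hc 0, Fintype.mem_piFinset.1 hc 1⟩
  · intro p hp
    have hp := Finset.mem_product.1 hp
    refine Fintype.mem_piFinset.2 fun i => ?_
    fin_cases i
    · exact hp.1
    · exact hp.2
  · intro c _
    funext i
    fin_cases i <;> rfl
  · intro p _
    rfl
  · intro c _
    congr 1
    funext i
    fin_cases i <;> rfl

theorem linkSum_one (N r : ℕ) (h : (⊤ : SimpleGraph (Fin 1)).IsTree) (e : Fin 1 → ℤ) :
    Plumbing.linkSum N r ⟨1, ⊤, h, e⟩ =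
      ∑ x ∈ weights N r, twist N r x ^ (e 0) * qdim N r x ^ 2 := by
  unfold Plumbing.linkSum Plumbing.deg
  dsimp only
  rw [sum_pi_one]
  refine Finset.sum_congr rfl fun x _ => ?_
  have hc : (Finset.univ.filter fun w : Fin 1 => (⊤ : SimpleGraph (Fin 1)).Adj 0 w) = ∅ := by
    rw [Finset.filter_eq_empty_iff]
    intro w _
    simp [Subsingleton.elim w 0]
  simp only [Fin.prod_univ_one]
  rw [if_neg (by simp), mul_one]
  congr 1
  have : ((Finset.univ.filter fun w : Fin 1 => (⊤ : SimpleGraph (Fin 1)).Adj 0 w).card : ℤ) = 0 := by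
    rw [hc]
    simp
  have h2 : (2 - (0 : ℤ)) = ((2 : ℕ) : ℤ) := by norm_num
  rw [← zpow_natCast, ← h2, ← this]
  congr!

theorem linkSum_two (N r : ℕ) (h : (⊤ : SimpleGraph (Fin 2)).IsTree) (e : Fin 2 → ℤ) :
    Plumbing.linkSum N r ⟨2, ⊤, h, e⟩ =
      ∑ x ∈ weights N r, ∑ y ∈ weights N r,
      (twist N r x ^ (e 0) * qdim N r x) * (twist N r y ^ (e 1) * qdim N r y) * hopf N r x y := by
  unfold Plumbing.linkSum Plumbing.deg
  dsimp only
  rw [sum_pi_two]
  refine Finset.sum_congr rfl fun x _ => Finset.sum_congr rfl fun y _ => ?_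
  have hc0 : (Finset.univ.filter fun w : Fin 2 => (⊤ : SimpleGraph (Fin 2)).Adj 0 w).card = 1 := by
    decide
  have hc1 : (Finset.univ.filter fun w : Fin 2 => (⊤ : SimpleGraph (Fin 2)).Adj 1 w).card = 1 := by
    decide
  simp only [Fin.prod_univ_two]
  rw [if_neg (by simp), if_pos (by simp), if_neg (by simp), if_neg (by simp)]
  have h2 : (2 - ((1 : ℕ) : ℤ)) = 1 := by norm_num
  have e0 : (2 - (((Finset.univ.filter fun w : Fin 2 =>
      (⊤ : SimpleGraph (Fin 2)).Adj 0 w).card : ℕ) : ℤ)) = 1 := by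
    rw [hc0]
    norm_num
  have e1 : (2 - (((Finset.univ.filter fun w : Fin 2 =>
      (⊤ : SimpleGraph (Fin 2)).Adj 1 w).card : ℕ) : ℤ)) = 1 := by
    rw [hc1]
    norm_num
  have e0' : ∀ z : ℂ, z ^ (2 - (((Finset.univ.filter fun w : Fin 2 =>
      (⊤ : SimpleGraph (Fin 2)).Adj 0 w).card : ℕ) : ℤ)) = z := by
    intro z
    rw [e0, zpow_one]
  have e1' : ∀ z : ℂ, z ^ (2 - (((Finset.univ.filter fun w : Fin 2 =>
      (⊤ : SimpleGraph (Fin 2)).Adj 1 w).card : ℕ) : ℤ)) = z := by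
    intro z
    rw [e1, zpow_one]
  simp only [one_mul, mul_one, Matrix.cons_val_zero, Matrix.cons_val_one]
  congr 2
  · congr 1
    convert e0' _
  · congr 1
    convert e1' _

theorem linkSum_L51 (N r : ℕ) :
    L51.linkSum N r = ∑ x ∈ weights N r, twist N r x ^ 5 * qdim N r x ^ 2 := by
  have := linkSum_one N r L51.isTree (fun _ => 5)
  exact_mod_cast this

theorem linkSum_L52 (N r : ℕ) :
    L52.linkSum N r = ∑ x ∈ weights N r, ∑ y ∈ weights N r,
      (twist N r x ^ 3 * qdim N r x) * (twist N r y ^ 2 * qdim N r y) * hopf N r x y := by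
  have := linkSum_two N r L52.isTree ![3, 2]
  exact_mod_cast this

end Pool.Agent.H74.WRT
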