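import Mathlib
import Pool.Agent.H74.WRTSums

set_option autoImplicit false

namespace Pool.Agent.H74.WRT

open Finset

/-- the root of unity -/
noncomputable def zeta : ℂ := Complex.exp (2 * Real.pi * Complex.I / ((100 : ℕ) : ℂ))

theorem zeta_prim : IsPrimitiveRoot zeta 100 := Complex.isPrimitiveRoot_exp 100 (by norm_num)

theorem zeta_pow_eq (n : ℕ) (z : ℂ) (k : ℤ)
    (h : 2 * Real.pi * Complex.I / 100 * n = z + k * (2 * Real.pi * Complex.I)) :
    zeta ^ n = Complex.exp z := by
  rw [zeta, ← Complex.exp_nat_mul, ← Complex.exp_periodic.int_mul k z]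
  congr 1
  rw [← h]
  push_cast
  ring

theorem S_eq (x y : Fin 5 → ℕ) : S 5 10 x y = SR zeta x y := by
  unfold S SR
  refine Finset.sum_congr rfl fun w _ => ?_
  congr 1
  symm
  have hs : (∑ i, ((x ∘ w) i : ℝ)) = ∑ i, (x i : ℝ) := by
    exact Equiv.sum_comp w (fun i => (x i : ℝ))
  apply zeta_pow_eq _ _ (∑ i, (x (w i) : ℤ) * (y i : ℤ))
  unfold ip
  rw [hs]
  simp only [Function.comp]
  push_cast
  ring

theorem ip_rho : ip (rho 5) (rho 5) = 10 := by
  unfold ip rho
  simp [Fin.sum_univ_succ]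
  norm_num

theorem twist_eq (x : Fin 5 → ℕ) : twist 5 10 x = TR zeta x := by
  unfold twist TR
  symm
  apply zeta_pow_eq _ _ ((∑ i, (x i : ℤ)) ^ 2 + 1)
  rw [ip_rho]
  unfold ip
  have : ∀ i, (x i : ℂ) ^ 2 = (x i : ℂ) * (x i : ℂ) := fun i => sq _
  push_cast
  simp only [this]
  ring

section map
variable {R R' : Type*} [CommRing R] [CommRing R'] (f : R →+* R')

theorem map_SR (g : R) (x y : Fin 5 → ℕ) : f (SR g x y) = SR (f g) x y := by
  simp [SR, map_sum, map_mul, map_pow]

theorem map_TR (g : R) (x : Fin 5 → ℕ) : f (TR g x) = TR (f g) x := by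
  simp [TR]

/-- `∑ S(x,ρ) S'(x,ρ)` -/
def KR (g : R) : R := ∑ x ∈ weights 5 10, SR g x (rho 5) * SR (g ^ 99) x (rho 5)

/-- sum for `L(5,1)` -/
def AR (g : R) : R := ∑ x ∈ weights 5 10, SR g x (rho 5) ^ 2 * TR g x ^ 5

/-- sum for `L(5,2)` -/
def BR (g : R) : R := ∑ x ∈ weights 5 10, SR g x (rho 5) * TR g x ^ 3 *
  ∑ y ∈ weights 5 10, SR g x y * (SR g y (rho 5) * TR g y ^ 2)

/-- Gauss sum -/
def GR (g : R) : R := ∑ x ∈ weights 5 10, SR g x (rho 5) ^ 2 * TR g x ^ 99

/-- the difference of squared moduli, up to a nonzero factor -/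
def FR (g : R) : R := KR g * (AR g * AR (g ^ 99)) - BR g * BR (g ^ 99)

theorem map_KR (g : R) : f (KR g) = KR (f g) := by
  simp [KR, map_SR, map_sum, map_mul, map_pow]

theorem map_AR (g : R) : f (AR g) = AR (f g) := by
  simp [AR, map_SR, map_TR, map_sum, map_mul, map_pow]

theorem map_BR (g : R) : f (BR g) = BR (f g) := by
  simp [BR, map_SR, map_TR, map_sum, map_mul, map_pow]

theorem map_GR (g : R) : f (GR g) = GR (f g) := by
  simp [GR, map_SR, map_TR, map_sum, map_mul, map_pow]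

theorem map_FR (g : R) : f (FR g) = FR (f g) := by
  simp [FR, map_KR, map_AR, map_BR]

end map

theorem conj_zeta : (starRingEnd ℂ) zeta = zeta ^ 99 := by
  have h1 : ‖zeta‖ = 1 := Complex.norm_eq_one_of_pow_eq_one zeta_prim.pow_eq_one (by norm_num)
  have h2 : zeta * (starRingEnd ℂ) zeta = 1 := by
    rw [Complex.mul_conj, Complex.normSq_eq_norm_sq, h1]
    norm_num
  have h3 : zeta * zeta ^ 99 = 1 := by
    rw [← pow_succ']
    exact zeta_prim.pow_eq_one
  have h0 : zeta ≠ 0 := by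
    intro h
    rw [h] at h1
    simp at h1
  exact mul_left_cancel₀ h0 (h2.trans h3.symm)

theorem normSq_eq (z : ℂ) : ((‖z‖ ^ 2 : ℝ) : ℂ) = z * (starRingEnd ℂ) z := by
  rw [Complex.mul_conj, Complex.normSq_eq_norm_sq]

/-- transfer from the complex numbers to `ZMod 101` -/
theorem transfer (F : ∀ {R : Type} [CommRing R], R → R)
    (hF : ∀ {R R' : Type} [CommRing R] [CommRing R'] (f : R →+* R') (g : R), f (F g) = F (f g))
    (g : ZMod 101) (hg : IsPrimitiveRoot g 100) (h : F zeta = 0) : F g = 0 := by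
  set p : Polynomial ℤ := F (Polynomial.X : Polynomial ℤ) with hp
  have h1 : Polynomial.aeval zeta p = 0 := by
    have := hF (Polynomial.aeval (R := ℤ) zeta).toRingHom (Polynomial.X : Polynomial ℤ)
    have e : (Polynomial.aeval (R := ℤ) zeta).toRingHom (Polynomial.X : Polynomial ℤ) = zeta :=
      Polynomial.aeval_X zeta
    rw [e, h] at this
    exact this
  have h2 : Polynomial.cyclotomic 100 ℤ ∣ p := by
    rw [Polynomial.cyclotomic_eq_minpoly zeta_prim (by norm_num)]
    exact minpoly.isIntegrallyClosed_dvd (zeta_prim.isIntegral (by norm_num)) h1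
  have h3 : Polynomial.aeval g p = F g := by
    have := hF (Polynomial.aeval (R := ℤ) g).toRingHom (Polynomial.X : Polynomial ℤ)
    have e : (Polynomial.aeval (R := ℤ) g).toRingHom (Polynomial.X : Polynomial ℤ) = g :=
      Polynomial.aeval_X g
    rw [e] at this
    exact this
  obtain ⟨q, hq⟩ := h2
  rw [← h3, hq, map_mul]
  have h4 : Polynomial.aeval g (Polynomial.cyclotomic 100 ℤ) = 0 := by
    rw [Polynomial.aeval_def, Polynomial.eval₂_eq_eval_map, algebraMap_int_eq,
      Polynomial.map_cyclotomic_int]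
    have : Fact (Nat.Prime 101) := ⟨by norm_num⟩
    exact (hg.isRoot_cyclotomic (by norm_num))
  rw [h4, zero_mul]

end Pool.Agent.H74.WRT
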