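import Mathlib
import Pool.Agent.H74.WRTCast
import Pool.Agent.H74.WRTComplex

set_option autoImplicit false

namespace Pool.Agent.H74.WRT

open Finset

theorem rho_eq : rho 5 = vec rn := by
  funext i
  fin_cases i <;> rfl

section cast

variable {R : Type*} [CommRing R] [CharP R 101]
variable (g h g' h' : ℕ) (hg : (g : R) ^ 100 = 1) (hh : (h : R) = (g : R) ^ 90)

include hg hh

theorem AR_cast : AR (g : R) = (An g h : R) := by
  rw [AR, sum_weights, An, Nat.cast_list_sum, List.map_map]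
  congr 1
  refine List.map_congr_left fun q _ => ?_
  simp only [Function.comp]
  rw [Nat.cast_mul, Nat.cast_pow, Sn_cast g h hg hh, Tn_cast g hg, rho_eq]

theorem GR_cast : GR (g : R) = (Gn g h : R) := by
  rw [GR, sum_weights, Gn, Nat.cast_list_sum, List.map_map]
  congr 1
  refine List.map_congr_left fun q _ => ?_
  simp only [Function.comp]
  rw [Nat.cast_mul, Nat.cast_pow, Sn_cast g h hg hh, Tn_cast g hg, rho_eq]

theorem Xn_cast (q : ℕ × ℕ × ℕ × ℕ) :
    (Xn g h q : R) = SR (g : R) (vec q) (rho 5) * TR (g : R) (vec q) ^ 3 := by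
  rw [Xn, cast_mod, Nat.cast_mul, Sn_cast g h hg hh, Tn_cast g hg, rho_eq]

theorem Yn_cast (q : ℕ × ℕ × ℕ × ℕ) :
    (Yn g h q : R) = SR (g : R) (vec q) (rho 5) * TR (g : R) (vec q) ^ 2 := by
  rw [Yn, cast_mod, Nat.cast_mul, Sn_cast g h hg hh, Tn_cast g hg, rho_eq]

theorem BR_cast : BR (g : R) = (Bn g h : R) := by
  rw [BR, sum_weights, Bn, Nat.cast_list_sum, List.map_map]
  congr 1
  refine List.map_congr_left fun q _ => ?_
  simp only [Function.comp]
  rw [Nat.cast_mul, Xn_cast g h hg hh, sum_weights, Nat.cast_list_sum, List.map_map]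
  congr 2
  refine List.map_congr_left fun p _ => ?_
  simp only [Function.comp]
  rw [Nat.cast_mul, Yn_cast g h hg hh, Sn_cast g h hg hh]

theorem KR_cast (h99 : (g : R) ^ 99 = (g' : R)) (hh' : (h' : R) = (g' : R) ^ 90) :
    KR (g : R) = (Kn g h g' h' : R) := by
  have hg' : (g' : R) ^ 100 = 1 := by
    rw [← h99, ← pow_mul, mul_comm, pow_mul, hg, one_pow]
  rw [KR, sum_weights, Kn, Nat.cast_list_sum, List.map_map]
  congr 1
  refine List.map_congr_left fun q _ => ?_
  simp only [Function.comp]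
  rw [Nat.cast_mul, Sn_cast g h hg hh, Sn_cast g' h' hg' hh', rho_eq, h99]

end cast

theorem two_pow_100 : ((2 : ℕ) : ZMod 101) ^ 100 = 1 := by decide +kernel

theorem two_pow_99 : ((2 : ℕ) : ZMod 101) ^ 99 = ((51 : ℕ) : ZMod 101) := by decide +kernel

theorem h51_pow_100 : ((51 : ℕ) : ZMod 101) ^ 100 = 1 := by decide +kernel

theorem hh2 : ((2 ^ 90 % 101 : ℕ) : ZMod 101) = ((2 : ℕ) : ZMod 101) ^ 90 := by decide +kernel

theorem hh51 : ((51 ^ 90 % 101 : ℕ) : ZMod 101) = ((51 : ℕ) : ZMod 101) ^ 90 := by decide +kernel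

theorem two_prim : IsPrimitiveRoot ((2 : ℕ) : ZMod 101) 100 := by
  rw [IsPrimitiveRoot.iff_orderOf]
  apply orderOf_eq_of_pow_and_pow_div_prime (by norm_num) two_pow_100
  intro p hp hd
  have h1 : p ∣ 2 ^ 2 * 5 ^ 2 := by simpa using hd
  rcases (Nat.Prime.dvd_mul hp).1 h1 with h | h
  · have := (Nat.prime_dvd_prime_iff_eq hp Nat.prime_two).1 (hp.dvd_of_dvd_pow h)
    subst this
    decide +kernel
  · have := (Nat.prime_dvd_prime_iff_eq hp Nat.prime_five).1 (hp.dvd_of_dvd_pow h)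
    subst this
    decide +kernel

theorem cast_eq_of_mod (a b : ℕ) (h : a % 101 = b) : (a : ZMod 101) = (b : ZMod 101) := by
  rw [← h, ZMod.natCast_mod]

theorem AR_two : AR ((2 : ℕ) : ZMod 101) = ((9 : ℕ) : ZMod 101) :=
  (AR_cast 2 _ two_pow_100 hh2).trans (cast_eq_of_mod _ _ An_two)

theorem AR_51 : AR ((51 : ℕ) : ZMod 101) = ((19 : ℕ) : ZMod 101) :=
  (AR_cast 51 _ h51_pow_100 hh51).trans (cast_eq_of_mod _ _ An_51)

theorem BR_two : BR ((2 : ℕ) : ZMod 101) = ((22 : ℕ) : ZMod 101) :=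
  (BR_cast 2 _ two_pow_100 hh2).trans (cast_eq_of_mod _ _ Bn_two)

theorem BR_51 : BR ((51 : ℕ) : ZMod 101) = ((22 : ℕ) : ZMod 101) :=
  (BR_cast 51 _ h51_pow_100 hh51).trans (cast_eq_of_mod _ _ Bn_51)

theorem KR_two : KR ((2 : ℕ) : ZMod 101) = ((5 : ℕ) : ZMod 101) :=
  (KR_cast 2 _ 51 _ two_pow_100 hh2 two_pow_99 hh51).trans (cast_eq_of_mod _ _ Kn_two)

theorem ne_zero_of_mod (a : ℕ) (h : (a % 101 == 0) = false) : (a : ZMod 101) ≠ 0 := by
  intro h2
  rw [ZMod.natCast_eq_zero_iff] at h2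
  have := Nat.mod_eq_zero_of_dvd h2
  rw [this] at h
  exact absurd h (by decide)

theorem GR_two : GR ((2 : ℕ) : ZMod 101) ≠ 0 := by
  rw [GR_cast 2 _ two_pow_100 hh2]
  exact ne_zero_of_mod _ Gn_two

theorem SR_two : SR ((2 : ℕ) : ZMod 101) (rho 5) (rho 5) ≠ 0 := by
  rw [rho_eq, ← Sn_cast 2 _ two_pow_100 hh2]
  exact ne_zero_of_mod _ Sn_two

theorem FR_two : FR ((2 : ℕ) : ZMod 101) ≠ 0 := by
  rw [FR, two_pow_99, AR_two, AR_51, BR_two, BR_51, KR_two]
  decide +kernel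

theorem SR_zeta_ne : SR zeta (rho 5) (rho 5) ≠ 0 := fun h =>
  SR_two (transfer (fun {R} _ g => SR g (rho 5) (rho 5)) (fun f g => map_SR f g _ _) _ two_prim h)

theorem KR_zeta_ne : KR zeta ≠ 0 := by
  intro h
  have := transfer (fun {R} _ g => KR g) (fun f g => map_KR f g) _ two_prim h
  rw [KR_two] at this
  exact absurd this (by decide +kernel)

theorem AR_zeta_ne : AR zeta ≠ 0 := by
  intro h
  have := transfer (fun {R} _ g => AR g) (fun f g => map_AR f g) _ two_prim h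
  rw [AR_two] at this
  exact absurd this (by decide +kernel)

theorem BR_zeta_ne : BR zeta ≠ 0 := by
  intro h
  have := transfer (fun {R} _ g => BR g) (fun f g => map_BR f g) _ two_prim h
  rw [BR_two] at this
  exact absurd this (by decide +kernel)

theorem GR_zeta_ne : GR zeta ≠ 0 := fun h =>
  GR_two (transfer (fun {R} _ g => GR g) (fun f g => map_GR f g) _ two_prim h)

theorem FR_zeta_ne : FR zeta ≠ 0 := fun h =>
  FR_two (transfer (fun {R} _ g => FR g) (fun f g => map_FR f g) _ two_prim h)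

end Pool.Agent.H74.WRT
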