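import Mathlib
import Pool.Agent.H74.WRTDefs

set_option autoImplicit false

namespace Pool.Agent.H74.WRT

open Finset

theorem cyc {G : Type*} [Group G] (x : G) (h1 : ∀ g, g ∈ Subgroup.zpowers x) (h5 : x ^ 5 = 1)
    (φ : G →* Multiplicative (ZMod 5)) (hφ : φ x = Multiplicative.ofAdd 1) :
    Nonempty (G ≃* Multiplicative (ZMod 5)) := by
  refine ⟨MulEquiv.ofBijective φ ⟨?_, ?_⟩⟩
  · rw [injective_iff_map_eq_one]
    intro g hg
    obtain ⟨k, rfl⟩ := Subgroup.mem_zpowers_iff.1 (h1 g)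
    rw [map_zpow, hφ, ← ofAdd_zsmul] at hg
    have h2 : (k • (1 : ZMod 5)) = 0 := hg
    rw [zsmul_one, ZMod.intCast_zmod_eq_zero_iff_dvd] at h2
    obtain ⟨m, rfl⟩ := h2
    rw [zpow_mul]
    have : x ^ ((5 : ℕ) : ℤ) = 1 := by
      rw [zpow_natCast, h5]
    rw [this, one_zpow]
  · intro m
    refine ⟨x ^ (Multiplicative.toAdd m).val, ?_⟩
    rw [map_pow, hφ, ← ofAdd_nsmul, nsmul_one, ZMod.natCast_zmod_val]
    rfl

/-- the surgery relation holds in the fundamental group -/
theorem rel1 (n : ℕ) (T : SimpleGraph (Fin n)) (h : T.IsTree) (e : Fin n → ℤ) (v : Fin n)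
    (y : FreeGroup (Fin n))
    (hy : by classical exact ((List.finRange n).map fun w => if T.Adj v w then FreeGroup.of w else 1).prod = y) :
    (PresentedGroup.of v : (Plumbing.mk n T h e).pi1) ^ (e v) * PresentedGroup.mk _ y = 1 := by
  rw [← hy]
  have : FreeGroup.of v ^ (e v) * (by classical exact ((List.finRange n).map fun w => if T.Adj v w then FreeGroup.of w else 1).prod)
      ∈ (Plumbing.mk n T h e).relators := by
    left
    exact ⟨v, rfl⟩
  have h2 := PresentedGroup.one_of_mem this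
  rw [map_mul, map_zpow] at h2
  exact h2

theorem hom_rel {n : ℕ} (T : SimpleGraph (Fin n)) (h : T.IsTree) (e : Fin n → ℤ)
    (f : Fin n → Multiplicative (ZMod 5))
    (hf : ∀ v, f v ^ e v * (by classical exact ((List.finRange n).map fun w => if T.Adj v w then f w else 1).prod) = 1) :
    ∀ r ∈ (Plumbing.mk n T h e).relators, FreeGroup.lift f r = 1 := by
  rintro r (⟨v, rfl⟩ | ⟨v, w, h, rfl⟩)
  · dsimp only
    rw [map_mul, map_zpow, map_list_prod, List.map_map, FreeGroup.lift_apply_of, ← hf v]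
    congr 2
    refine List.map_congr_left fun w _ => ?_
    simp only [Function.comp, apply_ite (FreeGroup.lift f), FreeGroup.lift_apply_of, map_one]
  · dsimp only
    rw [map_mul, map_mul, map_mul, map_inv, map_inv, mul_comm (FreeGroup.lift f (FreeGroup.of v))]
    group

theorem pi1_one (h : (⊤ : SimpleGraph (Fin 1)).IsTree) :
    Nonempty ((Plumbing.mk 1 ⊤ h (fun _ => 5)).pi1 ≃* Multiplicative (ZMod 5)) := by
  refine cyc (PresentedGroup.of (0 : Fin 1)) ?_ ?_ (PresentedGroup.toGroup (hom_rel ⊤ h (fun _ => 5)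
    (fun _ : Fin 1 => Multiplicative.ofAdd (1 : ZMod 5)) ?_)) ?_
  · intro g
    have hg : g ∈ Subgroup.closure (Set.range (PresentedGroup.of
        (rels := (Plumbing.mk 1 ⊤ h (fun _ => 5)).relators))) := by
      rw [PresentedGroup.closure_range_of]
      trivial
    refine (Subgroup.closure_le (K := Subgroup.zpowers _)).2 ?_ hg
    rintro _ ⟨i, rfl⟩
    rw [Subsingleton.elim (α := Fin 1) i 0]
    exact Subgroup.mem_zpowers _
  · have := rel1 1 ⊤ h (fun _ => 5) 0 1 (by simp [List.finRange_succ])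
    rw [map_one, mul_one] at this
    exact_mod_cast this
  · intro v
    have hv : v = (0 : Fin 1) := Subsingleton.elim (α := Fin 1) _ _
    subst hv
    simp [List.finRange_succ]
    decide
  · exact PresentedGroup.toGroup.of _

theorem pi1_two (h : (⊤ : SimpleGraph (Fin 2)).IsTree) :
    Nonempty ((Plumbing.mk 2 ⊤ h ![3, 2]).pi1 ≃* Multiplicative (ZMod 5)) := by
  have r0 := rel1 2 ⊤ h ![3, 2] 0 (FreeGroup.of 1) (by simp [List.finRange_succ])
  have r1 := rel1 2 ⊤ h ![3, 2] 1 (FreeGroup.of 0) (by simp [List.finRange_succ])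
  have r0' : (PresentedGroup.of (0 : Fin 2) : (Plumbing.mk 2 ⊤ h ![3, 2]).pi1) ^ (3 : ℤ) *
    PresentedGroup.of (1 : Fin 2) = 1 := r0
  have r1' : (PresentedGroup.of (1 : Fin 2) : (Plumbing.mk 2 ⊤ h ![3, 2]).pi1) ^ (2 : ℤ) *
    PresentedGroup.of (0 : Fin 2) = 1 := r1
  have hy : (PresentedGroup.of (1 : Fin 2) : (Plumbing.mk 2 ⊤ h ![3, 2]).pi1) =
      PresentedGroup.of (0 : Fin 2) ^ (-3 : ℤ) := by
    rw [zpow_neg]
    exact (inv_eq_of_mul_eq_one_right r0').symm
  refine cyc (PresentedGroup.of (0 : Fin 2)) ?_ ?_ (PresentedGroup.toGroup (hom_rel ⊤ h ![3, 2]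
    (![Multiplicative.ofAdd (1 : ZMod 5), Multiplicative.ofAdd 2]) ?_)) ?_
  · intro g
    have hg : g ∈ Subgroup.closure (Set.range (PresentedGroup.of
        (rels := (Plumbing.mk 2 ⊤ h ![3, 2]).relators))) := by
      rw [PresentedGroup.closure_range_of]
      trivial
    refine (Subgroup.closure_le (K := Subgroup.zpowers _)).2 ?_ hg
    rintro _ ⟨i, rfl⟩
    fin_cases i
    · exact Subgroup.mem_zpowers _
    · exact Subgroup.mem_zpowers_iff.2 ⟨-3, hy.symm⟩
  · rw [hy, ← zpow_mul, ← zpow_add_one] at r1'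
    have h5 : (PresentedGroup.of (0 : Fin 2) : (Plumbing.mk 2 ⊤ h ![3, 2]).pi1) ^ (-5 : ℤ) = 1 := r1'
    rw [zpow_neg, inv_eq_one] at h5
    exact_mod_cast h5
  · intro v
    fin_cases v
    · simp [List.finRange_succ]
      decide
    · simp [List.finRange_succ]
      decide
  · exact PresentedGroup.toGroup.of _

end Pool.Agent.H74.WRT
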